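import Mathlib

set_option autoImplicit false

/-!
# Continuity of the volume of a moving compact image
-/

namespace Run7.h800

open Filter Topology MeasureTheory Metric Set

variable {P : Type*} [TopologicalSpace P]
variable {E : Type*} [NormedAddCommGroup E] [NormedSpace ℝ E] [FiniteDimensional ℝ E]
  [MeasurableSpace E] [BorelSpace E] (μ : Measure E) [μ.IsAddHaarMeasure]

omit [MeasurableSpace E] [BorelSpace E] in
/-- stable surjectivity near a regular point -/
lemma stable_surj {G : P → E → E} {G' : P → E → (E →L[ℝ] E)}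
    (hG : Continuous (fun z : P × E => G z.1 z.2)) (hG' : Continuous (fun z : P × E => G' z.1 z.2))
    (hd : ∀ p x, HasFDerivAt (G p) (G' p x) x) {K : Set E} {p0 : P} {x0 : E} (hx0 : x0 ∈ interior K)
    (hdet : (G' p0 x0).det ≠ 0) : ∀ᶠ z : P × E in 𝓝 (p0, G p0 x0), z.2 ∈ G z.1 '' K := by
  obtain ⟨L, hL⟩ : ∃ L : E ≃L[ℝ] E, (L : E →L[ℝ] E) = G' p0 x0 :=
    ⟨ContinuousLinearMap.toContinuousLinearEquivOfDetNeZero (G' p0 x0) hdet,
      ContinuousLinearMap.coe_toContinuousLinearEquivOfDetNeZero _ _⟩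
  rcases subsingleton_or_nontrivial E with hsub | hnt
  · refine Eventually.of_forall (fun z => ⟨x0, interior_subset hx0, Subsingleton.elim _ _⟩)
  obtain ⟨N, hN⟩ : ∃ N : NNReal, N = ‖(L.symm : E →L[ℝ] E)‖₊ := ⟨_, rfl⟩
  have hNpos : 0 < N := by rw [hN]; exact L.nnnorm_symm_pos
  obtain ⟨c, hc⟩ : ∃ c : NNReal, c = N⁻¹ / 2 := ⟨_, rfl⟩
  have hcpos : 0 < c := by rw [hc]; positivity
  have hcN : (c : ℝ) = (N : ℝ)⁻¹ / 2 := by rw [hc]; simp
  -- neighbourhoods
  have h1 : ∀ᶠ z : P × E in 𝓝 (p0, x0), ‖G' z.1 z.2 - G' p0 x0‖ < c := by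
    have : Continuous (fun z : P × E => ‖G' z.1 z.2 - G' p0 x0‖) := (hG'.sub continuous_const).norm
    refine this.continuousAt.eventually_lt continuousAt_const ?_
    simpa using hcpos
  have h2 : ∀ᶠ z : P × E in 𝓝 (p0, x0), z.2 ∈ interior K :=
    continuous_snd.continuousAt.eventually (isOpen_interior.mem_nhds hx0)
  have h3 := h1.and h2
  rw [nhds_prod_eq, Filter.eventually_prod_iff] at h3
  obtain ⟨pa, hpa, pb, hpb, hab⟩ := h3
  obtain ⟨δ, hδ, hball⟩ := Metric.eventually_nhds_iff_ball.mp hpb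
  -- the map is approximately linear
  have happ : ∀ p, pa p → ApproximatesLinearOn (G p) (L : E →L[ℝ] E) (closedBall x0 (δ / 2)) c := by
    intro p hp x hx y hy
    have hin : ∀ z ∈ closedBall x0 (δ / 2), pb z := fun z hz =>
      hball z (closedBall_subset_ball (by linarith) hz)
    have := (convex_closedBall x0 (δ / 2)).norm_image_sub_le_of_norm_hasFDerivWithin_le'
      (f := G p) (f' := G' p) (φ := G' p0 x0) (C := c)
      (fun z _ => (hd p z).hasFDerivWithinAt) (fun z hz => ((hab hp (hin z hz)).1).le) hy hx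
    rw [hL]
    exact this
  have hsurj : ∀ p, pa p → SurjOn (G p) (closedBall x0 (δ / 2))
      (closedBall (G p x0) ((c : ℝ) * (δ / 2))) := by
    intro p hp
    have := (happ p hp).surjOn_closedBall_of_nonlinearRightInverse L.toNonlinearRightInverse
      (by linarith : 0 ≤ δ / 2) Subset.rfl
    have e : ((L.toNonlinearRightInverse.nnnorm : ℝ)⁻¹ - c) * (δ / 2) = (c : ℝ) * (δ / 2) := by
      have : (L.toNonlinearRightInverse.nnnorm : ℝ) = N := by rw [hN]; rfl
      rw [this, hcN]; ring
    rwa [e] at this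
  have hK : ∀ p, pa p → closedBall x0 (δ / 2) ⊆ K := by
    intro p hp z hz
    exact interior_subset (hab hp (hball z (closedBall_subset_ball (by linarith) hz))).2
  -- conclusion
  have h4 : ∀ᶠ z : P × E in 𝓝 (p0, G p0 x0), pa z.1 := by
    rw [nhds_prod_eq]
    exact (tendsto_fst.eventually hpa)
  have h5 : ∀ᶠ z : P × E in 𝓝 (p0, G p0 x0), dist z.2 (G z.1 x0) < (c : ℝ) * (δ / 2) := by
    have hcont : Continuous (fun z : P × E => dist z.2 (G z.1 x0)) :=
      continuous_snd.dist (hG.comp (continuous_fst.prodMk continuous_const))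
    refine hcont.continuousAt.eventually_lt continuousAt_const ?_
    simp only [dist_self]
    positivity
  filter_upwards [h4, h5] with z hz4 hz5
  obtain ⟨x, hx, hxe⟩ := hsurj z.1 hz4 (mem_closedBall.mpr hz5.le)
  exact ⟨x, hK z.1 hz4 hx, hxe⟩

/-- The volume of the image of a compact set with negligible boundary is continuous. -/
theorem vol_image_cont {G : P → E → E} {G' : P → E → (E →L[ℝ] E)}
    (hG : Continuous (fun z : P × E => G z.1 z.2)) (hG' : Continuous (fun z : P × E => G' z.1 z.2))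
    (hd : ∀ p x, HasFDerivAt (G p) (G' p x) x) {K : Set E} (hK : IsCompact K)
    (hfr : μ (frontier K) = 0) : Continuous (fun p => μ (G p '' K)) := by
  rw [continuous_iff_continuousAt]
  intro p0
  have hGp : ∀ p, Continuous (G p) := fun p => hG.comp (continuous_const.prodMk continuous_id)
  rw [ContinuousAt, tendsto_order]
  constructor
  · intro a ha
    obtain ⟨O, hO⟩ : ∃ O : Set E, O = {q | ∀ᶠ z : P × E in 𝓝 (p0, q), z.2 ∈ G z.1 '' K} := ⟨_, rfl⟩
    have hOo : IsOpen O := by
      rw [isOpen_iff_mem_nhds]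
      intro q hq
      rw [hO] at hq
      have h1 := eventually_eventually_nhds.mpr hq
      have h2 : Continuous (fun y : E => ((p0, y) : P × E)) := continuous_const.prodMk continuous_id
      have h3 := (h2.tendsto q).eventually h1
      rw [hO]
      exact h3
    have hcov : G p0 '' K ⊆ O ∪ (G p0 '' (frontier K) ∪ G p0 '' {x | (G' p0 x).det = 0}) := by
      rintro _ ⟨x, hx, rfl⟩
      by_cases h1 : x ∈ interior K
      · by_cases h2 : (G' p0 x).det = 0
        · exact Or.inr (Or.inr ⟨x, h2, rfl⟩)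
        · left
          rw [hO]
          exact stable_surj hG hG' hd h1 h2
      · refine Or.inr (Or.inl ⟨x, ?_, rfl⟩)
        rw [hK.isClosed.frontier_eq]
        exact ⟨hx, h1⟩
    have hz1 : μ (G p0 '' (frontier K)) = 0 :=
      addHaar_image_eq_zero_of_differentiableOn_of_addHaar_eq_zero μ
        (fun x _ => (hd p0 x).differentiableAt.differentiableWithinAt) hfr
    have hz2 : μ (G p0 '' {x | (G' p0 x).det = 0}) = 0 :=
      addHaar_image_eq_zero_of_det_fderivWithin_eq_zero μ (fun x _ => (hd p0 x).hasFDerivWithinAt)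
        (fun x hx => hx)
    have h1 : μ (G p0 '' K) ≤ μ O := by
      refine (measure_mono hcov).trans ((measure_union_le _ _).trans ?_)
      have : μ (G p0 '' (frontier K) ∪ G p0 '' {x | (G' p0 x).det = 0}) = 0 :=
        measure_union_null hz1 hz2
      rw [this, add_zero]
    obtain ⟨Q, hQO, hQc, hQa⟩ := hOo.exists_lt_isCompact (μ := μ) (ha.trans_le h1)
    have h2 : ∀ᶠ p in 𝓝 p0, ∀ q ∈ Q, q ∈ G p '' K :=
      hQc.eventually_forall_of_forall_eventually (P := fun p q => q ∈ G p '' K) (fun q hq => by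
        have := hQO hq
        rw [hO] at this
        exact this)
    filter_upwards [h2] with p hp
    exact hQa.trans_le (measure_mono hp)
  · intro a ha
    obtain ⟨V, hV1, hV2, hV3⟩ := Set.exists_isOpen_lt_of_lt _ a ha
    have h1 : ∀ᶠ p in 𝓝 p0, ∀ x ∈ K, G p x ∈ V := by
      refine hK.eventually_forall_of_forall_eventually (P := fun p x => G p x ∈ V) (fun x hx => ?_)
      exact hG.continuousAt.eventually (hV2.mem_nhds (hV1 ⟨x, hx, rfl⟩))
    filter_upwards [h1] with p hp
    refine (measure_mono ?_).trans_lt hV3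
    rintro _ ⟨x, hx, rfl⟩
    exact hp x hx

end Run7.h800
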