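import Pool.Agent.Run7.h800.Pser

set_option autoImplicit false

/-!
# The binomial series with exponent -3/2
-/

namespace Run7.h800

open Filter Topology

/-- coefficients of the second remainder of `(1+t)^(-3/2)` -/
noncomputable def aT (n : ℕ) : ℝ := Ring.choose (-3 / 2 : ℝ) (n + 2)

/-- coefficients of `1/(1+t)` -/
def aI (n : ℕ) : ℝ := (-1) ^ n

lemma choose_rec (r : ℝ) (n : ℕ) :
    ((n : ℝ) + 1) * Ring.choose r (n + 1) = Ring.choose r n * (r - n) := by
  have h1 := Ring.descPochhammer_eq_factorial_smul_choose r (n + 1)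
  have h2 := Ring.descPochhammer_eq_factorial_smul_choose r n
  have h3 : (descPochhammer ℤ (n + 1)).smeval r = (descPochhammer ℤ n).smeval r * (r - n) := by
    simp [descPochhammer_succ_right, Polynomial.smeval_mul, Polynomial.smeval_natCast]
  rw [h3, h2, nsmul_eq_mul, nsmul_eq_mul, Nat.factorial_succ] at h1
  push_cast at h1
  have hf : (n.factorial : ℝ) ≠ 0 := by positivity
  have h4 : (n.factorial : ℝ) * (Ring.choose r n * (r - n))
      = (n.factorial : ℝ) * (((n : ℝ) + 1) * Ring.choose r (n + 1)) := by linarith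
  exact (mul_left_cancel₀ hf h4).symm

lemma choose_bound (n : ℕ) : |Ring.choose (-3 / 2 : ℝ) n| ≤ (n : ℝ) + 1 := by
  induction n with
  | zero => simp
  | succ n ih =>
    have h1 := choose_rec (-3 / 2) n
    have h2 : |((n : ℝ) + 1)| * |Ring.choose (-3 / 2 : ℝ) (n + 1)|
        = |Ring.choose (-3 / 2 : ℝ) n| * |(-3 / 2 : ℝ) - n| := by
      rw [← abs_mul, ← abs_mul, h1]
    have hn : (0 : ℝ) ≤ n := by positivity
    rw [abs_of_nonneg (by positivity : (0 : ℝ) ≤ (n : ℝ) + 1), abs_of_nonpos (by linarith :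
      (-3 / 2 : ℝ) - n ≤ 0)] at h2
    push_cast
    have h3 : ((n : ℝ) + 1) * |Ring.choose (-3 / 2 : ℝ) (n + 1)| ≤ ((n : ℝ) + 1) * ((n : ℝ) + 1 + 1) := by
      rw [h2]
      apply mul_le_mul ih (by linarith) (by linarith) (by linarith)
    exact le_of_mul_le_mul_left h3 (by linarith)

lemma adm_aT : Adm aT := by
  intro n
  unfold aT
  refine (choose_bound (n + 2)).trans ?_
  push_cast
  have hn : (0 : ℝ) ≤ n := by positivity
  linarith

lemma adm_aI : Adm aI := by
  intro n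
  unfold aI
  rw [abs_pow, abs_neg, abs_one, one_pow]
  have hn : (0 : ℝ) ≤ n := by positivity
  linarith

lemma PS_aT {t : ℝ} (ht : |t| ≤ 1 / 4) :
    (1 + t) ^ (-3 / 2 : ℝ) = 1 - 3 / 2 * t + t ^ 2 * PS aT t := by
  have h1 := Real.one_add_rpow_hasFPowerSeriesOnBall_zero (a := (-3 / 2 : ℝ))
  have ht' : ‖t‖ < 1 := by rw [Real.norm_eq_abs]; linarith
  have h2 := h1.hasSum (y := t) (by
    rw [Metric.mem_eball, edist_zero_right]
    have : ‖t‖ₑ < ENNReal.ofReal 1 := by
      rw [← ofReal_norm_eq_enorm]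
      exact (ENNReal.ofReal_lt_ofReal_iff one_pos).mpr ht'
    simpa using this)
  simp only [binomialSeries, FormalMultilinearSeries.ofScalars_apply_eq, zero_add, smul_eq_mul] at h2
  have h3 := h2.summable
  have h4 := h3.sum_add_tsum_nat_add 2
  rw [h2.tsum_eq] at h4
  rw [← h4]
  have e0 : Ring.choose (-3 / 2 : ℝ) 1 = -3 / 2 := Ring.choose_one_right _
  have e1 : ∑ i ∈ Finset.range 2, Ring.choose (-3 / 2 : ℝ) i * t ^ i = 1 - 3 / 2 * t := by
    rw [Finset.sum_range_succ, Finset.sum_range_one, e0]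
    simp
    ring
  have e2 : ∑' i : ℕ, Ring.choose (-3 / 2 : ℝ) (i + 2) * t ^ (i + 2) = t ^ 2 * PS aT t := by
    unfold PS aT
    rw [← tsum_mul_left]
    congr 1
    funext i
    ring
  rw [e1, e2]

lemma PS_aI {t : ℝ} (ht : |t| ≤ 1 / 4) : PS aI t * (1 + t) = 1 := by
  unfold PS aI
  have h1 : ∑' n : ℕ, (-1 : ℝ) ^ n * t ^ n = ∑' n : ℕ, (-t) ^ n := by
    congr 1
    funext n
    rw [← mul_pow]; ring
  rw [h1, tsum_geometric_of_norm_lt_one (by rw [norm_neg, Real.norm_eq_abs]; linarith)]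
  have h2 : 1 - -t ≠ 0 := by
    have := (abs_le.mp ht).1
    linarith
  have h3 : 1 - -t = 1 + t := by ring
  rw [h3] at h2 ⊢
  exact inv_mul_cancel₀ h2

end Run7.h800
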