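import Pool.Agent.Run7.h800.WieR

set_option autoImplicit false
set_option linter.unusedSectionVars false

/-!
# Joint continuity and periodicity
-/

namespace Run7.h800

open Filter Topology

variable {P : Type*} [TopologicalSpace P] [CompactSpace P]

lemma ch_cont (k : ℤ × ℤ) : Continuous (ch k) := by
  unfold ch
  fun_prop

lemma BC.cont {r M : ℝ} {a : ℤ × ℤ → C(P, ℂ)} {f : P → ℝ × ℝ → ℂ} (h : BC r M a f) (hr : 1 ≤ r) :
    Continuous (fun z : P × (ℝ × ℝ) => f z.1 z.2) := by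
  have e : (fun z : P × (ℝ × ℝ) => f z.1 z.2) = fun z => ∑' k : ℤ × ℤ, a k z.1 * ch k z.2 := by
    funext z
    exact (h.rep z.1 z.2).tsum_eq.symm
  rw [e]
  refine continuous_tsum (fun k => ?_) (summable_of_norm_weight hr h.sum)
    (fun k z => norm_coef_ch_le (a k) k z.1 z.2)
  exact ((a k).continuous.comp continuous_fst).mul ((ch_cont k).comp continuous_snd)

lemma B.cont {r M : ℝ} {f : P → ℝ × ℝ → ℝ} (h : B r M f) (hr : 1 ≤ r) :
    Continuous (fun z : P × (ℝ × ℝ) => f z.1 z.2) := by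
  obtain ⟨a, ha⟩ := h
  have := Complex.continuous_re.comp (ha.cont hr)
  exact this

/-- the derivative of a regular function is jointly continuous -/
lemma B.fd {r M : ℝ} {f : P → ℝ × ℝ → ℝ} (h : B r M f) (hr : 1 < r) :
    Continuous (fun z : P × (ℝ × ℝ) => fderiv ℝ (f z.1) z.2) := by
  have hr0 : 0 < r := by linarith
  obtain ⟨s, hs⟩ : ∃ s : ℝ, s = (1 + 1 / r) / 2 := ⟨_, rfl⟩
  have hx1 : 1 / r < 1 := by rw [div_lt_one hr0]; exact hr
  have hx0 : 0 < 1 / r := by positivity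
  have hs0 : 0 < s := by rw [hs]; linarith
  have hs1 : s < 1 := by rw [hs]; linarith
  have hrs : 1 < r * s := by
    have : r * s = (r + 1) / 2 := by rw [hs]; field_simp
    rw [this]; linarith
  have c1 := (h.pd hs0 hs1 hrs.le (1, 0)).cont hrs.le
  have c2 := (h.pd hs0 hs1 hrs.le (0, 1)).cont hrs.le
  have e : (fun z : P × (ℝ × ℝ) => fderiv ℝ (f z.1) z.2) = fun z =>
      Run7.h800.pd (1, 0) f z.1 z.2 • ContinuousLinearMap.fst ℝ ℝ ℝ
        + Run7.h800.pd (0, 1) f z.1 z.2 • ContinuousLinearMap.snd ℝ ℝ ℝ := by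
    funext z
    ext
    · simp [Run7.h800.pd]
    · simp [Run7.h800.pd]
  rw [e]
  exact (c1.smul continuous_const).add (c2.smul continuous_const)

lemma ch_per (k j : ℤ × ℤ) (x : ℝ × ℝ) :
    ch k (x + (2 * Real.pi * j.1, 2 * Real.pi * j.2)) = ch k x := by
  rw [ch_add]
  have : ch k (2 * Real.pi * j.1, 2 * Real.pi * j.2) = 1 := by
    unfold ch
    rw [Complex.exp_eq_one_iff]
    refine ⟨k.1 * j.1 + k.2 * j.2, ?_⟩
    push_cast
    ring
  rw [this, mul_one]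

lemma B.per {r M : ℝ} {f : P → ℝ × ℝ → ℝ} (h : B r M f) (p : P) (x : ℝ × ℝ) (j : ℤ × ℤ) :
    f p (x + (2 * Real.pi * j.1, 2 * Real.pi * j.2)) = f p x := by
  obtain ⟨a, ha⟩ := h
  have h1 := ha.rep p (x + (2 * Real.pi * j.1, 2 * Real.pi * j.2))
  simp only [ch_per] at h1
  have h2 := h1.unique (ha.rep p x)
  exact_mod_cast h2

/-- reduction to the fundamental domain -/
lemma B.red {r M : ℝ} {f : P → ℝ × ℝ → ℝ} (h : B r M f) (p : P) (x : ℝ × ℝ) :
    f p (x + (2 * Real.pi * (-⌊x.1 / (2 * Real.pi)⌋ : ℤ), 2 * Real.pi * (-⌊x.2 / (2 * Real.pi)⌋ : ℤ)))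
      = f p x := h.per p x (-⌊x.1 / (2 * Real.pi)⌋, -⌊x.2 / (2 * Real.pi)⌋)

lemma red_mem (x : ℝ) : x + 2 * Real.pi * (-⌊x / (2 * Real.pi)⌋ : ℤ) ∈ Set.Icc 0 (2 * Real.pi) := by
  have hpi := Real.pi_pos
  have h1 := Int.floor_le (x / (2 * Real.pi))
  have h2 := (Int.lt_floor_add_one (x / (2 * Real.pi))).le
  rw [le_div_iff₀ (by positivity)] at h1
  rw [div_le_iff₀ (by positivity)] at h2
  push_cast
  constructor <;> nlinarith

end Run7.h800
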