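import Pool.Agent.Run7.h800.Area
import Pool.Agent.Run7.h800.Cont

set_option autoImplicit false
set_option linter.unusedSectionVars false

/-!
# Areas on the shape sphere
-/

namespace Run7.h800

open Filter Topology MeasureTheory Metric Set
open scoped Pointwise

/-- euclidean three space -/
abbrev E3 := EuclideanSpace ℝ (Fin 3)

/-- the surface measure of the sphere of radius one half -/
noncomputable def area (s : Set E3) : ENNReal :=
  (1 / 4) * (volume : Measure E3).toSphere {y | (1 / 2 : ℝ) • (y : E3) ∈ s}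

/-- point of the sphere of radius one half in a stereographic coordinate -/
noncomputable def Sph (c a b : ℝ) : E3 :=
  (1 + c ^ 2 * (a ^ 2 + b ^ 2))⁻¹ • !₂[(1 - c ^ 2 * (a ^ 2 + b ^ 2)) / 2, c * a, -(c * b)]

lemma Sph_norm (c a b : ℝ) : ‖Sph c a b‖ = 1 / 2 := by
  unfold Sph
  have h0 : 0 < 1 + c ^ 2 * (a ^ 2 + b ^ 2) := by positivity
  rw [norm_smul, norm_inv, Real.norm_eq_abs, abs_of_pos h0, EuclideanSpace.norm_eq]
  simp only [Fin.sum_univ_three, Real.norm_eq_abs, sq_abs]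
  have e : (!₂[(1 - c ^ 2 * (a ^ 2 + b ^ 2)) / 2, c * a, -(c * b)] : E3) 0 ^ 2
      + (!₂[(1 - c ^ 2 * (a ^ 2 + b ^ 2)) / 2, c * a, -(c * b)] : E3) 1 ^ 2
      + (!₂[(1 - c ^ 2 * (a ^ 2 + b ^ 2)) / 2, c * a, -(c * b)] : E3) 2 ^ 2
      = ((1 + c ^ 2 * (a ^ 2 + b ^ 2)) / 2) ^ 2 := by
    simp
    ring
  rw [e, Real.sqrt_sq (by positivity)]
  field_simp

lemma Sph_contDiff (c : ℝ) : ContDiff ℝ 1 (fun z : ℝ × ℝ => Sph c z.1 z.2) := by
  unfold Sph
  have h0 : ContDiff ℝ 1 (fun z : ℝ × ℝ => 1 + c ^ 2 * (z.1 ^ 2 + z.2 ^ 2)) := by fun_prop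
  refine ContDiff.smul (h0.inv (fun z => ?_)) ?_
  · positivity
  · rw [contDiff_euclidean]
    intro i
    fin_cases i
    · simp; fun_prop
    · simp; fun_prop
    · simp; fun_prop

/-- the cone map -/
noncomputable def Ps (c : ℝ) (z : ℝ × ℝ × ℝ) : E3 := (z.2.2 * 2) • Sph c z.1 z.2.1

lemma Ps_contDiff (c : ℝ) : ContDiff ℝ 1 (Ps c) := by
  unfold Ps
  have h0 : ContDiff ℝ 1 (fun z : ℝ × ℝ × ℝ => z.2.2 * 2) := by fun_prop
  refine h0.smul ?_
  exact (Sph_contDiff c).comp (f := fun z : ℝ × ℝ × ℝ => (z.1, z.2.1)) (by fun_prop)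

/-- the box -/
def Kb : Set E3 := {v | v 0 ∈ Icc 0 (2 * Real.pi) ∧ v 1 ∈ Icc 0 (2 * Real.pi) ∧ v 2 ∈ Icc 0 1}

lemma Kb_convex : Convex ℝ Kb := by
  intro x hx y hy a b ha hb hab
  obtain ⟨h1, h2, h3⟩ := hx
  obtain ⟨g1, g2, g3⟩ := hy
  refine ⟨?_, ?_, ?_⟩
  · exact (convex_Icc 0 (2 * Real.pi)) h1 g1 ha hb hab
  · exact (convex_Icc 0 (2 * Real.pi)) h2 g2 ha hb hab
  · exact (convex_Icc (0 : ℝ) 1) h3 g3 ha hb hab

lemma Kb_compact : IsCompact Kb := by
  have h1 : IsCompact (Set.pi Set.univ (fun i : Fin 3 =>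
      (![Icc 0 (2 * Real.pi), Icc 0 (2 * Real.pi), Icc (0 : ℝ) 1] : Fin 3 → Set ℝ) i)) := by
    refine isCompact_univ_pi (fun i => ?_)
    fin_cases i
    · exact isCompact_Icc
    · exact isCompact_Icc
    · exact isCompact_Icc
  have h2 := h1.image (PiLp.continuousLinearEquiv 2 ℝ (fun _ : Fin 3 => ℝ)).symm.continuous
  convert h2 using 1
  ext v
  simp only [Kb, mem_setOf_eq, mem_image, Set.mem_pi, Set.mem_univ, true_implies]
  constructor
  · rintro ⟨h1, h2, h3⟩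
    refine ⟨fun i => v i, fun i => ?_, ?_⟩
    · fin_cases i
      · exact h1
      · exact h2
      · exact h3
    · ext i; rfl
  · rintro ⟨w, hw, rfl⟩
    exact ⟨hw 0, hw 1, hw 2⟩

section fam

variable {P : Type*} [TopologicalSpace P] [CompactSpace P]

/-- coordinate projection -/
noncomputable def pj (i : Fin 3) : E3 →L[ℝ] ℝ := EuclideanSpace.proj i

lemma pj_apply (i : Fin 3) (v : E3) : pj i v = v i := rfl

/-- the projection to the angles -/
noncomputable def pr : E3 →L[ℝ] ℝ × ℝ := (pj 0).prod (pj 1)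

lemma pr_apply (v : E3) : pr v = (v 0, v 1) := rfl

/-- inner map -/
noncomputable def Hm (f g : P → ℝ × ℝ → ℝ) (p : P) (v : E3) : ℝ × ℝ × ℝ := (f p (pr v), g p (pr v), v 2)

/-- cone over the torus -/
noncomputable def Gm (c : ℝ) (f g : P → ℝ × ℝ → ℝ) (p : P) (v : E3) : E3 := Ps c (Hm f g p v)

lemma Gm_cont {r M : ℝ} {f g : P → ℝ × ℝ → ℝ} (hr : 1 < r) (hf : B r M f) (hg : B r M g) (c : ℝ) :
    Continuous (fun z : P × E3 => Gm c f g z.1 z.2) := by
  refine (Ps_contDiff c).continuous.comp ?_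
  have h1 : Continuous (fun z : P × E3 => (z.1, pr z.2)) :=
    continuous_fst.prodMk (pr.continuous.comp continuous_snd)
  refine ((hf.cont hr.le).comp h1).prodMk (((hg.cont hr.le).comp h1).prodMk ?_)
  exact (pj 2).continuous.comp continuous_snd

/-- the derivative of the inner map -/
noncomputable def Hd (f g : P → ℝ × ℝ → ℝ) (p : P) (v : E3) : E3 →L[ℝ] ℝ × ℝ × ℝ :=
  ((fderiv ℝ (f p) (pr v)).comp pr).prod (((fderiv ℝ (g p) (pr v)).comp pr).prod
    (pj 2))

lemma prod_cont {X : Type*} [TopologicalSpace X] {A B C : Type*} [NormedAddCommGroup A]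
    [NormedSpace ℝ A] [NormedAddCommGroup B] [NormedSpace ℝ B] [NormedAddCommGroup C]
    [NormedSpace ℝ C] {f : X → A →L[ℝ] B} {g : X → A →L[ℝ] C} (hf : Continuous f)
    (hg : Continuous g) : Continuous (fun x => (f x).prod (g x)) :=
  (ContinuousLinearMap.prodₗᵢ ℝ (E := A) (F := B) (G := C)).continuous.comp (hf.prodMk hg)

lemma Hd_cont {r M : ℝ} {f g : P → ℝ × ℝ → ℝ} (hr : 1 < r) (hf : B r M f) (hg : B r M g) :
    Continuous (fun z : P × E3 => Hd f g z.1 z.2) := by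
  have h1 : Continuous (fun z : P × E3 => (z.1, pr z.2)) :=
    continuous_fst.prodMk (pr.continuous.comp continuous_snd)
  refine prod_cont (((hf.fd hr).comp h1).clm_comp continuous_const)
    (prod_cont (((hg.fd hr).comp h1).clm_comp continuous_const) continuous_const)

lemma Hm_deriv {r M : ℝ} {f g : P → ℝ × ℝ → ℝ} (hr : 1 < r) (hf : B r M f) (hg : B r M g) (p : P)
    (v : E3) : HasFDerivAt (Hm f g p) (Hd f g p v) v := by
  have h1 : HasFDerivAt (fun v : E3 => f p (pr v)) ((fderiv ℝ (f p) (pr v)).comp pr) v :=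
    (hf.diff hr p (pr v)).hasFDerivAt.comp v pr.hasFDerivAt
  have h2 : HasFDerivAt (fun v : E3 => g p (pr v)) ((fderiv ℝ (g p) (pr v)).comp pr) v :=
    (hg.diff hr p (pr v)).hasFDerivAt.comp v pr.hasFDerivAt
  exact h1.prodMk (h2.prodMk
    (pj 2).hasFDerivAt)

/-- volume of the cone is continuous -/
lemma cone_cont {r M : ℝ} {f g : P → ℝ × ℝ → ℝ} (hr : 1 < r) (hf : B r M f) (hg : B r M g) (c : ℝ) :
    Continuous (fun p => (volume : Measure E3) (Gm c f g p '' Kb)) := by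
  refine vol_image_cont (G' := fun p v => (fderiv ℝ (Ps c) (Hm f g p v)).comp (Hd f g p v)) volume
    (Gm_cont hr hf hg c) ?_ (fun p v => ?_) Kb_compact (Kb_convex.addHaar_frontier volume)
  · have h1 : Continuous (fun z : P × E3 => (z.1, pr z.2)) :=
      continuous_fst.prodMk (pr.continuous.comp continuous_snd)
    have h2 : Continuous (fun z : P × E3 => Hm f g z.1 z.2) :=
      ((hf.cont hr.le).comp h1).prodMk (((hg.cont hr.le).comp h1).prodMk
        ((pj 2).continuous.comp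
          continuous_snd))
    exact (((Ps_contDiff c).continuous_fderiv (by norm_num)).comp h2).clm_comp (Hd_cont hr hf hg)
  · exact (((Ps_contDiff c).differentiable (by norm_num)) _).hasFDerivAt.comp v
      (Hm_deriv hr hf hg p v)

lemma Sph_cont (c : ℝ) : Continuous (fun z : ℝ × ℝ => Sph c z.1 z.2) := (Sph_contDiff c).continuous

/-- the image of the torus in the shape sphere -/
noncomputable def Ts (c : ℝ) (f g : P → ℝ × ℝ → ℝ) (p : P) : Set E3 :=
  range (fun x => Sph c (f p x) (g p x))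

lemma Ts_eq {r M : ℝ} {f g : P → ℝ × ℝ → ℝ} (hf : B r M f) (hg : B r M g) (c : ℝ) (p : P) :
    Ts c f g p = (fun x => Sph c (f p x) (g p x)) '' (Icc 0 (2 * Real.pi) ×ˢ Icc 0 (2 * Real.pi)) := by
  apply Subset.antisymm
  · rintro _ ⟨x, rfl⟩
    refine ⟨x + (2 * Real.pi * (-⌊x.1 / (2 * Real.pi)⌋ : ℤ), 2 * Real.pi * (-⌊x.2 / (2 * Real.pi)⌋ : ℤ)),
      ⟨red_mem x.1, red_mem x.2⟩, ?_⟩
    change Sph c (f p _) (g p _) = Sph c (f p x) (g p x)
    rw [hf.red, hg.red]
  · rintro _ ⟨x, -, rfl⟩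
    exact ⟨x, rfl⟩

lemma slice_cont {r M : ℝ} {f : P → ℝ × ℝ → ℝ} (hr : 1 ≤ r) (hf : B r M f) (p : P) :
    Continuous (f p) := (hf.cont hr).comp (continuous_const.prodMk continuous_id)

lemma Ts_compact {r M : ℝ} {f g : P → ℝ × ℝ → ℝ} (hr : 1 ≤ r) (hf : B r M f) (hg : B r M g)
    (c : ℝ) (p : P) : IsCompact (Ts c f g p) := by
  rw [Ts_eq hf hg]
  refine (isCompact_Icc.prod isCompact_Icc).image ?_
  exact (Sph_cont c).comp ((slice_cont hr hf p).prodMk (slice_cont hr hg p))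

lemma sphere_null : (volume : Measure E3) (sphere (0 : E3) 1) = 0 :=
  Measure.addHaar_sphere volume 0 1

/-- the area in terms of the cone -/
lemma area_Ts {r M : ℝ} {f g : P → ℝ × ℝ → ℝ} (hr : 1 ≤ r) (hf : B r M f) (hg : B r M g)
    (c : ℝ) (p : P) :
    area (Ts c f g p) = (3 / 4) * (volume : Measure E3) (Gm c f g p '' Kb) := by
  have hclosed : IsClosed {y : sphere (0 : E3) 1 | (1 / 2 : ℝ) • (y : E3) ∈ Ts c f g p} := by
    refine (Ts_compact hr hf hg c p).isClosed.preimage ?_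
    exact (continuous_const_smul _).comp continuous_subtype_val
  have hcone : (volume : Measure E3) (Ioo (0 : ℝ) 1 • ((Subtype.val : sphere (0 : E3) 1 → E3) '' {y : sphere (0 : E3) 1 |
      (1 / 2 : ℝ) • (y : E3) ∈ Ts c f g p})) = (volume : Measure E3) (Gm c f g p '' Kb) := by
    apply le_antisymm
    · apply measure_mono
      rintro _ ⟨t, ht, _, ⟨y, hy, rfl⟩, rfl⟩
      have hy' : (1 / 2 : ℝ) • (y : E3) ∈ Ts c f g p := hy
      rw [Ts_eq hf hg] at hy'
      obtain ⟨x, hx, hxe⟩ := hy'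
      refine ⟨!₂[x.1, x.2, t], ⟨hx.1, hx.2, ⟨ht.1.le, ht.2.le⟩⟩, ?_⟩
      change (t * 2) • Sph c (f p x) (g p x) = t • (y : E3)
      change Sph c (f p x) (g p x) = _ at hxe
      rw [hxe, smul_smul]
      congr 1
      ring
    · have hsub : Gm c f g p '' Kb ⊆ (Ioo (0 : ℝ) 1 • ((Subtype.val : sphere (0 : E3) 1 → E3) '' {y : sphere (0 : E3) 1 |
          (1 / 2 : ℝ) • (y : E3) ∈ Ts c f g p})) ∪ ({0} ∪ sphere (0 : E3) 1) := by
        rintro _ ⟨v, ⟨-, -, hv⟩, rfl⟩
        have hn : ‖(2 : ℝ) • Sph c (f p (pr v)) (g p (pr v))‖ = 1 := by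
          rw [norm_smul, Sph_norm]; norm_num
        have he : Gm c f g p v = (v 2) • ((2 : ℝ) • Sph c (f p (pr v)) (g p (pr v))) := by
          rw [smul_smul]; rfl
        rcases eq_or_lt_of_le hv.1 with h0 | h0
        · right; left
          rw [he, ← h0, zero_smul]; rfl
        · rcases eq_or_lt_of_le hv.2 with h1 | h1
          · right; right
            rw [mem_sphere_zero_iff_norm, he, h1, one_smul, hn]
          · left
            rw [he]
            refine ⟨v 2, ⟨h0, h1⟩, _, ⟨⟨(2 : ℝ) • Sph c (f p (pr v)) (g p (pr v)), ?_⟩, ?_, rfl⟩, rfl⟩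
            · rw [mem_sphere_zero_iff_norm, hn]
            · change (1 / 2 : ℝ) • ((2 : ℝ) • Sph c (f p (pr v)) (g p (pr v))) ∈ Ts c f g p
              rw [smul_smul]
              norm_num
              exact ⟨pr v, rfl⟩
      refine (measure_mono hsub).trans ((measure_union_le _ _).trans ?_)
      have : (volume : Measure E3) ({0} ∪ sphere (0 : E3) 1) = 0 :=
        measure_union_null (measure_singleton _) sphere_null
      rw [this, add_zero]
  unfold area
  rw [Measure.toSphere_apply' _ hclosed.measurableSet, hcone, finrank_euclideanSpace_fin]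
  rw [← mul_assoc]
  congr 1
  rw [ENNReal.div_eq_inv_mul, ENNReal.div_eq_inv_mul]
  push_cast
  ring

lemma cone_finite {r M : ℝ} {f g : P → ℝ × ℝ → ℝ} (hr : 1 < r) (hf : B r M f) (hg : B r M g)
    (c : ℝ) (p : P) : (volume : Measure E3) (Gm c f g p '' Kb) ≠ ⊤ := by
  have h1 : Continuous (Gm c f g p) :=
    (Gm_cont hr hf hg c).comp (continuous_const.prodMk continuous_id)
  exact (Kb_compact.image h1).measure_lt_top.ne

lemma area_ne_top {r M : ℝ} {f g : P → ℝ × ℝ → ℝ} (hr : 1 < r) (hf : B r M f) (hg : B r M g)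
    (c : ℝ) (p : P) : area (Ts c f g p) ≠ ⊤ := by
  rw [area_Ts hr.le hf hg]
  exact ENNReal.mul_ne_top (by
    rw [ENNReal.div_eq_inv_mul]
    exact ENNReal.mul_ne_top (by norm_num) (by norm_num)) (cone_finite hr hf hg c p)

/-- the area is continuous -/
lemma area_cont {r M : ℝ} {f g : P → ℝ × ℝ → ℝ} (hr : 1 < r) (hf : B r M f) (hg : B r M g)
    (c : ℝ) : Continuous (fun p => (area (Ts c f g p)).toReal) := by
  have h1 : Continuous (fun p => ((volume : Measure E3) (Gm c f g p '' Kb)).toReal) := by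
    rw [continuous_iff_continuousAt]
    intro p
    exact (ENNReal.tendsto_toReal (cone_finite hr hf hg c p)).comp
      (cone_cont hr hf hg c).continuousAt
  have h2 : (fun p => (area (Ts c f g p)).toReal) = fun p => (3 / 4 : ENNReal).toReal *
      ((volume : Measure E3) (Gm c f g p '' Kb)).toReal := by
    funext p
    rw [area_Ts hr.le hf hg, ENNReal.toReal_mul]
  rw [h2]
  exact continuous_const.mul h1

lemma area_zero {c : ℝ} {f g : P → ℝ × ℝ → ℝ} {p : P} (hf : ∀ x, f p x = 0) (hg : ∀ x, g p x = 0) :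
    area (Ts c f g p) = 0 := by
  have hsub : {y : sphere (0 : E3) 1 | (1 / 2 : ℝ) • (y : E3) ∈ Ts c f g p}
      ⊆ {⟨(2 : ℝ) • Sph c 0 0, by rw [mem_sphere_zero_iff_norm, norm_smul, Sph_norm]; norm_num⟩} := by
    rintro y ⟨x, hx⟩
    rw [mem_singleton_iff]
    apply Subtype.ext
    change (y : E3) = (2 : ℝ) • Sph c 0 0
    change Sph c (f p x) (g p x) = _ at hx
    rw [hf, hg] at hx
    rw [hx, smul_smul]
    norm_num
  unfold area
  have h1 : (volume : Measure E3).toSphere {(⟨(2 : ℝ) • Sph c 0 0, by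
      rw [mem_sphere_zero_iff_norm, norm_smul, Sph_norm]; norm_num⟩ : sphere (0 : E3) 1)} = 0 := by
    rw [Measure.toSphere_apply' _ (measurableSet_singleton _)]
    have h2 : (volume : Measure E3) (Ioo (0 : ℝ) 1 • ((Subtype.val : sphere (0 : E3) 1 → E3) '' {(⟨(2 : ℝ) • Sph c 0 0, by
      rw [mem_sphere_zero_iff_norm, norm_smul, Sph_norm]; norm_num⟩ : sphere (0 : E3) 1)})) = 0 := by
      refine measure_mono_null (t := ((Submodule.span ℝ {(2 : ℝ) • Sph c 0 0} : Submodule ℝ E3) : Set E3))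
        ?_ ?_
      · rintro _ ⟨t, -, _, ⟨y, hy, rfl⟩, rfl⟩
        rw [mem_singleton_iff] at hy
        rw [hy]
        exact Submodule.smul_mem _ _ (Submodule.mem_span_singleton_self _)
      · apply Measure.addHaar_submodule
        intro h
        have h4 : (2 : ℝ) • Sph c 0 0 ≠ 0 := by
          intro h5
          have h6 : ‖(2 : ℝ) • Sph c 0 0‖ = 1 := by rw [norm_smul, Sph_norm]; norm_num
          rw [h5, norm_zero] at h6
          norm_num at h6
        have h3 := finrank_span_singleton (K := ℝ) h4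
        rw [h] at h3
        simp at h3
    rw [h2, mul_zero]
  rw [measure_mono_null hsub h1, mul_zero]

/-- the area is positive if the planar map has a regular point -/
lemma area_pos {r M : ℝ} {f g : P → ℝ × ℝ → ℝ} (hr : 1 < r) (hf : B r M f) (hg : B r M g)
    {c : ℝ} (hc : 0 < c) (p : P) {x0 : ℝ × ℝ}
    (hJ : pd (1, 0) f p x0 * pd (0, 1) g p x0 - pd (1, 0) g p x0 * pd (0, 1) f p x0 ≠ 0) :
    0 < area (Ts c f g p) := by
  -- the planar image contains a neighbourhood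
  have hdet : ((fderiv ℝ (f p) x0).prod (fderiv ℝ (g p) x0)).det ≠ 0 := by
    intro h0
    have h1 : LinearMap.det (((fderiv ℝ (f p) x0).prod (fderiv ℝ (g p) x0) : ℝ × ℝ →L[ℝ] ℝ × ℝ) :
      ℝ × ℝ →ₗ[ℝ] ℝ × ℝ) = 0 := h0
    have h2 := LinearMap.bot_lt_ker_of_det_eq_zero h1
    obtain ⟨v, hv, hv0⟩ := (Submodule.ne_bot_iff _).mp h2.ne'
    rw [LinearMap.mem_ker] at hv
    have hv1 : fderiv ℝ (f p) x0 v = 0 := congrArg Prod.fst hv
    have hv2 : fderiv ℝ (g p) x0 v = 0 := congrArg Prod.snd hv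
    have e : v = v.1 • ((1, 0) : ℝ × ℝ) + v.2 • ((0, 1) : ℝ × ℝ) := by
      ext <;> simp
    rw [e, map_add, map_smul, map_smul] at hv1 hv2
    simp only [smul_eq_mul] at hv1 hv2
    have a1 : v.1 * (pd (1, 0) f p x0 * pd (0, 1) g p x0 - pd (1, 0) g p x0 * pd (0, 1) f p x0) = 0 := by
      unfold pd
      linear_combination (fderiv ℝ (g p) x0 (0, 1)) * hv1 - (fderiv ℝ (f p) x0 (0, 1)) * hv2
    have a2 : v.2 * (pd (1, 0) f p x0 * pd (0, 1) g p x0 - pd (1, 0) g p x0 * pd (0, 1) f p x0) = 0 := by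
      unfold pd
      linear_combination (fderiv ℝ (f p) x0 (1, 0)) * hv2 - (fderiv ℝ (g p) x0 (1, 0)) * hv1
    have b1 := (mul_eq_zero.mp a1).resolve_right hJ
    have b2 := (mul_eq_zero.mp a2).resolve_right hJ
    exact hv0 (Prod.ext b1 b2)
  have hcont : Continuous (fun z : P × (ℝ × ℝ) => (f z.1 z.2, g z.1 z.2)) :=
    (hf.cont hr.le).prodMk (hg.cont hr.le)
  have hcont' : Continuous (fun z : P × (ℝ × ℝ) =>
      (fderiv ℝ (f z.1) z.2).prod (fderiv ℝ (g z.1) z.2)) := prod_cont (hf.fd hr) (hg.fd hr)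
  have h1 := stable_surj (G := fun p x => (f p x, g p x))
    (G' := fun p x => (fderiv ℝ (f p) x).prod (fderiv ℝ (g p) x)) hcont hcont'
    (fun p x => ((hf.diff hr p x).hasFDerivAt).prodMk ((hg.diff hr p x).hasFDerivAt)) (K := univ)
    (p0 := p) (x0 := x0) (by simp) hdet
  have h2 : ∀ᶠ w : ℝ × ℝ in 𝓝 (f p x0, g p x0), ∃ x, (f p x, g p x) = w := by
    have h3 : Continuous (fun w : ℝ × ℝ => ((p, w) : P × (ℝ × ℝ))) := continuous_const.prodMk continuous_id
    have h4 := (h3.tendsto (f p x0, g p x0)).eventually h1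
    filter_upwards [h4] with w hw
    obtain ⟨x, -, hx⟩ := hw
    exact ⟨x, hx⟩
  -- the corresponding set on the sphere
  obtain ⟨y0, hy0⟩ : ∃ y0 : sphere (0 : E3) 1, (y0 : E3) = (2 : ℝ) • Sph c (f p x0) (g p x0) :=
    ⟨⟨_, by rw [mem_sphere_zero_iff_norm, norm_smul, Sph_norm]; norm_num⟩, rfl⟩
  have hD : 0 < 1 + c ^ 2 * (f p x0 ^ 2 + g p x0 ^ 2) := by positivity
  have hyc0 : (y0 : E3) 0 = (1 - c ^ 2 * (f p x0 ^ 2 + g p x0 ^ 2)) / (1 + c ^ 2 * (f p x0 ^ 2 + g p x0 ^ 2)) := by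
    rw [hy0]; simp [Sph]; field_simp
  have hyc1 : (y0 : E3) 1 = 2 * (c * f p x0) / (1 + c ^ 2 * (f p x0 ^ 2 + g p x0 ^ 2)) := by
    rw [hy0]; simp [Sph]; field_simp
  have hyc2 : (y0 : E3) 2 = -(2 * (c * g p x0)) / (1 + c ^ 2 * (f p x0 ^ 2 + g p x0 ^ 2)) := by
    rw [hy0]; simp [Sph]; field_simp
  have hpos : 0 < 1 + (y0 : E3) 0 := by
    rw [hyc0]
    have : 1 + (1 - c ^ 2 * (f p x0 ^ 2 + g p x0 ^ 2)) / (1 + c ^ 2 * (f p x0 ^ 2 + g p x0 ^ 2))
        = 2 / (1 + c ^ 2 * (f p x0 ^ 2 + g p x0 ^ 2)) := by field_simp; ring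
    rw [this]; positivity
  have hk : ∀ i : Fin 3, Continuous (fun y : sphere (0 : E3) 1 => (y : E3) i) := fun i =>
    (pj i).continuous.comp continuous_subtype_val
  have hq : ContinuousAt (fun y : sphere (0 : E3) 1 =>
      ((y : E3) 1 / (c * (1 + (y : E3) 0)), -(y : E3) 2 / (c * (1 + (y : E3) 0)))) y0 := by
    refine ContinuousAt.prodMk ?_ ?_
    · exact (hk 1).continuousAt.div ((continuous_const.mul (continuous_const.add (hk 0))).continuousAt)
        (by positivity)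
    · exact (hk 2).neg.continuousAt.div
        ((continuous_const.mul (continuous_const.add (hk 0))).continuousAt) (by positivity)
  have hval : ((y0 : E3) 1 / (c * (1 + (y0 : E3) 0)), -(y0 : E3) 2 / (c * (1 + (y0 : E3) 0)))
      = (f p x0, g p x0) := by
    rw [hyc0, hyc1, hyc2]
    have hne := hD.ne'
    have hc' := hc.ne'
    ext
    · change 2 * (c * f p x0) / (1 + c ^ 2 * (f p x0 ^ 2 + g p x0 ^ 2)) / (c * (1 + (1 - c ^ 2 * (f p x0 ^ 2 + g p x0 ^ 2)) / (1 + c ^ 2 * (f p x0 ^ 2 + g p x0 ^ 2)))) = f p x0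
      have : 1 + (1 - c ^ 2 * (f p x0 ^ 2 + g p x0 ^ 2)) / (1 + c ^ 2 * (f p x0 ^ 2 + g p x0 ^ 2))
        = 2 / (1 + c ^ 2 * (f p x0 ^ 2 + g p x0 ^ 2)) := by field_simp; ring
      rw [this]
      field_simp
    · change -(-(2 * (c * g p x0)) / (1 + c ^ 2 * (f p x0 ^ 2 + g p x0 ^ 2))) / (c * (1 + (1 - c ^ 2 * (f p x0 ^ 2 + g p x0 ^ 2)) / (1 + c ^ 2 * (f p x0 ^ 2 + g p x0 ^ 2)))) = g p x0
      have : 1 + (1 - c ^ 2 * (f p x0 ^ 2 + g p x0 ^ 2)) / (1 + c ^ 2 * (f p x0 ^ 2 + g p x0 ^ 2))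
        = 2 / (1 + c ^ 2 * (f p x0 ^ 2 + g p x0 ^ 2)) := by field_simp; ring
      rw [this]
      field_simp
  have h3 : ∀ᶠ y : sphere (0 : E3) 1 in 𝓝 y0, (1 / 2 : ℝ) • (y : E3) ∈ Ts c f g p := by
    rw [ContinuousAt, hval] at hq
    have h4 := hq.eventually h2
    have h5 : ∀ᶠ y : sphere (0 : E3) 1 in 𝓝 y0, 0 < 1 + (y : E3) 0 :=
      (continuous_const.add (hk 0)).continuousAt.eventually_const_lt hpos
    filter_upwards [h4, h5] with y hy1 hy2
    obtain ⟨x, hx⟩ := hy1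
    have hx1 : f p x = (y : E3) 1 / (c * (1 + (y : E3) 0)) := congrArg Prod.fst hx
    have hx2 : g p x = -(y : E3) 2 / (c * (1 + (y : E3) 0)) := congrArg Prod.snd hx
    refine ⟨x, ?_⟩
    change Sph c (f p x) (g p x) = _
    rw [hx1, hx2]
    have hnorm : (y : E3) 0 ^ 2 + (y : E3) 1 ^ 2 + (y : E3) 2 ^ 2 = 1 := by
      have h6 : ‖(y : E3)‖ = 1 := mem_sphere_zero_iff_norm.mp y.2
      have h7 : ‖(y : E3)‖ ^ 2 = 1 := by rw [h6]; norm_num
      rw [EuclideanSpace.real_norm_sq_eq] at h7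
      rw [Fin.sum_univ_three] at h7
      exact h7
    have hz : 1 + (y : E3) 0 ≠ 0 := hy2.ne'
    have e1 : c ^ 2 * (((y : E3) 1 / (c * (1 + (y : E3) 0))) ^ 2 + (-(y : E3) 2 / (c * (1 + (y : E3) 0))) ^ 2)
        = (1 - (y : E3) 0) / (1 + (y : E3) 0) := by
      have hc' := hc.ne'
      field_simp
      linear_combination (1 + (y : E3) 0) * 0 + hnorm
    unfold Sph
    rw [e1]
    have e2 : (1 + (1 - (y : E3) 0) / (1 + (y : E3) 0))⁻¹ = (1 + (y : E3) 0) / 2 := by
      field_simp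
      ring
    rw [e2]
    have hc' := hc.ne'
    ext i
    fin_cases i
    · simp
      field_simp
      ring
    · simp
      field_simp
    · simp
      field_simp
  unfold area
  have h6 : 0 < (volume : Measure E3).toSphere {y | (1 / 2 : ℝ) • (y : E3) ∈ Ts c f g p} :=
    Measure.measure_pos_of_mem_nhds _ h3
  exact ENNReal.mul_pos (by norm_num) h6.ne'

end fam

end Run7.h800
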