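import Pool.Agent.Run7.h800.Init
import Pool.Agent.Run7.h800.Shape

set_option autoImplicit false
set_option linter.unusedSectionVars false

/-!
# Density of the orbit in the torus
-/

namespace Run7.h800

open Filter Topology MeasureTheory Metric Set

lemma al_irr : Irrational al := by
  rw [irrational_iff_ne_rational]
  intro a b hb h
  have hb' : (b : ℝ) ≠ 0 := by exact_mod_cast hb
  have h1 := al_sq
  rw [h] at h1
  field_simp at h1
  have h2 : 2 * a ^ 2 = 5 * b ^ 2 := by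
    have : (2 : ℝ) * (a : ℝ) ^ 2 = 5 * (b : ℝ) ^ 2 := by linarith
    exact_mod_cast this
  exact hb (int_ne h2).2

/-- simultaneous approximation -/
lemma approx (x : ℝ × ℝ) {δ : ℝ} (hδ : 0 < δ) : ∃ (s : ℝ) (j : ℤ × ℤ),
    ‖s • om + (2 * Real.pi * j.1, 2 * Real.pi * j.2) - x‖ < δ := by
  have hpi := Real.pi_pos
  have hden : Dense (AddSubgroup.closure {al, (1 : ℝ)} : Set ℝ) := by
    rw [dense_addSubgroupClosure_pair_iff, div_one]
    exact al_irr
  obtain ⟨z, hz, hzc⟩ := Metric.dense_iff.mp hden ((x.2 - x.1 * al) / (2 * Real.pi)) (δ / (2 * Real.pi))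
    (by positivity)
  rw [SetLike.mem_coe, AddSubgroup.mem_closure_pair] at hzc
  obtain ⟨n, k, hnk⟩ := hzc
  refine ⟨x.1 + 2 * Real.pi * n, (-n, k), ?_⟩
  have e : (x.1 + 2 * Real.pi * n) • om + ((2 * Real.pi * ((-n : ℤ) : ℝ), 2 * Real.pi * (k : ℝ)) : ℝ × ℝ) - x
      = (0, 2 * Real.pi * (z - (x.2 - x.1 * al) / (2 * Real.pi))) := by
    rw [← hnk]
    ext
    · simp [om]
    · simp only [om, Prod.snd_sub, Prod.snd_add, Prod.smul_snd, smul_eq_mul, zsmul_eq_mul, mul_one]
      field_simp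
      ring
  have e2 : ‖((0, 2 * Real.pi * (z - (x.2 - x.1 * al) / (2 * Real.pi))) : ℝ × ℝ)‖
      = 2 * Real.pi * |z - (x.2 - x.1 * al) / (2 * Real.pi)| := by
    rw [Prod.norm_def, norm_zero, max_eq_right (norm_nonneg _), Real.norm_eq_abs, abs_mul,
      abs_of_pos (by positivity : 0 < 2 * Real.pi)]
  have h1 : |z - (x.2 - x.1 * al) / (2 * Real.pi)| < δ / (2 * Real.pi) := by
    rw [Metric.mem_ball, Real.dist_eq] at hz
    exact hz
  change ‖(x.1 + 2 * Real.pi * n) • om + ((2 * Real.pi * ((-n : ℤ) : ℝ), 2 * Real.pi * (k : ℝ)) : ℝ × ℝ) - x‖ < δ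
  rw [e, e2]
  rw [lt_div_iff₀ (by positivity)] at h1
  linarith

variable {P : Type*} [TopologicalSpace P] [CompactSpace P]

/-- the closure of the curve is the image of the torus -/
theorem closure_orbit {r M : ℝ} {f g : P → ℝ × ℝ → ℝ} (hr : 1 ≤ r) (hf : B r M f) (hg : B r M g)
    (c : ℝ) (p : P) {τ : ℝ → ℝ} (hτ : Function.Surjective τ) :
    closure (range (fun t : ℝ => Sph c (f p (τ t • om)) (g p (τ t • om)))) = Ts c f g p := by
  apply Subset.antisymm
  · refine closure_minimal ?_ (Ts_compact hr hf hg c p).isClosed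
    rintro _ ⟨t, rfl⟩
    exact ⟨τ t • om, rfl⟩
  · rintro _ ⟨x, rfl⟩
    rw [Metric.mem_closure_iff]
    intro e he
    have hcont : Continuous (fun x : ℝ × ℝ => Sph c (f p x) (g p x)) :=
      (Sph_cont c).comp ((slice_cont hr hf p).prodMk (slice_cont hr hg p))
    obtain ⟨δ, hδ, hd⟩ := Metric.continuous_iff.mp hcont x e he
    obtain ⟨s, j, hs⟩ := approx x hδ
    obtain ⟨t, ht⟩ := hτ s
    refine ⟨_, ⟨t, rfl⟩, ?_⟩
    have h1 := hd (s • om + (2 * Real.pi * j.1, 2 * Real.pi * j.2)) (by rw [dist_eq_norm]; exact hs)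
    rw [hf.per, hg.per] at h1
    rw [dist_comm]
    change dist (Sph c (f p (τ t • om)) (g p (τ t • om))) (Sph c (f p x) (g p x)) < e
    rw [ht]
    exact h1

end Run7.h800
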