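import Pool.Agent.Run7.h800.Glue
import Pool.Agent.Run7.h800.Shape
import Pool.Agent.Helper627.PM

set_option autoImplicit false
set_option linter.unusedSectionVars false

/-!
# Selection of the torus
-/

namespace Run7.h800

open Filter Topology MeasureTheory Metric Set

/-- first shape coordinate -/
noncomputable def fa (ε : ℝ) (U : RR → ℝ × ℝ → Matrix (Fin 6) Unit ℝ) : RR → ℝ × ℝ → ℝ :=
  fun p x => ε * qS p * U p x 2 ()
/-- second shape coordinate -/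
noncomputable def fb (ε : ℝ) (U : RR → ℝ × ℝ → Matrix (Fin 6) Unit ℝ) : RR → ℝ × ℝ → ℝ :=
  fun p x => ε * qS p * U p x 3 ()

lemma fab_B {ε M : ℝ} {U : RR → ℝ × ℝ → Matrix (Fin 6) Unit ℝ} {q : Fin 2 → C(RR, ℝ)}
    (h : Fam ε M U q) : B 2 (‖ε • qS‖ * M) (fa ε U) ∧ B 2 (‖ε • qS‖ * M) (fb ε U) := by
  constructor
  · exact ((h.reg 2 ()).cmul (ε • qS) (by norm_num)).congr (fun p x => rfl)
  · exact ((h.reg 3 ()).cmul (ε • qS) (by norm_num)).congr (fun p x => rfl)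

lemma area_pos_fam {ε M : ℝ} {U : RR → ℝ × ℝ → Matrix (Fin 6) Unit ℝ} {q : Fin 2 → C(RR, ℝ)}
    (h : Fam ε M U q) (hsm : 8000 * M ^ 2 * ε ≤ 1) {c : ℝ} (hc : 0 < c) (p : RR) (hp : 0 < qS p) :
    0 < area (Ts c (fa ε U) (fb ε U) p) := by
  obtain ⟨h1, h2⟩ := fab_B h
  have hε := h.εpos
  have hex : ∃ x, Jac (fun x => U p x 2 ()) (fun x => U p x 3 ()) x ≠ 0 := by
    by_contra hcon
    push Not at hcon
    have h3 : mn (fun x => Jac (fun x => U p x 2 ()) (fun x => U p x 3 ()) x * s1 x) = 0 := by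
      have : mn (fun x => Jac (fun x => U p x 2 ()) (fun x => U p x 3 ()) x * s1 x)
          = mn (fun _ => 0) := mn_congr (fun x => by rw [hcon]; ring)
      rw [this, mn_const]
    have h4 := h.jac p
    rw [h3, zero_sub, abs_neg] at h4
    have h5 := qI_ge p
    have hlo := al_lo
    rw [abs_of_nonneg (by positivity)] at h4
    have h6 : ε * 1 * (14 / 31 * (3 / 2)) ≤ ε * qI p * (14 / 31 * al) := by gcongr
    have h7 : 4000 * M ^ 2 * ε ^ 2 ≤ ε * (1 / 2) := by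
      have : 4000 * M ^ 2 * ε ^ 2 = ε * ((8000 * M ^ 2 * ε) / 2) := by ring
      rw [this]
      gcongr
    linarith
  obtain ⟨x0, hx0⟩ := hex
  refine area_pos (by norm_num : (1 : ℝ) < 2) h1 h2 hc p (x0 := x0) ?_
  have hW : ∀ i, WW (fun x => U p x i ()) := fun i =>
    ⟨2, M, by norm_num, (h.reg i ()).slice (by norm_num) p⟩
  have e1 : ∀ (v : ℝ × ℝ), pd v (fa ε U) p x0 = ε * qS p * DD v (fun x => U p x 2 ()) x0 := fun v =>
    DD_smul (ε * qS p) (hW 2) v x0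
  have e2 : ∀ (v : ℝ × ℝ), pd v (fb ε U) p x0 = ε * qS p * DD v (fun x => U p x 3 ()) x0 := fun v =>
    DD_smul (ε * qS p) (hW 3) v x0
  rw [e1, e1, e2, e2]
  have e3 : ε * qS p * DD (1, 0) (fun x => U p x 2 ()) x0 * (ε * qS p * DD (0, 1) (fun x => U p x 3 ()) x0)
      - ε * qS p * DD (1, 0) (fun x => U p x 3 ()) x0 * (ε * qS p * DD (0, 1) (fun x => U p x 2 ()) x0)
      = (ε * qS p) ^ 2 * Jac (fun x => U p x 2 ()) (fun x => U p x 3 ()) x0 := by
    unfold Jac; ring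
  rw [e3]
  exact mul_ne_zero (by positivity) hx0

/-- the parameters -/
noncomputable def mkp (x y : ℝ) : RR :=
  (projIcc 1 2 (by norm_num) x, projIcc 0 1 (by norm_num) y)

lemma mkp_cont : Continuous (fun z : ℝ × ℝ => mkp z.1 z.2) := by
  unfold mkp
  exact (continuous_projIcc.comp continuous_fst).prodMk (continuous_projIcc.comp continuous_snd)

lemma mkp_S {x y : ℝ} (hy : y ∈ Icc (0 : ℝ) 1) : qS (mkp x y) = y := by
  change ((projIcc 0 1 (by norm_num) y : Icc (0 : ℝ) 1) : ℝ) = y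
  rw [projIcc_of_mem _ hy]

lemma mkp_I {x y : ℝ} (hx : x ∈ Icc (1 : ℝ) 2) : qI (mkp x y) = x := by
  change ((projIcc 1 2 (by norm_num) x : Icc (1 : ℝ) 2) : ℝ) = x
  rw [projIcc_of_mem _ hx]

theorem select : ∃ (ε M : ℝ) (U : RR → ℝ × ℝ → Matrix (Fin 6) Unit ℝ) (q : Fin 2 → C(RR, ℝ))
    (ka kb : ℝ), Fam ε M U q ∧ ε ≤ 1 / 1000 ∧ 1 < ka ∧ ka < kb ∧ kb < 9 / 4 ∧ ∀ k, ka < k → k < kb → ∀ c, 0 < c →
      ∃ A1 : ℝ, 0 < A1 ∧ ∀ A0, 0 < A0 → A0 < A1 → ∃ p : RR, q 1 p = k ∧ 0 < qS p ∧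
        area (Ts c (fa ε U) (fb ε U) p) = ENNReal.ofReal A0 := by
  obtain ⟨e1, M, he1, hM, hfam⟩ := fam_exists
  obtain ⟨ε, hεd⟩ : ∃ ε, ε = min e1 (1 / (4000000 * M ^ 3)) := ⟨_, rfl⟩
  have hM0 : 0 < M := by linarith
  have hε : 0 < ε := by rw [hεd]; positivity
  have hε1 : ε ≤ e1 := by rw [hεd]; exact min_le_left _ _
  have hε2 : 4000000 * M ^ 3 * ε ≤ 1 := by
    have h1 : ε ≤ 1 / (4000000 * M ^ 3) := by rw [hεd]; exact min_le_right _ _
    rw [le_div_iff₀ (by positivity)] at h1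
    linarith
  have hM3 : M ^ 2 ≤ M ^ 3 := pow_le_pow_right₀ hM (by norm_num)
  have hsm : 8000 * M ^ 2 * ε ≤ 1 := by
    have h1 : M ^ 2 * ε ≤ M ^ 3 * ε := by gcongr
    have h2 : 0 ≤ M ^ 2 * ε := by positivity
    nlinarith
  obtain ⟨U, q, hF⟩ := hfam ε hε hε1
  have hcube : 1000000 * (M * ε) ^ 3 ≤ ε ^ 2 / 4 := by
    have : 1000000 * (M * ε) ^ 3 = ε ^ 2 / 4 * (4000000 * M ^ 3 * ε) := by ring
    rw [this]
    have : 0 ≤ ε ^ 2 / 4 := by positivity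
    nlinarith
  have hs0 : (0 : ℝ) ∈ Icc (0 : ℝ) 1 := by norm_num
  have hx1 : (1 : ℝ) ∈ Icc (1 : ℝ) 2 := by norm_num
  have hx2 : (2 : ℝ) ∈ Icc (1 : ℝ) 2 := by norm_num
  have t1 := hF.tw (mkp 1 0) (mkp_S hs0)
  have t2 := hF.tw (mkp 2 0) (mkp_S hs0)
  rw [mkp_I hx1] at t1
  rw [mkp_I hx2] at t2
  have hε1' : ε ≤ 1 / 2 := by
    have h1 : 1 ≤ M ^ 3 := one_le_pow₀ hM
    nlinarith
  have hε1000 : ε ≤ 1 / 1000 := by
    have h1 : 1 ≤ M ^ 3 := one_le_pow₀ hM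
    have h2 : ε * 1 ≤ ε * M ^ 3 := by gcongr
    nlinarith
  have t1' := abs_le.mp (t1.trans hcube)
  have t2' := abs_le.mp (t2.trans hcube)
  have hε2pos : 0 < ε ^ 2 := by positivity
  have hε2le : ε ^ 2 ≤ 1 / 4 := by nlinarith
  refine ⟨ε, M, U, q, q 1 (mkp 2 0), q 1 (mkp 1 0), hF, hε1000, ?_, ?_, ?_, ?_⟩
  · nlinarith [t2'.1]
  · nlinarith [t2'.2, t1'.1]
  · nlinarith [t1'.2]
  intro k hk1 hk2 c hc
  obtain ⟨b1, b2⟩ := fab_B hF
  -- choice of the height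
  have hcx : ∀ x : ℝ, Continuous (fun s : ℝ => q 1 (mkp x s)) := fun x =>
    (q 1).continuous.comp (mkp_cont.comp (continuous_const.prodMk continuous_id))
  have ev1 : ∀ᶠ s in 𝓝 (0 : ℝ), q 1 (mkp 2 s) < k :=
    (hcx 2).continuousAt.eventually_lt continuousAt_const hk1
  have ev2 : ∀ᶠ s in 𝓝 (0 : ℝ), k < q 1 (mkp 1 s) :=
    continuousAt_const.eventually_lt (hcx 1).continuousAt hk2
  obtain ⟨δ, hδ, hδb⟩ := Metric.eventually_nhds_iff_ball.mp (ev1.and ev2)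
  obtain ⟨t, ht⟩ : ∃ t, t = min (δ / 2) 1 := ⟨_, rfl⟩
  have ht0 : 0 < t := by rw [ht]; positivity
  have ht1 : t ≤ 1 := by rw [ht]; exact min_le_right _ _
  have htδ : t < δ := by
    have : t ≤ δ / 2 := by rw [ht]; exact min_le_left _ _
    linarith
  have hin : ∀ y ∈ Icc 0 t, y ∈ ball (0 : ℝ) δ := by
    intro y hy
    rw [mem_ball, dist_zero_right, Real.norm_eq_abs, abs_of_nonneg hy.1]
    linarith [hy.2]
  -- the area function
  obtain ⟨A, hA⟩ : ∃ A : ℝ × ℝ → ℝ, A = fun z => (area (Ts c (fa ε U) (fb ε U) (mkp z.1 z.2))).toReal :=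
    ⟨_, rfl⟩
  have hAc : Continuous A := by
    rw [hA]
    exact (area_cont (by norm_num : (1 : ℝ) < 2) b1 b2 c).comp mkp_cont
  have hApos : ∀ x, 0 < A (x, t) := by
    intro x
    rw [hA]
    have h1 : 0 < qS (mkp x t) := by rw [mkp_S ⟨ht0.le, ht1⟩]; exact ht0
    exact ENNReal.toReal_pos (area_pos_fam hF hsm hc _ h1).ne'
      (area_ne_top (by norm_num : (1 : ℝ) < 2) b1 b2 c _)
  have hA0 : ∀ x, A (x, 0) = 0 := by
    intro x
    rw [hA]
    have h1 : qS (mkp x 0) = 0 := mkp_S hs0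
    have h2 : area (Ts c (fa ε U) (fb ε U) (mkp x 0)) = 0 := by
      apply area_zero
      · intro y; unfold fa; rw [h1]; ring
      · intro y; unfold fb; rw [h1]; ring
    change (area (Ts c (fa ε U) (fb ε U) (mkp x 0))).toReal = 0
    rw [h2]; rfl
  obtain ⟨x0, hx0, hmin⟩ := (isCompact_Icc (a := (1 : ℝ)) (b := 2)).exists_isMinOn ⟨1, hx1⟩
    ((hAc.comp (continuous_id.prodMk continuous_const) : Continuous (fun x : ℝ => A (x, t))).continuousOn)
  refine ⟨A (x0, t), hApos x0, fun A0 hA00 hA01 => ?_⟩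
  obtain ⟨x, hx, y, hy, h1, h2⟩ := Pool.Agent.Helper627.PM.poincare_miranda 1 2 0 t (by norm_num) ht0.le
    (fun z => A z - A0) (fun z => k - q 1 (mkp z.1 z.2)) (hAc.sub continuous_const).continuousOn
    (continuous_const.sub ((q 1).continuous.comp mkp_cont)).continuousOn
    (fun y hy => by
      have := (hδb y (hin y hy)).2
      change k - q 1 (mkp 1 y) < 0
      linarith)
    (fun y hy => by
      have := (hδb y (hin y hy)).1
      change 0 < k - q 1 (mkp 2 y)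
      linarith)
    (fun x hx => by
      change A (x, 0) - A0 < 0
      rw [hA0]; linarith)
    (fun x hx => by
      change 0 < A (x, t) - A0
      have : A (x0, t) ≤ A (x, t) := hmin hx
      linarith)
  have hAxy : A (x, y) = A0 := by
    have : A (x, y) - A0 = 0 := h1
    linarith
  refine ⟨mkp x y, ?_, ?_, ?_⟩
  · have : k - q 1 (mkp x y) = 0 := h2
    linarith
  · rw [mkp_S ⟨hy.1, hy.2.trans ht1⟩]
    rcases eq_or_lt_of_le hy.1 with h3 | h3
    · rw [← h3, hA0] at hAxy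
      linarith
    · exact h3
  · rw [hA] at hAxy
    have h3 : (area (Ts c (fa ε U) (fb ε U) (mkp x y))).toReal = A0 := hAxy
    rw [← h3, ENNReal.ofReal_toReal (area_ne_top (by norm_num : (1 : ℝ) < 2) b1 b2 c _)]

end Run7.h800
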