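import Pool.Agent.Run7.h800.RedFam
import Pool.Agent.Run7.h800.Sel
import Pool.Agent.Run7.h800.Clo

set_option autoImplicit false
set_option linter.unusedSectionVars false

/-!
# Assembly
-/

namespace Run7.h800

open Filter Topology MeasureTheory Set

/-- the vector of a configuration in terms of the two Jacobi vectors -/
noncomputable def hv (z1 z2 : ℂ) : E3 :=
  !₂[(‖z1‖ ^ 2 - ‖z2‖ ^ 2) / 2, (z1 * (starRingEnd ℂ) z2).re, (z1 * (starRingEnd ℂ) z2).im]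

lemma hv_eq {a1 a2 : ℝ} (h1 : 0 < a1) (h2 : 0 < a2) {X w : ℂ} (hX : X ≠ 0) :
    (2 * ‖hv (a1 * X) (a2 * (X * w))‖)⁻¹ • hv (a1 * X) (a2 * (X * w)) = Sph (a2 / a1) w.re w.im := by
  obtain ⟨c, hc⟩ : ∃ c, c = a2 / a1 := ⟨_, rfl⟩
  have hc' : a2 = c * a1 := by rw [hc]; field_simp
  obtain ⟨v, hv0⟩ : ∃ v : E3, v = !₂[(1 - c ^ 2 * (w.re ^ 2 + w.im ^ 2)) / 2, c * w.re, -(c * w.im)] := ⟨_, rfl⟩
  have hD : 0 < 1 + c ^ 2 * (w.re ^ 2 + w.im ^ 2) := by positivity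
  have hS : Sph c w.re w.im = (1 + c ^ 2 * (w.re ^ 2 + w.im ^ 2))⁻¹ • v := by rw [hv0]; rfl
  have hnv : ‖v‖ = (1 + c ^ 2 * (w.re ^ 2 + w.im ^ 2)) / 2 := by
    have h3 := Sph_norm c w.re w.im
    rw [hS, norm_smul, norm_inv, Real.norm_eq_abs, abs_of_pos hD] at h3
    field_simp at h3
    linarith
  have hn1 : ‖(a1 : ℂ) * X‖ ^ 2 = a1 ^ 2 * ‖X‖ ^ 2 := by
    rw [norm_mul, Complex.norm_real, Real.norm_eq_abs, mul_pow, sq_abs]
  have hn2 : ‖(a2 : ℂ) * (X * w)‖ ^ 2 = a1 ^ 2 * ‖X‖ ^ 2 * (c ^ 2 * (w.re ^ 2 + w.im ^ 2)) := by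
    rw [norm_mul, norm_mul, Complex.norm_real, Real.norm_eq_abs, mul_pow, mul_pow, sq_abs,
      ← Complex.normSq_eq_norm_sq w, Complex.normSq_apply, hc']
    ring
  have hm : (a1 : ℂ) * X * (starRingEnd ℂ) ((a2 : ℂ) * (X * w))
      = ((a1 ^ 2 * ‖X‖ ^ 2 * c : ℝ) : ℂ) * (starRingEnd ℂ) w := by
    have hXX : X * (starRingEnd ℂ) X = ((‖X‖ ^ 2 : ℝ) : ℂ) := by
      rw [Complex.mul_conj, Complex.normSq_eq_norm_sq]
    rw [map_mul, map_mul, Complex.conj_ofReal, hc']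
    push_cast
    push_cast at hXX
    linear_combination ((a1 : ℂ) * (c * a1) * (starRingEnd ℂ) w) * hXX
  have hh : hv (a1 * X) (a2 * (X * w)) = (a1 ^ 2 * ‖X‖ ^ 2) • v := by
    unfold hv
    rw [hn1, hn2, hm, hv0, Complex.re_ofReal_mul, Complex.im_ofReal_mul, Complex.conj_re, Complex.conj_im]
    ext i
    fin_cases i
    · simp; ring
    · simp; ring
    · simp; ring
  have hX' : 0 < ‖X‖ := norm_pos_iff.mpr hX
  have hA : 0 < a1 ^ 2 * ‖X‖ ^ 2 := by positivity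
  rw [← hc, hh, norm_smul, Real.norm_eq_abs, abs_of_pos hA, hnv, hS, smul_smul]
  congr 1
  field_simp

/-- the main construction -/
theorem main : ∃ ka kb : ℝ, 1 < ka ∧ ka < kb ∧ kb < 9 / 4 ∧ ∀ (m M F0 k : ℝ), 0 < m → 0 < M →
    F0 = 2 * m + 8 * M → F0 * k = 16 * m + 8 * M → ka < k → k < kb → ∀ c, 0 < c →
    ∃ A1 : ℝ, 0 < A1 ∧ ∀ A0, 0 < A0 → A0 < A1 → ∃ (q : Fin 3 → ℝ → ℂ) (w : ℝ → ℂ),
      (∀ t i j, i ≠ j → q i t ≠ q j t) ∧ Newton ![m, m, M] q ∧
      (∀ t, m * q 0 t + m * q 1 t + M * q 2 t = 0) ∧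
      (∀ t, q 2 t - (m * q 0 t + m * q 1 t) / (m + m) = (q 1 t - q 0 t) * w t) ∧
      area (closure (range (fun t => Sph c (w t).re (w t).im))) = ENNReal.ofReal A0 := by
  obtain ⟨ε, M', U, q', ka, kb, hF, hε3, h1, h2, h3, hsel⟩ := select
  refine ⟨ka, kb, h1, h2, h3, fun m M F0 k hm hM hF0 hk hka hkb c hc => ?_⟩
  obtain ⟨A1, hA1, hA⟩ := hsel k hka hkb c hc
  refine ⟨A1, hA1, fun A0 hA00 hA01 => ?_⟩
  obtain ⟨p, hp1, hp2, hp3⟩ := hA A0 hA00 hA01
  have hF0pos : 0 < F0 := by rw [hF0]; positivity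
  obtain ⟨ψ, χ, L, φ, cc, hcc, hred, hlow⟩ := red_fam hF hε3 p hF0pos
  obtain ⟨τ, X, V, W, hτ, hX0, hX, hV, hY, hW⟩ := hred.sol hcc hlow
  obtain ⟨a, ha⟩ : ∃ a : ℝ → ℝ, a = fun t => U p (τ t • om) 2 () := ⟨_, rfl⟩
  obtain ⟨b, hb⟩ : ∃ b : ℝ → ℝ, b = fun t => U p (τ t • om) 3 () := ⟨_, rfl⟩
  obtain ⟨w, hw⟩ : ∃ w : ℝ → ℂ, w = fun t => ((ε * qS p : ℝ) : ℂ) * (a t + b t * Complex.I) := ⟨_, rfl⟩
  have hε := hF.εpos
  have hMε := hF.Mε
  have hs1 := qS_nonneg p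
  have hs2 := qS_le p
  have hlo := al_lo
  have hhi := al_hi
  have hab : ∀ t, |a t| ≤ 11 / 10 := by
    intro t
    have g1 : |U p (τ t • om) 2 () - c2 (τ t • om)| ≤ M' * ε := (hF.near 2 ()).norm_le (by norm_num) p _
    have g2 := abs_le.mp g1
    have g3 := abs_le.mp (c2_le (τ t • om))
    rw [ha, abs_le]; constructor <;> linarith
  have hbb : ∀ t, |b t| ≤ 3 := by
    intro t
    have g1 : |U p (τ t • om) 3 () - U00 (τ t • om) 3 ()| ≤ M' * ε := (hF.near 3 ()).norm_le (by norm_num) p _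
    have g2 := abs_le.mp g1
    have g4 : |8 / 5 * al * s2 (τ t • om)| ≤ 64 / 25 * 1 :=
      P2' (by have := al_pos; rw [abs_of_pos (by positivity)]; linarith) (s2_le _)
    have g3 := abs_le.mp g4
    have g5 : U00 (τ t • om) 3 () = -(8 / 5 * al * s2 (τ t • om)) := by simp [U00]
    rw [g5] at g2
    rw [hb, abs_le]; constructor <;> linarith
  have hes : |ε * qS p| ≤ 1 / 1000 := by
    rw [abs_of_nonneg (by positivity)]
    calc ε * qS p ≤ ε * 1 := by gcongr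
      _ ≤ 1 / 1000 := by linarith
  have hZ : ∀ (c : ℝ), |c| ≤ 4 → ∀ t, |ε * qS p * fZ c (ε * qS p) (a t) (b t)| ≤ 1 / 4 := by
    intro c hc t
    have g1 : |fZ c (ε * qS p) (a t) (b t)| ≤ 100 := by
      unfold fZ
      have e1 : |c * a t| ≤ 4 * (11 / 10) := P2' hc (hab t)
      have e2 : |a t * a t + b t * b t| ≤ 11 := by
        have e3 : |a t * a t| ≤ 11 / 10 * (11 / 10) := P2' (hab t) (hab t)
        have e4 : |b t * b t| ≤ 3 * 3 := P2' (hbb t) (hbb t)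
        have := abs_add_le (a t * a t) (b t * b t)
        linarith
      have e3 : |4 * (ε * qS p * (a t * a t + b t * b t))| ≤ 4 * (1 / 1000 * 11) :=
        P2' (by norm_num) (P2' hes e2)
      have := abs_add_le (c * a t) (4 * (ε * qS p * (a t * a t + b t * b t)))
      linarith
    have := P2' hes g1
    linarith
  have hfor := fun t => forces (m := m) (M := M) (F0 := F0) (k := k) (ε := ε) (s := qS p) (a := a t)
    (b := b t) hF0 hk (hZ 4 (by norm_num) t) (hZ (-4) (by norm_num) t)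
  have hwt : ∀ t, w t = ((ε * qS p : ℝ) : ℂ) * (a t + b t * Complex.I) := fun t => by rw [hw]
  obtain ⟨q, hq1, hq2, hq3, hq4, hq5⟩ := bodies (m := m) (M := M) hm hM (X := X) (V := V)
    (Y := fun t => X t * w t) (W := W) (om := w) hX0 (fun t => rfl)
    (fun t => by rw [hwt]; exact (hfor t).1) (fun t => by rw [hwt]; exact (hfor t).2.1) hX
    (fun t => by
      rw [hwt, (hfor t).2.2.1]
      have := hV t
      rw [hp1] at this
      rw [ha, hb]
      exact this)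
    (fun t => by
      have := hY t
      rw [hw, ha, hb]
      exact this)
    (fun t => by
      rw [hwt, (hfor t).2.2.2]
      have := hW t
      rw [hp1] at this
      rw [ha, hb]
      exact this)
  refine ⟨q, w, hq1, hq2, hq3, fun t => ?_, ?_⟩
  · rw [hq5, hq4]
  · have e : (fun t => Sph c (w t).re (w t).im)
        = fun t => Sph c (fa ε U p (τ t • om)) (fb ε U p (τ t • om)) := by
      funext t
      have g1 : w t = ((ε * qS p * a t : ℝ) : ℂ) + ((ε * qS p * b t : ℝ) : ℂ) * Complex.I := by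
        rw [hwt]; push_cast; ring
      have g2 : (w t).re = fa ε U p (τ t • om) := by
        rw [g1, Complex.add_re, Complex.ofReal_re, Complex.re_ofReal_mul, Complex.I_re, mul_zero,
          add_zero, ha]
        rfl
      have g3 : (w t).im = fb ε U p (τ t • om) := by
        rw [g1, Complex.add_im, Complex.ofReal_im, Complex.im_ofReal_mul, Complex.I_im, mul_one,
          zero_add, hb]
        rfl
      rw [g2, g3]
    obtain ⟨b1, b2⟩ := fab_B hF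
    rw [e, closure_orbit (by norm_num : (1 : ℝ) ≤ 2) b1 b2 c p hτ]
    exact hp3

end Run7.h800
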