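import Pool.Agent.Run7.h800.Torus

set_option autoImplicit false
set_option linter.unusedSectionVars false

/-!
# Existence of the family of tori
-/

namespace Run7.h800

open Filter Topology

variable {P : Type*} [TopologicalSpace P] [CompactSpace P]

lemma nrz_self {r ρ : ℝ} (hρ : 0 ≤ ρ) (hr : 0 ≤ r) (z0 : JJ → P → ℝ × ℝ → ℝ) : nrz r ρ z0 z0 := by
  intro j
  refine (B.zero.mono hr le_rfl hρ : B r ρ (fun (_ : P) _ => (0 : ℝ))).congr (fun p x => ?_)
  simp

lemma Er0 (ss si ti : C(P, ℝ)) {ε Kg k : ℝ} (hε : 0 ≤ ε) (hk : 0 ≤ k) (hKg : 0 ≤ Kg)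
    (hg : ∀ i, Tm 1 Kg (z00 P) (gg ss si ti ε i)) (hb : (St0 P).Bd 4 k) :
    (St0 P).Er (mkF (Yf ss si ti ε)) om 4 ((Kg + 6 * (Kg * k)) * ε) := by
  have hz := nrz_self (P := P) (r := 4) zero_le_one (by norm_num) (z00 P)
  have hX : 0 ≤ 6 * (Kg * k) := by positivity
  refine ⟨?_, ?_, ?_⟩
  · intro i j
    have h1 := ((hg i).b0 4 (z00 P) (by norm_num) le_rfl hz).smul (-ε) (by norm_num)
    refine (h1.congr (fun p x => ?_)).mono (by norm_num) le_rfl ?_
    · unfold St.E
      rw [Matrix.sub_apply]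
      have e1 : dM om (St0 P).U p x i j = lin (fun j => z00 P j p x) i := (lin_z00 p x i).symm
      have e2 : (mkF (Yf ss si ti ε)).Y p (zz (St0 P).U (St0 P).q p x) i j
          = Yf ss si ti ε i p (fun j => z00 P j p x) := rfl
      have e3 : Yf ss si ti ε i p (fun j => z00 P j p x)
          = 1 * (lin (fun j => z00 P j p x) i + ε * gg ss si ti ε i p (fun j => z00 P j p x)) := rfl
      rw [e1, e2, e3]; ring
    · rw [abs_neg, abs_of_nonneg hε]
      nlinarith
  · intro i j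
    have h1 := (B.sum (P := P) (r := 4) Finset.univ (fun (l : Fin 6) _ =>
      ((hg i).b1 4 (z00 P) (by norm_num) le_rfl hz (Sum.inl l)).mul (hb.Pb l j) (by norm_num))
      (by norm_num)).smul (-ε) (by norm_num)
    refine (h1.congr (fun p x => ?_)).mono (by norm_num) le_rfl ?_
    · have hd := (hg i).hd p x (fun j => z00 P j p x) (hz.pt (by norm_num) p x)
      unfold St.R
      have e0 : (St0 P).S p x = 0 := rfl
      have e1 : dM om (St0 P).Pb p x = dPb00 x := dM_Pb00 p x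
      have e2 : (St0 P).Pb p x = Pb00 x := rfl
      have e3 : (St0 P).lam = ContinuousMap.const P la := rfl
      have e4 : zz (St0 P).U (St0 P).q p x = fun j => z00 P j p x := rfl
      rw [e0, e1, e2, e3, e4, Matrix.mul_zero, sub_zero]
      have e5 := congrFun (congrFun (red00 p x) i) j
      rw [Matrix.sub_apply, Matrix.sub_apply, Matrix.zero_apply] at e5
      rw [Matrix.sub_apply, Matrix.sub_apply]
      have e6 : ((mkF (Yf ss si ti ε)).A p (fun j => z00 P j p x) * Pb00 x) i j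
          = (DL (9 / 4) * Pb00 x) i j + ε * ∑ l, Dj (gg ss si ti ε i) (Sum.inl l) p
            (fun j => z00 P j p x) * Pb00 x l j := by
        rw [Matrix.mul_apply, Matrix.mul_apply, Finset.mul_sum, ← Finset.sum_add_distrib]
        refine Finset.sum_congr rfl (fun l _ => ?_)
        have e7 : (mkF (Yf ss si ti ε)).A p (fun j => z00 P j p x) i l
            = Dj (Yf ss si ti ε i) (Sum.inl l) p (fun j => z00 P j p x) := rfl
        have e8 : z00 P (Sum.inr 0) p x = 1 := rfl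
        have e9 : z00 P (Sum.inr 1) p x = 9 / 4 := rfl
        rw [e7, Dj_Yf ss si ti ε i (Sum.inl l) p _ hd, Dj_lin]
        simp only [e8, e9]
        simp
        ring
      rw [e6]
      linarith
    · rw [abs_neg, abs_of_nonneg hε, Finset.sum_const, Finset.card_univ, Fintype.card_fin,
        nsmul_eq_mul]
      push_cast
      nlinarith
  · intro i j
    refine (B.zero.mono (by norm_num) le_rfl (by positivity) :
      B 4 ((Kg + 6 * (Kg * k)) * ε) (fun (_ : P) _ => (0 : ℝ))).congr (fun p x => ?_)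
    have e1 : gd (St0 P).U p x = G00 x := gd_U00 p x
    unfold St.F
    have e2 : (St0 P).Pb p x = Pb00 x := rfl
    have e3 : (St0 P).Psa p x = Psa00 x := rfl
    have e4 : (St0 P).Psb p x = Psb00 x := rfl
    rw [e1, e2, e3, e4, F00, sub_self, Matrix.zero_apply]

lemma C00_det : (3 : ℝ) / 10 ≤ C00 0 0 * C00 1 1 - C00 0 1 * C00 1 0 := by
  have := al_lo
  simp [C00]
  linarith

lemma C00_le (i j : Fin 2) : |C00 i j| ≤ 2 := by
  have h1 := al_lo
  have h2 := al_hi
  have h3 : |al| = al := abs_of_pos al_pos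
  fin_cases i <;> fin_cases j <;> simp [C00, abs_mul, h3] <;> linarith

/-- mean matrix of the actual field at the initial torus -/
lemma mean_actual (ss si ti : C(P, ℝ)) {ε Kg k : ℝ} (hε : 0 ≤ ε) (hε1 : ε ≤ 1) (hk : 0 ≤ k)
    (hKg : 0 ≤ Kg)
    (hg : ∀ i, Tm 1 Kg (z00 P) (gg ss si ti ε i)) (hb : (St0 P).Bd 4 k) :
    ∃ c : P → Matrix (Fin 2) (Fin 2) ℝ, (∀ p i j, |c p i j| ≤ 12 * (k * Kg)) ∧
      ∀ i j, Mn om (fun p x => ((St0 P).Psa p x * (mkF (Yf ss si ti ε)).Bq p
        (zz (St0 P).U (St0 P).q p x)) i j) (fun p => C00 i j + ε * c p i j) := by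
  have hz := nrz_self (P := P) (r := 4) zero_le_one (by norm_num) (z00 P)
  -- the perturbation of Bq
  obtain ⟨B1, hB1⟩ : ∃ B1 : P → ℝ × ℝ → Matrix (Fin 6) (Fin 2) ℝ, B1 = fun p x =>
      Matrix.of fun i k => (if k = 0 then gg ss si ti ε i p (fun j => z00 P j p x) else 0)
        + Dj (gg ss si ti ε i) (Sum.inr k) p (fun j => z00 P j p x) := ⟨_, rfl⟩
  have hB1b : ∀ i k, B 4 (Kg + Kg) (fun p x => B1 p x i k) := by
    intro i k
    rw [hB1]
    simp only [Matrix.of_apply]
    refine B.add ?_ ((hg i).b1 4 (z00 P) (by norm_num) le_rfl hz (Sum.inr k)) (by norm_num)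
    by_cases h : k = 0
    · simp only [h, if_true]
      exact (hg i).b0 4 (z00 P) (by norm_num) le_rfl hz
    · simp only [h, if_false]
      exact B.zero.mono (by norm_num) le_rfl hKg
  have hBq : ∀ p x, (mkF (Yf ss si ti ε)).Bq p (zz (St0 P).U (St0 P).q p x)
      = B00 x + ε • B1 p x := by
    intro p x
    ext i k
    have hd := (hg i).hd p x (fun j => z00 P j p x) (hz.pt (by norm_num) p x)
    have e7 : (mkF (Yf ss si ti ε)).Bq p (zz (St0 P).U (St0 P).q p x) i k
            = Dj (Yf ss si ti ε i) (Sum.inr k) p (fun j => z00 P j p x) := rfl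
    rw [e7, Dj_Yf ss si ti ε i (Sum.inr k) p _ hd, Matrix.add_apply, Matrix.smul_apply, hB1]
    simp only [Matrix.of_apply, smul_eq_mul]
    have z2 : z00 P (Sum.inl 2) p x = c2 x := rfl
    have z3 : z00 P (Sum.inl 3) p x = -(8 / 5 * al) * s2 x := rfl
    have hl := lin_z00 (P := P) p x i
    rw [dM_U00] at hl
    have hr0 : z00 P (Sum.inr 0) p x = 1 := rfl
    have ha := al_sq
    fin_cases k
    · have : Dj (P := P) (fun _ z => lin z i) (Sum.inr 0) p (fun j => z00 P j p x) = 0 := Dj_lin0 _ _ _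
      simp only [Fin.zero_eta, Fin.isValue, this, hl, hr0, if_true]
      have e8 : (![-om.1 * s1 x, om.1 * c1 x, -om.2 * s2 x, -(8 / 5 * al) * (om.2 * c2 x),
        -al * (om.2 * c2 x), -4 * (-om.2 * s2 x)] : Fin 6 → ℝ) i = B00 x i 0 := by
        unfold B00 om
        fin_cases i <;> simp
        · linear_combination (8 / 5 * c2 x) * ha
        · linear_combination (c2 x) * ha
        · ring
      rw [e8]; ring
    · have : Dj (P := P) (fun _ z => lin z i) (Sum.inr 1) p (fun j => z00 P j p x) = _ := Dj_lin1 _ _ _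
      simp only [Fin.mk_one, Fin.isValue, this, hr0]
      have e8 : (![0, 0, 0, 0, 2 * z00 P (Sum.inl 2) p x, -z00 P (Sum.inl 3) p x] : Fin 6 → ℝ) i
          = B00 x i 1 := by
        unfold B00
        rw [z2, z3]
        fin_cases i <;> simp
      rw [e8]
      simp
  -- means of the perturbation
  have hmean : ∀ i j, ∃ c : C(P, ℝ), ‖c‖ ≤ 12 * (k * Kg) ∧
      Mn om (fun p x => ((St0 P).Psa p x * B1 p x) i j) (fun p => c p) := by
    intro i j
    have h1 : MB 4 (Kg + Kg) B1 := hB1b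
    have h2 := hb.Psa.mul h1 (by norm_num)
    obtain ⟨c, h3, h4⟩ := exists_mean (h2 i j) (by norm_num)
    refine ⟨c, h3.trans (le_of_eq ?_), h4⟩
    simp
    ring
  choose c hc1 hc2 using hmean
  refine ⟨fun p => Matrix.of fun i j => c i j p, fun p i j =>
    ((c i j).norm_coe_le_norm p).trans (hc1 i j), fun i j => ?_⟩
  refine ((mean00 i j).add ((hc2 i j).smul ε)).congr (fun p x => ?_) (fun p => rfl)
  rw [hBq, Matrix.mul_add, Matrix.add_apply, Matrix.mul_smul, Matrix.smul_apply, smul_eq_mul]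
  rfl

/-- The family of invariant tori. -/
theorem torus [Nonempty P] (ss si ti : C(P, ℝ)) :
    ∃ e1 C : ℝ, 0 < e1 ∧ e1 ≤ 1 ∧ 0 ≤ C ∧ ∀ ε, 0 ≤ ε → ε ≤ e1 →
      ∃ (U : P → ℝ × ℝ → Matrix (Fin 6) Unit ℝ) (q : Fin 2 → C(P, ℝ)),
        (∀ p x, U p (-x) = Sg * U p x) ∧ MB 2 (C * ε) (fun p x => U p x - U00 x) ∧
        (∀ k, ‖q k - (St0 P).q k‖ ≤ C * ε) ∧
        (∀ p x i, dM om U p x i () = Yf ss si ti ε i p (zz U q p x)) ∧ C * ε ≤ 1 := by
  obtain ⟨ey, hey, hey1, KY, hKY, hY⟩ := TF_all (P := P) (fun i => TF_Yf ss si ti TF_coord i)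
  obtain ⟨eg, heg, heg1, Kg, hKg, hg⟩ := TF_all (P := P) (fun i => TF_gf ss si ti TF_coord i)
  obtain ⟨k, hk, hb⟩ := St0_bd (P := P)
  obtain ⟨m, hm⟩ : ∃ m, m = 12 * (k * Kg) := ⟨_, rfl⟩
  have hm0 : 0 ≤ m := by rw [hm]; positivity
  obtain ⟨e0, C0, he0, hC0, hkam⟩ := kam (P := P) (c := 2 + m) om_dio one_pos hKY hk
    (by norm_num : (0 : ℝ) < 1 / 10) (by positivity)
  obtain ⟨E1, hE1⟩ : ∃ E1, E1 = Kg + 6 * (Kg * k) := ⟨_, rfl⟩
  have hE10 : 0 ≤ E1 := by rw [hE1]; positivity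
  refine ⟨min (min ey eg) (min (e0 / (E1 + 1)) (1 / (10 * (5 * m + 2 * m ^ 2 + 1)))), C0 * E1,
    by positivity, (min_le_left _ _).trans ((min_le_left _ _).trans hey1), by positivity, ?_⟩
  intro ε hε he
  have hy' : ε ≤ ey := he.trans ((min_le_left _ _).trans (min_le_left _ _))
  have hg' : ε ≤ eg := he.trans ((min_le_left _ _).trans (min_le_right _ _))
  have h0' : ε ≤ e0 / (E1 + 1) := he.trans ((min_le_right _ _).trans (min_le_left _ _))
  have hd' : ε ≤ 1 / (10 * (5 * m + 2 * m ^ 2 + 1)) :=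
    he.trans ((min_le_right _ _).trans (min_le_right _ _))
  have hε1 : ε ≤ 1 := hy'.trans hey1
  have hgT : ∀ i, Tm 1 Kg (z00 P) (gg ss si ti ε i) := fun i => hg i ε hε hg'
  have hYT : ∀ i, Tm 1 KY (z00 P) (Yf ss si ti ε i) := fun i => hY i ε hε hy'
  have hTame : (mkF (Yf ss si ti ε)).Tame 4 1 KY (St0 P).U (St0 P).q :=
    tame_mk hKY hYT (Yf_rev ss si ti ε)
  obtain ⟨c, hc1, hc2⟩ := mean_actual ss si ti hε hε1 hk hKg hgT hb
  rw [← hm] at hc1
  have hsm : E1 * ε ≤ e0 := by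
    have h1 : 0 < E1 + 1 := by positivity
    calc E1 * ε ≤ (E1 + 1) * ε := by nlinarith
      _ ≤ (E1 + 1) * (e0 / (E1 + 1)) := by gcongr
      _ = e0 := mul_div_cancel₀ _ h1.ne'
  have hsm2 : ε * (5 * m + 2 * m ^ 2) ≤ 1 / 10 := by
    have h1 : 0 < 10 * (5 * m + 2 * m ^ 2 + 1) := by positivity
    rw [le_div_iff₀ h1] at hd'
    nlinarith
  obtain ⟨U, q, h1, h2, h3, h4, h5⟩ := hkam (mkF (Yf ss si ti ε)) (St0 P)
    (fun p => Matrix.of fun i j => C00 i j + ε * c p i j) (E1 * ε) (by positivity) hsm hTame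
    St0_sym hb (fun p => by
      have := la_lo
      change 2 * (1 / 10) ≤ la
      linarith) (fun p x => rfl)
    (fun i j => hc2 i j)
    (fun p i j => by
      rw [Matrix.of_apply]
      have a1 := C00_le i j
      have a2 := hc1 p i j
      calc |C00 i j + ε * c p i j| ≤ |C00 i j| + |ε * c p i j| := abs_add_le _ _
        _ ≤ 2 + 1 * m := by
            rw [abs_mul, abs_of_nonneg hε]
            gcongr
        _ = 2 + m := by ring)
    (fun p => by
      simp only [Matrix.of_apply]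
      have a0 := C00_det
      have b00 := C00_le 0 0
      have b01 := C00_le 0 1
      have b10 := C00_le 1 0
      have b11 := C00_le 1 1
      have d00 := hc1 p 0 0
      have d01 := hc1 p 0 1
      have d10 := hc1 p 1 0
      have d11 := hc1 p 1 1
      have e : (C00 0 0 + ε * c p 0 0) * (C00 1 1 + ε * c p 1 1)
          - (C00 0 1 + ε * c p 0 1) * (C00 1 0 + ε * c p 1 0)
          = (C00 0 0 * C00 1 1 - C00 0 1 * C00 1 0) + ε * (C00 0 0 * c p 1 1 + c p 0 0 * C00 1 1
            - C00 0 1 * c p 1 0 - c p 0 1 * C00 1 0 + ε * (c p 0 0 * c p 1 1 - c p 0 1 * c p 1 0)) := by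
        ring
      have c00 : C00 0 0 = 1 := by simp [C00]
      have c01 : C00 0 1 = 0 := by simp [C00]
      have c11 : |C00 1 1| ≤ 1 := by
        have := al_hi
        have h3 : |al| = al := abs_of_pos al_pos
        simp [C00, abs_mul, h3]; linarith
      have f1 : |C00 0 0 * c p 1 1 + c p 0 0 * C00 1 1
            - C00 0 1 * c p 1 0 - c p 0 1 * C00 1 0 + ε * (c p 0 0 * c p 1 1 - c p 0 1 * c p 1 0)|
          ≤ 5 * m + 2 * m ^ 2 := by
        have g1 : |c p 0 0 * C00 1 1| ≤ m * 1 := by rw [abs_mul]; gcongr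
        have g2 : |c p 0 1 * C00 1 0| ≤ m * 2 := by rw [abs_mul]; gcongr
        have g3 : |c p 0 0 * c p 1 1| ≤ m * m := by rw [abs_mul]; gcongr
        have g4 : |c p 0 1 * c p 1 0| ≤ m * m := by rw [abs_mul]; gcongr
        have g5 : |ε * (c p 0 0 * c p 1 1 - c p 0 1 * c p 1 0)| ≤ 1 * (m * m + m * m) := by
          rw [abs_mul, abs_of_nonneg hε]
          have := abs_sub (c p 0 0 * c p 1 1) (c p 0 1 * c p 1 0)
          have h7 : |c p 0 0 * c p 1 1 - c p 0 1 * c p 1 0| ≤ m * m + m * m := by linarith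
          gcongr
        rw [c00, c01]
        obtain ⟨g11, g12⟩ := _root_.abs_le.mp g1
        obtain ⟨g21, g22⟩ := _root_.abs_le.mp g2
        obtain ⟨g51, g52⟩ := _root_.abs_le.mp g5
        obtain ⟨g61, g62⟩ := _root_.abs_le.mp d11
        rw [_root_.abs_le]
        constructor <;> nlinarith
      have f2 : |ε * (C00 0 0 * c p 1 1 + c p 0 0 * C00 1 1
            - C00 0 1 * c p 1 0 - c p 0 1 * C00 1 0 + ε * (c p 0 0 * c p 1 1 - c p 0 1 * c p 1 0))|
          ≤ 1 / 10 := by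
        rw [abs_mul, abs_of_nonneg hε]
        refine le_trans ?_ hsm2
        gcongr
      rw [e]
      have f3 := (_root_.abs_le.mp f2).1
      rw [abs_of_nonneg (by linarith)]
      linarith)
    (by rw [hE1]; exact Er0 ss si ti hε hk hKg hgT hb)
  refine ⟨U, q, h1, ?_, ?_, ?_, ?_⟩
  · rw [mul_assoc]; exact h2
  · intro k; rw [mul_assoc]; exact h3 k
  · intro p x i
    have := congrFun (congrFun (h4 p x) i) ()
    exact this
  · rw [mul_assoc]; exact h5

end Run7.h800
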