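import Pool.Agent.Run7.h800.Twist2
import Pool.Agent.Run7.h800.Torus2
import Pool.Agent.Run7.h800.Oe

set_option autoImplicit false
set_option linter.unusedSectionVars false

/-!
# The family of tori over a rectangle of parameters
-/

namespace Run7.h800

open Filter Topology

/-- the parameter rectangle -/
abbrev RR := Set.Icc (1 : ℝ) 2 × Set.Icc (0 : ℝ) 1

/-- second parameter -/
noncomputable def qS : C(RR, ℝ) := ⟨fun p => (p.2 : ℝ), by fun_prop⟩
/-- first parameter -/
noncomputable def qI : C(RR, ℝ) := ⟨fun p => (p.1 : ℝ), by fun_prop⟩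
/-- inverse of the first parameter -/
noncomputable def qT : C(RR, ℝ) := ⟨fun p => (p.1 : ℝ)⁻¹, by
  refine Continuous.inv₀ (by fun_prop) (fun p => ?_)
  have := p.1.2.1
  linarith⟩

lemma qS_nonneg (p : RR) : 0 ≤ qS p := p.2.2.1
lemma qS_le (p : RR) : qS p ≤ 1 := p.2.2.2
lemma qI_ge (p : RR) : 1 ≤ qI p := p.1.2.1
lemma qI_le (p : RR) : qI p ≤ 2 := p.1.2.2
lemma qT_eq (p : RR) : qT p = (qI p)⁻¹ := rfl

instance : Nonempty RR := ⟨⟨⟨1, by norm_num⟩, ⟨0, by norm_num⟩⟩⟩

section slice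

variable {P : Type*} [TopologicalSpace P] [CompactSpace P]

lemma B.slice {r M : ℝ} {f : P → ℝ × ℝ → ℝ} (hf : B r M f) (hr : 0 ≤ r) (p : P) :
    W1 r M (f p) := by
  obtain ⟨a, ha⟩ := hf
  refine ⟨fun k => ContinuousMap.const Unit (a k p), ?_, ?_, fun _ x => ha.rep p x⟩
  · refine Summable.of_nonneg_of_le (fun k => by positivity) (fun k => ?_) ha.sum
    have : ‖ContinuousMap.const Unit (a k p)‖ ≤ ‖a k‖ := by
      rw [ContinuousMap.norm_le _ (norm_nonneg _)]
      intro _
      exact (a k).norm_coe_le_norm p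
    gcongr
  · refine le_trans ?_ ha.le
    have h1 : ∀ k : ℤ × ℤ, ‖ContinuousMap.const Unit (a k p)‖ * r ^ dg k ≤ ‖a k‖ * r ^ dg k := by
      intro k
      have : ‖ContinuousMap.const Unit (a k p)‖ ≤ ‖a k‖ := by
        rw [ContinuousMap.norm_le _ (norm_nonneg _)]
        intro _
        exact (a k).norm_coe_le_norm p
      gcongr
    exact (Summable.of_nonneg_of_le (fun k => by positivity) h1 ha.sum).tsum_le_tsum h1 ha.sum

end slice

/-- the output of the construction for one value of the small parameter -/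
structure Fam (ε M : ℝ) (U : RR → ℝ × ℝ → Matrix (Fin 6) Unit ℝ) (q : Fin 2 → C(RR, ℝ)) : Prop where
  sym : ∀ p x, U p (-x) = Sg * U p x
  reg : MB 2 M U
  near : MB 2 (M * ε) (fun p x => U p x - U00 x)
  nearq : ∀ k, ‖q k - (St0 RR).q k‖ ≤ M * ε
  eq : ∀ p x i, dM om U p x i () = Yf qS qI qT ε i p (zz U q p x)
  Mε : M * ε ≤ 1 / 10
  M1 : 1 ≤ M
  εpos : 0 < ε
  jac : ∀ p : RR, |mn (fun x => Jac (fun x => U p x 2 ()) (fun x => U p x 3 ()) x * s1 x)
    - ε * qI p * (14 / 31 * al)| ≤ 4000 * M ^ 2 * ε ^ 2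
  tw : ∀ p : RR, qS p = 0 → |q 1 p - 9 / 4 + 2835 / 5456 * (ε * qI p) ^ 2| ≤ 1000000 * (M * ε) ^ 3

lemma U00_abs (x : ℝ × ℝ) (i : Fin 6) : |U00 x i ()| ≤ 4 := by
  have h1 := c1_le x
  have h2 := s1_le x
  have h3 := c2_le x
  have h4 := s2_le x
  have hlo := al_lo
  have hhi := al_hi
  have hal : |al| = al := abs_of_pos al_pos
  have e : ∀ (c : ℝ) (y : ℝ), |c| ≤ 4 → |y| ≤ 1 → |c * y| ≤ 4 := by
    intro c y hc hy
    rw [abs_mul]
    have := abs_nonneg c
    nlinarith [abs_nonneg y]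
  unfold U00
  fin_cases i
  · change |c1 x| ≤ 4; linarith
  · change |s1 x| ≤ 4; linarith
  · change |c2 x| ≤ 4; linarith
  · exact e _ _ (by rw [abs_neg, abs_mul, hal]; norm_num; linarith) h4
  · exact e _ _ (by rw [abs_neg, hal]; linarith) h4
  · exact e _ _ (by norm_num) h3

theorem fam_exists : ∃ e1 M : ℝ, 0 < e1 ∧ 1 ≤ M ∧ ∀ ε, 0 < ε → ε ≤ e1 →
    ∃ (U : RR → ℝ × ℝ → Matrix (Fin 6) Unit ℝ) (q : Fin 2 → C(RR, ℝ)), Fam ε M U q := by
  obtain ⟨e0, C, he0, he01, hC, htor⟩ := torus (P := RR) qS qI qT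
  obtain ⟨e4, K4, he4, he41, hK4, hg4⟩ := oe_g4
  obtain ⟨e5, K5, he5, he51, hK5, hg5⟩ := oe_g5
  obtain ⟨k0, hk0, hU0⟩ := MB_exists (P := RR) U00_TB
  obtain ⟨M, hM⟩ : ∃ M, M = K4 + K5 + 200 * (C + 1) + k0 := ⟨_, rfl⟩
  have hM1 : 1 ≤ M := by linarith
  refine ⟨min (min e0 (min e4 e5)) (1 / (10 * M)), M, by positivity, hM1, fun ε hε he => ?_⟩
  have h0 : ε ≤ e0 := he.trans ((min_le_left _ _).trans (min_le_left _ _))
  have h4 : ε ≤ e4 := he.trans ((min_le_left _ _).trans ((min_le_right _ _).trans (min_le_left _ _)))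
  have h5 : ε ≤ e5 := he.trans ((min_le_left _ _).trans ((min_le_right _ _).trans (min_le_right _ _)))
  have hME : M * ε ≤ 1 / 10 := by
    have h1 : ε ≤ 1 / (10 * M) := he.trans (min_le_right _ _)
    calc M * ε ≤ M * (1 / (10 * M)) := by gcongr
      _ = 1 / 10 := by field_simp
  obtain ⟨U, q, u1, u2, u3, u4, u5⟩ := htor ε hε.le h0
  have hCM : C * ε ≤ M * ε := by
    have : C ≤ M := by linarith
    gcongr
  have hC200 : 200 * (C * ε) ≤ M * ε := by
    have : 200 * C ≤ M := by linarith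
    calc 200 * (C * ε) = (200 * C) * ε := by ring
      _ ≤ _ := by gcongr
  have hCe : C * ε ≤ 1 / 2000 := by linarith
  have hCe0 : 0 ≤ C * ε := by positivity
  -- closeness
  have hcl : ∀ p x i, |U p x i () - U00 x i ()| ≤ C * ε := by
    intro p x i
    exact (u2 i ()).norm_le (by norm_num) p x
  have hq0 : ∀ p, |q 0 p - 1| ≤ C * ε := by
    intro p
    have := (q 0 - (St0 RR).q 0).norm_coe_le_norm p
    exact this.trans (u3 0)
  have hq1 : ∀ p, |q 1 p - 9 / 4| ≤ C * ε := by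
    intro p
    have := (q 1 - (St0 RR).q 1).norm_coe_le_norm p
    exact this.trans (u3 1)
  -- regularity
  have hreg : MB 2 M U := by
    intro i j
    have a1 := u2 i j
    have a2 : B (P := RR) 2 k0 (fun p x => U00 x i j) := (hU0 i j).mono (by norm_num) (by norm_num) le_rfl
    refine ((a1.add a2 (by norm_num)).congr (fun p x => ?_)).mono (by norm_num) le_rfl ?_
    · simp
    · linarith
  have hW : ∀ p i, WW (fun x => U p x i ()) := fun p i =>
    ⟨2, M, by norm_num, (hreg i ()).slice (by norm_num) p⟩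
  -- the equations
  have heq : ∀ p x i, DD om (fun x => U p x i ()) x = Yf qS qI qT ε i p (zz U q p x) :=
    fun p x i => u4 p x i
  -- membership in the bounded region
  have hD : ∀ p x, (⟨qS p, qI p, qT p, zz U q p x⟩ : Vr) ∈ Dm := by
    intro p x
    have b1 := qS_nonneg p
    have b2 := qS_le p
    have b3 := qI_ge p
    have b4 := qI_le p
    refine ⟨?_, ?_, ?_, fun j => ?_⟩
    · change |qS p| ≤ 5
      rw [abs_of_nonneg b1]; linarith
    · change |qI p| ≤ 5
      rw [abs_of_nonneg (by linarith)]; linarith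
    · change |qT p| ≤ 5
      rw [qT_eq, abs_of_nonneg (by positivity)]
      have : (qI p)⁻¹ ≤ 1 := inv_le_one_of_one_le₀ b3
      linarith
    · rcases j with i | k
      · change |U p x i ()| ≤ 5
        have h1 := abs_le.mp (hcl p x i)
        have h2 := abs_le.mp (U00_abs x i)
        rw [abs_le]; constructor <;> linarith
      · change |q k p| ≤ 5
        fin_cases k
        · have h1 := abs_le.mp (hq0 p)
          change |q 0 p| ≤ 5
          rw [abs_le]; constructor <;> linarith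
        · have h1 := abs_le.mp (hq1 p)
          change |q 1 p| ≤ 5
          rw [abs_le]; constructor <;> linarith
  have hmu0 : ∀ p, q 0 p ≠ 0 := by
    intro p h
    have h1 := abs_le.mp (hq0 p)
    rw [h] at h1
    linarith [h1.1]
  -- the slices
  have hSl : ∀ p, ∃ g4 g5 : ℝ × ℝ → ℝ, (∀ x, g4 x = gf ε (qS p) (qI p) (qT p) (zz U q p x) 4) ∧
      (∀ x, g5 x = gf ε (qS p) (qI p) (qT p) (zz U q p x) 5) ∧
      Sl M ε (qI p) (fun x => U p x 0 ()) (fun x => U p x 2 ()) (fun x => U p x 3 ())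
        (fun x => U p x 4 ()) (fun x => U p x 5 ()) g4 g5 (q 0 p) (q 1 p) := by
    intro p
    obtain ⟨g4, hg4d⟩ : ∃ g4 : ℝ × ℝ → ℝ, g4 = fun x => ε⁻¹ * ((q 0 p)⁻¹ * DD om (fun x => U p x 4 ()) x
      - (2 * U p x 5 () + (2 * q 1 p + 1) * U p x 2 ())) := ⟨_, rfl⟩
    obtain ⟨g5, hg5d⟩ : ∃ g5 : ℝ × ℝ → ℝ, g5 = fun x => ε⁻¹ * ((q 0 p)⁻¹ * DD om (fun x => U p x 5 ()) x
      - (-2 * U p x 4 () - (q 1 p - 1) * U p x 3 ())) := ⟨_, rfl⟩
    have E4 : ∀ x, DD om (fun x => U p x 4 ()) x = q 0 p * (2 * U p x 5 () + (2 * q 1 p + 1) * U p x 2 ()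
        + ε * gf ε (qS p) (qI p) (qT p) (zz U q p x) 4) := fun x => heq p x 4
    have E5 : ∀ x, DD om (fun x => U p x 5 ()) x = q 0 p * (-2 * U p x 4 () - (q 1 p - 1) * U p x 3 ()
        + ε * gf ε (qS p) (qI p) (qT p) (zz U q p x) 5) := fun x => heq p x 5
    have G4 : ∀ x, g4 x = gf ε (qS p) (qI p) (qT p) (zz U q p x) 4 := by
      intro x
      rw [hg4d]
      simp only [E4 x]
      have := hmu0 p
      field_simp
      ring
    have G5 : ∀ x, g5 x = gf ε (qS p) (qI p) (qT p) (zz U q p x) 5 := by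
      intro x
      rw [hg5d]
      simp only [E5 x]
      have := hmu0 p
      field_simp
      ring
    refine ⟨g4, g5, G4, G5, ?_⟩
    have hb1 := qI_ge p
    have hb2 := qI_le p
    have cU : ∀ x, |U p x 0 () - c1 x| ≤ C * ε := fun x => hcl p x 0
    have cV : ∀ x, |U p x 2 () - c2 x| ≤ C * ε := fun x => hcl p x 2
    have cV2 : ∀ x, |U p x 3 () + 8 / 5 * al * s2 x| ≤ C * ε := fun x => by
      have := hcl p x 3
      convert this using 2
      simp [U00]
    have aU : ∀ x, |U p x 0 ()| ≤ 2 := fun x => by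
      have h1 := abs_le.mp (cU x)
      have h2 := abs_le.mp (c1_le x)
      rw [abs_le]; constructor <;> linarith
    have aV : ∀ x, |U p x 2 ()| ≤ 2 := fun x => by
      have h1 := abs_le.mp (cV x)
      have h2 := abs_le.mp (c2_le x)
      rw [abs_le]; constructor <;> linarith
    have aV2 : ∀ x, |U p x 3 ()| ≤ 3 := fun x => by
      have h1 := abs_le.mp (cV2 x)
      have h2 : |8 / 5 * al * s2 x| ≤ 64 / 25 * 1 :=
        P2' (by have := al_pos; have := al_hi; rw [abs_of_pos (by positivity)]; linarith) (s2_le x)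
      have h2 := abs_le.mp h2
      rw [abs_le]; constructor <;> linarith
    have hsi : |qI p| ≤ 2 := by rw [abs_of_nonneg (by linarith)]; exact hb2
    have hk1 : |2 * q 1 p + 1| ≤ 6 := by
      have := abs_le.mp (hq1 p)
      rw [abs_le]; constructor <;> linarith
    have hk2 : |q 1 p - 1| ≤ 2 := by
      have := abs_le.mp (hq1 p)
      rw [abs_le]; constructor <;> linarith
    refine { hε := hε.le, hM := hM1, hMε := hME, hs1 := hb1, hs2 := hb2, wu := hW p 0,
             ww1 := hW p 2, ww2 := hW p 3, wp1 := hW p 4, wp2 := hW p 5, wg4 := ?_, wg5 := ?_,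
             cu := fun x => (cU x).trans hCM, cw1 := fun x => (cV x).trans hCM,
             cw2 := fun x => (cV2 x).trans hCM, cp1 := fun x => ?_, cp2 := fun x => ?_,
             cmu := (hq0 p).trans hCM, cka := (hq1 p).trans hCM, e1 := fun x => ?_,
             e2 := fun x => ?_, e4 := fun x => ?_, e5 := fun x => ?_, ag4 := fun x => ?_,
             ag5 := fun x => ?_ }
    · rw [hg4d]
      exact ((((hW p 4).pd om).smul _).sub (((hW p 5).smul 2).add ((hW p 2).smul _))).smul _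
    · rw [hg5d]
      exact ((((hW p 5).pd om).smul _).sub (((hW p 4).smul (-2)).sub ((hW p 3).smul _))).smul _
    · have := hcl p x 4
      refine le_trans (le_of_eq ?_) (this.trans hCM)
      congr 1
      simp [U00]
    · have := hcl p x 5
      refine le_trans (le_of_eq ?_) (this.trans hCM)
      congr 1
      simp [U00]
    · have := heq p x 2
      rw [this]
      change q 0 p * (U p x 4 () + ε * 0) = _
      ring
    · have := heq p x 3
      rw [this]
      change q 0 p * (U p x 5 () + ε * 0) = _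
      ring
    · rw [G4 x]; exact E4 x
    · rw [G5 x]; exact E5 x
    · rw [G4 x]
      have a1 := hg4 ε hε.le h4 _ (hD p x)
      have a2 : |gf ε (qS p) (qI p) (qT p) (zz U q p x) 4
        + qI p * U p x 0 () * ((2 * q 1 p + 1) * U p x 2 ())| ≤ K4 * ε := a1
      have e : gf ε (qS p) (qI p) (qT p) (zz U q p x) 4 + qI p * (11 / 2) * (c1 x * c2 x)
          = (gf ε (qS p) (qI p) (qT p) (zz U q p x) 4
            + qI p * U p x 0 () * ((2 * q 1 p + 1) * U p x 2 ()))
            - qI p * (U p x 0 () * ((2 * q 1 p + 1) * (U p x 2 () - c2 x))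
              + 2 * ((q 1 p - 9 / 4) * (U p x 0 () * c2 x))
              + 11 / 2 * ((U p x 0 () - c1 x) * c2 x)) := by ring
      have t1 : |U p x 0 () * ((2 * q 1 p + 1) * (U p x 2 () - c2 x))| ≤ 2 * (6 * (C * ε)) :=
        P2' (aU x) (P2' hk1 (cV x))
      have t2 : |2 * ((q 1 p - 9 / 4) * (U p x 0 () * c2 x))| ≤ 2 * ((C * ε) * (2 * 1)) :=
        P2' (by norm_num) (P2' (hq1 p) (P2' (aU x) (c2_le x)))
      have t3 : |11 / 2 * ((U p x 0 () - c1 x) * c2 x)| ≤ 11 / 2 * ((C * ε) * 1) :=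
        P2' (by norm_num) (P2' (cU x) (c2_le x))
      have t4 : |qI p * (U p x 0 () * ((2 * q 1 p + 1) * (U p x 2 () - c2 x))
              + 2 * ((q 1 p - 9 / 4) * (U p x 0 () * c2 x))
              + 11 / 2 * ((U p x 0 () - c1 x) * c2 x))| ≤ 2 * (22 * (C * ε)) := by
        refine P2' hsi ?_
        have s1 := abs_add_le (U p x 0 () * ((2 * q 1 p + 1) * (U p x 2 () - c2 x))
              + 2 * ((q 1 p - 9 / 4) * (U p x 0 () * c2 x))) (11 / 2 * ((U p x 0 () - c1 x) * c2 x))
        have s2 := abs_add_le (U p x 0 () * ((2 * q 1 p + 1) * (U p x 2 () - c2 x)))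
              (2 * ((q 1 p - 9 / 4) * (U p x 0 () * c2 x)))
        linarith
      rw [e]
      refine (abs_sub _ _).trans ?_
      have hK : (K4 + 200 * C) * ε ≤ M * ε := by
        have : K4 + 200 * C ≤ M := by linarith
        gcongr
      linarith
    · rw [G5 x]
      have a1 := hg5 ε hε.le h5 _ (hD p x)
      have a2 : |gf ε (qS p) (qI p) (qT p) (zz U q p x) 5
        - qI p * U p x 0 () * ((q 1 p - 1) * U p x 3 ())| ≤ K5 * ε := a1
      have e : gf ε (qS p) (qI p) (qT p) (zz U q p x) 5 + qI p * (2 * al) * (c1 x * s2 x)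
          = (gf ε (qS p) (qI p) (qT p) (zz U q p x) 5
            - qI p * U p x 0 () * ((q 1 p - 1) * U p x 3 ()))
            + qI p * (U p x 0 () * ((q 1 p - 1) * (U p x 3 () + 8 / 5 * al * s2 x))
              - (q 1 p - 9 / 4) * (U p x 0 () * (8 / 5 * al * s2 x))
              - 5 / 4 * ((U p x 0 () - c1 x) * (8 / 5 * al * s2 x))) := by ring
      have hs : |8 / 5 * al * s2 x| ≤ 64 / 25 * 1 :=
        P2' (by have := al_pos; have := al_hi; rw [abs_of_pos (by positivity)]; linarith) (s2_le x)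
      have t1 : |U p x 0 () * ((q 1 p - 1) * (U p x 3 () + 8 / 5 * al * s2 x))| ≤ 2 * (2 * (C * ε)) :=
        P2' (aU x) (P2' hk2 (cV2 x))
      have t2 : |(q 1 p - 9 / 4) * (U p x 0 () * (8 / 5 * al * s2 x))| ≤ (C * ε) * (2 * (64 / 25 * 1)) :=
        P2' (hq1 p) (P2' (aU x) hs)
      have t3 : |5 / 4 * ((U p x 0 () - c1 x) * (8 / 5 * al * s2 x))| ≤ 5 / 4 * ((C * ε) * (64 / 25 * 1)) :=
        P2' (by norm_num) (P2' (cU x) hs)
      have t4 : |qI p * (U p x 0 () * ((q 1 p - 1) * (U p x 3 () + 8 / 5 * al * s2 x))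
              - (q 1 p - 9 / 4) * (U p x 0 () * (8 / 5 * al * s2 x))
              - 5 / 4 * ((U p x 0 () - c1 x) * (8 / 5 * al * s2 x)))| ≤ 2 * (22 * (C * ε)) := by
        refine P2' hsi ?_
        have s1 := abs_sub (U p x 0 () * ((q 1 p - 1) * (U p x 3 () + 8 / 5 * al * s2 x))
              - (q 1 p - 9 / 4) * (U p x 0 () * (8 / 5 * al * s2 x)))
              (5 / 4 * ((U p x 0 () - c1 x) * (8 / 5 * al * s2 x)))
        have s2 := abs_sub (U p x 0 () * ((q 1 p - 1) * (U p x 3 () + 8 / 5 * al * s2 x)))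
              ((q 1 p - 9 / 4) * (U p x 0 () * (8 / 5 * al * s2 x)))
        linarith
      rw [e]
      refine (abs_add_le _ _).trans ?_
      have hK : (K5 + 200 * C) * ε ≤ M * ε := by
        have : K5 + 200 * C ≤ M := by linarith
        gcongr
      linarith
  refine ⟨U, q, ⟨u1, hreg, fun i j => (u2 i j).mono (by norm_num) le_rfl hCM,
    fun k => (u3 k).trans hCM, u4, hME, hM1, hε, fun p => ?_, fun p hp => ?_⟩⟩
  · obtain ⟨g4, g5, G4, G5, hsl⟩ := hSl p
    refine hsl.jac (fun x => ?_)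
    have a1 : B (1 : ℝ) (‖((0, 1) : ℝ × ℝ)‖ / (1 - 1 / 2) * (C * ε))
        (pd (0, 1) (fun p x => (U p x - U00 x) 3 ())) := by
      have := (u2 3 ()).pd (s := 1 / 2) (by norm_num) (by norm_num) (by norm_num) (0, 1)
      norm_num at this ⊢
      exact this
    have a2 := a1.norm_le le_rfl p x
    have a3 : ‖((0, 1) : ℝ × ℝ)‖ = 1 := by simp [Prod.norm_def]
    rw [a3] at a2
    have a4 : pd (0, 1) (fun p x => (U p x - U00 x) 3 ()) p x
        = DD (0, 1) (fun x => U p x 3 ()) x + 8 / 5 * al * c2 x := by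
      have w2 := hW p 3
      have e : (fun x => (U p x - U00 x) 3 ()) = fun x => U p x 3 () - (-(8 / 5 * al)) * s2 x := by
        funext x
        simp [U00]
      change DD (0, 1) (fun x => (U p x - U00 x) 3 ()) x = _
      rw [e, DD_sub w2 (W_s2.smul _), DD_smul _ W_s2, DD_s2]
      simp
    rw [a4] at a2
    refine a2.trans ?_
    have : (1 : ℝ) / (1 - 1 / 2) * (C * ε) = 2 * (C * ε) := by ring
    rw [this]
    linarith
  · obtain ⟨g4, g5, G4, G5, hsl⟩ := hSl p
    have f2z : ∀ (ka ε a b : ℝ), fk1 ka ε 0 a b = 0 := by intro ka ε a b; unfold fk1; ring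
    have f2z' : ∀ (ka ε a b : ℝ), fk2 ka ε 0 a b = 0 := by intro ka ε a b; unfold fk2; ring
    have hfI : ∀ x, fI ε (qI p) (U p x 0 ()) * (1 + ε * (qI p * U p x 0 ())) = 1 := by
      intro x
      unfold fI
      apply PS_aI
      have h1 := abs_le.mp (hcl p x 0)
      have h2 := abs_le.mp (c1_le x)
      have h3 : |U p x 0 ()| ≤ 2 := by
        have : U00 x 0 () = c1 x := rfl
        rw [this] at h1
        rw [abs_le]; constructor <;> linarith
      have h4 : |qI p| ≤ 2 := by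
        have := qI_ge p
        have := qI_le p
        rw [abs_of_nonneg (by linarith)]; linarith
      have h5 : |ε| ≤ 1 / 2000 := by
        rw [abs_of_pos hε]
        have : 200 * ε ≤ M * ε := by
          have : 200 ≤ M := by linarith
          gcongr
        linarith
      have := P2' h5 (P2' h4 h3)
      linarith
    refine twist hsl (v := fun x => U p x 1 ()) (hW p 1) (fun x => ?_) (fun x => ?_) (fun x => ?_)
      (fun x => ?_)
    · have := heq p x 0
      rw [this]
      change q 0 p * (-U p x 1 () + ε * (-2 * (qS p * qS p * qT p) * ff2 (q 1 p) ε (qS p) (U p x 2 ()) (U p x 3 ()))) = _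
      rw [hp]; ring
    · have := heq p x 1
      rw [this]
      change q 0 p * (U p x 0 () + ε * (-(qS p * qS p * qT p) * ff1 (q 1 p) ε (qS p) (U p x 2 ()) (U p x 3 ())
        - ε * (qS p * qS p) * (fI ε (qI p) (U p x 0 ())
        * (ff2 (q 1 p) ε (qS p) (U p x 2 ()) (U p x 3 ()) * U p x 1 ())))) = _
      rw [hp]; ring
    · have := heq p x 4
      rw [this]
      change (1 + ε * qI p * U p x 0 ()) * (q 0 p * (2 * U p x 5 () + (2 * q 1 p + 1) * U p x 2 ()
        + ε * (ε * (qS p * qS p) * (fI ε (qI p) (U p x 0 ())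
        * (ff2 (q 1 p) ε (qS p) (U p x 2 ()) (U p x 3 ()) * U p x 4 ()))
      - fk1 (q 1 p) ε (qS p) (U p x 2 ()) (U p x 3 ())
      + qI p * U p x 0 () * fI ε (qI p) (U p x 0 ()) * (-((2 * q 1 p + 1) * U p x 2 ())
        + ε * fk1 (q 1 p) ε (qS p) (U p x 2 ()) (U p x 3 ())))) - q 0 p * (2 * U p x 5 ())) = _
      rw [hp, f2z]
      linear_combination (-(ε * q 0 p * qI p * U p x 0 () * (2 * q 1 p + 1) * U p x 2 ())) * hfI x
    · have := heq p x 5
      rw [this]
      change (1 + ε * qI p * U p x 0 ()) * (q 0 p * (-2 * U p x 4 () - (q 1 p - 1) * U p x 3 ()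
        + ε * (ε * (qS p * qS p) * (fI ε (qI p) (U p x 0 ())
        * (ff2 (q 1 p) ε (qS p) (U p x 2 ()) (U p x 3 ()) * U p x 5 ()))
      - fk2 (q 1 p) ε (qS p) (U p x 2 ()) (U p x 3 ())
      + qI p * U p x 0 () * fI ε (qI p) (U p x 0 ()) * ((q 1 p - 1) * U p x 3 ()
        + ε * fk2 (q 1 p) ε (qS p) (U p x 2 ()) (U p x 3 ())))) + q 0 p * (2 * U p x 4 ())) = _
      rw [hp, f2z']
      linear_combination ((ε * q 0 p * qI p * U p x 0 () * (q 1 p - 1) * U p x 3 ())) * hfI x

end Run7.h800
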