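import Pool.Agent.Run7.h800.Vf

set_option autoImplicit false
set_option linter.unusedSectionVars false

/-!
# The initial torus
-/

namespace Run7.h800

open Filter Topology

variable {P : Type*} [TopologicalSpace P] [CompactSpace P]

/-- the frequency ratio -/
noncomputable def al : ℝ := Real.sqrt (5 / 2)

/-- the hyperbolic exponent -/
noncomputable def la : ℝ := Real.sqrt 11 / 2

lemma al_sq : al ^ 2 = 5 / 2 := Real.sq_sqrt (by norm_num)

lemma la_sq : la ^ 2 = 11 / 4 := by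
  unfold la
  rw [div_pow, Real.sq_sqrt (by norm_num)]; norm_num

lemma al_pos : 0 < al := Real.sqrt_pos.mpr (by norm_num)

lemma la_pos : 0 < la := by unfold la; positivity

lemma al_lo : 3 / 2 < al := by
  have h1 := al_sq
  have h2 := al_pos
  nlinarith

lemma al_hi : al < 8 / 5 := by
  have h1 := al_sq
  have h2 := al_pos
  nlinarith

lemma la_lo : 3 / 2 < la := by
  have h1 := la_sq
  have h2 := la_pos
  nlinarith

lemma la_hi : la < 2 := by
  have h1 := la_sq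
  have h2 := la_pos
  nlinarith

/-- the frequency vector -/
noncomputable def om : ℝ × ℝ := (1, al)

lemma int_ne {a b : ℤ} (h : 2 * a ^ 2 = 5 * b ^ 2) : a = 0 ∧ b = 0 := by
  have hb : b = 0 := by
    by_contra hb
    have h10 : Irrational (Real.sqrt ((10 : ℕ) : ℝ)) := by
      rw [irrational_sqrt_natCast_iff]
      rintro ⟨n, hn⟩
      have h1 : n ≤ 3 := by nlinarith
      interval_cases n <;> omega
    apply h10
    refine ⟨|2 * (a : ℚ) / b|, ?_⟩
    have hb' : (b : ℝ) ≠ 0 := by exact_mod_cast hb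
    have h3 : ((10 : ℕ) : ℝ) = (2 * (a : ℝ) / b) ^ 2 := by
      have h4 : (2 : ℝ) * a ^ 2 = 5 * b ^ 2 := by exact_mod_cast h
      field_simp
      push_cast
      nlinarith
    rw [h3, Real.sqrt_sq_eq_abs]
    push_cast
    rfl
  subst hb
  constructor
  · nlinarith
  · rfl

lemma om_dio : Dio 4 om := by
  refine ⟨by norm_num, ?_⟩
  intro k hk
  unfold dot om
  have h1 : (1 : ℝ) / 2 ≤ |((k.1 : ℝ) + al * k.2) * ((k.1 : ℝ) - al * k.2)| := by
    have e : ((k.1 : ℝ) + al * k.2) * ((k.1 : ℝ) - al * k.2)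
        = (2 * (k.1 : ℝ) ^ 2 - 5 * (k.2 : ℝ) ^ 2) / 2 := by
      have := al_sq
      linear_combination (-(k.2 : ℝ) ^ 2) * this
    rw [e, abs_div, abs_of_pos (by norm_num : (0 : ℝ) < 2)]
    have h2 : (2 * k.1 ^ 2 - 5 * k.2 ^ 2 : ℤ) ≠ 0 := by
      intro h
      have := int_ne (a := k.1) (b := k.2) (by linarith)
      exact hk (Prod.ext this.1 this.2)
    have h3 : (1 : ℤ) ≤ |2 * k.1 ^ 2 - 5 * k.2 ^ 2| := Int.one_le_abs h2
    have h4 : (1 : ℝ) ≤ |2 * (k.1 : ℝ) ^ 2 - 5 * (k.2 : ℝ) ^ 2| := by exact_mod_cast h3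
    linarith
  have h5 : |(k.1 : ℝ) - al * k.2| ≤ 2 * dg k := by
    have e1 : |(k.1 : ℝ)| = (k.1.natAbs : ℝ) := by rw [Nat.cast_natAbs, Int.cast_abs]
    have e2 : |(k.2 : ℝ)| = (k.2.natAbs : ℝ) := by rw [Nat.cast_natAbs, Int.cast_abs]
    have h6 := abs_sub (k.1 : ℝ) (al * k.2)
    rw [abs_mul, abs_of_pos al_pos, e1, e2] at h6
    have h7 := al_hi
    unfold dg
    push_cast
    have h8 : (0 : ℝ) ≤ (k.1.natAbs : ℝ) := by positivity
    have h9 : (0 : ℝ) ≤ (k.2.natAbs : ℝ) := by positivity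
    nlinarith
  rw [abs_mul] at h1
  have e3 : (k.1 : ℝ) * 1 + k.2 * al = (k.1 : ℝ) + al * k.2 := by ring
  rw [e3]
  have h10 := abs_nonneg ((k.1 : ℝ) + al * k.2)
  nlinarith

lemma ch_re (k : ℤ × ℤ) (x : ℝ × ℝ) : (ch k x).re = Real.cos (dot k x) := by
  unfold ch dot
  exact Complex.exp_ofReal_mul_I_re _

lemma ch_im (k : ℤ × ℤ) (x : ℝ × ℝ) : (ch k x).im = Real.sin (dot k x) := by
  unfold ch dot
  exact Complex.exp_ofReal_mul_I_im _

lemma B_cos {r : ℝ} (hr : 0 ≤ r) (k : ℤ × ℤ) :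
    B (P := P) r (r ^ dg k) (fun _ x => Real.cos (dot k x)) := by
  have h1 := re_part (BC.char (P := P) (r := r) (ContinuousMap.const P 1) k) hr
  have hn : ‖ContinuousMap.const P (1 : ℂ)‖ ≤ 1 := by
    rw [ContinuousMap.norm_le _ (by norm_num)]
    intro p; simp
  refine (h1.congr (fun p x => ?_)).mono hr le_rfl ?_
  · rw [ContinuousMap.const_apply, one_mul, ch_re]
  · have : 0 ≤ r ^ dg k := by positivity
    nlinarith

lemma B_sin {r : ℝ} (hr : 0 ≤ r) (k : ℤ × ℤ) :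
    B (P := P) r (r ^ dg k) (fun _ x => Real.sin (dot k x)) := by
  have h1 := re_part (BC.char (P := P) (r := r) (ContinuousMap.const P (-Complex.I)) k) hr
  have hn : ‖ContinuousMap.const P (-Complex.I)‖ ≤ 1 := by
    rw [ContinuousMap.norm_le _ (by norm_num)]
    intro p; simp
  refine (h1.congr (fun p x => ?_)).mono hr le_rfl ?_
  · rw [ContinuousMap.const_apply]
    simp [ch_im]
  · have : 0 ≤ r ^ dg k := by positivity
    nlinarith

lemma pd_cos (k : ℤ × ℤ) (v : ℝ × ℝ) (p : P) (x : ℝ × ℝ) :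
    pd (P := P) v (fun _ x => Real.cos (dot k x)) p x = -(dot k v) * Real.sin (dot k x) := by
  unfold pd
  have h1 : HasFDerivAt (fun x : ℝ × ℝ => dot k x) (lk k) x := by
    have : (fun x : ℝ × ℝ => dot k x) = lk k := by funext y; rw [lk_apply]
    rw [this]; exact (lk k).hasFDerivAt
  rw [h1.cos.fderiv]
  simp [lk_apply]
  ring

lemma pd_sin (k : ℤ × ℤ) (v : ℝ × ℝ) (p : P) (x : ℝ × ℝ) :
    pd (P := P) v (fun _ x => Real.sin (dot k x)) p x = (dot k v) * Real.cos (dot k x) := by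
  unfold pd
  have h1 : HasFDerivAt (fun x : ℝ × ℝ => dot k x) (lk k) x := by
    have : (fun x : ℝ × ℝ => dot k x) = lk k := by funext y; rw [lk_apply]
    rw [this]; exact (lk k).hasFDerivAt
  rw [h1.sin.fderiv]
  simp [lk_apply]
  ring

/-- first cosine -/
noncomputable def c1 (x : ℝ × ℝ) : ℝ := Real.cos (dot (1, 0) x)
/-- first sine -/
noncomputable def s1 (x : ℝ × ℝ) : ℝ := Real.sin (dot (1, 0) x)
/-- second cosine -/
noncomputable def c2 (x : ℝ × ℝ) : ℝ := Real.cos (dot (0, 1) x)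
/-- second sine -/
noncomputable def s2 (x : ℝ × ℝ) : ℝ := Real.sin (dot (0, 1) x)

lemma c1_B : B (P := P) 4 4 (fun _ x => c1 x) := by
  have := B_cos (P := P) (r := 4) (by norm_num) (1, 0)
  simp [dg] at this
  exact this

lemma s1_B : B (P := P) 4 4 (fun _ x => s1 x) := by
  have := B_sin (P := P) (r := 4) (by norm_num) (1, 0)
  simp [dg] at this
  exact this

lemma c2_B : B (P := P) 4 4 (fun _ x => c2 x) := by
  have := B_cos (P := P) (r := 4) (by norm_num) (0, 1)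
  simp [dg] at this
  exact this

lemma s2_B : B (P := P) 4 4 (fun _ x => s2 x) := by
  have := B_sin (P := P) (r := 4) (by norm_num) (0, 1)
  simp [dg] at this
  exact this

lemma cs1 (x : ℝ × ℝ) : s1 x ^ 2 + c1 x ^ 2 = 1 := Real.sin_sq_add_cos_sq _

lemma cs2 (x : ℝ × ℝ) : s2 x ^ 2 + c2 x ^ 2 = 1 := Real.sin_sq_add_cos_sq _

lemma c1_neg (x : ℝ × ℝ) : c1 (-x) = c1 x := by
  unfold c1 dot; simp

lemma s1_neg (x : ℝ × ℝ) : s1 (-x) = -s1 x := by
  unfold s1 dot; simp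

lemma c2_neg (x : ℝ × ℝ) : c2 (-x) = c2 x := by
  unfold c2 dot; simp

lemma s2_neg (x : ℝ × ℝ) : s2 (-x) = -s2 x := by
  unfold s2 dot; simp

lemma pd_c1 (v : ℝ × ℝ) (p : P) (x : ℝ × ℝ) : pd (P := P) v (fun _ x => c1 x) p x = -v.1 * s1 x := by
  have := pd_cos (P := P) (1, 0) v p x
  unfold c1 s1
  rw [this]
  congr 2
  simp [dot]

lemma pd_s1 (v : ℝ × ℝ) (p : P) (x : ℝ × ℝ) : pd (P := P) v (fun _ x => s1 x) p x = v.1 * c1 x := by
  have := pd_sin (P := P) (1, 0) v p x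
  unfold c1 s1
  rw [this]
  congr 1
  simp [dot]

lemma pd_c2 (v : ℝ × ℝ) (p : P) (x : ℝ × ℝ) : pd (P := P) v (fun _ x => c2 x) p x = -v.2 * s2 x := by
  have := pd_cos (P := P) (0, 1) v p x
  unfold c2 s2
  rw [this]
  congr 2
  simp [dot]

lemma pd_s2 (v : ℝ × ℝ) (p : P) (x : ℝ × ℝ) : pd (P := P) v (fun _ x => s2 x) p x = v.2 * c2 x := by
  have := pd_sin (P := P) (0, 1) v p x
  unfold c2 s2
  rw [this]
  congr 1
  simp [dot]

end Run7.h800
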