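import Pool.Agent.Run7.h800.Init

set_option autoImplicit false
set_option linter.unusedSectionVars false

/-!
# The initial state
-/

namespace Run7.h800

open Filter Topology

variable {P : Type*} [TopologicalSpace P] [CompactSpace P]

/-- bounded at radius four, by some constant -/
def TB (f : P → ℝ × ℝ → ℝ) : Prop := ∃ M : ℝ, 0 ≤ M ∧ B 4 M f

lemma TB.const (c : ℝ) : TB (P := P) (fun _ _ => c) := ⟨|c|, abs_nonneg c, B.rconst c⟩

lemma TB.add {f g : P → ℝ × ℝ → ℝ} (hf : TB f) (hg : TB g) : TB (fun p x => f p x + g p x) := by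
  obtain ⟨M, hM, h1⟩ := hf
  obtain ⟨N, hN, h2⟩ := hg
  exact ⟨M + N, by positivity, h1.add h2 (by norm_num)⟩

lemma TB.mul {f g : P → ℝ × ℝ → ℝ} (hf : TB f) (hg : TB g) : TB (fun p x => f p x * g p x) := by
  obtain ⟨M, hM, h1⟩ := hf
  obtain ⟨N, hN, h2⟩ := hg
  exact ⟨M * N, by positivity, h1.mul h2 (by norm_num)⟩

lemma TB.neg {f : P → ℝ × ℝ → ℝ} (hf : TB f) : TB (fun p x => -f p x) := by
  obtain ⟨M, hM, h1⟩ := hf
  exact ⟨M, hM, h1.neg (by norm_num)⟩

lemma TB.sub {f g : P → ℝ × ℝ → ℝ} (hf : TB f) (hg : TB g) : TB (fun p x => f p x - g p x) := by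
  obtain ⟨M, hM, h1⟩ := hf
  obtain ⟨N, hN, h2⟩ := hg
  exact ⟨M + N, by positivity, h1.sub h2 (by norm_num)⟩

lemma TB.c1 : TB (P := P) (fun _ x => c1 x) := ⟨4, by norm_num, c1_B⟩
lemma TB.s1 : TB (P := P) (fun _ x => s1 x) := ⟨4, by norm_num, s1_B⟩
lemma TB.c2 : TB (P := P) (fun _ x => c2 x) := ⟨4, by norm_num, c2_B⟩
lemma TB.s2 : TB (P := P) (fun _ x => s2 x) := ⟨4, by norm_num, s2_B⟩

lemma MB_exists {m n : Type*} [Fintype m] [Fintype n] {A : P → ℝ × ℝ → Matrix m n ℝ}
    (h : ∀ i j, TB (fun p x => A p x i j)) : ∃ k : ℝ, 0 ≤ k ∧ MB 4 k A := by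
  choose M hM h1 using h
  refine ⟨∑ i, ∑ j, M i j, Finset.sum_nonneg fun i _ => Finset.sum_nonneg fun j _ => hM i j, ?_⟩
  intro i j
  refine (h1 i j).mono (by norm_num) le_rfl ?_
  calc M i j ≤ ∑ j, M i j := Finset.single_le_sum (fun j _ => hM i j) (Finset.mem_univ j)
    _ ≤ ∑ i, ∑ j, M i j := Finset.single_le_sum (f := fun i => ∑ j, M i j)
        (fun i _ => Finset.sum_nonneg fun j _ => hM i j) (Finset.mem_univ i)

/-- the unperturbed torus -/
noncomputable def U00 (x : ℝ × ℝ) : Matrix (Fin 6) Unit ℝ :=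
  Matrix.of fun i _ => ![c1 x, s1 x, c2 x, -(8 / 5 * al) * s2 x, -al * s2 x, -4 * c2 x] i

/-- the gradient of the unperturbed torus -/
noncomputable def G00 (x : ℝ × ℝ) : Matrix (Fin 6) (Fin 2) ℝ :=
  !![-s1 x, 0; c1 x, 0; 0, -s2 x; 0, -(8 / 5 * al) * c2 x; 0, -al * c2 x; 0, 4 * s2 x]

/-- the normal frame -/
noncomputable def Pb00 (x : ℝ × ℝ) : Matrix (Fin 6) (Fin 4) ℝ :=
  !![c1 x, 0, 0, 0; s1 x, 0, 0, 0; 0, c2 x, 1, 1; 0, -(8 / 5 * al) * s2 x, -(la / 2), la / 2;
    0, -al * s2 x, la, -la; 0, -4 * c2 x, -(11 / 8), -(11 / 8)]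

/-- the dual tangential frame -/
noncomputable def Psa00 (x : ℝ × ℝ) : Matrix (Fin 2) (Fin 6) ℝ :=
  !![-s1 x, c1 x, 0, 0, 0, 0;
    0, 0, 11 / 21 * s2 x, -(4 / 21 * al) * c2 x, -(2 / 21 * al) * c2 x, 8 / 21 * s2 x]

/-- the dual normal frame -/
noncomputable def Psb00 (x : ℝ × ℝ) : Matrix (Fin 4) (Fin 6) ℝ :=
  !![c1 x, s1 x, 0, 0, 0, 0;
    0, 0, -(11 / 21) * c2 x, -(4 / 21 * al) * s2 x, -(2 / 21 * al) * s2 x, -(8 / 21) * c2 x;
    0, 0, 16 / 21, -(20 / 231 * la), 32 / 231 * la, 4 / 21;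
    0, 0, 16 / 21, 20 / 231 * la, -(32 / 231 * la), 4 / 21]

/-- the initial state -/
noncomputable def St0 (P : Type*) [TopologicalSpace P] : St P where
  U := fun _ x => U00 x
  Pb := fun _ x => Pb00 x
  Psa := fun _ x => Psa00 x
  Psb := fun _ x => Psb00 x
  S := fun _ _ => 0
  q := ![ContinuousMap.const P 1, ContinuousMap.const P (9 / 4)]
  lam := ContinuousMap.const P la

lemma U00_TB : ∀ i j, TB (P := P) (fun _ x => U00 x i j) := by
  intro i j
  unfold U00
  fin_cases i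
  · exact TB.c1
  · exact TB.s1
  · exact TB.c2
  · exact (TB.const _).mul TB.s2
  · exact (TB.const _).mul TB.s2
  · exact (TB.const _).mul TB.c2

lemma Pb00_TB : ∀ i j, TB (P := P) (fun _ x => Pb00 x i j) := by
  intro i j
  unfold Pb00
  fin_cases i <;> fin_cases j <;> simp <;>
    first
      | exact TB.const _
      | exact TB.c1
      | exact TB.s1
      | exact TB.c2
      | exact (TB.const _).mul TB.s2
      | exact (TB.const _).mul TB.c2
      | exact ((TB.const _).mul TB.s2).neg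
      | exact ((TB.const _).mul TB.c2).neg

lemma Psa00_TB : ∀ i j, TB (P := P) (fun _ x => Psa00 x i j) := by
  intro i j
  unfold Psa00
  fin_cases i <;> fin_cases j <;> simp <;>
    first
      | exact TB.const _
      | exact TB.c1
      | exact TB.s1
      | exact TB.s1.neg
      | exact TB.c2
      | exact (TB.const _).mul TB.s2
      | exact (TB.const _).mul TB.c2
      | exact ((TB.const _).mul TB.s2).neg
      | exact ((TB.const _).mul TB.c2).neg

lemma Psb00_TB : ∀ i j, TB (P := P) (fun _ x => Psb00 x i j) := by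
  intro i j
  unfold Psb00
  fin_cases i <;> fin_cases j <;> simp <;>
    first
      | exact TB.const _
      | exact TB.c1
      | exact TB.s1
      | exact TB.s1.neg
      | exact TB.c2
      | exact (TB.const _).mul TB.s2
      | exact (TB.const _).mul TB.c2
      | exact ((TB.const _).mul TB.s2).neg
      | exact ((TB.const _).mul TB.c2).neg

lemma St0_bd : ∃ k : ℝ, 0 ≤ k ∧ (St0 P).Bd 4 k := by
  obtain ⟨k1, h1, g1⟩ := MB_exists (P := P) U00_TB
  obtain ⟨k2, h2, g2⟩ := MB_exists (P := P) Pb00_TB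
  obtain ⟨k3, h3, g3⟩ := MB_exists (P := P) Psa00_TB
  obtain ⟨k4, h4, g4⟩ := MB_exists (P := P) Psb00_TB
  refine ⟨k1 + k2 + k3 + k4, by positivity, ?_, ?_, ?_, ?_, ?_⟩
  · exact g1.mono (by norm_num) le_rfl (by linarith)
  · exact g2.mono (by norm_num) le_rfl (by linarith)
  · exact g3.mono (by norm_num) le_rfl (by linarith)
  · exact g4.mono (by norm_num) le_rfl (by linarith)
  · intro i j
    exact B.zero.mono (by norm_num) le_rfl (by positivity)

lemma U00_sym (x : ℝ × ℝ) : U00 (-x) = Sg * U00 x := by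
  ext i j
  unfold Sg U00
  rw [Matrix.diagonal_mul]
  fin_cases i <;> simp [c1_neg, s1_neg, c2_neg, s2_neg]

lemma St0_sym : (St0 P).Sym := by
  refine ⟨fun p x => U00_sym x, fun p x => ?_, fun p x => ?_, fun p x => ?_, fun p x => ?_⟩
  · change Pb00 (-x) = Sg * Pb00 x * Pi4
    ext i j
    unfold Sg Pb00 Pi4
    rw [Matrix.mul_apply, Fin.sum_univ_four]
    simp only [Matrix.diagonal_mul]
    fin_cases i <;> fin_cases j <;> simp [c1_neg, s1_neg, c2_neg, s2_neg]
  · change Psa00 (-x) = -(Psa00 x * Sg)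
    ext i j
    unfold Sg Psa00
    rw [Matrix.neg_apply, Matrix.mul_diagonal]
    fin_cases i <;> fin_cases j <;> simp [c1_neg, s1_neg, c2_neg, s2_neg]
  · change Psb00 (-x) = Pi4 * Psb00 x * Sg
    ext i j
    unfold Sg Psb00 Pi4
    rw [Matrix.mul_diagonal, Matrix.mul_apply, Fin.sum_univ_four]
    fin_cases i <;> fin_cases j <;> simp [c1_neg, s1_neg, c2_neg, s2_neg]
  · change (0 : Matrix (Fin 2) (Fin 4) ℝ) = 0 * Pi4
    rw [Matrix.zero_mul]

lemma gd_U00 (p : P) (x : ℝ × ℝ) : gd (fun (_ : P) x => U00 x) p x = G00 x := by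
  ext i k
  have hc : ∀ (c : ℝ) (f : P → ℝ × ℝ → ℝ) (v : ℝ × ℝ), DifferentiableAt ℝ (f p) x →
      pd v (fun p x => c * f p x) p x = c * pd v f p x := fun c f v hf =>
    pd_cmul (f := f) hf (fun _ => c) v
  have d2 : DifferentiableAt ℝ (fun x => s2 x) x := (s2_B (P := P)).diff (by norm_num) p x
  have d3 : DifferentiableAt ℝ (fun x => c2 x) x := (c2_B (P := P)).diff (by norm_num) p x
  fin_cases i
  · change pd (ev k) (fun (_ : P) x => c1 x) p x = _
    rw [pd_c1]
    fin_cases k <;> simp [ev, G00]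
  · change pd (ev k) (fun (_ : P) x => s1 x) p x = _
    rw [pd_s1]
    fin_cases k <;> simp [ev, G00]
  · change pd (ev k) (fun (_ : P) x => c2 x) p x = _
    rw [pd_c2]
    fin_cases k <;> simp [ev, G00]
  · change pd (ev k) (fun (_ : P) x => -(8 / 5 * al) * s2 x) p x = _
    rw [hc _ (fun _ x => s2 x) _ d2, pd_s2]
    fin_cases k <;> simp [ev, G00]
  · change pd (ev k) (fun (_ : P) x => -al * s2 x) p x = _
    rw [hc _ (fun _ x => s2 x) _ d2, pd_s2]
    fin_cases k <;> simp [ev, G00]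
  · change pd (ev k) (fun (_ : P) x => -4 * c2 x) p x = _
    rw [hc _ (fun _ x => c2 x) _ d3, pd_c2]
    fin_cases k <;> simp [ev, G00]

lemma F00 (x : ℝ × ℝ) : G00 x * Psa00 x + Pb00 x * Psb00 x = 1 := by
  have h1 := cs1 x
  have h2 := cs2 x
  have h3 := al_sq
  have h4 := la_sq
  ext i j
  rw [Matrix.add_apply, Matrix.mul_apply, Matrix.mul_apply, Fin.sum_univ_two, Fin.sum_univ_four]
  unfold G00 Psa00 Pb00 Psb00
  fin_cases i <;> fin_cases j <;> simp <;>
    first
      | ring1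
      | linear_combination h1
      | linear_combination (-11 / 21) * h2
      | linear_combination (-8 / 21) * h2
      | linear_combination (44 / 21) * h2
      | linear_combination (32 / 21) * h2
      | linear_combination (32 / 105 * al ^ 2) * h2 + (32 / 105) * h3 + (20 / 231) * h4
      | linear_combination (16 / 105 * al ^ 2) * h2 + (16 / 105) * h3 - (32 / 231) * h4
      | linear_combination (4 / 21 * al ^ 2) * h2 + (4 / 21) * h3 - (40 / 231) * h4
      | linear_combination (2 / 21 * al ^ 2) * h2 + (2 / 21) * h3 + (64 / 231) * h4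

end Run7.h800
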