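import Pool.Agent.Run7.h800.Init2

set_option autoImplicit false
set_option linter.unusedSectionVars false

/-!
# Errors of the initial state
-/

namespace Run7.h800

open Filter Topology

variable {P : Type*} [TopologicalSpace P] [CompactSpace P]

lemma Dj_coord (i j : JJ) (p : P) (z : JJ → ℝ) :
    Dj (P := P) (fun _ (z : JJ → ℝ) => z i) j p z = (if i = j then 1 else 0 : ℝ) := by
  unfold Dj
  have h1 : HasFDerivAt (fun z : JJ → ℝ => z i) (ContinuousLinearMap.proj (R := ℝ) i) z :=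
    (ContinuousLinearMap.proj (R := ℝ) (φ := fun _ : JJ => ℝ) i).hasFDerivAt
  rw [h1.fderiv]
  simp only [ContinuousLinearMap.proj_apply, Pi.single_apply]

lemma Dj_const (c : P → ℝ) (j : JJ) (p : P) (z : JJ → ℝ) :
    Dj (P := P) (fun p (_ : JJ → ℝ) => c p) j p z = 0 := by
  unfold Dj; simp

/-- derivative of the linear part -/
def DL (ka : ℝ) : Matrix (Fin 6) (Fin 6) ℝ :=
  !![0, -1, 0, 0, 0, 0; 1, 0, 0, 0, 0, 0; 0, 0, 0, 0, 1, 0; 0, 0, 0, 0, 0, 1;
    0, 0, 2 * ka + 1, 0, 0, 2; 0, 0, 0, -(ka - 1), -2, 0]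

lemma lin_fderiv (i : Fin 6) (z : JJ → ℝ) :
    HasFDerivAt (fun z => lin z i) (∑ j : Fin 6, DL (z (Sum.inr 1)) i j •
      ContinuousLinearMap.proj (R := ℝ) (φ := fun _ : JJ => ℝ) (Sum.inl j)
      + (![0, 0, 0, 0, 2 * z (Sum.inl 2), -z (Sum.inl 3)] : Fin 6 → ℝ) i •
        ContinuousLinearMap.proj (R := ℝ) (φ := fun _ : JJ => ℝ) (Sum.inr 1)) z := by
  have hp : ∀ j : JJ, HasFDerivAt (fun z : JJ → ℝ => z j)
      (ContinuousLinearMap.proj (R := ℝ) (φ := fun _ : JJ => ℝ) j) z := fun j =>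
    (ContinuousLinearMap.proj (R := ℝ) (φ := fun _ : JJ => ℝ) j).hasFDerivAt
  fin_cases i
  · refine ((hp (Sum.inl 1)).neg).congr_fderiv ?_
    ext v
    simp [Fin.sum_univ_six, DL]
  · refine (hp (Sum.inl 0)).congr_fderiv ?_
    ext v
    simp [Fin.sum_univ_six, DL]
  · refine (hp (Sum.inl 4)).congr_fderiv ?_
    ext v
    simp [Fin.sum_univ_six, DL]
  · refine (hp (Sum.inl 5)).congr_fderiv ?_
    ext v
    simp [Fin.sum_univ_six, DL]
  · refine (((hp (Sum.inl 5)).const_mul 2).add ((((hp (Sum.inr 1)).const_mul 2).add_const 1).mul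
      (hp (Sum.inl 2)))).congr_fderiv ?_
    ext v
    simp [Fin.sum_univ_six, DL]
    ring
  · refine (((hp (Sum.inl 4)).const_mul (-2)).sub (((hp (Sum.inr 1)).sub_const 1).mul
      (hp (Sum.inl 3)))).congr_fderiv ?_
    ext v
    simp [Fin.sum_univ_six, DL]
    ring

lemma Dj_lin (i j : Fin 6) (p : P) (z : JJ → ℝ) :
    Dj (P := P) (fun _ z => lin z i) (Sum.inl j) p z = DL (z (Sum.inr 1)) i j := by
  unfold Dj
  rw [(lin_fderiv i z).fderiv]
  simp [Pi.single_apply]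

lemma Dj_lin0 (i : Fin 6) (p : P) (z : JJ → ℝ) :
    Dj (P := P) (fun _ z => lin z i) (Sum.inr 0) p z = 0 := by
  unfold Dj
  rw [(lin_fderiv i z).fderiv]
  simp [Pi.single_apply]

lemma Dj_lin1 (i : Fin 6) (p : P) (z : JJ → ℝ) :
    Dj (P := P) (fun _ z => lin z i) (Sum.inr 1) p z
      = (![0, 0, 0, 0, 2 * z (Sum.inl 2), -z (Sum.inl 3)] : Fin 6 → ℝ) i := by
  unfold Dj
  rw [(lin_fderiv i z).fderiv]
  simp [Pi.single_apply]

variable (ss si ti : C(P, ℝ))

/-- the perturbation as a function on the parameter space -/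
noncomputable def gg (ε : ℝ) (i : Fin 6) (p : P) (z : JJ → ℝ) : ℝ :=
  gf ε (ss p) (si p) (ti p) z i

lemma Dj_Yf (ε : ℝ) (i : Fin 6) (j : JJ) (p : P) (z : JJ → ℝ)
    (hd : DifferentiableAt ℝ (gg ss si ti ε i p) z) :
    Dj (Yf ss si ti ε i) j p z = (if Sum.inr 0 = j then 1 else 0) * (lin z i + ε * gg ss si ti ε i p z)
      + z (Sum.inr 0) * (Dj (P := P) (fun _ z => lin z i) j p z + ε * Dj (gg ss si ti ε i) j p z) := by
  have h1 : Yf ss si ti ε i = fun p z => z (Sum.inr 0) * (lin z i + ε * gg ss si ti ε i p z) := rfl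
  have d1 : DifferentiableAt ℝ (fun z : JJ → ℝ => z (Sum.inr 0)) z := differentiableAt_apply _ z
  have d2 : DifferentiableAt ℝ (fun z : JJ → ℝ => lin z i) z := (lin_fderiv i z).differentiableAt
  have d4 : DifferentiableAt ℝ (fun z : JJ → ℝ => ε * gg ss si ti ε i p z) z := hd.const_mul ε
  have d3 : DifferentiableAt ℝ (fun z : JJ → ℝ => lin z i + ε * gg ss si ti ε i p z) z := d2.add d4
  rw [h1, Dj_mul (φ := fun _ z => z (Sum.inr 0))
    (ψ := fun p z => lin z i + ε * gg ss si ti ε i p z) d1 d3, Dj_coord,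
    Dj_add (φ := fun _ z => lin z i) (ψ := fun p z => ε * gg ss si ti ε i p z) d2 d4,
    Dj_mul (φ := fun _ _ => ε) (ψ := gg ss si ti ε i) (differentiableAt_const _) hd, Dj_const]
  ring

/-- base values -/
noncomputable def z00 (P : Type*) [TopologicalSpace P] : JJ → P → ℝ × ℝ → ℝ :=
  fun j p x => zz (St0 P).U (St0 P).q p x j

lemma z00_TB (j : JJ) : TB (z00 P j) := by
  rcases j with i | k
  · exact U00_TB i ()
  · refine ⟨‖(St0 P).q k‖, norm_nonneg _, ?_⟩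
    exact B.const ((St0 P).q k)

lemma TF_coord (j : JJ) : TF (z00 P) (fun _ _ z => z j) := by
  obtain ⟨k, hk0, hk⟩ := z00_TB (P := P) j
  exact TF.coord j hk0 hk

lemma dM_U00 (v : ℝ × ℝ) (p : P) (x : ℝ × ℝ) (i : Fin 6) :
    dM v (fun (_ : P) x => U00 x) p x i ()
      = (![-v.1 * s1 x, v.1 * c1 x, -v.2 * s2 x, -(8 / 5 * al) * (v.2 * c2 x), -al * (v.2 * c2 x),
        -4 * (-v.2 * s2 x)] : Fin 6 → ℝ) i := by
  have hc : ∀ (c : ℝ) (f : P → ℝ × ℝ → ℝ) (v : ℝ × ℝ), DifferentiableAt ℝ (f p) x →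
      pd v (fun p x => c * f p x) p x = c * pd v f p x := fun c f v hf =>
    pd_cmul (f := f) hf (fun _ => c) v
  have d2 : DifferentiableAt ℝ (fun x => s2 x) x := (s2_B (P := P)).diff (by norm_num) p x
  have d3 : DifferentiableAt ℝ (fun x => c2 x) x := (c2_B (P := P)).diff (by norm_num) p x
  fin_cases i
  · exact pd_c1 v p x
  · exact pd_s1 v p x
  · exact pd_c2 v p x
  · change pd v (fun (_ : P) x => -(8 / 5 * al) * s2 x) p x = _
    rw [hc _ (fun _ x => s2 x) _ d2, pd_s2]; rfl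
  · change pd v (fun (_ : P) x => -al * s2 x) p x = _
    rw [hc _ (fun _ x => s2 x) _ d2, pd_s2]; rfl
  · change pd v (fun (_ : P) x => -4 * c2 x) p x = _
    rw [hc _ (fun _ x => c2 x) _ d3, pd_c2]; rfl

lemma zl (p : P) (x : ℝ × ℝ) (i : Fin 6) : (fun j => z00 P j p x) (Sum.inl i)
    = (![c1 x, s1 x, c2 x, -(8 / 5 * al) * s2 x, -al * s2 x, -4 * c2 x] : Fin 6 → ℝ) i := rfl

lemma zr0 (p : P) (x : ℝ × ℝ) : (fun j => z00 P j p x) (Sum.inr 0) = 1 := rfl

lemma zr1 (p : P) (x : ℝ × ℝ) : (fun j => z00 P j p x) (Sum.inr 1) = 9 / 4 := rfl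

lemma lin_z00 (p : P) (x : ℝ × ℝ) (i : Fin 6) :
    lin (fun j => z00 P j p x) i = dM om (fun (_ : P) x => U00 x) p x i () := by
  rw [dM_U00]
  have h := al_sq
  have e0 := zl (P := P) p x 0
  have e1 := zl (P := P) p x 1
  have e2 := zl (P := P) p x 2
  have e3 := zl (P := P) p x 3
  have e4 := zl (P := P) p x 4
  have e5 := zl (P := P) p x 5
  have e6 := zr1 (P := P) p x
  simp only at e0 e1 e2 e3 e4 e5 e6
  unfold lin om
  fin_cases i
  · simp [e1]
  · simp [e0]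
  · simp [e4]
  · simp [e5]; linear_combination (-(8 / 5) * c2 x) * h
  · simp [e5, e6, e2]; linear_combination (c2 x) * h
  · simp [e4, e6, e3]; ring

end Run7.h800
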