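import Pool.Agent.Run7.h800.Step3

set_option autoImplicit false
set_option linter.unusedSectionVars false

/-!
# The iteration
-/

namespace Run7.h800

open Filter Topology

variable {P : Type*} [TopologicalSpace P] [CompactSpace P]

lemma dep_seq {α : Type*} {Inv : ℕ → α → Prop} {Rel : ℕ → α → α → Prop} {t0 : α} (h0 : Inv 0 t0)
    (hs : ∀ n t, Inv n t → ∃ t', Inv (n + 1) t' ∧ Rel n t t') :
    ∃ f : ℕ → α, f 0 = t0 ∧ ∀ n, Inv n (f n) ∧ Rel n (f n) (f (n + 1)) := by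
  classical
  let F : (n : ℕ) → {t : α // Inv n t} := fun n => Nat.rec ⟨t0, h0⟩
    (fun n t => ⟨(hs n t.1 t.2).choose, (hs n t.1 t.2).choose_spec.1⟩) n
  refine ⟨fun n => (F n).1, rfl, fun n => ⟨(F n).2, ?_⟩⟩
  exact (hs n (F n).1 (F n).2).choose_spec.2

lemma St.Cl.trans {r a b : ℝ} {t t' t'' : St P} (h : t.Cl r a t') (h' : t'.Cl r b t'')
    (hr : 0 ≤ r) : t.Cl r (a + b) t'' := by
  have aux : ∀ {m n : Type} {X Y Z : P → ℝ × ℝ → Matrix m n ℝ},
      MB r a (fun p x => Y p x - X p x) → MB r b (fun p x => Z p x - Y p x) →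
      MB r (a + b) (fun p x => Z p x - X p x) := by
    intro m n X Y Z h1 h2 i j
    refine ((h1 i j).add (h2 i j) hr).congr (fun p x => ?_)
    simp only [Matrix.sub_apply]; ring
  refine ⟨aux h.U h'.U, aux h.Pb h'.Pb, aux h.Psa h'.Psa, aux h.Psb h'.Psb, aux h.S h'.S, ?_, ?_⟩
  · intro i
    have : t''.q i - t.q i = (t'.q i - t.q i) + (t''.q i - t'.q i) := by ring
    rw [this]
    exact (norm_add_le _ _).trans (add_le_add (h.q i) (h'.q i))
  · have : t''.lam - t.lam = (t'.lam - t.lam) + (t''.lam - t'.lam) := by ring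
    rw [this]
    exact (norm_add_le _ _).trans (add_le_add h.lam h'.lam)

lemma St.Cl.mono {r r' a b : ℝ} {t t' : St P} (h : t.Cl r a t') (hr' : 0 ≤ r') (hr : r' ≤ r)
    (hab : a ≤ b) : t.Cl r' b t' :=
  ⟨h.U.mono hr' hr hab, h.Pb.mono hr' hr hab, h.Psa.mono hr' hr hab, h.Psb.mono hr' hr hab,
    h.S.mono hr' hr hab, fun i => (h.q i).trans hab, h.lam.trans hab⟩

lemma St.Cl.refl {r : ℝ} (hr : 0 ≤ r) (t : St P) : t.Cl r 0 t := by
  have aux : ∀ {m n : Type} {X : P → ℝ × ℝ → Matrix m n ℝ},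
      MB r 0 (fun p x => X p x - X p x) := by
    intro m n X i j
    refine B.zero.congr (fun p x => ?_)
    simp
  exact ⟨aux, aux, aux, aux, aux, fun i => by simp, by simp⟩

lemma St.Er.mono {V : Fld P} {ω : ℝ × ℝ} {r r' a b : ℝ} {t : St P} (h : t.Er V ω r a)
    (hr' : 0 ≤ r') (hr : r' ≤ r) (hab : a ≤ b) : t.Er V ω r' b :=
  ⟨h.E.mono hr' hr hab, h.R.mono hr' hr hab, h.F.mono hr' hr hab⟩

lemma St.Cl.bd {r R k a : ℝ} {t t' : St P} (h : t.Cl r a t') (hb : t.Bd R k) (hr : 0 ≤ r)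
    (hR : r ≤ R) : t'.Bd r (k + a) := by
  have aux : ∀ {m n : Type} {X Y : P → ℝ × ℝ → Matrix m n ℝ},
      MB R k X → MB r a (fun p x => Y p x - X p x) → MB r (k + a) Y := by
    intro m n X Y h1 h2 i j
    refine (((h1 i j).mono hr hR le_rfl).add (h2 i j) hr).congr (fun p x => ?_)
    simp only [Matrix.sub_apply]; ring
  exact ⟨aux hb.U h.U, aux hb.Pb h.Pb, aux hb.Psa h.Psa, aux hb.Psb h.Psb, aux hb.S h.S⟩

lemma MB.abs_le {m n : Type*} {r M : ℝ} {A : P → ℝ × ℝ → Matrix m n ℝ} (h : MB r M A) (hr : 1 ≤ r)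
    (p : P) (x : ℝ × ℝ) (i : m) (j : n) : |A p x i j| ≤ M := (h i j).norm_le hr p x

/-- closeness of the determinant of the mean matrix -/
lemma det_close {ω : ℝ × ℝ} {a K k X c δ : ℝ} (ha : 0 ≤ a) (hK : 0 ≤ K) (hk : 0 ≤ k)
    (hc : 0 ≤ c)
    {P1 P2 : P → ℝ × ℝ → Matrix (Fin 2) (Fin 6) ℝ} {B1 B2 : P → ℝ × ℝ → Matrix (Fin 6) (Fin 2) ℝ}
    {S : P → ℝ × ℝ → Matrix (Fin 2) (Fin 4) ℝ} {xb : P → ℝ × ℝ → Matrix (Fin 4) (Fin 2) ℝ}
    (h1 : MB 1 k P1) (h2 : MB 1 a (fun p x => P2 p x - P1 p x)) (h3 : MB 1 K B2)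
    (h4 : MB 1 (K * a) (fun p x => B2 p x - B1 p x)) (h5 : MB 1 a S) (h6 : MB 1 X xb)
    {c0 Cm : P → Matrix (Fin 2) (Fin 2) ℝ}
    (hc0 : ∀ i j, Mn ω (fun p x => (P1 p x * B1 p x) i j) (fun p => c0 p i j))
    (hc0b : ∀ p i j, |c0 p i j| ≤ c)
    (hCm : ∀ i j, Mn ω (fun p x => (P2 p x * B2 p x - S p x * xb p x) i j) (fun p => Cm p i j))
    (hd : ∀ p, 2 * δ ≤ |c0 p 0 0 * c0 p 1 1 - c0 p 0 1 * c0 p 1 0|)
    (hsm : 4 * (c + 1) * ((6 * K + 6 * k * K + 4 * X) * a) ≤ δ)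
    (hsm1 : (6 * K + 6 * k * K + 4 * X) * a ≤ 1) (p : P) :
    δ ≤ |Cm p 0 0 * Cm p 1 1 - Cm p 0 1 * Cm p 1 0| := by
  set b := (6 * K + 6 * k * K + 4 * X) * a with hb
  have hdiff : ∀ i j, |Cm p i j - c0 p i j| ≤ b := by
    intro i j
    have h7 := ((hCm i j).sub (hc0 i j))
    refine Mn.abs_le h7 p (fun x => ?_)
    have e : (P2 p x * B2 p x - S p x * xb p x) i j - (P1 p x * B1 p x) i j
        = (∑ l, ((P2 p x i l - P1 p x i l) * B2 p x l j + P1 p x i l * (B2 p x l j - B1 p x l j)))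
          - ∑ l, S p x i l * xb p x l j := by
      rw [Matrix.sub_apply, Matrix.mul_apply, Matrix.mul_apply, Matrix.mul_apply]
      have : ∀ l, (P2 p x i l - P1 p x i l) * B2 p x l j + P1 p x i l * (B2 p x l j - B1 p x l j)
          = P2 p x i l * B2 p x l j - P1 p x i l * B1 p x l j := fun l => by ring
      simp only [this, Finset.sum_sub_distrib]
      ring
    rw [e]
    have t1 : |∑ l, ((P2 p x i l - P1 p x i l) * B2 p x l j
        + P1 p x i l * (B2 p x l j - B1 p x l j))| ≤ 6 * (a * K + k * (K * a)) := by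
      refine (Finset.abs_sum_le_sum_abs _ _).trans ?_
      have : ∀ l ∈ Finset.univ, |(P2 p x i l - P1 p x i l) * B2 p x l j
          + P1 p x i l * (B2 p x l j - B1 p x l j)| ≤ a * K + k * (K * a) := by
        intro l _
        have e2 : |P2 p x i l - P1 p x i l| ≤ a := h2.abs_le le_rfl p x i l
        have e3 : |B2 p x l j| ≤ K := h3.abs_le le_rfl p x l j
        have e4 : |P1 p x i l| ≤ k := h1.abs_le le_rfl p x i l
        have e5 : |B2 p x l j - B1 p x l j| ≤ K * a := h4.abs_le le_rfl p x l j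
        refine (abs_add_le _ _).trans ?_
        rw [abs_mul, abs_mul]
        gcongr
      refine (Finset.sum_le_sum this).trans ?_
      simp
      linarith
    have t2 : |∑ l, S p x i l * xb p x l j| ≤ 4 * (a * X) := by
      refine (Finset.abs_sum_le_sum_abs _ _).trans ?_
      have : ∀ l ∈ Finset.univ, |S p x i l * xb p x l j| ≤ a * X := by
        intro l _
        have e2 : |S p x i l| ≤ a := h5.abs_le le_rfl p x i l
        have e3 : |xb p x l j| ≤ X := h6.abs_le le_rfl p x l j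
        rw [abs_mul]
        gcongr
      refine (Finset.sum_le_sum this).trans ?_
      simp
    have t3 := abs_sub (∑ l, ((P2 p x i l - P1 p x i l) * B2 p x l j
        + P1 p x i l * (B2 p x l j - B1 p x l j))) (∑ l, S p x i l * xb p x l j)
    rw [hb]
    nlinarith
  have hb0 : 0 ≤ b := (abs_nonneg _).trans (hdiff 0 0)
  have key : ∀ i j i' j', |Cm p i j * Cm p i' j' - c0 p i j * c0 p i' j'| ≤ (2 * c + 1) * b := by
    intro i j i' j'
    have e : Cm p i j * Cm p i' j' - c0 p i j * c0 p i' j'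
        = (Cm p i j - c0 p i j) * (Cm p i' j' - c0 p i' j') + (Cm p i j - c0 p i j) * c0 p i' j'
          + c0 p i j * (Cm p i' j' - c0 p i' j') := by ring
    have a1 := hdiff i j
    have a2 := hdiff i' j'
    have a3 := hc0b p i j
    have a4 := hc0b p i' j'
    rw [e]
    calc _ ≤ |(Cm p i j - c0 p i j) * (Cm p i' j' - c0 p i' j')| + |(Cm p i j - c0 p i j) * c0 p i' j'|
          + |c0 p i j * (Cm p i' j' - c0 p i' j')| := abs_add_three _ _ _
      _ ≤ b * b + b * c + c * b := by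
          rw [abs_mul, abs_mul, abs_mul]
          gcongr
      _ ≤ _ := by nlinarith
  have k1 := key 0 0 1 1
  have k2 := key 0 1 1 0
  have k3 : |(Cm p 0 0 * Cm p 1 1 - Cm p 0 1 * Cm p 1 0)
      - (c0 p 0 0 * c0 p 1 1 - c0 p 0 1 * c0 p 1 0)| ≤ 2 * ((2 * c + 1) * b) := by
    have e : (Cm p 0 0 * Cm p 1 1 - Cm p 0 1 * Cm p 1 0)
      - (c0 p 0 0 * c0 p 1 1 - c0 p 0 1 * c0 p 1 0) = (Cm p 0 0 * Cm p 1 1 - c0 p 0 0 * c0 p 1 1)
      - (Cm p 0 1 * Cm p 1 0 - c0 p 0 1 * c0 p 1 0) := by ring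
    rw [e]
    have := abs_sub (Cm p 0 0 * Cm p 1 1 - c0 p 0 0 * c0 p 1 1)
      (Cm p 0 1 * Cm p 1 0 - c0 p 0 1 * c0 p 1 0)
    linarith
  have k4 := hd p
  have k5 := abs_sub_abs_le_abs_sub (c0 p 0 0 * c0 p 1 1 - c0 p 0 1 * c0 p 1 0)
    (Cm p 0 0 * Cm p 1 1 - Cm p 0 1 * Cm p 1 0)
  rw [abs_sub_comm (c0 p 0 0 * c0 p 1 1 - c0 p 0 1 * c0 p 1 0)
    (Cm p 0 0 * Cm p 1 1 - Cm p 0 1 * Cm p 1 0)] at k5
  have k6 : 2 * ((2 * c + 1) * b) ≤ 4 * (c + 1) * b := by nlinarith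
  linarith

end Run7.h800
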