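import Pool.Agent.Run7.h800.Iter

set_option autoImplicit false
set_option linter.unusedSectionVars false

/-!
# The KAM theorem
-/

namespace Run7.h800

open Filter Topology

variable {P : Type*} [TopologicalSpace P] [CompactSpace P]

/-- one step, with the scaled constants -/
lemma step_n {ω : ℝ × ℝ} {G ρ K k δ c H L ε y κ X : ℝ} (hω : Dio G ω) (hK : 0 ≤ K)
    (hk : 0 ≤ k) (hδ : 0 < δ) (hc : 0 ≤ c) (hH : G ≤ H) (hH' : 1 / δ ≤ H) (hL16 : 16 ≤ L)
    (hLk : k + 1 ≤ L) (hLK : K ≤ L) (hLH : H ≤ L) (hy0 : 0 < y) (hy1 : y ≤ 1) (hε : 0 ≤ ε)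
    (hκ : κ = 2 * L ^ 60 * ε) (hκ1 : κ ≤ 1) (hκρ : κ ≤ ρ) (hκδ : κ ≤ δ)
    (hX : X = 36 * (H / (1 - 1 / 2) * (6 * ((k + 1) * K))))
    (hsm : 4 * (c + 1) * ((6 * K + 6 * k * K + 4 * X) * κ) ≤ δ)
    (hsm1 : (6 * K + 6 * k * K + 4 * X) * κ ≤ 1)
    (hq : L ^ 120 * 2 ^ 120 * ε ≤ 1)
    {V : Fld P} {t0 : St P} {c0 : P → Matrix (Fin 2) (Fin 2) ℝ}
    (hV : V.Tame 4 ρ K t0.U t0.q) (bd0 : t0.Bd 4 k) (hlam0 : ∀ p, 2 * δ ≤ t0.lam p)
    (hS0 : ∀ p x, t0.S p x = 0)
    (hc0 : ∀ i j, Mn ω (fun p x => (t0.Psa p x * V.Bq p (zz t0.U t0.q p x)) i j)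
      (fun p => c0 p i j))
    (hc0b : ∀ p i j, |c0 p i j| ≤ c)
    (hd : ∀ p, 2 * δ ≤ |c0 p 0 0 * c0 p 1 1 - c0 p 0 1 * c0 p 1 0|)
    {t : St P} (sy : t.Sym) (cl : t0.Cl (2 + 2 * y) (κ * (1 - y)) t)
    (er : t.Er V ω (2 + 2 * y) (ε * y ^ 120)) :
    ∃ t' : St P, (t'.Sym ∧ t0.Cl (2 + 2 * (y / 2)) (κ * (1 - y / 2)) t' ∧
      t'.Er V ω (2 + 2 * (y / 2)) (ε * (y / 2) ^ 120)) ∧ t.Cl 2 (L ^ 60 * ε * y) t' := by
  have hL0 : 0 < L := by linarith
  have hκ0 : 0 ≤ κ := by rw [hκ]; positivity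
  have hH0 : 0 ≤ H := (by positivity : (0 : ℝ) ≤ 1 / δ).trans hH'
  have hX0 : 0 ≤ X := by rw [hX]; positivity
  have hLy : L ≤ L / y := by
    rw [le_div_iff₀ hy0]; nlinarith
  -- loss of radius
  have hbern : 1 - y / 4 ≤ (1 - y / 16) * (1 - y / 16) * (1 - y / 16) * (1 - y / 16) := by
    nlinarith [mul_nonneg hy0.le hy0.le, mul_nonneg (mul_nonneg hy0.le hy0.le) hy0.le,
      mul_nonneg (mul_nonneg hy0.le hy0.le) (mul_nonneg hy0.le hy0.le)]
  have hrad : 2 + y ≤ (2 + 2 * y) * (1 - y / 16) * (1 - y / 16) * (1 - y / 16) * (1 - y / 16) := by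
    have h1 : 2 + y ≤ (2 + 2 * y) * (1 - y / 4) := by nlinarith
    have h2 : (2 + 2 * y) * (1 - y / 4) ≤ (2 + 2 * y) *
        ((1 - y / 16) * (1 - y / 16) * (1 - y / 16) * (1 - y / 16)) := by
      apply mul_le_mul_of_nonneg_left hbern; linarith
    linarith
  have hΛ60 : (L / y) ^ 60 * (ε * y ^ 120) = L ^ 60 * ε * y ^ 60 := by
    rw [div_pow]; field_simp
  have hy60 : y ^ 60 ≤ y := by
    calc y ^ 60 ≤ y ^ 1 := pow_le_pow_of_le_one hy0.le hy1 (by norm_num)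
      _ = y := pow_one y
  have hinc : (L / y) ^ 60 * (ε * y ^ 120) ≤ L ^ 60 * ε * y := by
    rw [hΛ60]
    exact mul_le_mul_of_nonneg_left hy60 (mul_nonneg (pow_nonneg hL0.le 60) hε)
  have hκy : L ^ 60 * ε * y = κ * (y / 2) := by rw [hκ]; ring
  have hinc2 : (L / y) ^ 60 * (ε * y ^ 120) ≤ κ * (y / 2) := by rw [← hκy]; exact hinc
  -- determinant
  have hmono : κ * (1 - y) ≤ κ := by nlinarith
  have hn : near (2 + 2 * y) (κ * (1 - y)) t0.U t0.q t.U t.q := ⟨cl.U, cl.q⟩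
  have hn1 : near (2 + 2 * y) ρ t0.U t0.q t.U t.q := hn.mono (by linarith) le_rfl (by linarith)
  have hdet : ∀ (xb : P → ℝ × ℝ → Matrix (Fin 4) (Fin 2) ℝ) (Cm : P → Matrix (Fin 2) (Fin 2) ℝ),
      MB 1 (36 * (H / (1 - 1 / 2) * (6 * ((k + 1) * K)))) xb →
      (∀ i j, Mn ω (fun p x => (t.Psa p x * V.Bq p (zz t.U t.q p x) - t.S p x * xb p x) i j)
        (fun p => Cm p i j)) →
      ∀ p, δ ≤ |Cm p 0 0 * Cm p 1 1 - Cm p 0 1 * Cm p 1 0| := by
    intro xb Cm hxb hCm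
    rw [← hX] at hxb
    have hz : near 1 ρ t0.U t0.q t0.U t0.q := by
      constructor
      · intro i j
        refine (B.zero.mono zero_le_one le_rfl (hκ0.trans hκρ)).congr (fun p x => ?_)
        simp
      · intro k; simp; exact hκ0.trans hκρ
    have hn11 : near 1 ρ t0.U t0.q t.U t.q := hn1.mono (by linarith) (by linarith) le_rfl
    have hU1 : (fun p x => t0.U p x + (fun p x => t.U p x - t0.U p x) p x) = t.U := by
      funext p x; simp
    have hq1 : t0.q + (t.q - t0.q) = t.q := by abel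
    have h4 := hV.lB 1 t0.U t0.q (fun p x => t.U p x - t0.U p x) (t.q - t0.q) κ le_rfl
      (by norm_num) hz (by rw [hU1, hq1]; exact hn11)
      (cl.U.mono (by linarith) (by linarith) hmono) (fun k => (cl.q k).trans hmono) hκ1
    rw [hU1, hq1] at h4
    have h5 : MB 1 κ t.S := (cl.S.mono (by linarith) (by linarith) hmono : MB 1 κ _).congr
      (fun p x => by rw [hS0]; simp)
    exact det_close (ω := ω) (P1 := t0.Psa) (P2 := t.Psa)
      (B1 := fun p x => V.Bq p (zz t0.U t0.q p x)) (B2 := fun p x => V.Bq p (zz t.U t.q p x))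
      (S := t.S) hκ0 hK hk hc
      (bd0.Psa.mono zero_le_one (by norm_num) le_rfl)
      (cl.Psa.mono (by linarith) (by linarith) hmono)
      (hV.bB 1 t.U t.q le_rfl (by norm_num) hn11) h4 h5 hxb hc0 hc0b hCm hd hsm hsm1
  obtain ⟨t', s1, s2, s3⟩ := step (s := 1 - y / 16) (k := k + 1) (Λ := L / y) (ρ' := κ * (1 - y))
    (ε := ε * y ^ 120) hω hV (by linarith) (by linarith) (by linarith) (by linarith)
    (by linarith) (by linarith) (by positivity) hδ hH hH' (by linarith) (by linarith)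
    (by linarith) (by linarith)
    (by
      have e : 1 - (1 - y / 16) = y / 16 := by ring
      rw [e, one_div_div]
      gcongr)
    (hinc2.trans (by nlinarith)) (by nlinarith [hinc2])
    (t := t)
    (by
      have := cl.bd bd0 (by linarith) (by linarith)
      have aux : k + κ * (1 - y) ≤ k + 1 := by linarith
      exact ⟨this.U.mono (by linarith) le_rfl aux, this.Pb.mono (by linarith) le_rfl aux,
        this.Psa.mono (by linarith) le_rfl aux, this.Psb.mono (by linarith) le_rfl aux,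
        this.S.mono (by linarith) le_rfl aux⟩)
    sy
    (by
      intro p
      have h1 := hlam0 p
      have h2 : |(t.lam - t0.lam) p| ≤ κ * (1 - y) :=
        ((t.lam - t0.lam).norm_coe_le_norm p).trans cl.lam
      rw [ContinuousMap.sub_apply] at h2
      have h3 := (_root_.abs_le.mp h2).1
      linarith)
    hn er hdet
  refine ⟨t', ⟨s1, ?_, ?_⟩, ?_⟩
  · have h1 := (cl.mono (r' := 2 + 2 * (y / 2)) (by linarith) (by linarith) le_rfl).trans
      (s2.mono (r' := 2 + 2 * (y / 2)) (by linarith) (by linarith) hinc2) (by linarith)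
    exact h1.mono (by linarith) le_rfl (by linarith)
  · refine s3.mono (by linarith) (by linarith) ?_
    have e1 : (L / y) ^ 120 * (ε * y ^ 120) ^ 2 = (L ^ 120 * ε) * (ε * y ^ 120) := by
      rw [div_pow]; field_simp
    rw [e1, div_pow]
    have h2 : L ^ 120 * ε ≤ 1 / 2 ^ 120 := by
      rw [le_div_iff₀ (by positivity)]
      linarith
    calc (L ^ 120 * ε) * (ε * y ^ 120) ≤ 1 / 2 ^ 120 * (ε * y ^ 120) := by gcongr
      _ = _ := by ring
  · exact s2.mono (by norm_num) (by linarith) hinc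

end Run7.h800
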