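import Pool.Agent.Run7.h800.Kam

set_option autoImplicit false
set_option linter.unusedSectionVars false

/-!
# The KAM theorem
-/

namespace Run7.h800

open Filter Topology

variable {P : Type*} [TopologicalSpace P] [CompactSpace P]

lemma geo_tail (a : ℝ) (N : ℕ) :
    HasSum (fun n : ℕ => a * (1 / 2 : ℝ) ^ (n + N)) (2 * a * (1 / 2) ^ N) := by
  have h := hasSum_geometric_two.mul_left (a * (1 / 2 : ℝ) ^ N)
  have e : (fun n : ℕ => a * (1 / 2 : ℝ) ^ (n + N))
      = fun n : ℕ => a * (1 / 2 : ℝ) ^ N * (1 / 2 : ℝ) ^ n := by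
    funext n; rw [pow_add]; ring
  have e2 : 2 * a * (1 / 2 : ℝ) ^ N = a * (1 / 2 : ℝ) ^ N * 2 := by ring
  rw [e, e2]
  exact h

/-- The KAM theorem. -/
theorem kam {ω : ℝ × ℝ} {G ρ K k δ c : ℝ} (hω : Dio G ω) (hρ0 : 0 < ρ) (hK : 0 ≤ K)
    (hk : 0 ≤ k) (hδ : 0 < δ) (hc : 0 ≤ c) :
    ∃ e0 C : ℝ, 0 < e0 ∧ 0 ≤ C ∧ ∀ (V : Fld P) (t0 : St P) (c0 : P → Matrix (Fin 2) (Fin 2) ℝ)
      (ε : ℝ), 0 ≤ ε → ε ≤ e0 → V.Tame 4 ρ K t0.U t0.q → t0.Sym → t0.Bd 4 k →
      (∀ p, 2 * δ ≤ t0.lam p) → (∀ p x, t0.S p x = 0) →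
      (∀ i j, Mn ω (fun p x => (t0.Psa p x * V.Bq p (zz t0.U t0.q p x)) i j)
        (fun p => c0 p i j)) →
      (∀ p i j, |c0 p i j| ≤ c) →
      (∀ p, 2 * δ ≤ |c0 p 0 0 * c0 p 1 1 - c0 p 0 1 * c0 p 1 0|) → t0.Er V ω 4 ε →
      ∃ (U : P → ℝ × ℝ → Matrix (Fin 6) Unit ℝ) (q : Fin 2 → C(P, ℝ)),
        (∀ p x, U p (-x) = Sg * U p x) ∧ MB 2 (C * ε) (fun p x => U p x - t0.U p x) ∧
        (∀ k, ‖q k - t0.q k‖ ≤ C * ε) ∧ (∀ p x, dM ω U p x = V.Y p (zz U q p x)) ∧
        C * ε ≤ ρ := by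
  obtain ⟨H, hHd⟩ : ∃ H, H = max G (1 / δ) := ⟨_, rfl⟩
  have hHG : G ≤ H := by rw [hHd]; exact le_max_left _ _
  have hHδ : 1 / δ ≤ H := by rw [hHd]; exact le_max_right _ _
  have hH0 : 0 ≤ H := (by positivity : (0 : ℝ) ≤ 1 / δ).trans hHδ
  obtain ⟨L, hLd⟩ : ∃ L, L = 16 + (k + 1) + K + H := ⟨_, rfl⟩
  have hL16 : 16 ≤ L := by rw [hLd]; linarith
  have hLk : k + 1 ≤ L := by rw [hLd]; linarith
  have hLK : K ≤ L := by rw [hLd]; linarith
  have hLH : H ≤ L := by rw [hLd]; linarith
  have hL0 : 0 < L := by linarith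
  obtain ⟨X, hX⟩ : ∃ X, X = 36 * (H / (1 - 1 / 2) * (6 * ((k + 1) * K))) := ⟨_, rfl⟩
  have hX0 : 0 ≤ X := by rw [hX]; positivity
  obtain ⟨D, hD⟩ : ∃ D, D = 6 * K + 6 * k * K + 4 * X := ⟨_, rfl⟩
  have hD0 : 0 ≤ D := by rw [hD]; positivity
  obtain ⟨m, hm⟩ : ∃ m, m = min 1 (min ρ (min δ (min (δ / (4 * (c + 1) * (D + 1))) (1 / (D + 1))))) :=
    ⟨_, rfl⟩
  have hm0 : 0 < m := by rw [hm]; positivity
  have hm1 : m ≤ 1 := by rw [hm]; exact min_le_left _ _
  have hmρ : m ≤ ρ := by rw [hm]; exact (min_le_right _ _).trans (min_le_left _ _)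
  have hmδ : m ≤ δ := by
    rw [hm]; exact (min_le_right _ _).trans ((min_le_right _ _).trans (min_le_left _ _))
  have hm4 : m ≤ δ / (4 * (c + 1) * (D + 1)) := by
    rw [hm]; exact (min_le_right _ _).trans ((min_le_right _ _).trans ((min_le_right _ _).trans
      (min_le_left _ _)))
  have hm5 : m ≤ 1 / (D + 1) := by
    rw [hm]; exact (min_le_right _ _).trans ((min_le_right _ _).trans ((min_le_right _ _).trans
      (min_le_right _ _)))
  refine ⟨min (1 / (L ^ 120 * 2 ^ 120)) (m / (2 * L ^ 60)), 2 * L ^ 60, by positivity,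
    by positivity, ?_⟩
  intro V t0 c0 ε hε he hV sy0 bd0 hlam0 hS0 hc0 hc0b hd er0
  have he1 : ε ≤ 1 / (L ^ 120 * 2 ^ 120) := he.trans (min_le_left _ _)
  have he2 : ε ≤ m / (2 * L ^ 60) := he.trans (min_le_right _ _)
  obtain ⟨κ, hκ⟩ : ∃ κ, κ = 2 * L ^ 60 * ε := ⟨_, rfl⟩
  have hL60 : 0 < L ^ 60 := pow_pos hL0 60
  have hL120 : 0 < L ^ 120 * 2 ^ 120 := mul_pos (pow_pos hL0 120) (by positivity)
  have hκm : κ ≤ m := by
    rw [hκ]
    have := mul_le_mul_of_nonneg_left he2 (by linarith : 0 ≤ 2 * L ^ 60)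
    rwa [mul_div_cancel₀ _ (by linarith : (2 : ℝ) * L ^ 60 ≠ 0)] at this
  have hκ0 : 0 ≤ κ := by rw [hκ]; exact mul_nonneg (by linarith) hε
  have hq : L ^ 120 * 2 ^ 120 * ε ≤ 1 := by
    have := mul_le_mul_of_nonneg_left he1 hL120.le
    rwa [mul_one_div_cancel hL120.ne'] at this
  have hsm1 : (6 * K + 6 * k * K + 4 * X) * κ ≤ 1 := by
    rw [← hD]
    have h1 : κ ≤ 1 / (D + 1) := hκm.trans hm5
    calc D * κ ≤ (D + 1) * κ := by nlinarith
      _ ≤ (D + 1) * (1 / (D + 1)) := by gcongr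
      _ = 1 := mul_one_div_cancel (by linarith)
  have hsm : 4 * (c + 1) * ((6 * K + 6 * k * K + 4 * X) * κ) ≤ δ := by
    rw [← hD]
    have h1 : κ ≤ δ / (4 * (c + 1) * (D + 1)) := hκm.trans hm4
    have h2 : 0 < 4 * (c + 1) * (D + 1) := by positivity
    calc 4 * (c + 1) * (D * κ) ≤ 4 * (c + 1) * ((D + 1) * κ) := by
          have : D * κ ≤ (D + 1) * κ := by nlinarith
          gcongr
      _ = 4 * (c + 1) * (D + 1) * κ := by ring
      _ ≤ 4 * (c + 1) * (D + 1) * (δ / (4 * (c + 1) * (D + 1))) := by gcongr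
      _ = δ := mul_div_cancel₀ _ h2.ne'
  -- the sequence
  obtain ⟨f, hf0, hf⟩ := dep_seq
    (Inv := fun n (t : St P) => t.Sym ∧ t0.Cl (2 + 2 * (1 / 2) ^ n) (κ * (1 - (1 / 2) ^ n)) t ∧
      t.Er V ω (2 + 2 * (1 / 2) ^ n) (ε * ((1 / 2) ^ n) ^ 120))
    (Rel := fun n (t t' : St P) => t.Cl 2 (L ^ 60 * ε * (1 / 2) ^ n) t')
    (t0 := t0)
    (by
      refine ⟨sy0, ?_, ?_⟩
      · have := St.Cl.refl (r := 2 + 2 * (1 / 2) ^ 0) (by norm_num) t0
        simpa using this
      · have e1 : (2 : ℝ) + 2 * (1 / 2) ^ 0 = 4 := by norm_num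
        have e2 : ε * (((1 : ℝ) / 2) ^ 0) ^ 120 = ε := by
          rw [pow_zero, one_pow, mul_one]
        rw [e1, e2]
        exact er0)
    (by
      rintro n t ⟨h1, h2, h3⟩
      have hy0 : (0 : ℝ) < (1 / 2) ^ n := by positivity
      have hy1 : ((1 : ℝ) / 2) ^ n ≤ 1 := pow_le_one₀ (by norm_num) (by norm_num)
      obtain ⟨t', ⟨g1, g2, g3⟩, g4⟩ := step_n (X := X) (c := c) hω hK hk hδ hc hHG hHδ hL16 hLk hLK hLH
        hy0 hy1 hε hκ (hκm.trans hm1) (hκm.trans hmρ) (hκm.trans hmδ) hX hsm hsm1 hq hV bd0 hlam0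
        hS0 hc0 hc0b hd h1 h2 h3
      have e : ((1 : ℝ) / 2) ^ (n + 1) = (1 / 2) ^ n / 2 := by rw [pow_succ]; ring
      refine ⟨t', ⟨g1, ?_, ?_⟩, g4⟩
      · rw [e]; exact g2
      · rw [e]; exact g3)
  -- increments
  have hdU : ∀ n, MB 2 (L ^ 60 * ε * (1 / 2) ^ n) (fun p x => (f (n + 1)).U p x - (f n).U p x) :=
    fun n => (hf n).2.U
  have hdq : ∀ n k, ‖(f (n + 1)).q k - (f n).q k‖ ≤ L ^ 60 * ε * (1 / 2) ^ n :=
    fun n => (hf n).2.q
  have hκ2 : 2 * (L ^ 60 * ε) = κ := by rw [hκ]; ring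
  have hsumk : ∀ N : ℕ, HasSum (fun n : ℕ => L ^ 60 * ε * (1 / 2 : ℝ) ^ (n + N)) (κ * (1 / 2) ^ N) := by
    intro N
    have := geo_tail (L ^ 60 * ε) N
    rwa [hκ2] at this
  have hsum0 : Summable (fun n : ℕ => L ^ 60 * ε * (1 / 2 : ℝ) ^ n) := by
    have := (hsumk 0).summable
    simpa using this
  -- pointwise summability
  have hpt : ∀ p x i, Summable (fun n => (f (n + 1)).U p x i () - (f n).U p x i ()) := by
    intro p x i
    refine Summable.of_norm_bounded hsum0 (fun n => ?_)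
    exact (hdU n).abs_le (by norm_num) p x i ()
  have hqs : ∀ k, Summable (fun n => (f (n + 1)).q k - (f n).q k) := fun k =>
    Summable.of_norm_bounded hsum0 (fun n => hdq n k)
  obtain ⟨U, hU⟩ : ∃ U : P → ℝ × ℝ → Matrix (Fin 6) Unit ℝ, U = fun p x =>
      Matrix.of fun i _ => t0.U p x i () + ∑' n, ((f (n + 1)).U p x i () - (f n).U p x i ()) :=
    ⟨_, rfl⟩
  obtain ⟨q, hq'⟩ : ∃ q : Fin 2 → C(P, ℝ), q = fun k => t0.q k + ∑' n, ((f (n + 1)).q k - (f n).q k) :=
    ⟨_, rfl⟩
  have hUN : ∀ N, MB 2 (κ * (1 / 2) ^ N) (fun p x => U p x - (f N).U p x) := by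
    intro N i j
    have h1 := B.tsum (P := P) (r := 2) (by norm_num) (hsumk N).summable
      (fun n => hdU (n + N) i j)
    rw [(hsumk N).tsum_eq] at h1
    refine h1.congr (fun p x => ?_)
    have h2 := (hpt p x i).sum_add_tsum_nat_add N
    have h3 : ∑ n ∈ Finset.range N, ((f (n + 1)).U p x i () - (f n).U p x i ())
        = (f N).U p x i () - (f 0).U p x i () :=
      Finset.sum_range_sub (fun n => (f n).U p x i ()) N
    rw [h3, hf0] at h2
    rw [hU]
    simp only [Matrix.sub_apply, Matrix.of_apply]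
    rw [← h2]
    have h4 : ∀ n, (f (n + N + 1)).U p x i j - (f (n + N)).U p x i j
        = (f (n + N + 1)).U p x i () - (f (n + N)).U p x i () := fun n => rfl
    simp only [h4]
    have h5 : (f N).U p x i j = (f N).U p x i () := rfl
    rw [h5]; ring
  have hqN : ∀ N k, ‖q k - (f N).q k‖ ≤ κ * (1 / 2) ^ N := by
    intro N k
    have h2 := (hqs k).sum_add_tsum_nat_add N
    have h3 : ∑ n ∈ Finset.range N, ((f (n + 1)).q k - (f n).q k)
        = (f N).q k - (f 0).q k := Finset.sum_range_sub (fun n => (f n).q k) N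
    rw [h3, hf0] at h2
    have h4 : q k - (f N).q k = ∑' n, ((f (n + N + 1)).q k - (f (n + N)).q k) := by
      rw [hq']
      simp only
      rw [← h2]; ring
    rw [h4]
    refine tsum_of_norm_bounded (hsumk N) (fun n => ?_)
    exact hdq (n + N) k
  refine ⟨U, q, ?_, ?_, ?_, ?_, ?_⟩
  · intro p x
    ext i j
    have hs : ∀ n, (f n).U p (-x) = Sg * (f n).U p x := fun n => (hf n).1.1.U p x
    -- by uniqueness of the limit
    have key : ∀ p x i, Tendsto (fun N => (f N).U p x i ()) atTop (𝓝 (U p x i ())) := by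
      intro p x i
      rw [tendsto_iff_norm_sub_tendsto_zero]
      have h0 : Tendsto (fun N : ℕ => κ * (1 / 2 : ℝ) ^ N) atTop (𝓝 0) := by
        have := (tendsto_pow_atTop_nhds_zero_of_lt_one (r := (1 / 2 : ℝ)) (by norm_num)
          (by norm_num)).const_mul κ
        simpa using this
      refine squeeze_zero (fun N => norm_nonneg _) (fun N => ?_) h0
      have := (hUN N).abs_le (by norm_num) p x i ()
      rw [Matrix.sub_apply] at this
      rw [norm_sub_rev]
      exact this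
    have h1 := key p (-x) i
    have h2 : Tendsto (fun N => (Sg * (f N).U p x) i ()) atTop (𝓝 ((Sg * U p x) i ())) := by
      simp only [Matrix.mul_apply]
      exact tendsto_finset_sum _ (fun l _ => (key p x l).const_mul _)
    simp only [hs] at h1
    exact tendsto_nhds_unique h1 h2
  · have := hUN 0
    rw [hf0, pow_zero, mul_one, hκ] at this
    exact this
  · intro k
    have := hqN 0 k
    rw [hf0, pow_zero, mul_one, hκ] at this
    exact this
  · intro p x
    have hn : ∀ N, near 2 ρ t0.U t0.q (f N).U (f N).q := by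
      intro N
      have h1 := (hf N).1.2.1
      have hy0 : (0 : ℝ) < (1 / 2) ^ N := by positivity
      have h2 : κ * (1 - (1 / 2) ^ N) ≤ ρ := by nlinarith [hκm.trans hmρ]
      exact ⟨h1.U.mono (by norm_num) (by linarith) h2, fun k => (h1.q k).trans h2⟩
    have hn' : near 2 ρ t0.U t0.q U q := by
      constructor
      · have := hUN 0
        rw [hf0, pow_zero, mul_one] at this
        exact this.mono (by norm_num) le_rfl (hκm.trans hmρ)
      · intro k
        have := hqN 0 k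
        rw [hf0, pow_zero, mul_one] at this
        exact this.trans (hκm.trans hmρ)
    ext i j
    -- estimate
    have est : ∀ N : ℕ, |dM ω U p x i j - V.Y p (zz U q p x) i j|
        ≤ (‖ω‖ / (1 - 1 / 2) * κ + ε + 9 * K * κ) * (1 / 2) ^ N := by
      intro N
      set y : ℝ := (1 / 2) ^ N with hy
      have hy0 : 0 < y := by rw [hy]; positivity
      have hy1 : y ≤ 1 := by rw [hy]; exact pow_le_one₀ (by norm_num) (by norm_num)
      have a1 : |pd ω (fun p x => (U p x - (f N).U p x) i j) p x| ≤ ‖ω‖ / (1 - 1 / 2) * (κ * y) := by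
        have := (hUN N i j).pd (s := 1 / 2) (by norm_num) (by norm_num) (by norm_num) ω
        exact this.norm_le (by norm_num) p x
      have dU : Differentiable ℝ (fun x => U p x i j) := by
        have h1 := (hUN 0 i j).diff (by norm_num) p
        rw [hf0] at h1
        have h2 := (bd0.U i j).diff (by norm_num) p
        have e : (fun x => U p x i j) = fun x => (U p x - t0.U p x) i j + t0.U p x i j := by
          funext z; simp
        rw [e]
        exact h1.add h2
      have dN : Differentiable ℝ (fun x => (f N).U p x i j) := by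
        have h1 := ((hf N).1.2.1.U i j).diff (by linarith) p
        have h2 := (bd0.U i j).diff (by norm_num) p
        have e : (fun x => (f N).U p x i j) = fun x => ((f N).U p x - t0.U p x) i j + t0.U p x i j := by
          funext z; simp
        rw [e]
        exact h1.add h2
      have a2 : dM ω U p x i j = pd ω (fun p x => (U p x - (f N).U p x) i j) p x
          + dM ω (f N).U p x i j := by
        have h1 := pd_sub (f := fun p x => U p x i j) (g := fun p x => (f N).U p x i j) (dU x) (dN x) ω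
        rw [dM_apply, dM_apply]
        have e : (fun p x => (U p x - (f N).U p x) i j) = fun p x => U p x i j - (f N).U p x i j := rfl
        rw [e]
        linarith
      have a3 : |dM ω (f N).U p x i j - V.Y p (zz (f N).U (f N).q p x) i j| ≤ ε * y := by
        have h1 := (hf N).1.2.2.E.abs_le (by linarith) p x i j
        have h2 : ε * y ^ 120 ≤ ε * y := by
          have : y ^ 120 ≤ y := by
            calc y ^ 120 ≤ y ^ 1 := pow_le_pow_of_le_one hy0.le hy1 (by norm_num)
              _ = y := pow_one y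
          exact mul_le_mul_of_nonneg_left this hε
        exact h1.trans h2
      have hUd : (fun p x => (f N).U p x + (fun p x => U p x - (f N).U p x) p x) = U := by
        funext p x; simp
      have hqd : (f N).q + (q - (f N).q) = q := by abel
      have hκy : κ * y ≤ 1 := by nlinarith [hκm.trans hm1]
      have a4 := hV.l2 2 (f N).U (f N).q (fun p x => U p x - (f N).U p x) (q - (f N).q) (κ * y)
        (by norm_num) (by norm_num) (hn N) (by rw [hUd, hqd]; exact hn') (hUN N) (hqN N) hκy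
      have a5 := a4.abs_le (by norm_num) p x i j
      rw [hUd, hqd] at a5
      have a6 : |(V.A p (zz (f N).U (f N).q p x) * (U p x - (f N).U p x)) i j| ≤ 6 * (K * (κ * y)) := by
        rw [Matrix.mul_apply]
        refine (Finset.abs_sum_le_sum_abs _ _).trans ?_
        have : ∀ l ∈ Finset.univ, |V.A p (zz (f N).U (f N).q p x) i l * (U p x - (f N).U p x) l j|
            ≤ K * (κ * y) := by
          intro l _
          have e2 := (hV.bA 2 (f N).U (f N).q (by norm_num) (by norm_num) (hn N)).abs_le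
            (by norm_num) p x i l
          have e3 := (hUN N).abs_le (by norm_num) p x l j
          rw [abs_mul]
          gcongr
        refine (Finset.sum_le_sum this).trans ?_
        simp
      have a7 : |(V.Bq p (zz (f N).U (f N).q p x) * cq (q - (f N).q) p) i j| ≤ 2 * (K * (κ * y)) := by
        rw [Matrix.mul_apply]
        refine (Finset.abs_sum_le_sum_abs _ _).trans ?_
        have : ∀ l ∈ Finset.univ, |V.Bq p (zz (f N).U (f N).q p x) i l * cq (q - (f N).q) p l j|
            ≤ K * (κ * y) := by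
          intro l _
          have e2 := (hV.bB 2 (f N).U (f N).q (by norm_num) (by norm_num) (hn N)).abs_le
            (by norm_num) p x i l
          have e3 : |cq (q - (f N).q) p l j| ≤ κ * y :=
            ((q l - (f N).q l).norm_coe_le_norm p).trans (hqN N l)
          rw [abs_mul]
          gcongr
        refine (Finset.sum_le_sum this).trans ?_
        simp
      simp only [Matrix.sub_apply] at a5
      have a8 : K * (κ * y) ^ 2 ≤ K * (κ * y) := by
        have : (κ * y) ^ 2 ≤ κ * y := by nlinarith [mul_nonneg hκ0 hy0.le]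
        gcongr
      obtain ⟨b11, b12⟩ := _root_.abs_le.mp a1
      obtain ⟨b31, b32⟩ := _root_.abs_le.mp a3
      obtain ⟨b51, b52⟩ := _root_.abs_le.mp a5
      obtain ⟨b61, b62⟩ := _root_.abs_le.mp a6
      obtain ⟨b71, b72⟩ := _root_.abs_le.mp a7
      have hR : (‖ω‖ / (1 - 1 / 2) * κ + ε + 9 * K * κ) * y
          = ‖ω‖ / (1 - 1 / 2) * (κ * y) + ε * y + (K * (κ * y) + 6 * (K * (κ * y))
            + 2 * (K * (κ * y))) := by ring
      rw [a2, hR, _root_.abs_le]
      constructor <;> linarith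
    have h0 : Tendsto (fun N : ℕ => (‖ω‖ / (1 - 1 / 2) * κ + ε + 9 * K * κ) * (1 / 2 : ℝ) ^ N) atTop
        (𝓝 0) := by
      have := (tendsto_pow_atTop_nhds_zero_of_lt_one (r := (1 / 2 : ℝ)) (by norm_num)
        (by norm_num)).const_mul (‖ω‖ / (1 - 1 / 2) * κ + ε + 9 * K * κ)
      simpa using this
    have h1 := ge_of_tendsto' h0 est
    have h2 : |dM ω U p x i j - V.Y p (zz U q p x) i j| = 0 := le_antisymm h1 (abs_nonneg _)
    have h3 := abs_eq_zero.mp h2
    linarith
  · rw [← hκ]; exact hκm.trans hmρ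

end Run7.h800
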