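import Pool.Agent.Run7.h800.Slv

set_option autoImplicit false
set_option linter.unusedSectionVars false

/-!
# The linear system of the Newton step
-/

namespace Run7.h800

open Filter Topology

variable {P : Type*} [TopologicalSpace P] [CompactSpace P]

lemma Mn.le {ω : ℝ × ℝ} {f : P → ℝ × ℝ → ℝ} {c : P → ℝ} (h : Mn ω f c) {b : ℝ} (p : P)
    (hb : ∀ x, f p x ≤ b) : c p ≤ b := by
  obtain ⟨g, g1, ⟨C, g2⟩, g3⟩ := h
  by_contra hne
  push Not at hne
  have hline : ∀ t : ℝ, HasDerivAt (fun t : ℝ => t • ω) ω t := fun t => by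
    simpa using (hasDerivAt_id t).smul_const ω
  have hder : ∀ t : ℝ, HasDerivAt (fun t => g p (t • ω) + (c p - b) * t)
      (pd ω g p (t • ω) + (c p - b)) t := by
    intro t
    have a2 := ((g1 p) (t • ω)).hasFDerivAt.comp_hasDerivAt t (hline t)
    have a3 := a2.add ((hasDerivAt_id t).const_mul (c p - b))
    refine a3.congr_deriv ?_
    unfold pd
    simp
  have hanti : Antitone (fun t => g p (t • ω) + (c p - b) * t) := by
    apply antitone_of_deriv_nonpos (fun t => (hder t).differentiableAt)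
    intro t
    rw [(hder t).deriv]
    have e := g3 p (t • ω)
    have := hb (t • ω)
    linarith
  have hC : 0 ≤ C := (abs_nonneg _).trans (g2 p 0)
  have hpos : 0 < c p - b := by linarith
  have h5 := hanti (show (0 : ℝ) ≤ (2 * C + 1) / (c p - b) by positivity)
  simp only at h5
  have e : (c p - b) * ((2 * C + 1) / (c p - b)) = 2 * C + 1 := by field_simp
  rw [e] at h5
  have b1 := abs_le.mp (g2 p (((2 * C + 1) / (c p - b)) • ω))
  have b3 := abs_le.mp (g2 p ((0:ℝ) • ω))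
  linarith [b1.1, b3.2]

lemma Mn.neg {ω : ℝ × ℝ} {f : P → ℝ × ℝ → ℝ} {c : P → ℝ} (h : Mn ω f c) :
    Mn ω (fun p x => -f p x) (fun p => -c p) := by
  obtain ⟨g, g1, ⟨C, g2⟩, g3⟩ := h
  refine ⟨fun p x => -g p x, fun p => (g1 p).neg, ⟨C, fun p x => by rw [abs_neg]; exact g2 p x⟩, ?_⟩
  intro p x
  change -f p x = -c p + pd ω (fun p x => -g p x) p x
  rw [pd_neg, g3]; ring

lemma Mn.abs_le {ω : ℝ × ℝ} {f : P → ℝ × ℝ → ℝ} {c : P → ℝ} (h : Mn ω f c) {b : ℝ} (p : P)
    (hb : ∀ x, |f p x| ≤ b) : |c p| ≤ b := by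
  rw [_root_.abs_le]
  constructor
  · have := h.neg.le p (b := b) (fun x => by have := (_root_.abs_le.mp (hb x)).1; linarith)
    linarith
  · exact h.le p (fun x => (_root_.abs_le.mp (hb x)).2)

lemma Mn.congr {ω : ℝ × ℝ} {f f' : P → ℝ × ℝ → ℝ} {c c' : P → ℝ} (h : Mn ω f c)
    (e : ∀ p x, f p x = f' p x) (e' : ∀ p, c p = c' p) : Mn ω f' c' := by
  have h1 : f = f' := by funext p x; exact e p x
  have h2 : c = c' := by funext p; exact e' p
  rwa [h1, h2] at h

lemma Mn.sub {ω : ℝ × ℝ} {f g : P → ℝ × ℝ → ℝ} {c d : P → ℝ} (hf : Mn ω f c) (hg : Mn ω g d) :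
    Mn ω (fun p x => f p x - g p x) (fun p => c p - d p) :=
  (hf.add hg.neg).congr (fun p x => by ring) (fun p => by ring)

/-- the reversing symmetry in phase space -/
def Sg : Matrix (Fin 6) (Fin 6) ℝ := Matrix.diagonal ![1, -1, 1, -1, -1, 1]

/-- the exchange of the two hyperbolic directions -/
def Pi4 : Matrix (Fin 4) (Fin 4) ℝ := !![1, 0, 0, 0; 0, 1, 0, 0; 0, 0, 0, 1; 0, 0, 1, 0]

/-- signs of the exponents -/
def sg : Fin 4 → ℝ := ![0, 0, -1, 1]

/-- the exponents -/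
noncomputable def dd (lam : C(P, ℝ)) : Fin 4 → C(P, ℝ) := fun j => sg j • lam

lemma Sg_sq : Sg * Sg = 1 := by
  unfold Sg
  rw [Matrix.diagonal_mul_diagonal, ← Matrix.diagonal_one]
  congr 1
  funext i
  fin_cases i <;> simp

lemma Pi4_sq : Pi4 * Pi4 = 1 := by
  unfold Pi4
  ext i j
  fin_cases i <;> fin_cases j <;> simp [Matrix.mul_apply, Fin.sum_univ_four]

lemma Sg_le : ∀ i j, |Sg i j| ≤ 1 := by
  intro i j
  unfold Sg
  fin_cases i <;> fin_cases j <;> simp [Matrix.diagonal_apply]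

lemma Pi4_le : ∀ i j, |Pi4 i j| ≤ 1 := by
  intro i j
  unfold Pi4
  fin_cases i <;> fin_cases j <;> simp

lemma one_le' {m : Type*} [DecidableEq m] : ∀ i j, |(1 : Matrix m m ℝ) i j| ≤ 1 := by
  intro i j
  rw [Matrix.one_apply]
  split_ifs <;> simp

lemma negone_le' {m : Type*} [DecidableEq m] : ∀ i j, |(-1 : Matrix m m ℝ) i j| ≤ 1 := by
  intro i j
  rw [Matrix.neg_apply, Matrix.one_apply]
  split_ifs <;> simp

lemma Pi4_dd (lam : C(P, ℝ)) (p : P) : Pi4 * dgm (dd lam) p = -(dgm (dd lam) p * Pi4) := by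
  unfold Pi4 dgm dd sg
  ext i j
  fin_cases i <;> fin_cases j <;> simp [Matrix.mul_apply, Fin.sum_univ_four]

lemma dd_Pi4 (lam : C(P, ℝ)) (p : P) : dgm (dd lam) p * Pi4 = -(Pi4 * dgm (dd lam) p) := by
  rw [Pi4_dd, neg_neg]

lemma dgm_zero {m : Type*} [DecidableEq m] (p : P) : dgm (fun _ : m => (0 : C(P, ℝ))) p = 0 := by
  unfold dgm
  ext i j
  simp [Matrix.diagonal_apply]

/-- Solution of the linear equations of the Newton step. -/
theorem lins {c : Type*} [DecidableEq c] [Fintype c] [Sm c] {r s k w G δ H : ℝ} {ω : ℝ × ℝ}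
    (hω : Dio G ω) (hs0 : 0 < s) (hs1 : s < 1) (hrs : 1 < r * s) (hrs2 : 1 ≤ r * s * s)
    (hk : 0 ≤ k) (hw : 0 ≤ w) (hδ : 0 < δ) (hH : G ≤ H) (hH' : 1 / δ ≤ H)
    {Psa : P → ℝ × ℝ → Matrix (Fin 2) (Fin 6) ℝ} {Psb : P → ℝ × ℝ → Matrix (Fin 4) (Fin 6) ℝ}
    {S : P → ℝ × ℝ → Matrix (Fin 2) (Fin 4) ℝ} {lam : C(P, ℝ)}
    {W : P → ℝ × ℝ → Matrix (Fin 6) c ℝ}
    (hPsa : MB r k Psa) (hPsb : MB r k Psb) (hS : MB r k S) (hlam : ∀ p, δ ≤ lam p)
    (hW : MB r w W)
    (sPsa : ∀ p x, Psa p (-x) = -(Psa p x * Sg)) (sPsb : ∀ p x, Psb p (-x) = Pi4 * Psb p x * Sg)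
    (sS : ∀ p x, S p (-x) = S p x * Pi4) (sW : ∀ p x, W p (-x) = -(Sg * W p x)) :
    ∃ (C : Fin 2 → c → C(P, ℝ)) (xa : P → ℝ × ℝ → Matrix (Fin 2) c ℝ)
      (xb : P → ℝ × ℝ → Matrix (Fin 4) c ℝ),
      (∀ p x, dM ω xb p x = Psb p x * W p x - dgm (dd lam) p * xb p x) ∧
      (∀ p x, dM ω xa p x = Psa p x * W p x - S p x * xb p x + cm C p) ∧
      (∀ p x, xb p (-x) = Pi4 * xb p x) ∧ (∀ p x, xa p (-x) = -xa p x) ∧
      (∀ s', 0 < s' → s' < 1 → 1 ≤ r * s' →
        MB (r * s') (36 * (H / (1 - s') * (6 * (k * w)))) xb) ∧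
      (∀ i j, ‖C i j‖ ≤ 6 * (k * w) + 6 * (k * (36 * (H / (1 - s) * (6 * (k * w)))))) ∧
      MB (r * s * s) (36 * (H / (1 - s) *
        (6 * (k * w) + 6 * (k * (36 * (H / (1 - s) * (6 * (k * w)))))))) xa ∧
      (∀ i j, Mn ω (fun p x => (Psa p x * W p x - S p x * xb p x) i j) (fun p => -C i j p)) := by
  have hr : 1 < r := by
    have : 0 < r := by
      by_contra h
      push Not at h
      nlinarith
    nlinarith
  have hH0 : 0 ≤ H := (by positivity : (0 : ℝ) ≤ 1 / δ).trans hH'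
  have h1s : 0 < 1 - s := by linarith
  -- first equation
  have hf1 : MB r (6 * (k * w)) (fun p x => Psb p x * W p x) := by
    refine (hPsb.mul hW hr.le).mono (by linarith) le_rfl ?_
    simp
  have hsgn : ∀ (i : Fin 4) (j : c), dd lam i - (fun _ => (0 : C(P, ℝ))) j = 0 ∨
      ∀ p, δ ≤ |(dd lam i - (fun _ => (0 : C(P, ℝ))) j) p| := by
    intro i j
    fin_cases i
    · left; simp [dd, sg]
    · left; simp [dd, sg]
    · right; intro p
      simp only [dd, sg, sub_zero]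
      have := hlam p
      simp
      exact this.trans (le_abs_self _)
    · right; intro p
      simp only [dd, sg, sub_zero]
      have := hlam p
      simp
      exact this.trans (le_abs_self _)
  have hsym1 : ∀ p x, Pi4 * ((fun p x => Psb p x * W p x) p (-x)) * (1 : Matrix c c ℝ)
      = -(fun p x => Psb p x * W p x) p x := by
    intro p x
    simp only [sPsb, sW]
    rw [Matrix.mul_one, Matrix.mul_neg, Matrix.mul_neg]
    congr 1
    have : Pi4 * (Pi4 * Psb p x * Sg * (Sg * W p x)) = (Pi4 * Pi4) * Psb p x * ((Sg * Sg) * W p x) := by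
      simp only [Matrix.mul_assoc]
    rw [this, Pi4_sq, Sg_sq, Matrix.one_mul, Matrix.one_mul]
  obtain ⟨c1, xb, b1, b2, b3, b4, b5⟩ := symsolve hω hr (by positivity) hf1 (dd lam)
    (fun _ : c => (0 : C(P, ℝ))) hδ hsgn hH hH' Pi4 1 Pi4_le one_le' Pi4_sq (one_mul _)
    (Pi4_dd lam) (fun p => by rw [dgm_zero]; simp) hsym1
  have b3' : ∀ p x, dM ω xb p x = Psb p x * W p x - dgm (dd lam) p * xb p x := by
    intro p x
    have h1 := b3 p x
    have hz : (1 / 2 : ℝ) • (cm c1 p - Pi4 * cm c1 p * (1 : Matrix c c ℝ)) = 0 := by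
      rw [Matrix.mul_one]
      have hlp := hlam p
      have hc2 : ∀ j, c1 2 j = 0 := fun j => b2 2 j (fun h => by
        have := congrArg (fun f : C(P, ℝ) => f p) h
        simp [dd, sg] at this
        linarith)
      have hc3 : ∀ j, c1 3 j = 0 := fun j => b2 3 j (fun h => by
        have := congrArg (fun f : C(P, ℝ) => f p) h
        simp [dd, sg] at this
        linarith)
      ext i j
      simp only [Matrix.smul_apply, Matrix.sub_apply, Matrix.mul_apply, Fin.sum_univ_four, cm,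
        Matrix.of_apply, Matrix.zero_apply, smul_eq_mul]
      fin_cases i <;> simp [Pi4, hc2, hc3]
    rw [hz, dgm_zero, Matrix.mul_zero, sub_zero, add_zero] at h1
    rw [← h1]; abel
  have b4' : ∀ p x, xb p (-x) = Pi4 * xb p x := by
    intro p x
    have h1 := b4 p x
    rw [Matrix.mul_one] at h1
    rw [← h1, ← Matrix.mul_assoc, Pi4_sq, Matrix.one_mul]
  -- second equation
  have hxb := b5 s hs0 hs1 hrs.le
  have hf2 : MB (r * s) (6 * (k * w) + 6 * (k * (36 * (H / (1 - s) * (6 * (k * w))))))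
      (fun p x => Psa p x * W p x - S p x * xb p x) := by
    have e1 : MB (r * s) (6 * (k * w)) (fun p x => Psa p x * W p x) := by
      refine (hPsa.mul hW hr.le).mono (by linarith) (by nlinarith) ?_
      simp
    have e2 : MB (r * s) (6 * (k * (36 * (H / (1 - s) * (6 * (k * w))))))
        (fun p x => S p x * xb p x) := by
      refine ((hS.mono (by linarith) (by nlinarith) le_rfl : MB (r * s) k S).mul hxb
        hrs.le).mono (by linarith) le_rfl ?_
      have h0 : 0 ≤ k * (36 * (H / (1 - s) * (6 * (k * w)))) := by positivity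
      simp only [Fintype.card_fin]
      push_cast
      linarith
    intro i j
    exact (e1 i j).sub (e2 i j) (by linarith)
  have hsym2 : ∀ p x, (-1 : Matrix (Fin 2) (Fin 2) ℝ) *
      ((fun p x => Psa p x * W p x - S p x * xb p x) p (-x)) * (1 : Matrix c c ℝ)
      = -(fun p x => Psa p x * W p x - S p x * xb p x) p x := by
    intro p x
    simp only [sPsa, sW, sS, b4', Matrix.mul_one, Matrix.neg_mul, Matrix.one_mul, Matrix.mul_neg,
      neg_neg]
    have h1 : Psa p x * Sg * (Sg * W p x) = Psa p x * ((Sg * Sg) * W p x) := by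
      simp only [Matrix.mul_assoc]
    have h2 : S p x * Pi4 * (Pi4 * xb p x) = S p x * ((Pi4 * Pi4) * xb p x) := by
      simp only [Matrix.mul_assoc]
    rw [h1, h2, Sg_sq, Pi4_sq, Matrix.one_mul, Matrix.one_mul]
  obtain ⟨c2, xa, a1, a2, a3, a4, a5⟩ := symsolve hω hrs (by positivity) hf2
    (fun _ : Fin 2 => (0 : C(P, ℝ))) (fun _ : c => (0 : C(P, ℝ))) hδ
    (fun i j => Or.inl (sub_zero _)) hH hH' (-1) 1 negone_le' one_le' (by simp) (one_mul _)
    (fun p => by rw [dgm_zero]; simp) (fun p => by rw [dgm_zero]; simp) hsym2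
  have a3' : ∀ p x, dM ω xa p x = Psa p x * W p x - S p x * xb p x + cm c2 p := by
    intro p x
    have h1 := a3 p x
    rw [dgm_zero, dgm_zero, Matrix.zero_mul, Matrix.mul_zero, add_zero, sub_zero] at h1
    rw [h1]
    congr 1
    rw [Matrix.mul_one, Matrix.neg_mul, Matrix.one_mul, sub_neg_eq_add, ← two_smul ℝ (cm c2 p), smul_smul]
    norm_num
  have a4' : ∀ p x, xa p (-x) = -xa p x := by
    intro p x
    have h1 := a4 p x
    rw [Matrix.mul_one, Matrix.neg_mul, Matrix.one_mul] at h1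
    rw [← h1, neg_neg]
  refine ⟨c2, xa, xb, b3', a3', b4', a4', b5, a1, a5 s hs0 hs1 hrs2, ?_⟩
  intro i j
  have hxa := a5 s hs0 hs1 hrs2
  -- need a radius larger than one
  obtain ⟨t, ht⟩ : ∃ t : ℝ, t = (1 + 1 / (r * s)) / 2 := ⟨_, rfl⟩
  have hx1 : 1 / (r * s) < 1 := by rw [div_lt_one (by linarith)]; exact hrs
  have hx0 : 0 < 1 / (r * s) := by
    have : 0 < r * s := by linarith
    positivity
  have ht0 : 0 < t := by rw [ht]; linarith
  have ht1 : t < 1 := by rw [ht]; linarith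
  have hrt : 1 < r * s * t := by
    have h0 : r * s ≠ 0 := by
      have : 0 < r * s := by linarith
      exact this.ne'
    have : r * s * t = (r * s + 1) / 2 := by rw [ht]; field_simp
    rw [this]; linarith
  have h9 := a5 t ht0 ht1 hrt.le i j
  refine Mn.of_solve hrt h9 (fun p x => ?_)
  have h10 := congrFun (congrFun (a3' p x) i) j
  rw [dM_apply, Matrix.add_apply] at h10
  exact h10

end Run7.h800
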