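import Pool.Agent.Run7.h800.Lin

set_option autoImplicit false
set_option linter.unusedSectionVars false

/-!
# The linear system of the Newton step, with parameters
-/

namespace Run7.h800

open Filter Topology

variable {P : Type*} [TopologicalSpace P] [CompactSpace P]

/-- column of parameter functions -/
def cq (q : Fin 2 → C(P, ℝ)) (p : P) : Matrix (Fin 2) Unit ℝ := Matrix.of fun k _ => q k p

lemma lins_b {k w H Λ s : ℝ} {a : ℕ} (hs1 : s < 1) (hΛ : 6 ≤ Λ) (hk : 0 ≤ k) (hw : 0 ≤ w)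
    (hH : 0 ≤ H) (hkΛ : k ≤ Λ) (hHΛ : H ≤ Λ) (hsΛ : 1 / (1 - s) ≤ Λ) {e : ℝ}
    (hwa : w ≤ Λ ^ a * e) :
    36 * (H / (1 - s) * (6 * (k * w))) ≤ Λ ^ (a + 6) * e ∧
    6 * (k * w) + 6 * (k * (36 * (H / (1 - s) * (6 * (k * w))))) ≤ Λ ^ (a + 9) * e ∧
    36 * (H / (1 - s) *
        (6 * (k * w) + 6 * (k * (36 * (H / (1 - s) * (6 * (k * w)))))))
        ≤ Λ ^ (a + 13) * e := by
  have h1s : 0 < 1 - s := by linarith
  have hΛ0 : 0 ≤ Λ := by linarith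
  have h36 : (36 : ℝ) ≤ Λ * Λ := by nlinarith
  have key : ∀ (v : ℝ) , 0 ≤ v → 36 * (H / (1 - s) * v) ≤ Λ * Λ * (Λ * Λ * v) := by
    intro v hv
    have : H / (1 - s) = H * (1 / (1 - s)) := by ring
    rw [this]
    have h2 : 0 ≤ 1 / (1 - s) := by positivity
    gcongr
  have h6 : 6 * (k * w) ≤ Λ * (Λ * (Λ ^ a * e)) := by gcongr
  have h60 : 0 ≤ 6 * (k * w) := by positivity
  have hX : 0 ≤ Λ ^ a * e := hw.trans hwa
  have e1 : 36 * (H / (1 - s) * (6 * (k * w))) ≤ Λ ^ (a + 6) * e := by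
    calc _ ≤ Λ * Λ * (Λ * Λ * (6 * (k * w))) := key _ h60
      _ ≤ Λ * Λ * (Λ * Λ * (Λ * (Λ * (Λ ^ a * e)))) := by gcongr
      _ = _ := by ring
  have e10 : 0 ≤ 36 * (H / (1 - s) * (6 * (k * w))) := by positivity
  have e2 : 6 * (k * w) + 6 * (k * (36 * (H / (1 - s) * (6 * (k * w))))) ≤ Λ ^ (a + 9) * e := by
    have h7 : 6 * (k * (36 * (H / (1 - s) * (6 * (k * w))))) ≤ Λ * (Λ * (Λ ^ (a + 6) * e)) := by
      gcongr
    have h8 : 6 * (k * w) ≤ Λ * (Λ * (Λ ^ (a + 6) * e)) := by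
      refine h6.trans ?_
      have h9 : Λ ^ a * e ≤ Λ ^ (a + 6) * e := by
        have h10 : Λ ^ (a + 6) * e = Λ ^ 6 * (Λ ^ a * e) := by ring
        rw [h10]
        exact le_mul_of_one_le_left hX (one_le_pow₀ (by linarith))
      gcongr
    have h10 : 0 ≤ Λ * (Λ * (Λ ^ (a + 6) * e)) := le_trans h60 h8
    calc _ ≤ 2 * (Λ * (Λ * (Λ ^ (a + 6) * e))) := by linarith
      _ ≤ Λ * (Λ * (Λ * (Λ ^ (a + 6) * e))) := by gcongr; linarith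
      _ = _ := by ring
  refine ⟨e1, e2, ?_⟩
  have e20 : 0 ≤ 6 * (k * w) + 6 * (k * (36 * (H / (1 - s) * (6 * (k * w))))) := by positivity
  calc _ ≤ Λ * Λ * (Λ * Λ * (6 * (k * w) + 6 * (k * (36 * (H / (1 - s) * (6 * (k * w))))))) :=
        key _ e20
    _ ≤ Λ * Λ * (Λ * Λ * (Λ ^ (a + 9) * e)) := by gcongr
    _ = _ := by ring

/-- Solution of the linear equations of the Newton step, with parameters. -/
theorem lins2 {r s k K ε G δ H Λ : ℝ} {ω : ℝ × ℝ}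
    (hω : Dio G ω) (hs0 : 0 < s) (hs1 : s < 1) (hrs2 : 1 < r * s * s) (hr2 : 2 ≤ r)
    (hk : 0 ≤ k) (hK : 0 ≤ K) (hε : 0 ≤ ε) (hδ : 0 < δ) (hH : G ≤ H) (hH' : 1 / δ ≤ H)
    (hΛ : 6 ≤ Λ) (hkΛ : k ≤ Λ) (hKΛ : K ≤ Λ) (hHΛ : H ≤ Λ) (hsΛ : 1 / (1 - s) ≤ Λ)
    {Psa : P → ℝ × ℝ → Matrix (Fin 2) (Fin 6) ℝ} {Psb : P → ℝ × ℝ → Matrix (Fin 4) (Fin 6) ℝ}
    {S : P → ℝ × ℝ → Matrix (Fin 2) (Fin 4) ℝ} {lam : C(P, ℝ)}
    {W1 : P → ℝ × ℝ → Matrix (Fin 6) Unit ℝ} {W2 : P → ℝ × ℝ → Matrix (Fin 6) (Fin 2) ℝ}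
    (hPsa : MB r k Psa) (hPsb : MB r k Psb) (hS : MB r k S) (hlam : ∀ p, δ ≤ lam p)
    (hW1 : T r Λ 0 ε W1) (hW2 : MB r K W2)
    (sPsa : ∀ p x, Psa p (-x) = -(Psa p x * Sg)) (sPsb : ∀ p x, Psb p (-x) = Pi4 * Psb p x * Sg)
    (sS : ∀ p x, S p (-x) = S p x * Pi4) (sW1 : ∀ p x, W1 p (-x) = -(Sg * W1 p x))
    (sW2 : ∀ p x, W2 p (-x) = -(Sg * W2 p x))
    (hdet : ∀ (xb : P → ℝ × ℝ → Matrix (Fin 4) (Fin 2) ℝ) (Cm : P → Matrix (Fin 2) (Fin 2) ℝ),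
      MB 1 (36 * (H / (1 - 1 / 2) * (6 * (k * K)))) xb →
      (∀ i j, Mn ω (fun p x => (Psa p x * W2 p x - S p x * xb p x) i j) (fun p => Cm p i j)) →
      ∀ p, δ ≤ |Cm p 0 0 * Cm p 1 1 - Cm p 0 1 * Cm p 1 0|) :
    ∃ (dq : Fin 2 → C(P, ℝ)) (xa : P → ℝ × ℝ → Matrix (Fin 2) Unit ℝ)
      (xb : P → ℝ × ℝ → Matrix (Fin 4) Unit ℝ),
      (∀ p x, dM ω xb p x = Psb p x * (W1 p x + W2 p x * cq dq p) - dgm (dd lam) p * xb p x) ∧
      (∀ p x, dM ω xa p x = Psa p x * (W1 p x + W2 p x * cq dq p) - S p x * xb p x) ∧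
      (∀ p x, xb p (-x) = Pi4 * xb p x) ∧ (∀ p x, xa p (-x) = -xa p x) ∧
      (∀ i, ‖dq i‖ ≤ Λ ^ 21 * ε) ∧ T (r * s) Λ 30 ε xb ∧ T (r * s * s) Λ 37 ε xa := by
  have hr0 : 0 < r := by linarith
  have hrs : 1 < r * s := by nlinarith
  have hH0 : 0 ≤ H := (by positivity : (0 : ℝ) ≤ 1 / δ).trans hH'
  have h1s : 0 < 1 - s := by linarith
  obtain ⟨C1, xa1, xb1, a1, a2, a3, a4, a5, a6, a7, a8⟩ := lins (w := ε) hω hs0 hs1 hrs hrs2.le hk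
    hε hδ hH hH' hPsa hPsb hS hlam (by simpa [T] using hW1) sPsa sPsb sS sW1
  obtain ⟨C2, xa2, xb2, b1, b2, b3, b4, b5, b6, b7, b8⟩ := lins (w := K) hω hs0 hs1 hrs hrs2.le hk
    hK hδ hH hH' hPsa hPsb hS hlam hW2 sPsa sPsb sS sW2
  obtain ⟨m1, m2, m3⟩ := lins_b (a := 0) (e := ε) hs1 hΛ hk hε hH0 hkΛ hHΛ hsΛ (by simp)
  obtain ⟨n1, n2, n3⟩ := lins_b (a := 1) (e := 1) hs1 hΛ hk hK hH0 hkΛ hHΛ hsΛ (by simpa using hKΛ)
  -- determinant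
  have hxb2 : MB 1 (36 * (H / (1 - 1 / 2) * (6 * (k * K)))) xb2 :=
    (b5 (1 / 2) (by norm_num) (by norm_num) (by linarith)).mono (by norm_num) (by linarith) le_rfl
  have hd := hdet xb2 (fun p => -cm C2 p) hxb2 (fun i j => (b8 i j).congr (fun p x => rfl)
    (fun p => rfl))
  let dt : C(P, ℝ) := C2 0 0 * C2 1 1 - C2 0 1 * C2 1 0
  have hdt : ∀ p, δ ≤ |dt p| := by
    intro p
    have := hd p
    simp only [Matrix.neg_apply, cm, Matrix.of_apply, neg_mul_neg] at this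
    exact this
  have hdt0 : ∀ p, dt p ≠ 0 := by
    intro p h
    have := hdt p
    rw [h, abs_zero] at this
    linarith
  let di : C(P, ℝ) := ⟨fun p => (dt p)⁻¹, dt.continuous.inv₀ hdt0⟩
  have hdi : ∀ p, di p = (dt p)⁻¹ := fun p => rfl
  have hdin : ‖di‖ ≤ 1 / δ := by
    rw [ContinuousMap.norm_le _ (by positivity)]
    intro p
    rw [hdi, norm_inv, one_div]
    exact inv_anti₀ hδ (hdt p)
  let dq : Fin 2 → C(P, ℝ) := ![-(di * (C2 1 1 * C1 0 () - C2 0 1 * C1 1 ())),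
    -(di * (C2 0 0 * C1 1 () - C2 1 0 * C1 0 ()))]
  have hC1 : ∀ i, ‖C1 i ()‖ ≤ Λ ^ 9 * ε := fun i => (a6 i ()).trans (by simpa using m2)
  have hC2 : ∀ i j, ‖C2 i j‖ ≤ Λ ^ 10 := fun i j => (b6 i j).trans (by simpa using n2)
  have hδΛ : 1 / δ ≤ Λ := hH'.trans hHΛ
  have hΛ0 : 0 ≤ Λ := by linarith
  have hdqb : ∀ (u v : C(P, ℝ)) (y z : C(P, ℝ)), ‖u‖ ≤ Λ ^ 10 → ‖v‖ ≤ Λ ^ 10 → ‖y‖ ≤ Λ ^ 9 * ε →
      ‖z‖ ≤ Λ ^ 9 * ε → ‖-(di * (u * y - v * z))‖ ≤ Λ ^ 21 * ε := by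
    intro u v y z hu hv hy hz
    rw [norm_neg]
    have f1 : ‖u * y - v * z‖ ≤ Λ ^ 10 * (Λ ^ 9 * ε) + Λ ^ 10 * (Λ ^ 9 * ε) := by
      refine (norm_sub_le _ _).trans ?_
      have g1 := norm_mul_le u y
      have g2 := norm_mul_le v z
      have g3 : ‖u‖ * ‖y‖ ≤ Λ ^ 10 * (Λ ^ 9 * ε) := by gcongr
      have g4 : ‖v‖ * ‖z‖ ≤ Λ ^ 10 * (Λ ^ 9 * ε) := by gcongr
      linarith
    calc ‖di * (u * y - v * z)‖ ≤ ‖di‖ * ‖u * y - v * z‖ := norm_mul_le _ _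
      _ ≤ Λ * (Λ ^ 10 * (Λ ^ 9 * ε) + Λ ^ 10 * (Λ ^ 9 * ε)) := by
          have := hdin.trans hδΛ
          gcongr
      _ = Λ ^ 20 * (2 * ε) := by ring
      _ ≤ Λ ^ 20 * (Λ * ε) := by gcongr; linarith
      _ = _ := by ring
  have hdq : ∀ i, ‖dq i‖ ≤ Λ ^ 21 * ε := by
    intro i
    fin_cases i
    · exact hdqb _ _ _ _ (hC2 _ _) (hC2 _ _) (hC1 _) (hC1 _)
    · exact hdqb _ _ _ _ (hC2 _ _) (hC2 _ _) (hC1 _) (hC1 _)
  have hzero : ∀ p, cm C1 p + cm C2 p * cq dq p = 0 := by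
    intro p
    have hne := hdt0 p
    have hmul : di p * dt p = 1 := by rw [hdi]; exact inv_mul_cancel₀ hne
    have hdtp : dt p = C2 0 0 p * C2 1 1 p - C2 0 1 p * C2 1 0 p := rfl
    have q0 : dq 0 p = -(di p * (C2 1 1 p * C1 0 () p - C2 0 1 p * C1 1 () p)) := rfl
    have q1 : dq 1 p = -(di p * (C2 0 0 p * C1 1 () p - C2 1 0 p * C1 0 () p)) := rfl
    ext i j
    simp only [Matrix.add_apply, Matrix.mul_apply, Fin.sum_univ_two, cm, cq, Matrix.of_apply,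
      Matrix.zero_apply]
    rw [hdtp] at hmul
    fin_cases i
    · simp only [Fin.zero_eta, Fin.isValue]
      rw [q0, q1]
      linear_combination (-(C1 0 () p)) * hmul
    · simp only [Fin.mk_one, Fin.isValue]
      rw [q0, q1]
      linear_combination (-(C1 1 () p)) * hmul
  have hcq : ∀ r', 0 ≤ r' → T (P := P) r' Λ 21 ε (fun p _ => cq dq p) := fun r' hr' =>
    T.const (fun k _ => dq k) (fun i j => hdq i) hr'
  have r1 : 1 ≤ r * s := hrs.le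
  have r2 : 1 ≤ r * s * s := hrs2.le
  have txb1 : T (r * s) Λ 6 ε xb1 := (a5 s hs0 hs1 hrs.le).mono (by linarith) le_rfl
    (by simpa using m1)
  have txb2 : T (r * s) Λ 7 1 xb2 := (b5 s hs0 hs1 hrs.le).mono (by linarith) le_rfl
    (by simpa using n1)
  have txa1 : T (r * s * s) Λ 13 ε xa1 := a7.mono (by linarith) le_rfl (by simpa using m3)
  have txa2 : T (r * s * s) Λ 14 1 xa2 := b7.mono (by linarith) le_rfl (by simpa using n3)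
  have dcq : ∀ p x, dM ω (fun p _ => cq dq p) p x = 0 := fun p x => dM_const _ ω p x
  have Dcq : Df (P := P) (fun p _ => cq dq p) := Df.const _
  refine ⟨dq, fun p x => xa1 p x + xa2 p x * cq dq p, fun p x => xb1 p x + xb2 p x * cq dq p,
    ?_, ?_, ?_, ?_, hdq, ?_, ?_⟩
  · intro p x
    have D1 := txb1.df hrs
    have D2 := txb2.df hrs
    rw [dM_add D1 (D2.mul Dcq), dM_mul D2 Dcq, dcq, a1, b1]
    simp only [Matrix.mul_add, Matrix.add_mul, Matrix.sub_mul, Matrix.mul_assoc,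
      Matrix.mul_zero, add_zero]
    abel
  · intro p x
    have D1 := txa1.df hrs2
    have D2 := txa2.df hrs2
    rw [dM_add D1 (D2.mul Dcq), dM_mul D2 Dcq, dcq, a2, b2]
    have hz := hzero p
    have e : Psa p x * W1 p x - S p x * xb1 p x + cm C1 p +
        ((Psa p x * W2 p x - S p x * xb2 p x + cm C2 p) * cq dq p
          + xa2 p x * (0 : Matrix (Fin 2) Unit ℝ))
        = Psa p x * (W1 p x + W2 p x * cq dq p) - S p x * (xb1 p x + xb2 p x * cq dq p)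
          + (cm C1 p + cm C2 p * cq dq p) := by
      simp only [Matrix.mul_add, Matrix.add_mul, Matrix.sub_mul, Matrix.mul_assoc,
        Matrix.mul_zero, add_zero]
      abel
    rw [e, hz, add_zero]
  · intro p x
    simp only [a3, b3, Matrix.mul_add, Matrix.mul_assoc]
  · intro p x
    simp only [a4, b4, Matrix.neg_mul, neg_add]
  · exact txb1.add' (txb2.mulL (hcq _ (by linarith)) r1 hΛ hε (c := 29) (by norm_num)) r1 hΛ hε
      (by norm_num)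
  · exact txa1.add' (txa2.mulL (hcq _ (by linarith)) r2 hΛ hε (c := 36) (by norm_num)) r2 hΛ hε
      (by norm_num)

end Run7.h800
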