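import Pool.Agent.Run7.h800.WieR

set_option autoImplicit false
set_option linter.unusedSectionVars false

/-!
# Matrix valued functions on the torus
-/

namespace Run7.h800

open Filter Topology

variable {P : Type*} [TopologicalSpace P] [CompactSpace P]
variable {m n l : Type*}

/-- all entries are bounded in the Wiener norm -/
def MB (r M : ℝ) (A : P → ℝ × ℝ → Matrix m n ℝ) : Prop := ∀ i j, B r M (fun p x => A p x i j)

/-- entrywise differentiable -/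
def Df (A : P → ℝ × ℝ → Matrix m n ℝ) : Prop := ∀ i j p, Differentiable ℝ (fun x => A p x i j)

/-- entrywise directional derivative -/
noncomputable def dM (v : ℝ × ℝ) (A : P → ℝ × ℝ → Matrix m n ℝ) : P → ℝ × ℝ → Matrix m n ℝ :=
  fun p x => Matrix.of fun i j => pd v (fun p x => A p x i j) p x

lemma dM_apply (v : ℝ × ℝ) (A : P → ℝ × ℝ → Matrix m n ℝ) (p : P) (x : ℝ × ℝ) (i : m) (j : n) :
    dM v A p x i j = pd v (fun p x => A p x i j) p x := rfl

/-- scaled bound -/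
def T (r Λ : ℝ) (a : ℕ) (e : ℝ) (A : P → ℝ × ℝ → Matrix m n ℝ) : Prop := MB r (Λ ^ a * e) A

lemma T.df {r Λ e : ℝ} {a : ℕ} {A : P → ℝ × ℝ → Matrix m n ℝ} (h : T r Λ a e A) (hr : 1 < r) :
    Df A := fun i j p => (h i j).diff hr p

lemma T.congr {r Λ e : ℝ} {a : ℕ} {A A' : P → ℝ × ℝ → Matrix m n ℝ} (h : T r Λ a e A)
    (e' : ∀ p x, A p x = A' p x) : T r Λ a e A' := by
  have : A = A' := by funext p x; exact e' p x
  rwa [this] at h

lemma T.up {r r' Λ e e' : ℝ} {a a' : ℕ} {A : P → ℝ × ℝ → Matrix m n ℝ} (h : T r Λ a e A)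
    (hΛ : 6 ≤ Λ) (hr' : 1 ≤ r') (hr : r' ≤ r) (he0 : 0 ≤ e) (ha : a ≤ a') (he : e ≤ e') :
    T r' Λ a' e' A := by
  intro i j
  refine (h i j).mono (by linarith) hr ?_
  have h1 : Λ ^ a ≤ Λ ^ a' := pow_le_pow_right₀ (by linarith) ha
  have h2 : 0 ≤ Λ ^ a := by positivity
  gcongr

lemma T.mul [Fintype n] {r Λ e f : ℝ} {a b : ℕ} {A : P → ℝ × ℝ → Matrix m n ℝ}
    {C : P → ℝ × ℝ → Matrix n l ℝ}
    (hA : T r Λ a e A) (hC : T r Λ b f C) (hr : 1 ≤ r) (hn : (Fintype.card n : ℝ) ≤ Λ)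
    (he : 0 ≤ e) (hf : 0 ≤ f) :
    T r Λ (a + b + 1) (e * f) (fun p x => A p x * C p x) := by
  intro i j
  have h1 := B.sum (P := P) Finset.univ (fun k _ => (hA i k).mul (hC k j) hr) (by linarith)
  have h0 : (0 : ℝ) ≤ Fintype.card n := by positivity
  have hΛ : 0 ≤ Λ := h0.trans hn
  refine (h1.congr (fun p x => ?_)).mono (by linarith) le_rfl ?_
  · exact (Matrix.mul_apply).symm
  · rw [Finset.sum_const, Finset.card_univ, nsmul_eq_mul]
    calc (Fintype.card n : ℝ) * (Λ ^ a * e * (Λ ^ b * f)) ≤ Λ * (Λ ^ a * e * (Λ ^ b * f)) := by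
          gcongr
      _ = _ := by ring

lemma T.add {r Λ e : ℝ} {a b : ℕ} {A C : P → ℝ × ℝ → Matrix m n ℝ}
    (hA : T r Λ a e A) (hC : T r Λ b e C) (hr : 0 ≤ r) (hΛ : 6 ≤ Λ) (he : 0 ≤ e) :
    T r Λ (max a b + 1) e (fun p x => A p x + C p x) := by
  intro i j
  refine ((hA i j).add (hC i j) hr).mono hr le_rfl ?_
  have h1 : Λ ^ a ≤ Λ ^ (max a b) := pow_le_pow_right₀ (by linarith) (le_max_left _ _)
  have h2 : Λ ^ b ≤ Λ ^ (max a b) := pow_le_pow_right₀ (by linarith) (le_max_right _ _)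
  have h3 : 0 ≤ Λ ^ (max a b) := by positivity
  calc Λ ^ a * e + Λ ^ b * e ≤ Λ ^ (max a b) * e + Λ ^ (max a b) * e := by gcongr
    _ = 2 * (Λ ^ (max a b) * e) := by ring
    _ ≤ Λ * (Λ ^ (max a b) * e) := by gcongr; linarith
    _ = _ := by ring

lemma T.neg {r Λ e : ℝ} {a : ℕ} {A : P → ℝ × ℝ → Matrix m n ℝ}
    (hA : T r Λ a e A) (hr : 0 ≤ r) :
    T r Λ a e (fun p x => -A p x) := fun i j => (hA i j).neg hr

lemma T.sub {r Λ e : ℝ} {a b : ℕ} {A C : P → ℝ × ℝ → Matrix m n ℝ}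
    (hA : T r Λ a e A) (hC : T r Λ b e C) (hr : 0 ≤ r) (hΛ : 6 ≤ Λ) (he : 0 ≤ e) :
    T r Λ (max a b + 1) e (fun p x => A p x - C p x) :=
  (hA.add (hC.neg hr) hr hΛ he).congr (fun p x => (sub_eq_add_neg _ _).symm)

lemma T.dM {r Λ e s : ℝ} {a : ℕ} {A : P → ℝ × ℝ → Matrix m n ℝ}
    (hA : T r Λ a e A) (hs0 : 0 < s) (hs1 : s < 1) (hrs : 1 ≤ r * s) (v : ℝ × ℝ)
    (hv : ‖v‖ / (1 - s) ≤ Λ) (hΛ : 6 ≤ Λ) (he : 0 ≤ e) :
    T (r * s) Λ (a + 1) e (dM v A) := by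
  intro i j
  refine ((hA i j).pd hs0 hs1 hrs v).mono (by linarith) le_rfl ?_
  calc ‖v‖ / (1 - s) * (Λ ^ a * e) ≤ Λ * (Λ ^ a * e) := by gcongr
    _ = _ := by ring

lemma dM_add {A C : P → ℝ × ℝ → Matrix m n ℝ} (hA : Df A) (hC : Df C) (v : ℝ × ℝ) (p : P)
    (x : ℝ × ℝ) : dM v (fun p x => A p x + C p x) p x = dM v A p x + dM v C p x := by
  ext i j
  rw [dM_apply, Matrix.add_apply, dM_apply, dM_apply]
  exact pd_add (hA i j p x) (hC i j p x) v

lemma dM_sub {A C : P → ℝ × ℝ → Matrix m n ℝ} (hA : Df A) (hC : Df C) (v : ℝ × ℝ) (p : P)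
    (x : ℝ × ℝ) : dM v (fun p x => A p x - C p x) p x = dM v A p x - dM v C p x := by
  ext i j
  rw [dM_apply, Matrix.sub_apply, dM_apply, dM_apply]
  exact pd_sub (hA i j p x) (hC i j p x) v

lemma dM_mul [Fintype n] {A : P → ℝ × ℝ → Matrix m n ℝ} {C : P → ℝ × ℝ → Matrix n l ℝ}
    (hA : Df A) (hC : Df C) (v : ℝ × ℝ) (p : P) (x : ℝ × ℝ) :
    dM v (fun p x => A p x * C p x) p x = dM v A p x * C p x + A p x * dM v C p x := by
  ext i j
  rw [dM_apply, Matrix.add_apply, Matrix.mul_apply, Matrix.mul_apply, ← Finset.sum_add_distrib]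
  have e : (fun p x => (A p x * C p x) i j) = fun p x => ∑ k ∈ Finset.univ, A p x i k * C p x k j := by
    funext p x; exact Matrix.mul_apply
  rw [e, pd_sum (f := fun k p x => A p x i k * C p x k j) Finset.univ
    (fun k _ => (hA i k p x).mul (hC k j p x))]
  refine Finset.sum_congr rfl (fun k _ => ?_)
  exact pd_mul (f := fun p x => A p x i k) (g := fun p x => C p x k j) (hA i k p x) (hC k j p x) v

lemma dM_refl {A : P → ℝ × ℝ → Matrix m n ℝ} (hA : Df A) (v : ℝ × ℝ) (p : P) (x : ℝ × ℝ) :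
    dM v (fun p x => A p (-x)) p x = -dM v A p (-x) := by
  ext i j
  rw [Matrix.neg_apply, dM_apply, dM_apply]
  exact pd_refl (f := fun p x => A p x i j) (hA i j p (-x)) v

lemma Df.add {A C : P → ℝ × ℝ → Matrix m n ℝ} (hA : Df A) (hC : Df C) :
    Df (fun p x => A p x + C p x) := fun i j p => (hA i j p).add (hC i j p)

lemma Df.sub {A C : P → ℝ × ℝ → Matrix m n ℝ} (hA : Df A) (hC : Df C) :
    Df (fun p x => A p x - C p x) := fun i j p => (hA i j p).sub (hC i j p)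

lemma Df.mul [Fintype n] {A : P → ℝ × ℝ → Matrix m n ℝ} {C : P → ℝ × ℝ → Matrix n l ℝ}
    (hA : Df A) (hC : Df C) : Df (fun p x => A p x * C p x) := by
  intro i j p
  have e : (fun x => (A p x * C p x) i j) = fun x => ∑ k, A p x i k * C p x k j := by
    funext x; exact Matrix.mul_apply
  rw [e]
  exact Differentiable.fun_sum (fun k _ => (hA i k p).mul (hC k j p))

lemma dM_const (A : P → Matrix m n ℝ) (v : ℝ × ℝ) (p : P) (x : ℝ × ℝ) :
    dM v (fun p _ => A p) p x = 0 := by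
  ext i j
  exact pd_const (fun p => A p i j) v p x

lemma Df.const (A : P → Matrix m n ℝ) : Df (fun p _ => A p) := fun _ _ _ =>
  differentiable_const _

lemma T.const {r Λ : ℝ} (c : m → n → C(P, ℝ)) {a : ℕ} {e : ℝ}
    (h : ∀ i j, ‖c i j‖ ≤ Λ ^ a * e) (hr : 0 ≤ r) :
    T r Λ a e (fun p _ => Matrix.of fun i j => c i j p) := by
  intro i j
  exact (B.const (c i j)).mono hr le_rfl (h i j)

end Run7.h800
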