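import Pool.Agent.Run7.h800.Torus

set_option autoImplicit false
set_option linter.unusedSectionVars false

/-!
# Means of quasi-periodic functions
-/

namespace Run7.h800

open Filter Topology

/-- directional derivative of a function on the plane -/
noncomputable def DD (v : ℝ × ℝ) (f : ℝ × ℝ → ℝ) : ℝ × ℝ → ℝ := fun x => fderiv ℝ f x v

/-- bounded by `M` in the Wiener norm of radius `r` -/
def W1 (r M : ℝ) (f : ℝ × ℝ → ℝ) : Prop := B (P := Unit) r M (fun _ x => f x)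

/-- in the Wiener algebra of some radius above one -/
def WW (f : ℝ × ℝ → ℝ) : Prop := ∃ r M : ℝ, 1 < r ∧ W1 r M f

lemma W1.pd {r M s : ℝ} {f : ℝ × ℝ → ℝ} (hf : W1 r M f) (hs0 : 0 < s) (hs1 : s < 1)
    (hrs : 1 ≤ r * s) (v : ℝ × ℝ) : W1 (r * s) (‖v‖ / (1 - s) * M) (DD v f) :=
  B.pd hf hs0 hs1 hrs v

lemma mid_radius {r : ℝ} (hr : 1 < r) : ∃ s : ℝ, 0 < s ∧ s < 1 ∧ 1 < r * s := by
  have hr0 : 0 < r := by linarith
  refine ⟨(1 + 1 / r) / 2, by positivity, ?_, ?_⟩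
  · have : 1 / r < 1 := by rw [div_lt_one hr0]; exact hr
    linarith
  · have : r * ((1 + 1 / r) / 2) = (r + 1) / 2 := by field_simp
    rw [this]; linarith

lemma WW.common {f g : ℝ × ℝ → ℝ} (hf : WW f) (hg : WW g) :
    ∃ r M N : ℝ, 1 < r ∧ W1 r M f ∧ W1 r N g := by
  obtain ⟨r1, M, h1, h2⟩ := hf
  obtain ⟨r2, N, g1, g2⟩ := hg
  have h3 : 1 < min r1 r2 := lt_min h1 g1
  exact ⟨min r1 r2, M, N, h3, B.mono h2 (by linarith) (min_le_left _ _) le_rfl,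
    B.mono g2 (by linarith) (min_le_right _ _) le_rfl⟩

lemma WW.add {f g : ℝ × ℝ → ℝ} (hf : WW f) (hg : WW g) : WW (fun x => f x + g x) := by
  obtain ⟨r, M, N, hr, h1, h2⟩ := hf.common hg
  exact ⟨r, M + N, hr, B.add h1 h2 (by linarith)⟩

lemma WW.mul {f g : ℝ × ℝ → ℝ} (hf : WW f) (hg : WW g) : WW (fun x => f x * g x) := by
  obtain ⟨r, M, N, hr, h1, h2⟩ := hf.common hg
  exact ⟨r, M * N, hr, B.mul h1 h2 hr.le⟩

lemma WW.const (c : ℝ) : WW (fun _ => c) := ⟨2, |c|, by norm_num, B.rconst c⟩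

lemma WW.smul {f : ℝ × ℝ → ℝ} (c : ℝ) (hf : WW f) : WW (fun x => c * f x) :=
  (WW.const c).mul hf

lemma WW.congr {f g : ℝ × ℝ → ℝ} (hf : WW f) (h : ∀ x, f x = g x) : WW g := by
  have : f = g := funext h
  rwa [this] at hf

lemma WW.neg {f : ℝ × ℝ → ℝ} (hf : WW f) : WW (fun x => -f x) :=
  (hf.smul (-1)).congr (fun x => by ring)

lemma WW.sub {f g : ℝ × ℝ → ℝ} (hf : WW f) (hg : WW g) : WW (fun x => f x - g x) :=
  (hf.add hg.neg).congr (fun x => by ring)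

lemma WW.pd {f : ℝ × ℝ → ℝ} (hf : WW f) (v : ℝ × ℝ) : WW (DD v f) := by
  obtain ⟨r, M, hr, h⟩ := hf
  obtain ⟨s, hs0, hs1, hrs⟩ := mid_radius hr
  exact ⟨_, _, hrs, h.pd hs0 hs1 hrs.le v⟩

lemma WW.diff {f : ℝ × ℝ → ℝ} (hf : WW f) : Differentiable ℝ f := by
  obtain ⟨r, M, hr, h⟩ := hf
  exact B.diff h hr ()

/-- `c` is the mean of `f` -/
def MM (f : ℝ × ℝ → ℝ) (c : ℝ) : Prop := Mn (P := Unit) om (fun _ x => f x) (fun _ => c)

lemma MM.unique {f : ℝ × ℝ → ℝ} {c c' : ℝ} (h : MM f c) (h' : MM f c') : c = c' :=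
  Mn.unique h h' ()

lemma WW.exists_mean {f : ℝ × ℝ → ℝ} (hf : WW f) : ∃ c, MM f c := by
  obtain ⟨r, M, hr, h⟩ := hf
  obtain ⟨c, h1, h2⟩ := Run7.h800.exists_mean h hr
  exact ⟨c (), h2⟩

open Classical in
/-- the mean value -/
noncomputable def mn (f : ℝ × ℝ → ℝ) : ℝ := if h : ∃ c, MM f c then h.choose else 0

lemma WW.mn {f : ℝ × ℝ → ℝ} (hf : WW f) : MM f (mn f) := by
  unfold h800.mn
  rw [dif_pos hf.exists_mean]
  exact hf.exists_mean.choose_spec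

lemma mn_eq {f : ℝ × ℝ → ℝ} {c : ℝ} (h : MM f c) : mn f = c := by
  have h1 : ∃ c, MM f c := ⟨c, h⟩
  unfold mn
  rw [dif_pos h1]
  exact MM.unique h1.choose_spec h

lemma mn_add {f g : ℝ × ℝ → ℝ} (hf : WW f) (hg : WW g) :
    mn (fun x => f x + g x) = mn f + mn g := mn_eq (Mn.add hf.mn hg.mn)

lemma mn_smul {f : ℝ × ℝ → ℝ} (c : ℝ) (hf : WW f) : mn (fun x => c * f x) = c * mn f :=
  mn_eq (Mn.smul hf.mn c)

lemma mn_neg {f : ℝ × ℝ → ℝ} (hf : WW f) : mn (fun x => -f x) = -mn f := mn_eq hf.mn.neg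

lemma mn_sub {f g : ℝ × ℝ → ℝ} (hf : WW f) (hg : WW g) :
    mn (fun x => f x - g x) = mn f - mn g := mn_eq (Mn.sub hf.mn hg.mn)

lemma mn_const (c : ℝ) : mn (fun _ => c) = c := mn_eq (Mn.const om (fun _ : Unit => c))

lemma mn_congr {f g : ℝ × ℝ → ℝ} (h : ∀ x, f x = g x) : mn f = mn g := by
  have : f = g := funext h
  rw [this]

lemma mn_abs_le {f : ℝ × ℝ → ℝ} (hf : WW f) {b : ℝ} (hb : ∀ x, |f x| ≤ b) : |mn f| ≤ b :=
  Mn.abs_le (P := Unit) hf.mn () hb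

lemma mn_pd {f : ℝ × ℝ → ℝ} (hf : WW f) (v : ℝ × ℝ) : mn (DD v f) = 0 := by
  apply mn_eq
  obtain ⟨r, M, hr, a, ha⟩ := hf
  obtain ⟨s, hs0, hs1, hrs⟩ := mid_radius hr
  have hd : Differentiable ℝ f := B.diff (P := Unit) ⟨a, ha⟩ hr ()
  have h1 := ha.fder hs0 hs1 hrs.le v
  obtain ⟨g, b, h2, h3, h4⟩ := h1.solve0 hrs om_dio.nonneg om_dio.div
  obtain ⟨s', hs0', hs1', hrs'⟩ := mid_radius hrs
  obtain ⟨N, h5⟩ : ∃ N, BC (r * s * s') N b g := ⟨_, h4 s' hs0' hs1' hrs'.le⟩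
  refine ⟨fun _ x => (g () x).re, fun p x => ?_, ⟨N, fun p x => ?_⟩, fun p x => ?_⟩
  · exact Complex.reCLM.differentiableAt.comp x (h3 () x)
  · have := h5.norm_le hrs'.le () x
    exact (Complex.abs_re_le_norm _).trans this
  · have e1 : HasFDerivAt (fun x => Complex.reCLM (g () x))
        (Complex.reCLM.comp (fderiv ℝ (g ()) x)) x :=
      Complex.reCLM.hasFDerivAt.comp x (h3 () x).hasFDerivAt
    have e2 : pd om (fun (_ : Unit) x => (g () x).re) p x = (fderiv ℝ (g ()) x om).re := by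
      unfold pd
      have : fderiv ℝ (fun x => (g () x).re) x = _ := e1.fderiv
      rw [this]; rfl
    rw [e2, h2 () x]
    have e3 : dcoef v a 0 () = 0 := by
      simp [dcoef, dot]
    rw [e3, sub_zero]
    have e4 : fderiv ℝ (fun x => ((f x : ℝ) : ℂ)) x v = ((fderiv ℝ f x v : ℝ) : ℂ) :=
      ofReal_pd (f := fun (_ : Unit) x => f x) (p := ()) (hd x) v
    rw [e4]
    simp [DD]

lemma DD_mul {f g : ℝ × ℝ → ℝ} (hf : WW f) (hg : WW g) (v : ℝ × ℝ) (x : ℝ × ℝ) :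
    DD v (fun x => f x * g x) x = DD v f x * g x + f x * DD v g x :=
  pd_mul (P := Unit) (f := fun _ x => f x) (g := fun _ x => g x) (p := ()) (hf.diff x) (hg.diff x) v

lemma DD_add {f g : ℝ × ℝ → ℝ} (hf : WW f) (hg : WW g) (v : ℝ × ℝ) (x : ℝ × ℝ) :
    DD v (fun x => f x + g x) x = DD v f x + DD v g x :=
  pd_add (P := Unit) (f := fun _ x => f x) (g := fun _ x => g x) (p := ()) (hf.diff x) (hg.diff x) v

lemma DD_sub {f g : ℝ × ℝ → ℝ} (hf : WW f) (hg : WW g) (v : ℝ × ℝ) (x : ℝ × ℝ) :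
    DD v (fun x => f x - g x) x = DD v f x - DD v g x :=
  pd_sub (P := Unit) (f := fun _ x => f x) (g := fun _ x => g x) (p := ()) (hf.diff x) (hg.diff x) v

lemma DD_smul {f : ℝ × ℝ → ℝ} (c : ℝ) (hf : WW f) (v : ℝ × ℝ) (x : ℝ × ℝ) :
    DD v (fun x => c * f x) x = c * DD v f x :=
  pd_cmul (P := Unit) (f := fun _ x => f x) (p := ()) (hf.diff x) (fun _ => c) v

/-- integration by parts -/
lemma ibp {f g : ℝ × ℝ → ℝ} (hf : WW f) (hg : WW g) (v : ℝ × ℝ) :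
    mn (fun x => DD v f x * g x) = -mn (fun x => f x * DD v g x) := by
  have h1 := mn_pd (hf.mul hg) v
  have h2 : mn (DD v (fun x => f x * g x)) = mn (fun x => DD v f x * g x + f x * DD v g x) :=
    mn_congr (DD_mul hf hg v)
  rw [h2, mn_add ((hf.pd v).mul hg) (hf.mul (hg.pd v))] at h1
  linarith

/-! ### characters -/

/-- cosine of a frequency -/
noncomputable def cc (k : ℤ × ℤ) (x : ℝ × ℝ) : ℝ := Real.cos (dot k x)
/-- sine of a frequency -/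
noncomputable def sn (k : ℤ × ℤ) (x : ℝ × ℝ) : ℝ := Real.sin (dot k x)

lemma cc_WW (k : ℤ × ℤ) : WW (cc k) := ⟨2, _, by norm_num, B_cos (P := Unit) (by norm_num) k⟩
lemma sn_WW (k : ℤ × ℤ) : WW (sn k) := ⟨2, _, by norm_num, B_sin (P := Unit) (by norm_num) k⟩

lemma cc_le (k : ℤ × ℤ) (x : ℝ × ℝ) : |cc k x| ≤ 1 := Real.abs_cos_le_one _
lemma sn_le (k : ℤ × ℤ) (x : ℝ × ℝ) : |sn k x| ≤ 1 := Real.abs_sin_le_one _

lemma DD_cc (k : ℤ × ℤ) (v : ℝ × ℝ) (x : ℝ × ℝ) : DD v (cc k) x = -(dot k v) * sn k x :=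
  pd_cos (P := Unit) k v () x

lemma DD_sn (k : ℤ × ℤ) (v : ℝ × ℝ) (x : ℝ × ℝ) : DD v (sn k) x = dot k v * cc k x :=
  pd_sin (P := Unit) k v () x

lemma mn_cc {k : ℤ × ℤ} (hk : k ≠ 0) : mn (cc k) = 0 := by
  have h1 : dot k om ≠ 0 := by
    intro h
    have := om_dio.div k hk
    rw [h, abs_zero, mul_zero] at this
    linarith
  have h2 := mn_pd (sn_WW k) om
  have h3 : mn (DD om (sn k)) = mn (fun x => dot k om * cc k x) := mn_congr (DD_sn k om)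
  rw [h3, mn_smul _ (cc_WW k)] at h2
  exact (mul_eq_zero.mp h2).resolve_left h1

lemma mn_sn (k : ℤ × ℤ) : mn (sn k) = 0 := by
  by_cases hk : k = 0
  · have : sn k = fun _ => 0 := by
      funext x
      rw [hk]
      simp [sn, dot]
    rw [this, mn_const]
  · have h1 : dot k om ≠ 0 := by
      intro h
      have := om_dio.div k hk
      rw [h, abs_zero, mul_zero] at this
      linarith
    have h2 := mn_pd (cc_WW k) om
    have h3 : mn (DD om (cc k)) = mn (fun x => -(dot k om) * sn k x) := mn_congr (DD_cc k om)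
    rw [h3, mn_smul _ (sn_WW k)] at h2
    exact (mul_eq_zero.mp h2).resolve_left (neg_ne_zero.mpr h1)

lemma c1_eq (x : ℝ × ℝ) : c1 x = cc (1, 0) x := rfl
lemma s1_eq (x : ℝ × ℝ) : s1 x = sn (1, 0) x := rfl
lemma c2_eq (x : ℝ × ℝ) : c2 x = cc (0, 1) x := rfl
lemma s2_eq (x : ℝ × ℝ) : s2 x = sn (0, 1) x := rfl

lemma dot_add (j k : ℤ × ℤ) (x : ℝ × ℝ) : dot (j + k) x = dot j x + dot k x := by
  unfold dot
  simp only [Prod.fst_add, Prod.snd_add]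
  push_cast; ring

lemma dot_sub (j k : ℤ × ℤ) (x : ℝ × ℝ) : dot (j - k) x = dot j x - dot k x := by
  unfold dot
  simp only [Prod.fst_sub, Prod.snd_sub]
  push_cast; ring

lemma cc_mul_cc (j k : ℤ × ℤ) (x : ℝ × ℝ) :
    cc j x * cc k x = 1 / 2 * cc (j - k) x + 1 / 2 * cc (j + k) x := by
  unfold cc
  rw [dot_add, dot_sub, Real.cos_add, Real.cos_sub]; ring

lemma sn_mul_sn (j k : ℤ × ℤ) (x : ℝ × ℝ) :
    sn j x * sn k x = 1 / 2 * cc (j - k) x - 1 / 2 * cc (j + k) x := by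
  unfold cc sn
  rw [dot_add, dot_sub, Real.cos_add, Real.cos_sub]; ring

lemma cc_mul_sn (j k : ℤ × ℤ) (x : ℝ × ℝ) :
    cc j x * sn k x = 1 / 2 * sn (j + k) x - 1 / 2 * sn (j - k) x := by
  unfold cc sn
  rw [dot_add, dot_sub, Real.sin_add, Real.sin_sub]; ring

/-- means of the products of two characters -/
lemma mn_cc_cc {j k : ℤ × ℤ} (h1 : j - k ≠ 0) (h2 : j + k ≠ 0) :
    mn (fun x => cc j x * cc k x) = 0 := by
  rw [mn_congr (cc_mul_cc j k), mn_add ((cc_WW _).smul _) ((cc_WW _).smul _),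
    mn_smul _ (cc_WW _), mn_smul _ (cc_WW _), mn_cc h1, mn_cc h2]
  ring

lemma cc_zero (x : ℝ × ℝ) : cc 0 x = 1 := by simp [cc, dot]

lemma mn_cc_self {k : ℤ × ℤ} (h2 : k + k ≠ 0) : mn (fun x => cc k x * cc k x) = 1 / 2 := by
  rw [mn_congr (cc_mul_cc k k), mn_add ((cc_WW _).smul _) ((cc_WW _).smul _),
    mn_smul _ (cc_WW _), mn_smul _ (cc_WW _), mn_cc h2, sub_self]
  have : mn (cc 0) = 1 := by
    rw [mn_congr cc_zero, mn_const]
  rw [this]; ring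

lemma mn_sn_sn {j k : ℤ × ℤ} (h1 : j - k ≠ 0) (h2 : j + k ≠ 0) :
    mn (fun x => sn j x * sn k x) = 0 := by
  rw [mn_congr (sn_mul_sn j k), mn_sub ((cc_WW _).smul _) ((cc_WW _).smul _),
    mn_smul _ (cc_WW _), mn_smul _ (cc_WW _), mn_cc h1, mn_cc h2]
  ring

lemma mn_sn_self {k : ℤ × ℤ} (h2 : k + k ≠ 0) : mn (fun x => sn k x * sn k x) = 1 / 2 := by
  rw [mn_congr (sn_mul_sn k k), mn_sub ((cc_WW _).smul _) ((cc_WW _).smul _),
    mn_smul _ (cc_WW _), mn_smul _ (cc_WW _), mn_cc h2, sub_self]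
  have : mn (cc 0) = 1 := by
    rw [mn_congr cc_zero, mn_const]
  rw [this]; ring

lemma mn_cc_sn (j k : ℤ × ℤ) : mn (fun x => cc j x * sn k x) = 0 := by
  rw [mn_congr (cc_mul_sn j k), mn_sub ((sn_WW _).smul _) ((sn_WW _).smul _),
    mn_smul _ (sn_WW _), mn_smul _ (sn_WW _), mn_sn, mn_sn]
  ring

end Run7.h800
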