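import Pool.Agent.Run7.h800.Mean

set_option autoImplicit false
set_option linter.unusedSectionVars false

/-!
# First order Fourier coefficients of the tori
-/

namespace Run7.h800

open Filter Topology

/-- the torus and the equations at a fixed value of the parameters -/
structure Sl (M ε si : ℝ) (u w1 w2 p1 p2 g4 g5 : ℝ × ℝ → ℝ) (mu ka : ℝ) : Prop where
  hε : 0 ≤ ε
  hM : 1 ≤ M
  hMε : M * ε ≤ 1 / 10
  hs1 : 1 ≤ si
  hs2 : si ≤ 2
  wu : WW u
  ww1 : WW w1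
  ww2 : WW w2
  wp1 : WW p1
  wp2 : WW p2
  wg4 : WW g4
  wg5 : WW g5
  cu : ∀ x, |u x - c1 x| ≤ M * ε
  cw1 : ∀ x, |w1 x - c2 x| ≤ M * ε
  cw2 : ∀ x, |w2 x + 8 / 5 * al * s2 x| ≤ M * ε
  cp1 : ∀ x, |p1 x + al * s2 x| ≤ M * ε
  cp2 : ∀ x, |p2 x + 4 * c2 x| ≤ M * ε
  cmu : |mu - 1| ≤ M * ε
  cka : |ka - 9 / 4| ≤ M * ε
  e1 : ∀ x, DD om w1 x = mu * p1 x
  e2 : ∀ x, DD om w2 x = mu * p2 x
  e4 : ∀ x, DD om p1 x = mu * (2 * p2 x + (2 * ka + 1) * w1 x + ε * g4 x)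
  e5 : ∀ x, DD om p2 x = mu * (-2 * p1 x - (ka - 1) * w2 x + ε * g5 x)
  ag4 : ∀ x, |g4 x + si * (11 / 2) * (c1 x * c2 x)| ≤ M * ε
  ag5 : ∀ x, |g5 x + si * (2 * al) * (c1 x * s2 x)| ≤ M * ε

lemma W_c1 : WW c1 := cc_WW _
lemma W_s1 : WW s1 := sn_WW _
lemma W_c2 : WW c2 := cc_WW _
lemma W_s2 : WW s2 := sn_WW _

lemma c1_le (x : ℝ × ℝ) : |c1 x| ≤ 1 := Real.abs_cos_le_one _
lemma s1_le (x : ℝ × ℝ) : |s1 x| ≤ 1 := Real.abs_sin_le_one _
lemma c2_le (x : ℝ × ℝ) : |c2 x| ≤ 1 := Real.abs_cos_le_one _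
lemma s2_le (x : ℝ × ℝ) : |s2 x| ≤ 1 := Real.abs_sin_le_one _

/-- the mean of a product with a small error -/
lemma mn_close {f g h : ℝ × ℝ → ℝ} (hf : WW f) (hg : WW g) (hh : WW h) {b : ℝ}
    (hb : ∀ x, |f x - g x| ≤ b) (hh1 : ∀ x, |h x| ≤ 1) :
    |mn (fun x => f x * h x) - mn (fun x => g x * h x)| ≤ b := by
  rw [← mn_sub (hf.mul hh) (hg.mul hh)]
  refine mn_abs_le ((hf.mul hh).sub (hg.mul hh)) (fun x => ?_)
  have h0 : 0 ≤ b := (abs_nonneg _).trans (hb x)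
  rw [← sub_mul, abs_mul]
  calc |f x - g x| * |h x| ≤ b * 1 := by
        have := hb x
        have := hh1 x
        gcongr
    _ = b := mul_one b

section mode

variable {M ε si : ℝ} {u w1 w2 p1 p2 g4 g5 : ℝ × ℝ → ℝ} {mu ka : ℝ}

/-- the exact linear relations between the coefficients of a frequency -/
lemma Sl.rel (h : Sl M ε si u w1 w2 p1 p2 g4 g5 mu ka) (k : ℤ × ℤ) :
    mu * mn (fun x => p1 x * sn k x) = -dot k om * mn (fun x => w1 x * cc k x) ∧
    mu * mn (fun x => p2 x * cc k x) = dot k om * mn (fun x => w2 x * sn k x) ∧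
    dot k om * mn (fun x => p1 x * sn k x) = mu * (2 * mn (fun x => p2 x * cc k x)
      + (2 * ka + 1) * mn (fun x => w1 x * cc k x) + ε * mn (fun x => g4 x * cc k x)) ∧
    -dot k om * mn (fun x => p2 x * cc k x) = mu * (-2 * mn (fun x => p1 x * sn k x)
      - (ka - 1) * mn (fun x => w2 x * sn k x) + ε * mn (fun x => g5 x * sn k x)) := by
  have dS : ∀ f : ℝ × ℝ → ℝ, WW f → mn (fun x => DD om f x * sn k x)
      = -dot k om * mn (fun x => f x * cc k x) := by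
    intro f hf
    rw [ibp hf (sn_WW k) om]
    have : mn (fun x => f x * DD om (sn k) x) = mn (fun x => dot k om * (f x * cc k x)) :=
      mn_congr (fun x => by rw [DD_sn]; ring)
    rw [this, mn_smul _ (hf.mul (cc_WW k))]; ring
  have dC : ∀ f : ℝ × ℝ → ℝ, WW f → mn (fun x => DD om f x * cc k x)
      = dot k om * mn (fun x => f x * sn k x) := by
    intro f hf
    rw [ibp hf (cc_WW k) om]
    have : mn (fun x => f x * DD om (cc k) x) = mn (fun x => -dot k om * (f x * sn k x)) :=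
      mn_congr (fun x => by rw [DD_cc]; ring)
    rw [this, mn_smul _ (hf.mul (sn_WW k))]; ring
  refine ⟨?_, ?_, ?_, ?_⟩
  · rw [← dS w1 h.ww1, ← mn_smul _ (h.wp1.mul (sn_WW k))]
    exact mn_congr (fun x => by rw [h.e1]; ring)
  · rw [← dC w2 h.ww2, ← mn_smul _ (h.wp2.mul (cc_WW k))]
    exact mn_congr (fun x => by rw [h.e2]; ring)
  · rw [← dC p1 h.wp1]
    have e : mn (fun x => DD om p1 x * cc k x) = mn (fun x => mu * ((2 * (p2 x * cc k x)
        + (2 * ka + 1) * (w1 x * cc k x)) + ε * (g4 x * cc k x))) :=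
      mn_congr (fun x => by rw [h.e4]; ring)
    have a1 := (h.wp2.mul (cc_WW k)).smul 2
    have a2 := (h.ww1.mul (cc_WW k)).smul (2 * ka + 1)
    have a3 := (h.wg4.mul (cc_WW k)).smul ε
    rw [e, mn_smul _ ((a1.add a2).add a3), mn_add (a1.add a2) a3, mn_add a1 a2,
      mn_smul _ (h.wp2.mul (cc_WW k)), mn_smul _ (h.ww1.mul (cc_WW k)),
      mn_smul _ (h.wg4.mul (cc_WW k))]
  · rw [← dS p2 h.wp2]
    have e : mn (fun x => DD om p2 x * sn k x) = mn (fun x => mu * ((-2 * (p1 x * sn k x)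
        - (ka - 1) * (w2 x * sn k x)) + ε * (g5 x * sn k x))) :=
      mn_congr (fun x => by rw [h.e5]; ring)
    have a1 := (h.wp1.mul (sn_WW k)).smul (-2)
    have a2 := (h.ww2.mul (sn_WW k)).smul (ka - 1)
    have a3 := (h.wg5.mul (sn_WW k)).smul ε
    rw [e, mn_smul _ ((a1.sub a2).add a3), mn_add (a1.sub a2) a3, mn_sub a1 a2,
      mn_smul _ (h.wp1.mul (sn_WW k)), mn_smul _ (h.ww2.mul (sn_WW k)),
      mn_smul _ (h.wg5.mul (sn_WW k))]

/-- the frequencies of the two first order modes -/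
def kk (b : Bool) : ℤ × ℤ := if b then (1, 1) else (1, -1)

/-- the sign of the mode -/
def sb (b : Bool) : ℝ := if b then 1 else -1

lemma dot_kk (b : Bool) : dot (kk b) om = 1 + sb b * al := by
  unfold dot kk sb om
  cases b <;> simp

lemma mn_c2_kk (b : Bool) : mn (fun x => c2 x * cc (kk b) x) = 0 := by
  apply mn_cc_cc <;> cases b <;> simp [kk]

lemma mn_s2_kk (b : Bool) : mn (fun x => s2 x * sn (kk b) x) = 0 := by
  apply mn_sn_sn <;> cases b <;> simp [kk]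

lemma c1c2_eq (x : ℝ × ℝ) : c1 x * c2 x = 1 / 2 * cc (1, -1) x + 1 / 2 * cc (1, 1) x := by
  have := cc_mul_cc (1, 0) (0, 1) x
  change cc (1, 0) x * cc (0, 1) x = _
  simpa using this

lemma c1s2_eq (x : ℝ × ℝ) : c1 x * s2 x = 1 / 2 * sn (1, 1) x - 1 / 2 * sn (1, -1) x := by
  have := cc_mul_sn (1, 0) (0, 1) x
  change cc (1, 0) x * sn (0, 1) x = _
  simpa using this

lemma mn_c1c2_kk (b : Bool) : mn (fun x => c1 x * c2 x * cc (kk b) x) = 1 / 4 := by
  have e : mn (fun x => c1 x * c2 x * cc (kk b) x) = mn (fun x => 1 / 2 * (cc (1, -1) x * cc (kk b) x)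
      + 1 / 2 * (cc (1, 1) x * cc (kk b) x)) := mn_congr (fun x => by rw [c1c2_eq]; ring)
  rw [e, mn_add (((cc_WW _).mul (cc_WW _)).smul _) (((cc_WW _).mul (cc_WW _)).smul _),
    mn_smul _ ((cc_WW _).mul (cc_WW _)), mn_smul _ ((cc_WW _).mul (cc_WW _))]
  cases b
  · have h1 : mn (fun x => cc (1, -1) x * cc (kk false) x) = 1 / 2 := mn_cc_self (by simp)
    have h2 : mn (fun x => cc (1, 1) x * cc (kk false) x) = 0 := by
      apply mn_cc_cc <;> simp [kk]
    rw [h1, h2]; norm_num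
  · have h1 : mn (fun x => cc (1, -1) x * cc (kk true) x) = 0 := by
      apply mn_cc_cc <;> simp [kk]
    have h2 : mn (fun x => cc (1, 1) x * cc (kk true) x) = 1 / 2 := mn_cc_self (by simp)
    rw [h1, h2]; norm_num

lemma mn_c1s2_kk (b : Bool) : mn (fun x => c1 x * s2 x * sn (kk b) x) = sb b / 4 := by
  have e : mn (fun x => c1 x * s2 x * sn (kk b) x) = mn (fun x => 1 / 2 * (sn (1, 1) x * sn (kk b) x)
      - 1 / 2 * (sn (1, -1) x * sn (kk b) x)) := mn_congr (fun x => by rw [c1s2_eq]; ring)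
  rw [e, mn_sub (((sn_WW _).mul (sn_WW _)).smul _) (((sn_WW _).mul (sn_WW _)).smul _),
    mn_smul _ ((sn_WW _).mul (sn_WW _)), mn_smul _ ((sn_WW _).mul (sn_WW _))]
  cases b
  · have h1 : mn (fun x => sn (1, -1) x * sn (kk false) x) = 1 / 2 := mn_sn_self (by simp)
    have h2 : mn (fun x => sn (1, 1) x * sn (kk false) x) = 0 := by
      apply mn_sn_sn <;> simp [kk]
    rw [h1, h2]; norm_num [sb]
  · have h1 : mn (fun x => sn (1, -1) x * sn (kk true) x) = 0 := by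
      apply mn_sn_sn <;> simp [kk]
    have h2 : mn (fun x => sn (1, 1) x * sn (kk true) x) = 1 / 2 := mn_sn_self (by simp)
    rw [h1, h2]; norm_num [sb]

/-- the first order coefficients -/
noncomputable def X1c (b : Bool) : ℝ := 51 / 248 - sb b * (47 / 620 * al)
/-- the first order coefficients -/
noncomputable def X2c (b : Bool) : ℝ := 8 / 31 - sb b * (19 / 155 * al)

lemma sb_sq (b : Bool) : sb b * sb b = 1 := by cases b <;> simp [sb]

lemma Xc_eq (b : Bool) :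
    -((1 + sb b * al) ^ 2 + 11 / 2) * X1c b - 2 * (1 + sb b * al) * X2c b = -(11 / 8) ∧
    -2 * (1 + sb b * al) * X1c b - ((1 + sb b * al) ^ 2 - 5 / 4) * X2c b = -(sb b * al / 2) := by
  have h1 := al_sq
  have h2 := sb_sq b
  unfold X1c X2c
  constructor
  · linear_combination (47 / 620 * sb b * al + 237 / 1240) * h1
      + (47 / 620 * al ^ 3 * sb b + 237 / 1240 * al ^ 2) * h2
  · linear_combination (19 / 155 * sb b * al + 43 / 310) * h1
      + (19 / 155 * al ^ 3 * sb b + 43 / 310 * al ^ 2) * h2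

lemma div_bound {c d r1 r2 e1 e2 N c0 : ℝ} (h : c * d = -r1 * e1 + r2 * e2) (he1 : |e1| ≤ N)
    (he2 : |e2| ≤ N) (hc : c0 ≤ |c|) (hc0 : 0 < c0) (hr : |r1| + |r2| ≤ 5 * c0) : |d| ≤ 5 * N := by
  have hN : 0 ≤ N := (abs_nonneg _).trans he1
  have h1 : |c| * |d| ≤ |r1| * N + |r2| * N := by
    rw [← abs_mul, h]
    refine (abs_add_le _ _).trans ?_
    rw [abs_mul, abs_mul, abs_neg]
    gcongr
  have h2 : c0 * |d| ≤ |c| * |d| := by
    have := abs_nonneg d
    gcongr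
  have h3 : c0 * |d| ≤ c0 * (5 * N) := by nlinarith
  exact le_of_mul_le_mul_left h3 hc0

/-- solving the perturbed linear system -/
lemma lin_solve (b : Bool) {d1 d2 e1 e2 N : ℝ}
    (h1 : -((1 + sb b * al) ^ 2 + 11 / 2) * d1 - 2 * (1 + sb b * al) * d2 = e1)
    (h2 : -2 * (1 + sb b * al) * d1 - ((1 + sb b * al) ^ 2 - 5 / 4) * d2 = e2)
    (he1 : |e1| ≤ N) (he2 : |e2| ≤ N) : |d1| ≤ 5 * N ∧ |d2| ≤ 5 * N := by
  have ha := al_sq
  have hlo := al_lo
  have hhi := al_hi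
  -- determinant
  have hchi : (65 / 4 + sb b * (29 / 2 * al)) * d1
      = -((1 + sb b * al) ^ 2 - 5 / 4) * e1 + 2 * (1 + sb b * al) * e2 := by
    rw [← h1, ← h2]
    cases b
    · simp only [sb]
      norm_num
      linear_combination (-al ^ 2 + 4 * al - 35 / 4) * d1 * ha
    · simp only [sb]
      norm_num
      linear_combination (-al ^ 2 - 4 * al - 35 / 4) * d1 * ha
  have hchi2 : (65 / 4 + sb b * (29 / 2 * al)) * d2
      = -((1 + sb b * al) ^ 2 + 11 / 2) * e2 + 2 * (1 + sb b * al) * e1 := by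
    rw [← h1, ← h2]
    cases b
    · simp only [sb]
      norm_num
      linear_combination (-al ^ 2 + 4 * al - 35 / 4) * d2 * ha
    · simp only [sb]
      norm_num
      linear_combination (-al ^ 2 - 4 * al - 35 / 4) * d2 * ha
  cases b
  · simp only [sb] at hchi hchi2
    norm_num at hchi hchi2
    have hc : (5 : ℝ) ≤ |65 / 4 + -(29 / 2 * al)| := by
      rw [abs_of_neg (by linarith)]; linarith
    have b1 : |(1 + -al) ^ 2 - 5 / 4| ≤ 5 / 4 := by
      rw [abs_le]; constructor <;> nlinarith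
    have b2 : |(1 + -al) ^ 2 + 11 / 2| ≤ 6 := by
      rw [abs_le]; constructor <;> nlinarith
    have b3 : |2 * (1 + -al)| ≤ 6 / 5 := by
      rw [abs_le]; constructor <;> linarith
    constructor
    · refine div_bound (r1 := (1 + -al) ^ 2 - 5 / 4) (r2 := 2 * (1 + -al)) ?_ he1 he2 hc (by norm_num)
        (by linarith)
      linarith
    · refine div_bound (r1 := (1 + -al) ^ 2 + 11 / 2) (r2 := 2 * (1 + -al)) ?_ he2 he1 hc (by norm_num)
        (by linarith)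
      linarith
  · simp only [sb] at hchi hchi2
    norm_num at hchi hchi2
    have hc : (37 : ℝ) ≤ |65 / 4 + (29 / 2 * al)| := by
      rw [abs_of_pos (by linarith)]; linarith
    have b1 : |(1 + al) ^ 2 - 5 / 4| ≤ 6 := by
      rw [abs_le]; constructor <;> nlinarith
    have b2 : |(1 + al) ^ 2 + 11 / 2| ≤ 13 := by
      rw [abs_le]; constructor <;> nlinarith
    have b3 : |2 * (1 + al)| ≤ 6 := by
      rw [abs_le]; constructor <;> linarith
    constructor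
    · refine div_bound (r1 := (1 + al) ^ 2 - 5 / 4) (r2 := 2 * (1 + al)) ?_ he1 he2 hc (by norm_num)
        (by linarith)
      linarith
    · refine div_bound (r1 := (1 + al) ^ 2 + 11 / 2) (r2 := 2 * (1 + al)) ?_ he2 he1 hc (by norm_num)
        (by linarith)
      linarith

/-- First order coefficients of the two modes. -/
lemma Sl.mode (h : Sl M ε si u w1 w2 p1 p2 g4 g5 mu ka) (b : Bool) :
    |mn (fun x => w1 x * cc (kk b) x) - ε * si * X1c b| ≤ 1000 * M ^ 2 * ε ^ 2 ∧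
    |mn (fun x => w2 x * sn (kk b) x) - ε * si * X2c b| ≤ 1000 * M ^ 2 * ε ^ 2 := by
  obtain ⟨r1, r2, r3, r4⟩ := h.rel (kk b)
  have hε := h.hε
  have hM := h.hM
  have hMε := h.hMε
  have hs1 := h.hs1
  have hs2 := h.hs2
  have hME : 0 ≤ M * ε := by positivity
  have hlo := al_lo
  have hhi := al_hi
  -- smallness of the coefficients
  have a1 : |mn (fun x => w1 x * cc (kk b) x)| ≤ M * ε := by
    have := mn_close h.ww1 W_c2 (cc_WW (kk b)) h.cw1 (cc_le _)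
    rwa [mn_c2_kk, sub_zero] at this
  have a2 : |mn (fun x => w2 x * sn (kk b) x)| ≤ M * ε := by
    have := mn_close (g := fun x => -(8 / 5 * al) * s2 x) h.ww2 (W_s2.smul _) (sn_WW (kk b))
      (fun x => by have := h.cw2 x; convert this using 2; ring) (sn_le _)
    have e : mn (fun x => -(8 / 5 * al) * s2 x * sn (kk b) x) = 0 := by
      have : mn (fun x => -(8 / 5 * al) * s2 x * sn (kk b) x)
          = mn (fun x => -(8 / 5 * al) * (s2 x * sn (kk b) x)) := mn_congr (fun x => by ring)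
      rw [this, mn_smul _ (W_s2.mul (sn_WW _)), mn_s2_kk, mul_zero]
    rwa [e, sub_zero] at this
  have a4 : |mn (fun x => g4 x * cc (kk b) x) + si * (11 / 8)| ≤ M * ε := by
    have := mn_close (g := fun x => -(si * (11 / 2)) * (c1 x * c2 x)) h.wg4
      ((W_c1.mul W_c2).smul _) (cc_WW (kk b))
      (fun x => by have := h.ag4 x; convert this using 2; ring) (cc_le _)
    have e : mn (fun x => -(si * (11 / 2)) * (c1 x * c2 x) * cc (kk b) x) = -(si * (11 / 8)) := by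
      have : mn (fun x => -(si * (11 / 2)) * (c1 x * c2 x) * cc (kk b) x)
          = mn (fun x => -(si * (11 / 2)) * (c1 x * c2 x * cc (kk b) x)) := mn_congr (fun x => by ring)
      rw [this, mn_smul _ ((W_c1.mul W_c2).mul (cc_WW _)), mn_c1c2_kk]; ring
    rwa [e, sub_neg_eq_add] at this
  have a5 : |mn (fun x => g5 x * sn (kk b) x) + si * (al * sb b / 2)| ≤ M * ε := by
    have := mn_close (g := fun x => -(si * (2 * al)) * (c1 x * s2 x)) h.wg5
      ((W_c1.mul W_s2).smul _) (sn_WW (kk b))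
      (fun x => by have := h.ag5 x; convert this using 2; ring) (sn_le _)
    have e : mn (fun x => -(si * (2 * al)) * (c1 x * s2 x) * sn (kk b) x) = -(si * (al * sb b / 2)) := by
      have : mn (fun x => -(si * (2 * al)) * (c1 x * s2 x) * sn (kk b) x)
          = mn (fun x => -(si * (2 * al)) * (c1 x * s2 x * sn (kk b) x)) := mn_congr (fun x => by ring)
      rw [this, mn_smul _ ((W_c1.mul W_s2).mul (sn_WW _)), mn_c1s2_kk]; ring
    rwa [e, sub_neg_eq_add] at this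
  rw [dot_kk] at r1 r2 r3 r4
  obtain ⟨x1, hx1⟩ : ∃ x1, x1 = mn (fun x => w1 x * cc (kk b) x) := ⟨_, rfl⟩
  obtain ⟨x2, hx2⟩ : ∃ x2, x2 = mn (fun x => w2 x * sn (kk b) x) := ⟨_, rfl⟩
  obtain ⟨y1, hy1⟩ : ∃ y1, y1 = mn (fun x => p1 x * sn (kk b) x) := ⟨_, rfl⟩
  obtain ⟨y2, hy2⟩ : ∃ y2, y2 = mn (fun x => p2 x * cc (kk b) x) := ⟨_, rfl⟩
  obtain ⟨m4, hm4⟩ : ∃ m4, m4 = mn (fun x => g4 x * cc (kk b) x) := ⟨_, rfl⟩
  obtain ⟨m5, hm5⟩ : ∃ m5, m5 = mn (fun x => g5 x * sn (kk b) x) := ⟨_, rfl⟩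
  obtain ⟨nu, hnu⟩ : ∃ nu, nu = 1 + sb b * al := ⟨_, rfl⟩
  rw [← hx1, ← hnu, ← hy1] at r1
  rw [← hx2, ← hnu, ← hy2] at r2
  rw [← hx1, ← hnu, ← hy1, ← hy2, ← hm4] at r3
  rw [← hx2, ← hnu, ← hy1, ← hy2, ← hm5] at r4
  rw [← hx1] at a1 ⊢
  rw [← hx2] at a2 ⊢
  rw [← hm4] at a4
  rw [← hm5] at a5
  have hnu2 : |nu| ≤ 3 := by
    rw [hnu]
    cases b <;> simp only [sb] <;> norm_num <;> rw [abs_le] <;> constructor <;> linarith
  -- the remainders
  obtain ⟨e1, he1⟩ : ∃ e1, e1 = (mu - 1) * (2 * nu * x2) + (mu ^ 2 - 1) * ((2 * ka + 1) * x1)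
    + 2 * (ka - 9 / 4) * x1 + (mu ^ 2 - 1) * ε * m4 + ε * (m4 + si * (11 / 8)) := ⟨_, rfl⟩
  obtain ⟨e2, he2⟩ : ∃ e2, e2 = (mu - 1) * (2 * nu * x1) - (mu ^ 2 - 1) * ((ka - 1) * x2)
    - (ka - 9 / 4) * x2 + (mu ^ 2 - 1) * ε * m5 + ε * (m5 + si * (al * sb b / 2)) := ⟨_, rfl⟩
  have E1 : -(nu ^ 2 + 11 / 2) * x1 - 2 * nu * x2 = -(ε * si * (11 / 8)) + e1 := by
    have k3 : -nu ^ 2 * x1 = mu * (2 * (nu * x2)) + mu ^ 2 * ((2 * ka + 1) * x1 + ε * m4) := by
      linear_combination (-nu) * r1 + mu * r3 + 2 * mu * r2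
    rw [he1]
    linear_combination k3
  have E2 : -2 * nu * x1 - (nu ^ 2 - 5 / 4) * x2 = -(ε * si * (sb b * al / 2)) + e2 := by
    have k4 : -nu ^ 2 * x2 = mu * (2 * (nu * x1)) + mu ^ 2 * (-((ka - 1) * x2) + ε * m5) := by
      linear_combination nu * r2 + mu * r4 - 2 * mu * r1
    rw [he2]
    linear_combination k4
  obtain ⟨Z1, Z2⟩ := Xc_eq b
  rw [← hnu] at Z1 Z2
  -- bounds of the remainders
  have hmu := h.cmu
  have hka := h.cka
  have hmu2 : |mu ^ 2 - 1| ≤ 3 * (M * ε) := by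
    have e : mu ^ 2 - 1 = (mu - 1) * (mu + 1) := by ring
    have : |mu + 1| ≤ 3 := by
      have := (abs_le.mp hmu)
      rw [abs_le]; constructor <;> linarith
    rw [e, abs_mul]
    nlinarith [abs_nonneg (mu - 1), abs_nonneg (mu + 1)]
  have hm4b : |m4| ≤ 3 := by
    have := abs_le.mp a4
    rw [abs_le]; constructor <;> linarith
  have hsb : |sb b| = 1 := by cases b <;> simp [sb]
  have hm5b : |m5| ≤ 3 := by
    have h1 := abs_le.mp a5
    have h2 : |si * (al * sb b / 2)| ≤ 2 := by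
      rw [abs_mul, abs_div, abs_mul, hsb, abs_of_pos al_pos, abs_of_nonneg (by linarith : 0 ≤ si)]
      norm_num
      nlinarith
    have h3 := abs_le.mp h2
    rw [abs_le]; constructor <;> linarith
  have hka1 : |2 * ka + 1| ≤ 6 := by
    have := abs_le.mp hka
    rw [abs_le]; constructor <;> linarith
  have hka2 : |ka - 1| ≤ 2 := by
    have := abs_le.mp hka
    rw [abs_le]; constructor <;> linarith
  have P2 : ∀ {a b c d : ℝ}, |a| ≤ c → |b| ≤ d → |a * b| ≤ c * d := by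
    intro a b c d h1 h2
    rw [abs_mul]
    have := abs_nonneg a
    have := abs_nonneg b
    have : 0 ≤ c := by linarith
    gcongr
  have hεM : ε ≤ M * ε := by nlinarith
  have habsε : |ε| = ε := abs_of_nonneg hε
  have be1 : |e1| ≤ 100 * (M * ε) ^ 2 := by
    have t1 : |(mu - 1) * (2 * nu * x2)| ≤ (M * ε) * (6 * (M * ε)) := by
      refine P2 hmu (P2 ?_ a2)
      rw [abs_mul]; norm_num; linarith
    have t2 : |(mu ^ 2 - 1) * ((2 * ka + 1) * x1)| ≤ (3 * (M * ε)) * (6 * (M * ε)) :=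
      P2 hmu2 (P2 hka1 a1)
    have t3 : |2 * (ka - 9 / 4) * x1| ≤ (2 * (M * ε)) * (M * ε) := by
      refine P2 ?_ a1
      rw [abs_mul]; norm_num; linarith
    have t4 : |(mu ^ 2 - 1) * ε * m4| ≤ (3 * (M * ε)) * (M * ε) * 3 :=
      P2 (P2 hmu2 (by rw [habsε]; exact hεM)) hm4b
    have t5 : |ε * (m4 + si * (11 / 8))| ≤ (M * ε) * (M * ε) := P2 (by rw [habsε]; exact hεM) a4
    rw [he1]
    refine (abs_add_le _ _).trans ?_
    have s1 := abs_add_le ((mu - 1) * (2 * nu * x2) + (mu ^ 2 - 1) * ((2 * ka + 1) * x1)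
      + 2 * (ka - 9 / 4) * x1) ((mu ^ 2 - 1) * ε * m4)
    have s2 := abs_add_le ((mu - 1) * (2 * nu * x2) + (mu ^ 2 - 1) * ((2 * ka + 1) * x1))
      (2 * (ka - 9 / 4) * x1)
    have s3 := abs_add_le ((mu - 1) * (2 * nu * x2)) ((mu ^ 2 - 1) * ((2 * ka + 1) * x1))
    have hsq := sq_nonneg (M * ε)
    linarith
  have be2 : |e2| ≤ 100 * (M * ε) ^ 2 := by
    have t1 : |(mu - 1) * (2 * nu * x1)| ≤ (M * ε) * (6 * (M * ε)) := by
      refine P2 hmu (P2 ?_ a1)
      rw [abs_mul]; norm_num; linarith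
    have t2 : |(mu ^ 2 - 1) * ((ka - 1) * x2)| ≤ (3 * (M * ε)) * (2 * (M * ε)) :=
      P2 hmu2 (P2 hka2 a2)
    have t3 : |(ka - 9 / 4) * x2| ≤ (M * ε) * (M * ε) := P2 hka a2
    have t4 : |(mu ^ 2 - 1) * ε * m5| ≤ (3 * (M * ε)) * (M * ε) * 3 :=
      P2 (P2 hmu2 (by rw [habsε]; exact hεM)) hm5b
    have t5 : |ε * (m5 + si * (al * sb b / 2))| ≤ (M * ε) * (M * ε) :=
      P2 (by rw [habsε]; exact hεM) a5
    rw [he2]
    refine (abs_add_le _ _).trans ?_
    have s1 := abs_add_le ((mu - 1) * (2 * nu * x1) - (mu ^ 2 - 1) * ((ka - 1) * x2)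
      - (ka - 9 / 4) * x2) ((mu ^ 2 - 1) * ε * m5)
    have s2 := abs_sub ((mu - 1) * (2 * nu * x1) - (mu ^ 2 - 1) * ((ka - 1) * x2))
      ((ka - 9 / 4) * x2)
    have s3 := abs_sub ((mu - 1) * (2 * nu * x1)) ((mu ^ 2 - 1) * ((ka - 1) * x2))
    have hsq := sq_nonneg (M * ε)
    linarith
  have fin := lin_solve b (d1 := x1 - ε * si * X1c b) (d2 := x2 - ε * si * X2c b) (e1 := e1)
    (e2 := e2) (N := 100 * (M * ε) ^ 2)
    (by rw [← hnu]; linear_combination E1 - (ε * si) * Z1)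
    (by rw [← hnu]; linear_combination E2 - (ε * si) * Z2) be1 be2
  have hfin : 5 * (100 * (M * ε) ^ 2) ≤ 1000 * M ^ 2 * ε ^ 2 := by
    have hsq := sq_nonneg (M * ε)
    have : (M * ε) ^ 2 = M ^ 2 * ε ^ 2 := by ring
    linarith
  exact ⟨fin.1.trans hfin, fin.2.trans hfin⟩

end mode

end Run7.h800
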