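import Pool.Agent.Run7.h800.WieR

set_option autoImplicit false
set_option linter.unusedSectionVars false

/-!
# Power series of small functions
-/

namespace Run7.h800

open Filter Topology

variable {P : Type*} [TopologicalSpace P] [CompactSpace P]

lemma B.pow {r q : ℝ} {f : P → ℝ × ℝ → ℝ} (hf : B r q f) (hr : 1 ≤ r) (n : ℕ) :
    B r (q ^ n) (fun p x => f p x ^ n) := by
  induction n with
  | zero => simpa using B.rconst (P := P) (r := r) 1
  | succ n ih =>
    rw [pow_succ]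
    exact (ih.mul hf hr).congr (fun p x => by rw [pow_succ])

lemma pow_diff {r δ : ℝ} {f h : P → ℝ × ℝ → ℝ} (hr : 1 ≤ r) (hf : B r (1 / 4) f)
    (hfh : B r (1 / 4) (fun p x => f p x + h p x)) (hh : B r δ h) (n : ℕ) :
    B r (4 * n * (1 / 4) ^ n * δ) (fun p x => (f p x + h p x) ^ n - f p x ^ n) := by
  have hδ := hh.nonneg (by linarith)
  induction n with
  | zero => simpa using B.zero (P := P) (r := r)
  | succ n ih =>
    have h1 := (hfh.mul ih hr).add (hh.mul (hf.pow hr n) hr) (by linarith)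
    refine (h1.congr (fun p x => ?_)).mono (by linarith) le_rfl ?_
    · ring
    · have h5 : (0 : ℝ) ≤ (1 / 4) ^ n * δ := by positivity
      push_cast
      have : 1 / 4 * (4 * (n : ℝ) * (1 / 4) ^ n * δ) + δ * (1 / 4) ^ n
          = 4 * (n + 1) * (1 / 4) ^ (n + 1) * δ := by rw [pow_succ]; ring
      rw [this]

lemma pow_rem {r δ : ℝ} {f h : P → ℝ × ℝ → ℝ} (hr : 1 ≤ r) (hf : B r (1 / 4) f)
    (hfh : B r (1 / 4) (fun p x => f p x + h p x)) (hh : B r δ h) (n : ℕ) :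
    B r (8 * n ^ 2 * (1 / 4) ^ n * δ ^ 2)
      (fun p x => (f p x + h p x) ^ n - f p x ^ n - n * f p x ^ (n - 1) * h p x) := by
  have hδ := hh.nonneg (by linarith)
  induction n with
  | zero => simpa using B.zero (P := P) (r := r)
  | succ n ih =>
    have h0 : B r (4 * n * (1 / 4) ^ n) (fun p x => (n : ℝ) * f p x ^ (n - 1)) := by
      rcases n with _ | n
      · simpa using B.zero (P := P) (r := r)
      · have := (hf.pow hr n).smul ((n + 1 : ℕ) : ℝ) (by linarith)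
        refine (this.congr (fun p x => by simp)).mono (by linarith) le_rfl ?_
        rw [abs_of_nonneg (by positivity), pow_succ]
        push_cast
        have h5 : (0 : ℝ) ≤ (1 / 4) ^ n := by positivity
        nlinarith
    have h1 := (hfh.mul ih hr).add ((h0.mul hh hr).mul hh hr) (by linarith)
    refine (h1.congr (fun p x => ?_)).mono (by linarith) le_rfl ?_
    · rcases n with _ | n
      · simp
      · simp only [Nat.add_sub_cancel]
        push_cast
        ring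
    · have h5 : (0 : ℝ) ≤ (1 / 4) ^ n * δ ^ 2 := by positivity
      push_cast
      have h6 : 1 / 4 * (8 * (n : ℝ) ^ 2 * (1 / 4) ^ n * δ ^ 2) + 4 * n * (1 / 4) ^ n * δ * δ
          = (2 * (n : ℝ) ^ 2 + 4 * n) * ((1 / 4) ^ n * δ ^ 2) := by ring
      have h7 : 8 * ((n : ℝ) + 1) ^ 2 * (1 / 4) ^ (n + 1) * δ ^ 2
          = (2 * ((n : ℝ) + 1) ^ 2) * ((1 / 4) ^ n * δ ^ 2) := by rw [pow_succ]; ring
      rw [h6, h7]
      gcongr
      nlinarith

/-- sum of a power series -/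
noncomputable def PS (a : ℕ → ℝ) (t : ℝ) : ℝ := ∑' n, a n * t ^ n

/-- sum of the derivative series -/
noncomputable def PSd (a : ℕ → ℝ) (t : ℝ) : ℝ := ∑' n, a n * (n * t ^ (n - 1))

/-- the common majorant -/
noncomputable def GG : ℝ := ∑' n : ℕ, 3 * ((n : ℝ) + 1) * (16 * ((n : ℝ) + 1) ^ 2 * (1 / 4) ^ n)

lemma GG_summable : Summable (fun n : ℕ => 3 * ((n : ℝ) + 1) * (16 * ((n : ℝ) + 1) ^ 2 * (1 / 4) ^ n)) := by
  have h1 : ∀ k : ℕ, Summable (fun n : ℕ => (n : ℝ) ^ k * (1 / 4 : ℝ) ^ n) := fun k =>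
    summable_pow_mul_geometric_of_norm_lt_one k (by norm_num)
  have h := (((h1 3).mul_left 48).add ((h1 2).mul_left 144)).add
    (((h1 1).mul_left 144).add ((h1 0).mul_left 48))
  refine h.congr (fun n => ?_)
  ring

lemma GG_nonneg : 0 ≤ GG := tsum_nonneg fun n => by positivity

/-- admissible coefficients -/
def Adm (a : ℕ → ℝ) : Prop := ∀ n, |a n| ≤ 3 * ((n : ℝ) + 1)

lemma Adm.summable_PS {a : ℕ → ℝ} (ha : Adm a) {t : ℝ} (ht : |t| ≤ 1 / 4) :
    Summable (fun n => a n * t ^ n) := by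
  refine Summable.of_norm_bounded GG_summable (fun n => ?_)
  rw [norm_mul, norm_pow, Real.norm_eq_abs, Real.norm_eq_abs]
  have h1 := ha n
  have h2 : |t| ^ n ≤ (1 / 4) ^ n := pow_le_pow_left₀ (abs_nonneg _) ht n
  have h3 : (0 : ℝ) ≤ (1 / 4) ^ n := by positivity
  have h4 : (1 / 4 : ℝ) ^ n ≤ 16 * ((n : ℝ) + 1) ^ 2 * (1 / 4) ^ n := by
    have : (1 : ℝ) ≤ 16 * ((n : ℝ) + 1) ^ 2 := by
      have : (0 : ℝ) ≤ n := by positivity
      nlinarith
    nlinarith
  calc |a n| * |t| ^ n ≤ 3 * ((n : ℝ) + 1) * (1 / 4) ^ n := by gcongr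
    _ ≤ _ := by gcongr

lemma pow_pred_le {t : ℝ} (ht : |t| ≤ 1 / 4) (n : ℕ) :
    |(n : ℝ) * t ^ (n - 1)| ≤ 4 * n * (1 / 4) ^ n := by
  rcases n with _ | n
  · simp
  · rw [abs_mul, abs_pow, abs_of_nonneg (by positivity : (0 : ℝ) ≤ ((n + 1 : ℕ) : ℝ))]
    have h2 : |t| ^ n ≤ (1 / 4) ^ n := pow_le_pow_left₀ (abs_nonneg _) ht n
    simp only [Nat.add_sub_cancel]
    calc ((n + 1 : ℕ) : ℝ) * |t| ^ n ≤ ((n + 1 : ℕ) : ℝ) * (1 / 4) ^ n := by gcongr
      _ = 4 * ((n + 1 : ℕ) : ℝ) * (1 / 4) ^ (n + 1) := by rw [pow_succ]; ring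

lemma Adm.summable_PSd {a : ℕ → ℝ} (ha : Adm a) {t : ℝ} (ht : |t| ≤ 1 / 4) :
    Summable (fun n => a n * (n * t ^ (n - 1))) := by
  refine Summable.of_norm_bounded GG_summable (fun n => ?_)
  rw [norm_mul, Real.norm_eq_abs, Real.norm_eq_abs]
  have h1 := ha n
  have h2 := pow_pred_le ht n
  have h3 : (0 : ℝ) ≤ (1 / 4) ^ n := by positivity
  have h4 : 4 * (n : ℝ) * (1 / 4 : ℝ) ^ n ≤ 16 * ((n : ℝ) + 1) ^ 2 * (1 / 4) ^ n := by
    have : 4 * (n : ℝ) ≤ 16 * ((n : ℝ) + 1) ^ 2 := by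
      have : (0 : ℝ) ≤ n := by positivity
      nlinarith
    nlinarith
  calc |a n| * |(n : ℝ) * t ^ (n - 1)| ≤ 3 * ((n : ℝ) + 1) * (4 * n * (1 / 4) ^ n) := by gcongr
    _ ≤ _ := by gcongr

lemma B_series {r C : ℝ} (hr : 1 ≤ r) (hC : 0 ≤ C) {a : ℕ → ℝ} (ha : Adm a)
    {g : ℕ → P → ℝ × ℝ → ℝ} (hg : ∀ n : ℕ, B r (16 * ((n : ℝ) + 1) ^ 2 * (1 / 4) ^ n * C) (g n)) :
    B r (GG * C) (fun p x => ∑' n, a n * g n p x) := by
  have h1 : ∀ n : ℕ, B r (3 * ((n : ℝ) + 1) * (16 * ((n : ℝ) + 1) ^ 2 * (1 / 4) ^ n) * C)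
      (fun p x => a n * g n p x) := by
    intro n
    refine ((hg n).smul (a n) (by linarith)).mono (by linarith) le_rfl ?_
    have h2 := ha n
    have h3 : 0 ≤ 16 * ((n : ℝ) + 1) ^ 2 * (1 / 4) ^ n * C := by positivity
    calc |a n| * (16 * ((n : ℝ) + 1) ^ 2 * (1 / 4) ^ n * C)
        ≤ 3 * ((n : ℝ) + 1) * (16 * ((n : ℝ) + 1) ^ 2 * (1 / 4) ^ n * C) := by gcongr
      _ = _ := by ring
  have h2 := B.tsum hr (GG_summable.mul_right C) h1
  rwa [tsum_mul_right] at h2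

lemma PS_bound {r : ℝ} (hr : 1 ≤ r) {a : ℕ → ℝ} (ha : Adm a) {f : P → ℝ × ℝ → ℝ}
    (hf : B r (1 / 4) f) : B r GG (fun p x => PS a (f p x)) := by
  have := B_series hr zero_le_one ha (g := fun n p x => f p x ^ n) (fun n => by
    refine (hf.pow hr n).mono (by linarith) le_rfl ?_
    have : (1 : ℝ) ≤ 16 * ((n : ℝ) + 1) ^ 2 := by
      have : (0 : ℝ) ≤ n := by positivity
      nlinarith
    have h3 : (0 : ℝ) ≤ (1 / 4) ^ n := by positivity
    nlinarith)
  rwa [mul_one] at this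

lemma dpow_B {r : ℝ} (hr : 1 ≤ r) {f : P → ℝ × ℝ → ℝ} (hf : B r (1 / 4) f) (n : ℕ) :
    B r (4 * n * (1 / 4) ^ n) (fun p x => (n : ℝ) * f p x ^ (n - 1)) := by
  rcases n with _ | n
  · simpa using B.zero (P := P) (r := r)
  · have := (hf.pow hr n).smul ((n + 1 : ℕ) : ℝ) (by linarith)
    refine (this.congr (fun p x => by simp)).mono (by linarith) le_rfl ?_
    rw [abs_of_nonneg (by positivity), pow_succ]
    push_cast
    have h5 : (0 : ℝ) ≤ (1 / 4) ^ n := by positivity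
    nlinarith

lemma PSd_bound {r : ℝ} (hr : 1 ≤ r) {a : ℕ → ℝ} (ha : Adm a) {f : P → ℝ × ℝ → ℝ}
    (hf : B r (1 / 4) f) : B r GG (fun p x => PSd a (f p x)) := by
  have := B_series hr zero_le_one ha (g := fun n p x => (n : ℝ) * f p x ^ (n - 1)) (fun n => by
    refine (dpow_B hr hf n).mono (by linarith) le_rfl ?_
    have : 4 * (n : ℝ) ≤ 16 * ((n : ℝ) + 1) ^ 2 := by
      have : (0 : ℝ) ≤ n := by positivity
      nlinarith
    have h3 : (0 : ℝ) ≤ (1 / 4) ^ n := by positivity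
    nlinarith)
  rwa [mul_one] at this

lemma PSd_diff {r δ : ℝ} (hr : 1 ≤ r) {a : ℕ → ℝ} (ha : Adm a) {f h : P → ℝ × ℝ → ℝ}
    (hf : B r (1 / 4) f) (hfh : B r (1 / 4) (fun p x => f p x + h p x)) (hh : B r δ h) :
    B r (GG * δ) (fun p x => PSd a (f p x + h p x) - PSd a (f p x)) := by
  have hδ := hh.nonneg (by linarith)
  have h1 := B_series hr hδ ha
    (g := fun n p x => (n : ℝ) * (f p x + h p x) ^ (n - 1) - (n : ℝ) * f p x ^ (n - 1)) (fun n => by
      rcases n with _ | n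
      · have := B.zero (P := P) (r := r)
        refine (this.congr (fun p x => by simp)).mono (by linarith) le_rfl (by positivity)
      · have := (pow_diff hr hf hfh hh n).smul ((n + 1 : ℕ) : ℝ) (by linarith)
        refine (this.congr (fun p x => by simp only [Nat.add_sub_cancel]; ring)).mono
          (by linarith) le_rfl ?_
        rw [abs_of_nonneg (by positivity)]
        push_cast
        have h5 : (0 : ℝ) ≤ (1 / 4) ^ n * δ := by positivity
        have h6 : (0 : ℝ) ≤ n := by positivity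
        have e1 : ((n : ℝ) + 1) * (4 * n * (1 / 4) ^ n * δ)
            = (4 * n * (n + 1)) * ((1 / 4) ^ n * δ) := by ring
        have e2 : 16 * ((n : ℝ) + 1 + 1) ^ 2 * (1 / 4) ^ (n + 1) * δ
            = (4 * (n + 2) ^ 2) * ((1 / 4) ^ n * δ) := by rw [pow_succ (1 / 4 : ℝ) n]; ring
        rw [e1, e2]
        exact mul_le_mul_of_nonneg_right (by nlinarith) h5)
  refine h1.congr (fun p x => ?_)
  have s1 := ha.summable_PSd (hfh.norm_le hr p x)
  have s2 := ha.summable_PSd (hf.norm_le hr p x)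
  unfold PSd
  rw [← s1.tsum_sub s2]
  congr 1
  funext n
  ring

lemma PS_rem {r δ : ℝ} (hr : 1 ≤ r) {a : ℕ → ℝ} (ha : Adm a) {f h : P → ℝ × ℝ → ℝ}
    (hf : B r (1 / 4) f) (hfh : B r (1 / 4) (fun p x => f p x + h p x)) (hh : B r δ h) :
    B r (GG * δ ^ 2) (fun p x => PS a (f p x + h p x) - PS a (f p x) - PSd a (f p x) * h p x) := by
  have hδ := hh.nonneg (by linarith)
  have h1 := B_series hr (sq_nonneg δ) ha
    (g := fun n p x => (f p x + h p x) ^ n - f p x ^ n - n * f p x ^ (n - 1) * h p x) (fun n => by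
      refine (pow_rem hr hf hfh hh n).mono (by linarith) le_rfl ?_
      have h5 : (0 : ℝ) ≤ (1 / 4) ^ n * δ ^ 2 := by positivity
      have h6 : (0 : ℝ) ≤ n := by positivity
      nlinarith [mul_nonneg h6 h5, mul_nonneg (mul_nonneg h6 h6) h5])
  refine h1.congr (fun p x => ?_)
  have s1 := ha.summable_PS (hfh.norm_le hr p x)
  have s2 := ha.summable_PS (hf.norm_le hr p x)
  have s3 := (ha.summable_PSd (hf.norm_le hr p x)).mul_right (h p x)
  unfold PS PSd
  rw [← s1.tsum_sub s2, ← tsum_mul_right, ← (s1.sub s2).tsum_sub s3]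
  congr 1
  funext n
  ring

/-- differentiability inside the disc -/
lemma PS_hasDerivAt {a : ℕ → ℝ} (ha : Adm a) {t : ℝ} (ht : |t| < 1 / 4) :
    HasDerivAt (PS a) (PSd a t) t := by
  rw [hasDerivAt_iff_isLittleO_nhds_zero]
  have key : ∀ h : ℝ, |t + h| ≤ 1 / 4 → |PS a (t + h) - PS a t - PSd a t * h| ≤ GG * h ^ 2 := by
    intro h hh
    have h1 := PS_rem (P := Unit) (r := 1) (δ := |h|) le_rfl ha (f := fun _ _ => t)
      (h := fun _ _ => h) ((B.rconst t).mono zero_le_one le_rfl ht.le)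
      ((B.rconst (t + h)).mono zero_le_one le_rfl hh) (B.rconst h)
    have := h1.norm_le le_rfl () 0
    rwa [sq_abs] at this
  have hev : ∀ᶠ h in 𝓝 (0 : ℝ), |t + h| ≤ 1 / 4 := by
    have hc : ContinuousAt (fun h : ℝ => |t + h|) 0 := by fun_prop
    have h2 : |t + 0| < 1 / 4 := by simpa using ht
    exact (hc.eventually_lt continuousAt_const h2).mono (fun h hh => hh.le)
  refine Asymptotics.IsBigO.trans_isLittleO (g := fun h : ℝ => h ^ 2) ?_ ?_
  · refine Asymptotics.IsBigO.of_bound GG ?_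
    filter_upwards [hev] with h hh
    have := key h hh
    simp only [Real.norm_eq_abs, smul_eq_mul, abs_pow, sq_abs]
    rw [mul_comm h]
    exact this
  · have := Asymptotics.isLittleO_pow_pow (𝕜 := ℝ) (m := 1) (n := 2) (by norm_num)
    simpa using this

end Run7.h800
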