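import Pool.Agent.Run7.h800.Rec

set_option autoImplicit false
set_option linter.unusedSectionVars false

/-!
# Positions of the three bodies
-/

namespace Run7.h800

open Filter Topology MeasureTheory Set

/-- the attraction -/
noncomputable def att (z : ℂ) : ℂ := z / ((‖z‖ ^ 3 : ℝ) : ℂ)

lemma att_mul (x z : ℂ) : att (x * z) = att x * att z := by
  unfold att
  rw [norm_mul, mul_pow]
  push_cast
  rw [mul_div_mul_comm]

lemma att_neg (z : ℂ) : att (-z) = -att z := by
  unfold att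
  rw [norm_neg, neg_div]

/-- Newton's equations -/
def Newton (m : Fin 3 → ℝ) (q : Fin 3 → ℝ → ℂ) : Prop :=
  ∀ i, ∃ v a : ℝ → ℂ, (∀ t, HasDerivAt (q i) (v t) t) ∧ (∀ t, HasDerivAt v (a t) t) ∧
    ∀ t, (m i : ℂ) * a t = ∑ j ∈ Finset.univ.erase i,
      (m i * m j : ℂ) * (q j t - q i t) / ((‖q j t - q i t‖ ^ 3 : ℝ) : ℂ)

theorem bodies {m M : ℝ} (hm : 0 < m) (hM : 0 < M) {X V Y W om : ℝ → ℂ} (hX0 : ∀ t, X t ≠ 0)
    (hY : ∀ t, Y t = X t * om t) (hp : ∀ t, 1 / 2 + om t ≠ 0) (hn : ∀ t, 1 / 2 - om t ≠ 0)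
    (hX : ∀ t, HasDerivAt X (V t) t)
    (hV : ∀ t, HasDerivAt V (-(att (X t)) * (2 * m + M * (att (1 / 2 + om t) + att (1 / 2 - om t)))) t)
    (hYd : ∀ t, HasDerivAt Y (W t) t)
    (hW : ∀ t, HasDerivAt W (-(att (X t)) * ((m + M / 2) * (att (1 / 2 + om t) - att (1 / 2 - om t)))) t) :
    ∃ q : Fin 3 → ℝ → ℂ, (∀ t i j, i ≠ j → q i t ≠ q j t) ∧ Newton ![m, m, M] q ∧
      (∀ t, m * q 0 t + m * q 1 t + M * q 2 t = 0) ∧ (∀ t, q 1 t - q 0 t = X t) ∧
      (∀ t, q 2 t - (m * q 0 t + m * q 1 t) / (m + m) = Y t) := by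
  have hT : (2 * m + M : ℂ) ≠ 0 := by
    have : (2 * m + M : ℝ) ≠ 0 := by positivity
    exact_mod_cast this
  have hm' : (m : ℂ) ≠ 0 := by exact_mod_cast hm.ne'
  have hM' : (M : ℂ) ≠ 0 := by exact_mod_cast hM.ne'
  obtain ⟨A, hA⟩ : ∃ A : ℂ, A = M / (2 * m + M) := ⟨_, rfl⟩
  obtain ⟨q, hq⟩ : ∃ q : Fin 3 → ℝ → ℂ, q = ![fun t => -A * Y t - 1 / 2 * X t,
    fun t => -A * Y t + 1 / 2 * X t, fun t => (1 - A) * Y t] := ⟨_, rfl⟩
  have q0 : ∀ t, q 0 t = -A * Y t - 1 / 2 * X t := fun t => by rw [hq]; rfl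
  have q1 : ∀ t, q 1 t = -A * Y t + 1 / 2 * X t := fun t => by rw [hq]; rfl
  have q2 : ∀ t, q 2 t = (1 - A) * Y t := fun t => by rw [hq]; rfl
  have d01 : ∀ t, q 1 t - q 0 t = X t := fun t => by rw [q0, q1]; ring
  have d02 : ∀ t, q 2 t - q 0 t = X t * (1 / 2 + om t) := fun t => by rw [q0, q2, hY]; ring
  have d12 : ∀ t, q 2 t - q 1 t = -(X t * (1 / 2 - om t)) := fun t => by rw [q1, q2, hY]; ring
  have n01 : ∀ t, q 1 t ≠ q 0 t := fun t h => hX0 t (by rw [← d01, h, sub_self])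
  have n02 : ∀ t, q 2 t ≠ q 0 t := fun t h => mul_ne_zero (hX0 t) (hp t) (by rw [← d02, h, sub_self])
  have n12 : ∀ t, q 2 t ≠ q 1 t := fun t h => by
    have := d12 t
    rw [h, sub_self] at this
    exact mul_ne_zero (hX0 t) (hn t) (neg_eq_zero.mp this.symm)
  have a01 : ∀ t, (q 1 t - q 0 t) / ((‖q 1 t - q 0 t‖ ^ 3 : ℝ) : ℂ) = att (X t) := fun t => by
    rw [d01]; rfl
  have a10 : ∀ t, (q 0 t - q 1 t) / ((‖q 0 t - q 1 t‖ ^ 3 : ℝ) : ℂ) = -att (X t) := fun t => by
    have : q 0 t - q 1 t = -(X t) := by rw [← d01]; ring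
    rw [this]; exact att_neg _
  have a02 : ∀ t, (q 2 t - q 0 t) / ((‖q 2 t - q 0 t‖ ^ 3 : ℝ) : ℂ) = att (X t) * att (1 / 2 + om t) :=
    fun t => by rw [d02, ← att_mul]; rfl
  have a20 : ∀ t, (q 0 t - q 2 t) / ((‖q 0 t - q 2 t‖ ^ 3 : ℝ) : ℂ)
      = -(att (X t) * att (1 / 2 + om t)) := fun t => by
    have : q 0 t - q 2 t = -(X t * (1 / 2 + om t)) := by rw [← d02]; ring
    rw [this, ← att_mul]; exact att_neg _
  have a12 : ∀ t, (q 2 t - q 1 t) / ((‖q 2 t - q 1 t‖ ^ 3 : ℝ) : ℂ)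
      = -(att (X t) * att (1 / 2 - om t)) := fun t => by
    rw [d12, ← att_mul]; exact att_neg _
  have a21 : ∀ t, (q 1 t - q 2 t) / ((‖q 1 t - q 2 t‖ ^ 3 : ℝ) : ℂ) = att (X t) * att (1 / 2 - om t) :=
    fun t => by
    have : q 1 t - q 2 t = X t * (1 / 2 - om t) := by
      have := d12 t
      linear_combination -this
    rw [this, ← att_mul]; rfl
  have eA : A * (2 * m + M) = M := by rw [hA]; field_simp
  refine ⟨q, ?_, ?_, ?_, d01, ?_⟩
  · intro t i j hij
    fin_cases i <;> fin_cases j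
    · exact absurd rfl hij
    · exact (n01 t).symm
    · exact (n02 t).symm
    · exact n01 t
    · exact absurd rfl hij
    · exact (n12 t).symm
    · exact n02 t
    · exact n12 t
    · exact absurd rfl hij
  · intro i
    fin_cases i
    · refine ⟨fun t => -A * W t - 1 / 2 * V t, fun t => -A * (-(att (X t)) * ((m + M / 2) * (att (1 / 2 + om t) - att (1 / 2 - om t))))
        - 1 / 2 * (-(att (X t)) * (2 * m + M * (att (1 / 2 + om t) + att (1 / 2 - om t)))), fun t => ?_,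
        fun t => ?_, fun t => ?_⟩
      · rw [hq]
        exact ((hYd t).const_mul (-A)).sub ((hX t).const_mul (1 / 2))
      · exact ((hW t).const_mul (-A)).sub ((hV t).const_mul (1 / 2))
      · have e : (Finset.univ.erase (0 : Fin 3)) = {1, 2} := by decide
        simp only [Fin.zero_eta, Fin.isValue]
        rw [e, Finset.sum_pair (by decide)]
        rw [mul_div_assoc, mul_div_assoc, a01, a02]
        simp only [Matrix.cons_val_zero, Matrix.cons_val_one, Matrix.cons_val]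
        linear_combination (m * (1 / 2) * att (X t) * (att (1 / 2 + om t) - att (1 / 2 - om t))) * eA
    · refine ⟨fun t => -A * W t + 1 / 2 * V t, fun t => -A * (-(att (X t)) * ((m + M / 2) * (att (1 / 2 + om t) - att (1 / 2 - om t))))
        + 1 / 2 * (-(att (X t)) * (2 * m + M * (att (1 / 2 + om t) + att (1 / 2 - om t)))), fun t => ?_,
        fun t => ?_, fun t => ?_⟩
      · rw [hq]
        exact ((hYd t).const_mul (-A)).add ((hX t).const_mul (1 / 2))
      · exact ((hW t).const_mul (-A)).add ((hV t).const_mul (1 / 2))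
      · have e : (Finset.univ.erase (1 : Fin 3)) = {0, 2} := by decide
        simp only [Fin.mk_one, Fin.isValue]
        rw [e, Finset.sum_pair (by decide)]
        rw [mul_div_assoc, mul_div_assoc, a10, a12]
        simp only [Matrix.cons_val_zero, Matrix.cons_val_one, Matrix.cons_val]
        linear_combination (m * (1 / 2) * att (X t) * (att (1 / 2 + om t) - att (1 / 2 - om t))) * eA
    · refine ⟨fun t => (1 - A) * W t, fun t => (1 - A) * (-(att (X t)) * ((m + M / 2) * (att (1 / 2 + om t) - att (1 / 2 - om t)))), fun t => ?_,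
        fun t => ?_, fun t => ?_⟩
      · rw [hq]
        exact (hYd t).const_mul (1 - A)
      · exact (hW t).const_mul (1 - A)
      · have e : (Finset.univ.erase (2 : Fin 3)) = {0, 1} := by decide
        simp only [Fin.reduceFinMk, Fin.isValue]
        rw [e, Finset.sum_pair (by decide)]
        rw [mul_div_assoc, mul_div_assoc, a20, a21]
        simp only [Matrix.cons_val_zero, Matrix.cons_val_one, Matrix.cons_val]
        linear_combination (M * (1 / 2) * att (X t) * (att (1 / 2 + om t) - att (1 / 2 - om t))) * eA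
  · intro t
    rw [q0, q1, q2]
    linear_combination (-(Y t)) * eA
  · intro t
    rw [q0, q1, q2]
    have : (m + m : ℂ) ≠ 0 := by
      have : (m + m : ℝ) ≠ 0 := by positivity
      exact_mod_cast this
    field_simp
    ring

end Run7.h800
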