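import Pool.Agent.Run7.h800.Vf
import Pool.Agent.Run7.h800.Rec2

set_option autoImplicit false
set_option linter.unusedSectionVars false

/-!
# The forces in terms of power series
-/

namespace Run7.h800

open Filter Topology MeasureTheory Set

/-- the inverse cube -/
noncomputable def ic (t : ℝ) : ℝ := 1 - 3 / 2 * t + t ^ 2 * PS aT t

lemma att_ser {z : ℂ} {t : ℝ} (ht : |t| ≤ 1 / 4) (hz : ‖z‖ ^ 2 = (1 + t) / 4) :
    att z = 8 * z * (ic t : ℂ) ∧ z ≠ 0 := by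
  have h1 : 0 < 1 + t := by have := (abs_le.mp ht).1; linarith
  have hz0 : z ≠ 0 := by
    intro h
    rw [h, norm_zero] at hz
    norm_num at hz
    linarith
  refine ⟨?_, hz0⟩
  have hn : ‖z‖ = Real.sqrt (1 + t) / 2 := by
    have h2 : 0 ≤ ‖z‖ := norm_nonneg z
    have h3 : (Real.sqrt (1 + t) / 2) ^ 2 = ‖z‖ ^ 2 := by
      rw [div_pow, Real.sq_sqrt h1.le, hz]; norm_num
    exact ((pow_left_inj₀ h2 (by positivity) two_ne_zero).mp h3.symm)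
  have h3 : ic t = (1 + t) ^ (-3 / 2 : ℝ) := by
    rw [PS_aT ht]; rfl
  have h4 : ic t * ‖z‖ ^ 3 = 1 / 8 := by
    rw [h3, hn]
    have h5 : (Real.sqrt (1 + t) / 2) ^ 3 = (1 + t) ^ (3 / 2 : ℝ) / 8 := by
      rw [div_pow, Real.sqrt_eq_rpow, ← Real.rpow_natCast, ← Real.rpow_mul h1.le]
      norm_num
    rw [h5, mul_div_assoc', ← Real.rpow_add h1]
    norm_num
  have hn0 : ‖z‖ ^ 3 ≠ 0 := by positivity
  unfold att
  rw [div_eq_iff (by exact_mod_cast hn0)]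
  have h6 : ((ic t : ℂ)) * ((‖z‖ ^ 3 : ℝ) : ℂ) = 1 / 8 := by
    rw [← Complex.ofReal_mul, h4]; norm_num
  linear_combination (-8 * z) * h6

/-- squared distances -/
lemma normsq_half (η a b : ℝ) :
    ‖(1 / 2 + (η : ℂ) * (a + b * Complex.I))‖ ^ 2 = (1 + η * fZ 4 η a b) / 4 ∧
    ‖(1 / 2 - (η : ℂ) * (a + b * Complex.I))‖ ^ 2 = (1 + η * fZ (-4) η a b) / 4 := by
  constructor
  · have : (1 / 2 + (η : ℂ) * (a + b * Complex.I)) = ((1 / 2 + η * a : ℝ) : ℂ) + ((η * b : ℝ) : ℂ) * Complex.I := by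
      push_cast; ring
    rw [this, ← Complex.normSq_eq_norm_sq, Complex.normSq_add_mul_I]
    unfold fZ; ring
  · have : (1 / 2 - (η : ℂ) * (a + b * Complex.I)) = ((1 / 2 - η * a : ℝ) : ℂ) + ((-(η * b) : ℝ) : ℂ) * Complex.I := by
      push_cast; ring
    rw [this, ← Complex.normSq_eq_norm_sq, Complex.normSq_add_mul_I]
    unfold fZ; ring

/-- the first force -/
noncomputable def Ff (F0 ka ε s a b : ℝ) : ℂ :=
  F0 * (1 + (ε * s) ^ 2 * (ff1 ka ε s a b + ff2 ka ε s a b * Complex.I))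

/-- the second force -/
noncomputable def Gf (F0 ka ε s a b : ℝ) : ℂ :=
  F0 * ka / 16 * (4 * (ε * s) * fD ε s a b + 8 * ((ε * s) * (a + b * Complex.I)) *
    (2 + (ε * s) ^ 2 * fS ε s a b))

lemma forces {m M F0 k ε s a b : ℝ} (hF0 : F0 = 2 * m + 8 * M) (hkF : F0 * k = 16 * m + 8 * M)
    (h1 : |ε * s * fZ 4 (ε * s) a b| ≤ 1 / 4) (h2 : |ε * s * fZ (-4) (ε * s) a b| ≤ 1 / 4) :
    1 / 2 + ((ε * s : ℝ) : ℂ) * (a + b * Complex.I) ≠ 0 ∧
    1 / 2 - ((ε * s : ℝ) : ℂ) * (a + b * Complex.I) ≠ 0 ∧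
    (2 * m + M * (att (1 / 2 + ((ε * s : ℝ) : ℂ) * (a + b * Complex.I))
      + att (1 / 2 - ((ε * s : ℝ) : ℂ) * (a + b * Complex.I)))
      = Ff F0 k ε s a b) ∧
    ((m + M / 2) * (att (1 / 2 + ((ε * s : ℝ) : ℂ) * (a + b * Complex.I))
      - att (1 / 2 - ((ε * s : ℝ) : ℂ) * (a + b * Complex.I)))
      = Gf F0 k ε s a b) := by
  obtain ⟨n1, n2⟩ := normsq_half (ε * s) a b
  obtain ⟨e1, z1⟩ := att_ser h1 n1
  obtain ⟨e2, z2⟩ := att_ser h2 n2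
  have t1 : ic (ε * s * fZ 4 (ε * s) a b) = 1 - 3 / 2 * (ε * s * fZ 4 (ε * s) a b)
      + (ε * s) ^ 2 * fQ 4 ε s a b := by
    unfold ic fQ
    rw [← mul_assoc ε s]
    ring
  have t2 : ic (ε * s * fZ (-4) (ε * s) a b) = 1 - 3 / 2 * (ε * s * fZ (-4) (ε * s) a b)
      + (ε * s) ^ 2 * fQ (-4) ε s a b := by
    unfold ic fQ
    rw [← mul_assoc ε s]
    ring
  have hsum : ic (ε * s * fZ 4 (ε * s) a b) + ic (ε * s * fZ (-4) (ε * s) a b)
      = 2 + (ε * s) ^ 2 * fS ε s a b := by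
    rw [t1, t2]
    unfold fS fZ
    ring
  have hdiff : ic (ε * s * fZ 4 (ε * s) a b) - ic (ε * s * fZ (-4) (ε * s) a b)
      = (ε * s) * fD ε s a b := by
    rw [t1, t2]
    unfold fD fE fZ
    ring
  have hsum' : (ic (ε * s * fZ 4 (ε * s) a b) : ℂ) + (ic (ε * s * fZ (-4) (ε * s) a b) : ℂ)
      = 2 + (ε * s) ^ 2 * fS ε s a b := by
    exact_mod_cast hsum
  have hdiff' : (ic (ε * s * fZ 4 (ε * s) a b) : ℂ) - (ic (ε * s * fZ (-4) (ε * s) a b) : ℂ)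
      = (ε * s) * fD ε s a b := by
    exact_mod_cast hdiff
  have hF0' : (F0 : ℂ) = 2 * m + 8 * M := by exact_mod_cast hF0
  have hkF' : (F0 : ℂ) * k = 16 * m + 8 * M := by exact_mod_cast hkF
  refine ⟨z1, z2, ?_, ?_⟩
  · rw [e1, e2]
    unfold Ff ff1 ff2
    push_cast
    linear_combination (4 * M : ℂ) * hsum' + (8 * M * (ε * s) * (a + b * Complex.I) : ℂ) * hdiff'
      - (1 + 8 * (ε * s : ℂ) ^ 2 * (1 / 14 * (fS ε s a b + 2 * a * fD ε s a b)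
        + 1 / 7 * (b * fD ε s a b) * Complex.I)) * hF0'
      + ((ε * s : ℂ) ^ 2 * (1 / 14 * (fS ε s a b + 2 * a * fD ε s a b)
        + 1 / 7 * (b * fD ε s a b) * Complex.I)) * hkF'
  · rw [e1, e2]
    unfold Gf
    push_cast
    linear_combination ((m + M / 2) * 4 : ℂ) * hdiff'
      + ((m + M / 2) * 8 * (ε * s) * (a + b * Complex.I) : ℂ) * hsum'
      - (1 / 16 * (4 * (ε * s) * fD ε s a b + 8 * ((ε * s) * (a + b * Complex.I)) *
        (2 + (ε * s) ^ 2 * fS ε s a b)) : ℂ) * hkF'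

end Run7.h800
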