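import Pool.Agent.Run7.h800.Mat

set_option autoImplicit false
set_option linter.unusedSectionVars false

/-!
# Symmetric solutions of the matrix cohomological equations
-/

namespace Run7.h800

open Filter Topology

variable {P : Type*} [TopologicalSpace P] [CompactSpace P]
variable {m n l : Type*}

/-- index types with at most six elements -/
class Sm (n : Type*) [Fintype n] : Prop where
  le : Fintype.card n ≤ 6

instance : Sm (Fin 2) := ⟨by simp⟩
instance : Sm (Fin 4) := ⟨by simp⟩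
instance : Sm (Fin 6) := ⟨by simp⟩
instance : Sm Unit := ⟨by simp⟩

lemma Sm.le' (n : Type*) [Fintype n] [Sm n] {Λ : ℝ} (hΛ : 6 ≤ Λ) : (Fintype.card n : ℝ) ≤ Λ := by
  have := Sm.le (n := n)
  have h2 : (Fintype.card n : ℝ) ≤ 6 := by exact_mod_cast this
  linarith

lemma T.mulL [Fintype n] [Sm n] {r Λ e : ℝ} {a b c : ℕ} {A : P → ℝ × ℝ → Matrix m n ℝ}
    {C : P → ℝ × ℝ → Matrix n l ℝ} (hA : T r Λ a 1 A) (hC : T r Λ b e C) (hr : 1 ≤ r)
    (hΛ : 6 ≤ Λ) (he : 0 ≤ e) (hc : a + b + 1 ≤ c) : T r Λ c e (fun p x => A p x * C p x) :=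
  (hA.mul hC hr (Sm.le' n hΛ) zero_le_one he).up hΛ hr le_rfl (by simpa using he) hc
    (one_mul e).le

lemma T.mulR [Fintype n] [Sm n] {r Λ e : ℝ} {a b c : ℕ} {A : P → ℝ × ℝ → Matrix m n ℝ}
    {C : P → ℝ × ℝ → Matrix n l ℝ} (hA : T r Λ a e A) (hC : T r Λ b 1 C) (hr : 1 ≤ r)
    (hΛ : 6 ≤ Λ) (he : 0 ≤ e) (hc : a + b + 1 ≤ c) : T r Λ c e (fun p x => A p x * C p x) :=
  (hA.mul hC hr (Sm.le' n hΛ) he zero_le_one).up hΛ hr le_rfl (by simpa using he) hc
    (mul_one e).le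

lemma T.mulE [Fintype n] [Sm n] {r Λ e : ℝ} {a b c : ℕ} {A : P → ℝ × ℝ → Matrix m n ℝ}
    {C : P → ℝ × ℝ → Matrix n l ℝ} (hA : T r Λ a e A) (hC : T r Λ b e C) (hr : 1 ≤ r)
    (hΛ : 6 ≤ Λ) (he : 0 ≤ e) (hc : a + b + 1 ≤ c) : T r Λ c (e ^ 2) (fun p x => A p x * C p x) :=
  (hA.mul hC hr (Sm.le' n hΛ) he he).up hΛ hr le_rfl (by positivity) hc
    (by rw [sq])

lemma T.add' {r Λ e : ℝ} {a b c : ℕ} {A C : P → ℝ × ℝ → Matrix m n ℝ}
    (hA : T r Λ a e A) (hC : T r Λ b e C) (hr : 1 ≤ r) (hΛ : 6 ≤ Λ) (he : 0 ≤ e)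
    (hc : max a b + 1 ≤ c) : T r Λ c e (fun p x => A p x + C p x) :=
  (hA.add hC (by linarith) hΛ he).up hΛ hr le_rfl he hc le_rfl

lemma T.sub' {r Λ e : ℝ} {a b c : ℕ} {A C : P → ℝ × ℝ → Matrix m n ℝ}
    (hA : T r Λ a e A) (hC : T r Λ b e C) (hr : 1 ≤ r) (hΛ : 6 ≤ Λ) (he : 0 ≤ e)
    (hc : max a b + 1 ≤ c) : T r Λ c e (fun p x => A p x - C p x) :=
  (hA.sub hC (by linarith) hΛ he).up hΛ hr le_rfl he hc le_rfl

lemma MB.mono {r r' M M' : ℝ} {A : P → ℝ × ℝ → Matrix m n ℝ} (h : MB r M A) (hr' : 0 ≤ r')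
    (hr : r' ≤ r) (hM : M ≤ M') : MB r' M' A := fun i j => (h i j).mono hr' hr hM

lemma MB.congr {r M : ℝ} {A A' : P → ℝ × ℝ → Matrix m n ℝ} (h : MB r M A)
    (e' : ∀ p x, A p x = A' p x) : MB r M A' := by
  have : A = A' := by funext p x; exact e' p x
  rwa [this] at h

lemma MB.df {r M : ℝ} {A : P → ℝ × ℝ → Matrix m n ℝ} (h : MB r M A) (hr : 1 < r) :
    Df A := fun i j p => (h i j).diff hr p

/-- the constant matrix function of a matrix of parameter functions -/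
def cm (c : m → n → C(P, ℝ)) (p : P) : Matrix m n ℝ := Matrix.of fun i j => c i j p

/-- diagonal matrix of parameter functions -/
def dgm [DecidableEq m] (d : m → C(P, ℝ)) (p : P) : Matrix m m ℝ :=
  Matrix.diagonal fun i => d i p

/-- matrix version of the cohomological equation -/
lemma msolve [DecidableEq m] [DecidableEq n] [Fintype m] [Fintype n] {r M G δ H : ℝ} {ω : ℝ × ℝ}
    (hω : Dio G ω) (hr : 1 < r)
    {f : P → ℝ × ℝ → Matrix m n ℝ} (hf : MB r M f) (d1 : m → C(P, ℝ)) (d2 : n → C(P, ℝ))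
    (hδ : 0 < δ) (hd : ∀ i j, d1 i - d2 j = 0 ∨ ∀ p, δ ≤ |(d1 i - d2 j) p|) (hH : G ≤ H)
    (hH' : 1 / δ ≤ H) :
    ∃ (c : m → n → C(P, ℝ)) (g : P → ℝ × ℝ → Matrix m n ℝ), (∀ i j, ‖c i j‖ ≤ M) ∧
      (∀ i j, d1 i - d2 j ≠ 0 → c i j = 0) ∧
      (∀ p x, dM ω g p x + dgm d1 p * g p x - g p x * dgm d2 p = f p x + cm c p) ∧
      (∀ s, 0 < s → s < 1 → 1 ≤ r * s → MB (r * s) (H / (1 - s) * M) g) := by
  have h := fun i j => solve hω hr (hf i j) (d1 i - d2 j) hδ (hd i j) hH hH'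
  choose c g h1 h2 h3 h4 using h
  refine ⟨c, fun p x => Matrix.of fun i j => g i j p x, h1, h2, ?_, ?_⟩
  · intro p x
    ext i j
    have := h3 i j p x
    simp only [Matrix.sub_apply, Matrix.add_apply, dM_apply, Matrix.of_apply, dgm, cm,
      Matrix.diagonal_mul, Matrix.mul_diagonal]
    simp only [ContinuousMap.sub_apply] at this
    linarith
  · intro s hs0 hs1 hrs i j
    exact h4 i j s hs0 hs1 hrs

lemma MB.mul [Fintype n] {r M N : ℝ} {A : P → ℝ × ℝ → Matrix m n ℝ}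
    {C : P → ℝ × ℝ → Matrix n l ℝ} (hA : MB r M A) (hC : MB r N C) (hr : 1 ≤ r) :
    MB r (Fintype.card n * (M * N)) (fun p x => A p x * C p x) := by
  intro i j
  have h1 := B.sum (P := P) Finset.univ (fun k _ => (hA i k).mul (hC k j) hr) (by linarith)
  refine (h1.congr (fun p x => ?_)).mono (by linarith) le_rfl ?_
  · exact (Matrix.mul_apply).symm
  · rw [Finset.sum_const, Finset.card_univ, nsmul_eq_mul]

lemma MB.refl {r M : ℝ} {A : P → ℝ × ℝ → Matrix m n ℝ} (hA : MB r M A) :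
    MB r M (fun p x => A p (-x)) := fun i j => (hA i j).refl

/-- constant real matrix with entries at most one -/
lemma MB.rconst {r : ℝ} (L : Matrix m n ℝ) (hL : ∀ i j, |L i j| ≤ 1) (hr : 0 ≤ r) :
    MB (P := P) r 1 (fun _ _ => L) := fun i j => (B.rconst (L i j)).mono hr le_rfl (hL i j)

lemma cm_neg_symm [Fintype m] [Fintype n] (L : Matrix m m ℝ) (R : Matrix n n ℝ)
    (c : m → n → C(P, ℝ)) (p : P) :
    (1 / 2 : ℝ) • (cm c p - L * cm c p * R) = (1 / 2 : ℝ) • cm c p - (1 / 2 : ℝ) • (L * cm c p * R) :=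
  smul_sub _ _ _

/-- symmetric solution -/
theorem symsolve [DecidableEq m] [DecidableEq n] [Fintype m] [Fintype n] [Sm m] [Sm n]
    {r M G δ H : ℝ} {ω : ℝ × ℝ} (hω : Dio G ω) (hr : 1 < r) (hM : 0 ≤ M)
    {f : P → ℝ × ℝ → Matrix m n ℝ} (hf : MB r M f) (d1 : m → C(P, ℝ)) (d2 : n → C(P, ℝ))
    (hδ : 0 < δ) (hd : ∀ i j, d1 i - d2 j = 0 ∨ ∀ p, δ ≤ |(d1 i - d2 j) p|) (hH : G ≤ H)
    (hH' : 1 / δ ≤ H) (L : Matrix m m ℝ) (R : Matrix n n ℝ) (hL : ∀ i j, |L i j| ≤ 1)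
    (hR : ∀ i j, |R i j| ≤ 1) (hLL : L * L = 1) (hRR : R * R = 1)
    (hLd : ∀ p, L * dgm d1 p = -(dgm d1 p * L)) (hRd : ∀ p, dgm d2 p * R = -(R * dgm d2 p))
    (hsym : ∀ p x, L * f p (-x) * R = -f p x) :
    ∃ (c : m → n → C(P, ℝ)) (g : P → ℝ × ℝ → Matrix m n ℝ), (∀ i j, ‖c i j‖ ≤ M) ∧
      (∀ i j, d1 i - d2 j ≠ 0 → c i j = 0) ∧
      (∀ p x, dM ω g p x + dgm d1 p * g p x - g p x * dgm d2 p
        = f p x + (1 / 2 : ℝ) • (cm c p - L * cm c p * R)) ∧
      (∀ p x, L * g p (-x) * R = g p x) ∧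
      (∀ s, 0 < s → s < 1 → 1 ≤ r * s → MB (r * s) (36 * (H / (1 - s) * M)) g) := by
  obtain ⟨c, g, h1, h2, h3, h4⟩ := msolve hω hr hf d1 d2 hδ hd hH hH'
  have hr0 : 0 < r := by linarith
  have hH0 : 0 ≤ H := (by positivity : (0 : ℝ) ≤ 1 / δ).trans hH'
  -- differentiability
  have hDg : Df g := by
    obtain ⟨s, hs⟩ : ∃ s : ℝ, s = (1 + 1 / r) / 2 := ⟨_, rfl⟩
    have hx1 : 1 / r < 1 := by rw [div_lt_one hr0]; exact hr
    have hx0 : 0 < 1 / r := by positivity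
    have hs0 : 0 < s := by rw [hs]; linarith
    have hs1 : s < 1 := by rw [hs]; linarith
    have hrs : 1 < r * s := by
      have : r * s = (r + 1) / 2 := by rw [hs]; field_simp
      rw [this]; linarith
    exact (h4 s hs0 hs1 hrs.le).df hrs
  set g' : P → ℝ × ℝ → Matrix m n ℝ := fun p x => (1 / 2 : ℝ) • (g p x + L * g p (-x) * R) with hg'
  have hDr : Df (fun p x => g p (-x)) := fun i j p =>
    (hDg i j p).comp (differentiable_id.neg : Differentiable ℝ (fun x : ℝ × ℝ => -x))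
  have hDL : Df (P := P) (fun _ _ => L) := Df.const (fun _ => L)
  have hDR : Df (P := P) (fun _ _ => R) := Df.const (fun _ => R)
  have hDLg : Df (fun p x => L * g p (-x)) := hDL.mul hDr
  have hDLgR : Df (fun p x => L * g p (-x) * R) := hDLg.mul hDR
  have hder : ∀ p x, dM ω g' p x = (1 / 2 : ℝ) • (dM ω g p x - L * dM ω g p (-x) * R) := by
    intro p x
    have e1 := dM_add hDg hDLgR ω p x
    have e2 := dM_mul hDLg hDR ω p x
    have e3 := dM_mul hDL hDr ω p x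
    have e4 := dM_refl hDg ω p x
    have e5 := dM_const (P := P) (fun _ => L) ω p x
    have e6 := dM_const (P := P) (fun _ => R) ω p x
    have e7 : dM ω g' p x = (1 / 2 : ℝ) • dM ω (fun p x => g p x + L * g p (-x) * R) p x := by
      ext i j
      rw [Matrix.smul_apply, dM_apply, dM_apply]
      have := pd_cmul (f := fun p x => (g p x + L * g p (-x) * R) i j)
        ((hDg.add hDLgR) i j p x) (fun _ => (1 / 2 : ℝ)) ω
      exact this
    rw [e7, e1, e2, e3, e4, e5, e6]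
    simp only [Matrix.zero_mul, zero_add, Matrix.mul_zero, add_zero, Matrix.mul_neg,
      Matrix.neg_mul, sub_eq_add_neg]
  refine ⟨c, g', h1, h2, ?_, ?_, ?_⟩
  · intro p x
    rw [hder]
    have a1 := h3 p x
    have a2 := h3 p (-x)
    have a3 : L * dM ω g p (-x) * R = -f p x + L * cm c p * R + dgm d1 p * (L * g p (-x) * R)
        - (L * g p (-x) * R) * dgm d2 p := by
      have a4 : dM ω g p (-x) = f p (-x) + cm c p - dgm d1 p * g p (-x) + g p (-x) * dgm d2 p := by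
        rw [← a2]; abel
      rw [a4]
      simp only [Matrix.mul_add, Matrix.add_mul, Matrix.mul_sub, Matrix.sub_mul]
      rw [hsym p x]
      have a5 : L * (dgm d1 p * g p (-x)) * R = -(dgm d1 p * (L * g p (-x) * R)) := by
        rw [← Matrix.mul_assoc L, hLd]
        simp only [Matrix.neg_mul, Matrix.mul_assoc]
      have a6 : L * (g p (-x) * dgm d2 p) * R = -((L * g p (-x) * R) * dgm d2 p) := by
        rw [← Matrix.mul_assoc L, Matrix.mul_assoc (L * g p (-x)) (dgm d2 p) R, hRd]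
        simp only [Matrix.mul_neg, Matrix.mul_assoc]
      rw [a5, a6]
      abel
    rw [a3]
    have a7 : dM ω g p x = f p x + cm c p - dgm d1 p * g p x + g p x * dgm d2 p := by
      rw [← a1]; abel
    rw [a7]
    simp only [hg', Matrix.mul_smul, Matrix.smul_mul, Matrix.mul_add, Matrix.add_mul]
    have h2' : f p x = (1 / 2 : ℝ) • (f p x + f p x) := by
      rw [← two_smul ℝ (f p x), smul_smul]; norm_num
    conv_rhs => rw [h2', ← smul_add]
    rw [← smul_add, ← smul_sub]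
    congr 1
    abel
  · intro p x
    simp only [hg', neg_neg, Matrix.mul_smul, Matrix.smul_mul, Matrix.mul_add, Matrix.add_mul]
    congr 1
    have : L * (L * g p x * R) * R = g p x := by
      rw [← Matrix.mul_assoc, ← Matrix.mul_assoc, hLL, Matrix.one_mul, Matrix.mul_assoc, hRR,
        Matrix.mul_one]
    rw [this, add_comm]
  · intro s hs0 hs1 hrs
    have h5 := h4 s hs0 hs1 hrs
    have h1s : 0 < 1 - s := by linarith
    have hX : 0 ≤ H / (1 - s) * M := by positivity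
    have h6 := ((MB.rconst (P := P) (r := r * s) L hL (by linarith)).mul h5.refl hrs).mul
      (MB.rconst (P := P) (r := r * s) R hR (by linarith)) hrs
    intro i j
    have h7 := ((h5 i j).add (h6 i j) (by linarith)).smul (1 / 2) (by linarith)
    refine (h7.congr (fun p x => ?_)).mono (by linarith) le_rfl ?_
    · simp only [hg', Matrix.smul_apply, Matrix.add_apply, smul_eq_mul]
    · have hm : (Fintype.card m : ℝ) ≤ 6 := Sm.le' m (le_refl (6 : ℝ))
      have hn : (Fintype.card n : ℝ) ≤ 6 := Sm.le' n (le_refl (6 : ℝ))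
      rw [abs_of_pos (by norm_num : (0 : ℝ) < 1 / 2)]
      have h8 : (Fintype.card n : ℝ) * (Fintype.card m * (1 * (H / (1 - s) * M)) * 1)
          ≤ 6 * (6 * (1 * (H / (1 - s) * M)) * 1) := by gcongr
      linarith

end Run7.h800
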