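import Pool.Agent.Run7.h800.Lin2

set_option autoImplicit false
set_option linter.unusedSectionVars false

/-!
# The Newton step
-/

namespace Run7.h800

open Filter Topology

variable {P : Type*} [TopologicalSpace P] [CompactSpace P]

/-- a family of vector fields with its derivatives -/
structure Fld (P : Type*) where
  Y : P → (Fin 6 ⊕ Fin 2 → ℝ) → Matrix (Fin 6) Unit ℝ
  A : P → (Fin 6 ⊕ Fin 2 → ℝ) → Matrix (Fin 6) (Fin 6) ℝ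
  Bq : P → (Fin 6 ⊕ Fin 2 → ℝ) → Matrix (Fin 6) (Fin 2) ℝ

/-- joint phase and parameter variable -/
def zz (U : P → ℝ × ℝ → Matrix (Fin 6) Unit ℝ) (q : Fin 2 → C(P, ℝ)) (p : P) (x : ℝ × ℝ) :
    Fin 6 ⊕ Fin 2 → ℝ := Sum.elim (fun i => U p x i ()) (fun k => q k p)

/-- reversal of the joint variable -/
def rz (z : Fin 6 ⊕ Fin 2 → ℝ) : Fin 6 ⊕ Fin 2 → ℝ :=
  Sum.elim (fun i => (![1, -1, 1, -1, -1, 1] : Fin 6 → ℝ) i * z (Sum.inl i)) (fun k => z (Sum.inr k))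

lemma zz_refl {U : P → ℝ × ℝ → Matrix (Fin 6) Unit ℝ} (q : Fin 2 → C(P, ℝ))
    (hU : ∀ p x, U p (-x) = Sg * U p x) (p : P) (x : ℝ × ℝ) :
    zz U q p (-x) = rz (zz U q p x) := by
  funext i
  rcases i with i | k
  · simp only [zz, rz, Sum.elim_inl, hU]
    unfold Sg
    rw [Matrix.diagonal_mul]
  · rfl

/-- closeness to the base torus -/
def near (r ρ : ℝ) (U0 : P → ℝ × ℝ → Matrix (Fin 6) Unit ℝ) (q0 : Fin 2 → C(P, ℝ))
    (U : P → ℝ × ℝ → Matrix (Fin 6) Unit ℝ) (q : Fin 2 → C(P, ℝ)) : Prop :=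
  MB r ρ (fun p x => U p x - U0 p x) ∧ ∀ k, ‖q k - q0 k‖ ≤ ρ

lemma near.mono {r r' ρ ρ' : ℝ} {U0 : P → ℝ × ℝ → Matrix (Fin 6) Unit ℝ} {q0 : Fin 2 → C(P, ℝ)}
    {U : P → ℝ × ℝ → Matrix (Fin 6) Unit ℝ} {q : Fin 2 → C(P, ℝ)} (h : near r ρ U0 q0 U q)
    (hr' : 0 ≤ r') (hr : r' ≤ r) (hρ : ρ ≤ ρ') : near r' ρ' U0 q0 U q :=
  ⟨h.1.mono hr' hr hρ, fun k => (h.2 k).trans hρ⟩

/-- tame family of vector fields near a torus -/
structure Fld.Tame (V : Fld P) (R ρ K : ℝ) (U0 : P → ℝ × ℝ → Matrix (Fin 6) Unit ℝ)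
    (q0 : Fin 2 → C(P, ℝ)) : Prop where
  K0 : 0 ≤ K
  bA : ∀ r U q, 1 ≤ r → r ≤ R → near r ρ U0 q0 U q → MB r K (fun p x => V.A p (zz U q p x))
  bB : ∀ r U q, 1 ≤ r → r ≤ R → near r ρ U0 q0 U q → MB r K (fun p x => V.Bq p (zz U q p x))
  lA : ∀ r U q d dq δ, 1 ≤ r → r ≤ R → near r ρ U0 q0 U q →
    near r ρ U0 q0 (fun p x => U p x + d p x) (q + dq) → MB r δ d → (∀ k, ‖dq k‖ ≤ δ) → δ ≤ 1 →
    MB r (K * δ) (fun p x => V.A p (zz (fun p x => U p x + d p x) (q + dq) p x)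
      - V.A p (zz U q p x))
  lB : ∀ r U q d dq δ, 1 ≤ r → r ≤ R → near r ρ U0 q0 U q →
    near r ρ U0 q0 (fun p x => U p x + d p x) (q + dq) → MB r δ d → (∀ k, ‖dq k‖ ≤ δ) → δ ≤ 1 →
    MB r (K * δ) (fun p x => V.Bq p (zz (fun p x => U p x + d p x) (q + dq) p x)
      - V.Bq p (zz U q p x))
  l2 : ∀ r U q d dq δ, 1 ≤ r → r ≤ R → near r ρ U0 q0 U q →
    near r ρ U0 q0 (fun p x => U p x + d p x) (q + dq) → MB r δ d → (∀ k, ‖dq k‖ ≤ δ) → δ ≤ 1 →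
    MB r (K * δ ^ 2) (fun p x => V.Y p (zz (fun p x => U p x + d p x) (q + dq) p x)
      - V.Y p (zz U q p x) - V.A p (zz U q p x) * d p x - V.Bq p (zz U q p x) * cq dq p)
  chain : ∀ r U q v, 1 < r → r ≤ R → near r ρ U0 q0 U q → Df U →
    Df (fun p x => V.Y p (zz U q p x)) ∧
    ∀ p x, dM v (fun p x => V.Y p (zz U q p x)) p x = V.A p (zz U q p x) * dM v U p x
  revY : ∀ p z, V.Y p (rz z) = -(Sg * V.Y p z)
  revA : ∀ p z, V.A p (rz z) = -(Sg * V.A p z * Sg)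
  revB : ∀ p z, V.Bq p (rz z) = -(Sg * V.Bq p z)

/-- the two coordinate directions -/
def ev : Fin 2 → ℝ × ℝ := ![(1, 0), (0, 1)]

lemma norm_ev (k : Fin 2) : ‖ev k‖ = 1 := by
  fin_cases k <;> simp [ev, Prod.norm_def]

/-- gradient of a vector function -/
noncomputable def gd (U : P → ℝ × ℝ → Matrix (Fin 6) Unit ℝ) :
    P → ℝ × ℝ → Matrix (Fin 6) (Fin 2) ℝ :=
  fun p x => Matrix.of fun i k => pd (ev k) (fun p x => U p x i ()) p x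

lemma gd_apply (U : P → ℝ × ℝ → Matrix (Fin 6) Unit ℝ) (p : P) (x : ℝ × ℝ) (i : Fin 6)
    (k : Fin 2) : gd U p x i k = dM (ev k) U p x i () := rfl

lemma gd_add {U W : P → ℝ × ℝ → Matrix (Fin 6) Unit ℝ} (hU : Df U) (hW : Df W) (p : P)
    (x : ℝ × ℝ) : gd (fun p x => U p x + W p x) p x = gd U p x + gd W p x := by
  ext i k
  rw [gd_apply, dM_add hU hW]; rfl

lemma gd_sub {U W : P → ℝ × ℝ → Matrix (Fin 6) Unit ℝ} (hU : Df U) (hW : Df W) (p : P)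
    (x : ℝ × ℝ) : gd (fun p x => U p x - W p x) p x = gd U p x - gd W p x := by
  ext i k
  rw [gd_apply, dM_sub hU hW]; rfl

lemma gd_refl {U : P → ℝ × ℝ → Matrix (Fin 6) Unit ℝ} (hU : Df U)
    (hs : ∀ p x, U p (-x) = Sg * U p x) (p : P) (x : ℝ × ℝ) :
    gd U p (-x) = -(Sg * gd U p x) := by
  have h1 : ∀ v, dM v U p (-x) = -(Sg * dM v U p x) := by
    intro v
    have e1 := dM_refl hU v p x
    have e2 : (fun p x => U p (-x)) = fun p x => Sg * U p x := by funext p x; exact hs p x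
    rw [e2] at e1
    have e3 := dM_mul (P := P) (Df.const (fun _ => Sg)) hU v p x
    rw [dM_const, Matrix.zero_mul, zero_add] at e3
    have e4 := e1.symm.trans e3
    rw [← e4, neg_neg]
  ext i k
  have h2 := congrFun (congrFun (h1 (ev k)) i) ()
  rw [gd_apply, h2, Matrix.neg_apply, Matrix.neg_apply, Matrix.mul_apply, Matrix.mul_apply]
  rfl

lemma T.gd {r Λ e s : ℝ} {a : ℕ} {U : P → ℝ × ℝ → Matrix (Fin 6) Unit ℝ}
    (hU : T r Λ a e U) (hs0 : 0 < s) (hs1 : s < 1) (hrs : 1 ≤ r * s)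
    (hv : 1 / (1 - s) ≤ Λ) (hΛ : 6 ≤ Λ) (he : 0 ≤ e) : T (r * s) Λ (a + 1) e (gd U) := by
  intro i k
  exact (hU.dM hs0 hs1 hrs (ev k) (by rw [norm_ev]; exact hv) hΛ he) i ()

lemma dM_gd {r M : ℝ} {U : P → ℝ × ℝ → Matrix (Fin 6) Unit ℝ} (hU : MB r M U) (hr : 1 < r)
    (v : ℝ × ℝ) (p : P) (x : ℝ × ℝ) : dM v (gd U) p x = gd (dM v U) p x := by
  ext i k
  exact pd_comm (hU i ()) hr v (ev k) p x

/-- A state of the iteration. -/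
structure St (P : Type*) [TopologicalSpace P] where
  U : P → ℝ × ℝ → Matrix (Fin 6) Unit ℝ
  Pb : P → ℝ × ℝ → Matrix (Fin 6) (Fin 4) ℝ
  Psa : P → ℝ × ℝ → Matrix (Fin 2) (Fin 6) ℝ
  Psb : P → ℝ × ℝ → Matrix (Fin 4) (Fin 6) ℝ
  S : P → ℝ × ℝ → Matrix (Fin 2) (Fin 4) ℝ
  q : Fin 2 → C(P, ℝ)
  lam : C(P, ℝ)

/-- symmetric states -/
structure St.Sym (t : St P) : Prop where
  U : ∀ p x, t.U p (-x) = Sg * t.U p x
  Pb : ∀ p x, t.Pb p (-x) = Sg * t.Pb p x * Pi4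
  Psa : ∀ p x, t.Psa p (-x) = -(t.Psa p x * Sg)
  Psb : ∀ p x, t.Psb p (-x) = Pi4 * t.Psb p x * Sg
  S : ∀ p x, t.S p (-x) = t.S p x * Pi4

/-- bounded states -/
structure St.Bd (r k : ℝ) (t : St P) : Prop where
  U : MB r k t.U
  Pb : MB r k t.Pb
  Psa : MB r k t.Psa
  Psb : MB r k t.Psb
  S : MB r k t.S

/-- close states -/
structure St.Cl (r κ : ℝ) (t t' : St P) : Prop where
  U : MB r κ (fun p x => t'.U p x - t.U p x)
  Pb : MB r κ (fun p x => t'.Pb p x - t.Pb p x)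
  Psa : MB r κ (fun p x => t'.Psa p x - t.Psa p x)
  Psb : MB r κ (fun p x => t'.Psb p x - t.Psb p x)
  S : MB r κ (fun p x => t'.S p x - t.S p x)
  q : ∀ i, ‖t'.q i - t.q i‖ ≤ κ
  lam : ‖t'.lam - t.lam‖ ≤ κ

/-- the error of the invariance equation -/
noncomputable def St.E (V : Fld P) (ω : ℝ × ℝ) (t : St P) (p : P) (x : ℝ × ℝ) :
    Matrix (Fin 6) Unit ℝ := dM ω t.U p x - V.Y p (zz t.U t.q p x)

/-- the error of the reducibility equation -/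
noncomputable def St.R (V : Fld P) (ω : ℝ × ℝ) (t : St P) (p : P) (x : ℝ × ℝ) :
    Matrix (Fin 6) (Fin 4) ℝ := dM ω t.Pb p x - V.A p (zz t.U t.q p x) * t.Pb p x
      - gd t.U p x * t.S p x - t.Pb p x * dgm (dd t.lam) p

/-- the error of the inverse -/
noncomputable def St.F (t : St P) (p : P) (x : ℝ × ℝ) :
    Matrix (Fin 6) (Fin 6) ℝ := gd t.U p x * t.Psa p x + t.Pb p x * t.Psb p x - 1

/-- bound of the errors -/
structure St.Er (V : Fld P) (ω : ℝ × ℝ) (r η : ℝ) (t : St P) : Prop where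
  E : MB r η (t.E V ω)
  R : MB r η (t.R V ω)
  F : MB r η t.F

/-! ### algebra -/

lemma alg_delta {A : Matrix (Fin 6) (Fin 6) ℝ} {Pa gE dPa : Matrix (Fin 6) (Fin 2) ℝ}
    {Pb R dPb : Matrix (Fin 6) (Fin 4) ℝ} {S : Matrix (Fin 2) (Fin 4) ℝ}
    {D : Matrix (Fin 4) (Fin 4) ℝ} {Psa : Matrix (Fin 2) (Fin 6) ℝ}
    {Psb : Matrix (Fin 4) (Fin 6) ℝ} {xa dxa : Matrix (Fin 2) Unit ℝ}
    {xb dxb : Matrix (Fin 4) Unit ℝ} {rho : Matrix (Fin 6) Unit ℝ}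
    (h1 : dPa = A * Pa + gE) (h2 : dPb = A * Pb + Pa * S + Pb * D + R)
    (h3 : dxa = Psa * rho - S * xb) (h4 : dxb = Psb * rho - D * xb) :
    dPa * xa + Pa * dxa + (dPb * xb + Pb * dxb)
      = A * (Pa * xa + Pb * xb) + gE * xa + R * xb + (Pa * Psa + Pb * Psb) * rho := by
  subst h1 h2 h3 h4
  simp only [Matrix.mul_add, Matrix.add_mul, Matrix.mul_sub, Matrix.mul_assoc]
  abel

lemma alg_R {A A' : Matrix (Fin 6) (Fin 6) ℝ} {Pa K : Matrix (Fin 6) (Fin 2) ℝ}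
    {Pb R dPb Z : Matrix (Fin 6) (Fin 4) ℝ} {S : Matrix (Fin 2) (Fin 4) ℝ}
    {D Dd Q dQ : Matrix (Fin 4) (Fin 4) ℝ} {Psa : Matrix (Fin 2) (Fin 6) ℝ}
    {Psb : Matrix (Fin 4) (Fin 6) ℝ}
    (h2 : dPb = A * Pb + Pa * S + Pb * D + R)
    (hZ : Z = R - (A' - A) * Pb - K * S)
    (hQ : dQ = -(Psb * Z) + Dd - D * Q + Q * D) :
    (dPb + (dPb * Q + Pb * dQ)) - A' * (Pb + Pb * Q) - (Pa + K) * (S + (S * Q + Psa * Z))
        - (Pb + Pb * Q) * (D + Dd)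
      = Z * Q - (Pa * Psa + Pb * Psb - 1) * Z - K * (Psa * Z) - Pb * Q * Dd := by
  have hR : R = Z + (A' - A) * Pb + K * S := by rw [hZ]; abel
  rw [h2, hQ, hR]
  simp only [Matrix.mul_add, Matrix.add_mul, Matrix.mul_sub, Matrix.sub_mul, Matrix.mul_assoc,
    Matrix.mul_neg, Matrix.one_mul]
  abel

lemma alg_F {Pa K : Matrix (Fin 6) (Fin 2) ℝ} {Pb : Matrix (Fin 6) (Fin 4) ℝ}
    {Q : Matrix (Fin 4) (Fin 4) ℝ} {Psa : Matrix (Fin 2) (Fin 6) ℝ}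
    {Psb : Matrix (Fin 4) (Fin 6) ℝ} {F F1 : Matrix (Fin 6) (Fin 6) ℝ}
    (hF : F = Pa * Psa + Pb * Psb - 1) (hF1 : F1 = F + (K * Psa + Pb * Q * Psb)) :
    (Pa + K) * (Psa - Psa * F1) + (Pb + Pb * Q) * (Psb - Psb * F1) - 1 = -(F1 * F1) := by
  have h1 : (Pa + K) * Psa + (Pb + Pb * Q) * Psb = 1 + F1 := by
    rw [hF1, hF]
    simp only [Matrix.add_mul]
    abel
  have h2 : (Pa + K) * (Psa - Psa * F1) + (Pb + Pb * Q) * (Psb - Psb * F1)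
      = ((Pa + K) * Psa + (Pb + Pb * Q) * Psb) * (1 - F1) := by
    simp only [Matrix.mul_sub, Matrix.add_mul, Matrix.mul_one, Matrix.mul_assoc]
    abel
  rw [h2, h1]
  noncomm_ring

end Run7.h800
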