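import Pool.Agent.Run7.h800.Step

set_option autoImplicit false
set_option linter.unusedSectionVars false

/-!
# The Newton step, main theorem
-/

namespace Run7.h800

open Filter Topology

variable {P : Type*} [TopologicalSpace P] [CompactSpace P]

/-- exchange of the tangential system: the derivative of the gradient -/
lemma dPa_eq {R ρ K r k : ℝ} {ω : ℝ × ℝ} {U0 : P → ℝ × ℝ → Matrix (Fin 6) Unit ℝ}
    {q0 : Fin 2 → C(P, ℝ)} {V : Fld P} (hV : V.Tame R ρ K U0 q0) {t : St P} (hr : 1 < r)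
    (hrR : r ≤ R) (hn : near r ρ U0 q0 t.U t.q) (hU : MB r k t.U) (p : P) (x : ℝ × ℝ) :
    dM ω (gd t.U) p x = V.A p (zz t.U t.q p x) * gd t.U p x + gd (t.E V ω) p x := by
  have hr0 : 0 < r := by linarith
  have hDU := hU.df hr
  obtain ⟨c1, c2⟩ := hV.chain r t.U t.q ω hr hrR hn hDU
  -- differentiability of dM ω U
  obtain ⟨s, hs⟩ : ∃ s : ℝ, s = (1 + 1 / r) / 2 := ⟨_, rfl⟩
  have hx1 : 1 / r < 1 := by rw [div_lt_one hr0]; exact hr
  have hx0 : 0 < 1 / r := by positivity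
  have hs0 : 0 < s := by rw [hs]; linarith
  have hs1 : s < 1 := by rw [hs]; linarith
  have hrs : 1 < r * s := by
    have : r * s = (r + 1) / 2 := by rw [hs]; field_simp
    rw [this]; linarith
  have hDd : Df (dM ω t.U) := fun i j p => ((hU i j).pd hs0 hs1 hrs.le ω).diff hrs p
  have e1 : gd (t.E V ω) p x = gd (dM ω t.U) p x - gd (fun p x => V.Y p (zz t.U t.q p x)) p x :=
    gd_sub hDd c1 p x
  have e2 : gd (fun p x => V.Y p (zz t.U t.q p x)) p x = V.A p (zz t.U t.q p x) * gd t.U p x := by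
    ext i k
    obtain ⟨c3, c4⟩ := hV.chain r t.U t.q (ev k) hr hrR hn hDU
    rw [gd_apply, c4, Matrix.mul_apply, Matrix.mul_apply]
    rfl
  rw [e1, e2, dM_gd hU hr]
  abel

lemma MB.toT {m n : Type*} {r Λ k : ℝ} {A : P → ℝ × ℝ → Matrix m n ℝ} (h : MB r k A)
    (hk : k ≤ Λ) (hr : 0 ≤ r) : T r Λ 1 1 A := h.mono hr le_rfl (by simpa using hk)

lemma dgm_sub_eq (a b : C(P, ℝ)) (p : P) :
    dgm (dd (a + b)) p = dgm (dd a) p + dgm (dd b) p := by
  unfold dgm dd
  ext i j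
  by_cases h : i = j
  · subst h
    simp [Matrix.diagonal_apply, mul_add]
  · simp [Matrix.diagonal_apply, h]

lemma hd2 {lam : C(P, ℝ)} {δ : ℝ} (hlam : ∀ p, δ ≤ lam p) (hδ : 0 < δ) :
    ∀ (i j : Fin 4), dd lam i - dd lam j = 0 ∨ ∀ p, δ ≤ |(dd lam i - dd lam j) p| := by
  intro i j
  have h1 : ∀ p, δ ≤ |lam p| := fun p => (hlam p).trans (le_abs_self _)
  have h2 : ∀ p, δ ≤ |-lam p| := fun p => by rw [abs_neg]; exact h1 p
  have h3 : ∀ p, δ ≤ |-lam p - lam p| := fun p => by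
    have := hlam p
    rw [abs_of_neg (by linarith)]; linarith
  have h4 : ∀ p, δ ≤ |lam p + lam p| := fun p => by
    have := hlam p
    rw [abs_of_pos (by linarith)]; linarith
  fin_cases i <;> fin_cases j <;> simp [dd, sg, h1, h3, h4]

/-- the constant matrix is diagonal -/
lemma cconst {lam : C(P, ℝ)} {δ : ℝ} (hlam : ∀ p, δ ≤ lam p) (hδ : 0 < δ)
    {c : Fin 4 → Fin 4 → C(P, ℝ)} (hc : ∀ i j, dd lam i - dd lam j ≠ 0 → c i j = 0) (p : P) :
    (1 / 2 : ℝ) • (cm c p - Pi4 * cm c p * Pi4)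
      = dgm (dd ((1 / 2 : ℝ) • (c 3 3 - c 2 2))) p := by
  have hne : ∀ i j, dd lam i p - dd lam j p ≠ 0 → c i j = 0 := by
    intro i j h
    apply hc
    intro h'
    apply h
    have := congrArg (fun f : C(P, ℝ) => f p) h'
    simpa using this
  have hl := hlam p
  have h02 : c 0 2 = 0 := hne _ _ (by simp [dd, sg]; linarith)
  have h03 : c 0 3 = 0 := hne _ _ (by simp [dd, sg]; linarith)
  have h12 : c 1 2 = 0 := hne _ _ (by simp [dd, sg]; linarith)
  have h13 : c 1 3 = 0 := hne _ _ (by simp [dd, sg]; linarith)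
  have h20 : c 2 0 = 0 := hne _ _ (by simp [dd, sg]; linarith)
  have h21 : c 2 1 = 0 := hne _ _ (by simp [dd, sg]; linarith)
  have h30 : c 3 0 = 0 := hne _ _ (by simp [dd, sg]; linarith)
  have h31 : c 3 1 = 0 := hne _ _ (by simp [dd, sg]; linarith)
  have h23 : c 2 3 = 0 := hne _ _ (by simp [dd, sg]; linarith)
  have h32 : c 3 2 = 0 := hne _ _ (by simp [dd, sg]; linarith)
  ext i j
  simp only [Matrix.smul_apply, Matrix.sub_apply, Matrix.mul_apply, Fin.sum_univ_four, cm,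
    Matrix.of_apply, dgm, Matrix.diagonal_apply, dd, smul_eq_mul, ContinuousMap.smul_apply,
    ContinuousMap.sub_apply]
  fin_cases i <;> fin_cases j <;>
    simp [Pi4, sg, h02, h03, h12, h13, h20, h21, h30, h31, h23, h32] <;>
    ring

end Run7.h800
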