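import Pool.Agent.Run7.h800.Step2

set_option autoImplicit false
set_option linter.unusedSectionVars false

/-!
# The Newton step, main theorem
-/

namespace Run7.h800

open Filter Topology

variable {P : Type*} [TopologicalSpace P] [CompactSpace P]

lemma SS {n : Type*} (X : Matrix (Fin 6) n ℝ) : Sg * (Sg * X) = X := by
  rw [← Matrix.mul_assoc, Sg_sq, Matrix.one_mul]

lemma PP {n : Type*} (X : Matrix (Fin 4) n ℝ) : Pi4 * (Pi4 * X) = X := by
  rw [← Matrix.mul_assoc, Pi4_sq, Matrix.one_mul]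

lemma dM_symm {m n : Type*} [Fintype m] [Fintype n] {X : P → ℝ × ℝ → Matrix m n ℝ} (hX : Df X)
    (L : Matrix m m ℝ) (R : Matrix n n ℝ)
    (hs : ∀ p x, X p (-x) = L * X p x * R) (v : ℝ × ℝ) (p : P) (x : ℝ × ℝ) :
    dM v X p (-x) = -(L * dM v X p x * R) := by
  have e1 := dM_refl hX v p x
  have e2 : (fun p x => X p (-x)) = fun p x => L * X p x * R := by funext p x; exact hs p x
  rw [e2] at e1
  have hL : Df (P := P) (fun _ _ => L) := Df.const (fun _ => L)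
  have hR : Df (P := P) (fun _ _ => R) := Df.const (fun _ => R)
  have e3 := dM_mul (hL.mul hX) hR v p x
  have e4 := dM_mul hL hX v p x
  have c1 := dM_const (P := P) (fun _ => L) v p x
  have c2 := dM_const (P := P) (fun _ => R) v p x
  rw [c1, Matrix.zero_mul, zero_add] at e4
  rw [c2, Matrix.mul_zero, add_zero, e4] at e3
  rw [← e3, e1, neg_neg]

lemma E_symm {V : Fld P} {ω : ℝ × ℝ} {t : St P} (hrev : ∀ p z, V.Y p (rz z) = -(Sg * V.Y p z))
    (sy : t.Sym) (hD : Df t.U) (p : P) (x : ℝ × ℝ) : t.E V ω p (-x) = -(Sg * t.E V ω p x) := by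
  have h1 := dM_symm hD Sg 1 (fun p x => by rw [Matrix.mul_one]; exact sy.U p x) ω p x
  rw [Matrix.mul_one] at h1
  unfold St.E
  rw [h1, zz_refl t.q sy.U, hrev, Matrix.mul_sub]
  abel

lemma R_symm {V : Fld P} {ω : ℝ × ℝ} {t : St P} (hrev : ∀ p z, V.A p (rz z) = -(Sg * V.A p z * Sg))
    (sy : t.Sym) (hU : Df t.U) (hD : Df t.Pb) (p : P) (x : ℝ × ℝ) :
    t.R V ω p (-x) = -(Sg * t.R V ω p x * Pi4) := by
  have h1 := dM_symm hD Sg Pi4 sy.Pb ω p x
  have h2 := gd_refl hU sy.U p x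
  have h3 : Pi4 * dgm (dd t.lam) p = -(dgm (dd t.lam) p * Pi4) := Pi4_dd t.lam p
  unfold St.R
  rw [h1, zz_refl t.q sy.U, hrev, h2, sy.Pb, sy.S]
  simp only [Matrix.mul_assoc, Matrix.neg_mul, Matrix.mul_neg, SS, h3, Matrix.mul_sub,
    Matrix.sub_mul]
  abel

lemma F_symm {t : St P} (sy : t.Sym) (hU : Df t.U) (p : P) (x : ℝ × ℝ) :
    t.F p (-x) = Sg * t.F p x * Sg := by
  have h2 := gd_refl hU sy.U p x
  unfold St.F
  rw [h2, sy.Psa, sy.Psb, sy.Pb]
  simp only [Matrix.mul_assoc, Matrix.neg_mul, Matrix.mul_neg, PP, Matrix.mul_sub,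
    Matrix.sub_mul, Matrix.mul_add, Matrix.add_mul, Matrix.one_mul, Sg_sq, neg_neg]

/-- The Newton step. -/
theorem step {R ρ ρ' K r s k G δ H Λ ε : ℝ} {ω : ℝ × ℝ} {U0 : P → ℝ × ℝ → Matrix (Fin 6) Unit ℝ}
    {q0 : Fin 2 → C(P, ℝ)} {V : Fld P}
    (hω : Dio G ω) (hV : V.Tame R ρ K U0 q0)
    (hs0 : 0 < s) (hs1 : s < 1) (hr4 : 1 < r * s * s * s * s) (hr2 : 2 ≤ r) (hrR : r ≤ R)
    (hk : 0 ≤ k) (hε : 0 ≤ ε) (hδ : 0 < δ) (hH : G ≤ H) (hH' : 1 / δ ≤ H)
    (hΛ : 6 ≤ Λ) (hkΛ : k ≤ Λ) (hKΛ : K ≤ Λ) (hHΛ : H ≤ Λ) (hsΛ : 1 / (1 - s) ≤ Λ)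
    (hsm : Λ ^ 60 * ε ≤ 1) (hρ : ρ' + Λ ^ 60 * ε ≤ ρ)
    {t : St P} (bd : t.Bd r k) (sy : t.Sym) (hlam : ∀ p, δ ≤ t.lam p)
    (hn : near r ρ' U0 q0 t.U t.q) (er : t.Er V ω r ε)
    (hdet : ∀ (xb : P → ℝ × ℝ → Matrix (Fin 4) (Fin 2) ℝ) (Cm : P → Matrix (Fin 2) (Fin 2) ℝ),
      MB 1 (36 * (H / (1 - 1 / 2) * (6 * (k * K)))) xb →
      (∀ i j, Mn ω (fun p x => (t.Psa p x * V.Bq p (zz t.U t.q p x) - t.S p x * xb p x) i j)
        (fun p => Cm p i j)) →
      ∀ p, δ ≤ |Cm p 0 0 * Cm p 1 1 - Cm p 0 1 * Cm p 1 0|) :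
    ∃ t' : St P, t'.Sym ∧ t.Cl (r * s * s * s * s) (Λ ^ 60 * ε) t' ∧
      t'.Er V ω (r * s * s * s * s) (Λ ^ 120 * ε ^ 2) := by
  have hr0 : 0 < r := by linarith
  have hr1 : 1 < r := by linarith
  have q3 : 1 < r * s * s * s := by
    have : 0 < r * s * s * s := by positivity
    nlinarith
  have q2 : 1 < r * s * s := by
    have : 0 < r * s * s := by positivity
    nlinarith
  have q1 : 1 < r * s := by
    have : 0 < r * s := by positivity
    nlinarith
  have l1 : r * s ≤ r := by nlinarith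
  have l2 : r * s * s ≤ r * s := by nlinarith
  have l3 : r * s * s * s ≤ r * s * s := by nlinarith
  have l4 : r * s * s * s * s ≤ r * s * s * s := by nlinarith
  have hΛ0 : 0 ≤ Λ := by linarith
  have hΛ1 : 1 ≤ Λ := by linarith
  have hK := hV.K0
  have hX : 0 ≤ Λ ^ 60 * ε := by positivity
  have hpow : ∀ a b : ℕ, a ≤ b → Λ ^ a * ε ≤ Λ ^ b * ε := fun a b hab => by
    have := pow_le_pow_right₀ hΛ1 hab
    gcongr
  have hn0 : near r ρ U0 q0 t.U t.q := hn.mono hr0.le le_rfl (by linarith)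
  have bA := hV.bA r t.U t.q hr1.le hrR hn0
  have bB := hV.bB r t.U t.q hr1.le hrR hn0
  have DU : Df t.U := bd.U.df hr1
  have DPb : Df t.Pb := bd.Pb.df hr1
  -- linear system
  obtain ⟨dq, xa, xb, x1, x2, x3, x4, x5, x6, x7⟩ := lins2 (W1 := fun p x => -t.E V ω p x)
    (W2 := fun p x => V.Bq p (zz t.U t.q p x)) (K := K) (ε := ε) hω hs0 hs1 q2 hr2
    hk hK hε hδ hH hH' hΛ hkΛ hKΛ hHΛ hsΛ bd.Psa bd.Psb bd.S hlam
    (T.neg (by simpa [T] using er.E) hr0.le) bB sy.Psa sy.Psb sy.S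
    (fun p x => by rw [E_symm hV.revY sy DU, Matrix.mul_neg])
    (fun p x => by rw [zz_refl t.q sy.U, hV.revB]) hdet
  -- basic bounds
  have tE : T r Λ 0 ε (t.E V ω) := by simpa [T] using er.E
  have tR : T r Λ 0 ε (t.R V ω) := by simpa [T] using er.R
  have tF : T r Λ 0 ε t.F := by simpa [T] using er.F
  have tU : T r Λ 1 1 t.U := bd.U.toT hkΛ hr0.le
  have tPb : T r Λ 1 1 t.Pb := bd.Pb.toT hkΛ hr0.le
  have tPsa : T r Λ 1 1 t.Psa := bd.Psa.toT hkΛ hr0.le
  have tPsb : T r Λ 1 1 t.Psb := bd.Psb.toT hkΛ hr0.le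
  have tS : T r Λ 1 1 t.S := bd.S.toT hkΛ hr0.le
  have tB : T r Λ 1 1 (fun p x => V.Bq p (zz t.U t.q p x)) := bB.toT hKΛ hr0.le
  have tPa : T (r * s) Λ 2 1 (gd t.U) := tU.gd hs0 hs1 q1.le hsΛ hΛ zero_le_one
  have tgE : T (r * s) Λ 1 ε (gd (t.E V ω)) := tE.gd hs0 hs1 q1.le hsΛ hΛ hε
  have tdq : T (P := P) (r * s * s) Λ 21 ε (fun p _ => cq dq p) :=
    T.const (fun k _ => dq k) (fun i j => x5 i) (by linarith)
  have down : ∀ {m n : Type} {r1 r2 : ℝ} {a : ℕ} {e : ℝ} {X : P → ℝ × ℝ → Matrix m n ℝ},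
      T r1 Λ a e X → 0 ≤ r2 → r2 ≤ r1 → T r2 Λ a e X := fun h h1 h2 => h.mono h1 h2 le_rfl
  have trho : T (r * s * s) Λ 24 ε (fun p x => -t.E V ω p x + V.Bq p (zz t.U t.q p x) * cq dq p) :=
    (down (T.neg tE hr0.le) (by linarith) (by linarith)).add'
      ((down tB (by linarith) (by linarith)).mulL tdq q2.le hΛ hε (c := 23) (by norm_num))
      q2.le hΛ hε (by norm_num)
  -- the increment
  obtain ⟨Dl, hDl⟩ : ∃ Dl : P → ℝ × ℝ → Matrix (Fin 6) Unit ℝ,
    Dl = fun p x => gd t.U p x * xa p x + t.Pb p x * xb p x := ⟨_, rfl⟩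
  have tDl : T (r * s * s) Λ 41 ε Dl := by
    rw [hDl]
    exact ((down tPa (by linarith) l2).mulL x7 q2.le hΛ hε (c := 40) (by norm_num)).add'
      ((down tPb (by linarith) (by linarith)).mulL (down x6 (by linarith) l2) q2.le hΛ hε
        (c := 32) (by norm_num)) q2.le hΛ hε (by norm_num)
  have DPa : Df (gd t.U) := tPa.df q1
  have Dxa : Df xa := x7.df q2
  have Dxb : Df xb := x6.df q1
  have DDl : Df Dl := tDl.df q2
  have dDl : ∀ p x, dM ω Dl p x = V.A p (zz t.U t.q p x) * Dl p x + gd (t.E V ω) p x * xa p x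
      + t.R V ω p x * xb p x + (gd t.U p x * t.Psa p x + t.Pb p x * t.Psb p x)
        * (-t.E V ω p x + V.Bq p (zz t.U t.q p x) * cq dq p) := by
    intro p x
    have h0 : dM ω Dl p x = dM ω (gd t.U) p x * xa p x + gd t.U p x * dM ω xa p x
        + (dM ω t.Pb p x * xb p x + t.Pb p x * dM ω xb p x) := by
      rw [hDl, dM_add (DPa.mul Dxa) (DPb.mul Dxb), dM_mul DPa Dxa, dM_mul DPb Dxb]
    rw [h0, hDl]
    refine alg_delta (dPa_eq hV hr1 hrR hn0 bd.U p x) (D := dgm (dd t.lam) p) ?_ (x2 p x) (x1 p x)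
    unfold St.R; abel
  obtain ⟨U', hU'⟩ : ∃ U' : P → ℝ × ℝ → Matrix (Fin 6) Unit ℝ, U' = fun p x => t.U p x + Dl p x :=
    ⟨_, rfl⟩
  -- closeness
  have hcl2 : ∀ k, ‖dq k‖ ≤ Λ ^ 41 * ε := fun k => (x5 k).trans (hpow 21 41 (by norm_num))
  have hn2 : near (r * s * s) ρ U0 q0 t.U t.q := hn0.mono (by linarith) (by linarith) le_rfl
  have hn' : near (r * s * s) ρ U0 q0 U' (t.q + dq) := by
    constructor
    · intro i j
      have a1 := (hn.1 i j).mono (r' := r * s * s) (by linarith) (by linarith) le_rfl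
      have a2 := a1.add (tDl i j) (by linarith)
      refine (a2.congr (fun p x => ?_)).mono (by linarith) le_rfl ?_
      · rw [hU']
        simp only [Matrix.sub_apply, Matrix.add_apply]; ring
      · have := hpow 41 60 (by norm_num)
        linarith
    · intro k
      have a1 := hn.2 k
      have a2 := hcl2 k
      have a3 : (t.q + dq) k - q0 k = (t.q k - q0 k) + dq k := by
        rw [Pi.add_apply]; ring
      rw [a3]
      refine (norm_add_le _ _).trans ?_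
      have := hpow 41 60 (by norm_num)
      linarith
  have hle1 : Λ ^ 41 * ε ≤ 1 := (hpow 41 60 (by norm_num)).trans hsm
  -- Taylor remainder
  obtain ⟨Ta, hTa⟩ : ∃ Ta : P → ℝ × ℝ → Matrix (Fin 6) Unit ℝ, Ta = fun p x =>
      V.Y p (zz U' (t.q + dq) p x) - V.Y p (zz t.U t.q p x) - V.A p (zz t.U t.q p x) * Dl p x
        - V.Bq p (zz t.U t.q p x) * cq dq p := ⟨_, rfl⟩
  have tTa : T (r * s * s) Λ 83 (ε ^ 2) Ta := by
    have h1 := hV.l2 (r * s * s) t.U t.q Dl dq (Λ ^ 41 * ε) q2.le (by linarith) hn2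
      (by rw [hU'] at hn'; exact hn') tDl hcl2 hle1
    rw [hTa, hU']
    refine h1.mono (by linarith) le_rfl ?_
    calc K * (Λ ^ 41 * ε) ^ 2 ≤ Λ * (Λ ^ 41 * ε) ^ 2 := by gcongr
      _ = _ := by ring
  obtain ⟨A', hA'⟩ : ∃ A' : P → ℝ × ℝ → Matrix (Fin 6) (Fin 6) ℝ, A' = fun p x =>
      V.A p (zz U' (t.q + dq) p x) := ⟨_, rfl⟩
  have tA' : T (r * s * s) Λ 42 ε (fun p x => A' p x - V.A p (zz t.U t.q p x)) := by
    have h1 := hV.lA (r * s * s) t.U t.q Dl dq (Λ ^ 41 * ε) q2.le (by linarith) hn2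
      (by rw [hU'] at hn'; exact hn') tDl hcl2 hle1
    rw [hA', hU']
    refine h1.mono (by linarith) le_rfl ?_
    calc K * (Λ ^ 41 * ε) ≤ Λ * (Λ ^ 41 * ε) := by gcongr
      _ = _ := by ring
  -- Z
  have tKh : T (r * s * s * s) Λ 42 ε (gd Dl) := tDl.gd hs0 hs1 q3.le hsΛ hΛ hε
  obtain ⟨Z, hZ⟩ : ∃ Z : P → ℝ × ℝ → Matrix (Fin 6) (Fin 4) ℝ, Z = fun p x =>
      t.R V ω p x - (A' p x - V.A p (zz t.U t.q p x)) * t.Pb p x - gd Dl p x * t.S p x := ⟨_, rfl⟩
  have tZ : T (r * s * s * s) Λ 46 ε Z := by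
    rw [hZ]
    exact (((down tR (by linarith) (by linarith)).sub' ((down tA' (by linarith) l3).mulR
      (down tPb (by linarith) (by linarith)) q3.le hΛ hε (c := 44) (by norm_num)) q3.le hΛ hε
      (c := 45) (by norm_num))).sub' (tKh.mulR (down tS (by linarith) (by linarith)) q3.le hΛ hε
      (c := 44) (by norm_num)) q3.le hΛ hε (by norm_num)
  -- symmetries
  have sDl : ∀ p x, Dl p (-x) = Sg * Dl p x := by
    intro p x
    rw [hDl]
    simp only [gd_refl DU sy.U, x4, x3, sy.Pb, Matrix.neg_mul, Matrix.mul_neg, neg_neg,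
      Matrix.mul_assoc, PP, Matrix.mul_add]
  have sU' : ∀ p x, U' p (-x) = Sg * U' p x := by
    intro p x
    rw [hU']
    simp only [sDl, sy.U, Matrix.mul_add]
  have sKh : ∀ p x, gd Dl p (-x) = -(Sg * gd Dl p x) := gd_refl DDl sDl
  have sA : ∀ p x, V.A p (zz t.U t.q p (-x)) = -(Sg * V.A p (zz t.U t.q p x) * Sg) := by
    intro p x
    rw [zz_refl t.q sy.U, hV.revA]
  have sA' : ∀ p x, A' p (-x) = -(Sg * A' p x * Sg) := by
    intro p x
    rw [hA']
    simp only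
    rw [zz_refl _ sU', hV.revA]
  have sR := R_symm (ω := ω) hV.revA sy DU DPb
  have sF := F_symm sy DU
  have sZ : ∀ p x, Z p (-x) = -(Sg * Z p x * Pi4) := by
    intro p x
    rw [hZ]
    simp only [sR, sA', sA, sy.Pb, sKh, sy.S, Matrix.mul_assoc, Matrix.neg_mul, Matrix.mul_neg, SS,
      Matrix.mul_sub, Matrix.sub_mul]
    abel
  -- the correction of the frame
  have tf : T (r * s * s * s) Λ 48 ε (fun p x => -(t.Psb p x * Z p x)) :=
    T.neg ((down tPsb (by linarith) (by linarith)).mulL tZ q3.le hΛ hε (by norm_num)) (by linarith)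
  have hsymf : ∀ p x, Pi4 * ((fun p x => -(t.Psb p x * Z p x)) p (-x)) * Pi4
      = -(fun p x => -(t.Psb p x * Z p x)) p x := by
    intro p x
    simp only [sy.Psb, sZ, Matrix.mul_neg, Matrix.neg_mul, neg_neg]
    simp only [Matrix.mul_assoc, PP, SS, Pi4_sq, Matrix.mul_one]
  obtain ⟨c, Q, c1, c2, c3, c4, c5⟩ := symsolve hω q3 (by positivity) tf (dd t.lam) (dd t.lam)
    hδ (hd2 hlam hδ) hH hH' Pi4 Pi4 Pi4_le Pi4_le Pi4_sq Pi4_sq (Pi4_dd t.lam)
    (dd_Pi4 t.lam) hsymf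
  obtain ⟨ld, hld⟩ : ∃ ld : C(P, ℝ), ld = (1 / 2 : ℝ) • (c 3 3 - c 2 2) := ⟨_, rfl⟩
  have nld : ‖ld‖ ≤ Λ ^ 48 * ε := by
    rw [hld, norm_smul, Real.norm_eq_abs, abs_of_pos (by norm_num : (0 : ℝ) < 1 / 2)]
    have h1 := norm_sub_le (c 3 3) (c 2 2)
    have h2 := c1 3 3
    have h3 := c1 2 2
    linarith
  have dQ : ∀ p x, dM ω Q p x = -(t.Psb p x * Z p x) + dgm (dd ld) p - dgm (dd t.lam) p * Q p x
      + Q p x * dgm (dd t.lam) p := by
    intro p x
    have h1 := c3 p x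
    rw [cconst hlam hδ c2 p, ← hld] at h1
    rw [← h1]; abel
  have tQ : T (r * s * s * s * s) Λ 52 ε Q := by
    have h1 := c5 s hs0 hs1 hr4.le
    refine h1.mono (by linarith) le_rfl ?_
    have h1s : 0 < 1 - s := by linarith
    have h2 : 0 ≤ 1 / (1 - s) := by positivity
    have h3 : H / (1 - s) = H * (1 / (1 - s)) := by ring
    have h36 : (36 : ℝ) ≤ Λ * Λ := by nlinarith
    rw [h3]
    have hH0 : 0 ≤ H := (by positivity : (0 : ℝ) ≤ 1 / δ).trans hH'
    have key : ∀ v : ℝ, 0 ≤ v → 36 * (H * (1 / (1 - s)) * v) ≤ Λ * Λ * (Λ * Λ * v) := by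
      intro v hv
      gcongr
    refine (key (Λ ^ 48 * ε) (mul_nonneg (pow_nonneg hΛ0 48) hε)).trans (le_of_eq ?_)
    ring
  have sQ : ∀ p x, Q p (-x) = Pi4 * Q p x * Pi4 := by
    intro p x
    have h1 := c4 p x
    rw [← h1]
    simp only [Matrix.mul_assoc, PP, Pi4_sq, Matrix.mul_one]
  have DQ : Df Q := tQ.df hr4
  -- new objects
  obtain ⟨F1, hF1⟩ : ∃ F1 : P → ℝ × ℝ → Matrix (Fin 6) (Fin 6) ℝ, F1 = fun p x =>
      t.F p x + (gd Dl p x * t.Psa p x + t.Pb p x * Q p x * t.Psb p x) := ⟨_, rfl⟩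
  have z4 : (0 : ℝ) ≤ r * s * s * s * s := by linarith
  have tPbQ : T (r * s * s * s * s) Λ 54 ε (fun p x => t.Pb p x * Q p x) :=
    (down tPb z4 (by linarith)).mulL tQ hr4.le hΛ hε (by norm_num)
  have tF1 : T (r * s * s * s * s) Λ 58 ε F1 := by
    rw [hF1]
    exact (down tF z4 (by linarith)).add' (((down tKh z4 l4).mulR (down tPsa z4 (by linarith))
      hr4.le hΛ hε (c := 44) (by norm_num)).add' (tPbQ.mulR (down tPsb z4 (by linarith))
      hr4.le hΛ hε (c := 56) (by norm_num)) hr4.le hΛ hε (c := 57) (by norm_num)) hr4.le hΛ hε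
      (by norm_num)
  have sF1 : ∀ p x, F1 p (-x) = Sg * F1 p x * Sg := by
    intro p x
    rw [hF1]
    simp only [sF, sKh, sy.Psa, sy.Psb, sy.Pb, sQ, Matrix.neg_mul, Matrix.mul_neg, neg_neg,
      Matrix.mul_assoc, PP, Matrix.mul_add, Matrix.add_mul]
  have tS' : T (r * s * s * s * s) Λ 56 ε (fun p x => t.S p x * Q p x + t.Psa p x * Z p x) :=
    ((down tS z4 (by linarith)).mulL tQ hr4.le hΛ hε (c := 54) (by norm_num)).add'
      ((down tPsa z4 (by linarith)).mulL (down tZ z4 l4) hr4.le hΛ hε (c := 48) (by norm_num))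
      hr4.le hΛ hε (by norm_num)
  refine ⟨⟨U', fun p x => t.Pb p x + t.Pb p x * Q p x, fun p x => t.Psa p x - t.Psa p x * F1 p x,
    fun p x => t.Psb p x - t.Psb p x * F1 p x,
    fun p x => t.S p x + (t.S p x * Q p x + t.Psa p x * Z p x), t.q + dq, t.lam + ld⟩,
    ⟨?_, ?_, ?_, ?_, ?_⟩, ⟨?_, ?_, ?_, ?_, ?_, ?_, ?_⟩, ⟨?_, ?_, ?_⟩⟩
  · exact sU'
  · intro p x
    simp only [sy.Pb, sQ, Matrix.mul_assoc, PP, Matrix.mul_add, Matrix.add_mul]
  · intro p x
    simp only [sy.Psa, sF1, Matrix.neg_mul, Matrix.mul_assoc, SS, Matrix.sub_mul]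
    abel
  · intro p x
    simp only [sy.Psb, sF1, Matrix.mul_assoc, SS, Matrix.sub_mul, Matrix.mul_sub]
  · intro p x
    simp only [sy.S, sQ, sy.Psa, sZ, Matrix.mul_assoc, SS, PP, Matrix.neg_mul, Matrix.mul_neg,
      neg_neg, Matrix.add_mul]
  · refine (down tDl z4 (by linarith)).congr (fun p x => ?_) |>.mono z4 le_rfl
      (hpow 41 60 (by norm_num))
    rw [hU']
    dsimp only
    abel
  · refine tPbQ.congr (fun p x => ?_) |>.mono z4 le_rfl (hpow 54 60 (by norm_num))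
    dsimp only
    abel
  · refine (T.neg ((down tPsa z4 (by linarith)).mulL tF1 hr4.le hΛ hε (c := 60) (by norm_num))
      z4).congr (fun p x => ?_)
    dsimp only
    abel
  · refine (T.neg ((down tPsb z4 (by linarith)).mulL tF1 hr4.le hΛ hε (c := 60) (by norm_num))
      z4).congr (fun p x => ?_)
    dsimp only
    abel
  · refine tS'.congr (fun p x => ?_) |>.mono z4 le_rfl (hpow 56 60 (by norm_num))
    dsimp only
    abel
  · intro i
    have : (t.q + dq) i - t.q i = dq i := by rw [Pi.add_apply]; ring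
    simp only [this]
    exact (x5 i).trans (hpow 21 60 (by norm_num))
  · simp only [add_sub_cancel_left]
    exact nld.trans (hpow 48 60 (by norm_num))
  · -- new E
    have e1 : ∀ p x, dM ω U' p x - V.Y p (zz U' (t.q + dq) p x) = gd (t.E V ω) p x * xa p x
        + t.R V ω p x * xb p x
        + t.F p x * (-t.E V ω p x + V.Bq p (zz t.U t.q p x) * cq dq p) - Ta p x := by
      intro p x
      have h1 : dM ω U' p x = dM ω t.U p x + dM ω Dl p x := by rw [hU']; exact dM_add DU DDl ω p x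
      rw [h1, dDl, hTa]
      have h2 : gd t.U p x * t.Psa p x + t.Pb p x * t.Psb p x = t.F p x + 1 := by
        unfold St.F; abel
      rw [h2, Matrix.add_mul, Matrix.one_mul]
      have h3 : t.E V ω p x = dM ω t.U p x - V.Y p (zz t.U t.q p x) := rfl
      dsimp only
      have h4 : dM ω t.U p x = t.E V ω p x + V.Y p (zz t.U t.q p x) := by rw [h3]; abel
      rw [h4]
      abel
    have t1 : T (r * s * s) Λ 39 (ε ^ 2) (fun p x => gd (t.E V ω) p x * xa p x) :=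
      (down tgE (by linarith) l2).mulE x7 q2.le hΛ hε (by norm_num)
    have t2 : T (r * s * s) Λ 31 (ε ^ 2) (fun p x => t.R V ω p x * xb p x) :=
      (down tR (by linarith) (by linarith)).mulE (down x6 (by linarith) l2) q2.le hΛ hε (by norm_num)
    have t3 : T (r * s * s) Λ 25 (ε ^ 2) (fun p x =>
        t.F p x * (-t.E V ω p x + V.Bq p (zz t.U t.q p x) * cq dq p)) :=
      (down tF (by linarith) (by linarith)).mulE trho q2.le hΛ hε (by norm_num)
    have hε2 : 0 ≤ ε ^ 2 := by positivity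
    have t4 : T (r * s * s) Λ 84 (ε ^ 2) (fun p x => dM ω U' p x - V.Y p (zz U' (t.q + dq) p x)) := by
      refine T.congr ?_ (fun p x => (e1 p x).symm)
      exact ((t1.add' t2 q2.le hΛ hε2 (c := 40) (by norm_num)).add' t3 q2.le hΛ hε2 (c := 41)
        (by norm_num)).sub' tTa q2.le hΛ hε2 (by norm_num)
    exact (t4.up hΛ hr4.le (by linarith) hε2 (by norm_num) le_rfl)
  · -- new R
    have e1 : ∀ p x, dM ω (fun p x => t.Pb p x + t.Pb p x * Q p x) p x
        - V.A p (zz U' (t.q + dq) p x) * (t.Pb p x + t.Pb p x * Q p x)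
        - gd U' p x * (t.S p x + (t.S p x * Q p x + t.Psa p x * Z p x))
        - (t.Pb p x + t.Pb p x * Q p x) * dgm (dd (t.lam + ld)) p
        = Z p x * Q p x - t.F p x * Z p x - gd Dl p x * (t.Psa p x * Z p x)
          - t.Pb p x * Q p x * dgm (dd ld) p := by
      intro p x
      have h1 : dM ω (fun p x => t.Pb p x + t.Pb p x * Q p x) p x
          = dM ω t.Pb p x + (dM ω t.Pb p x * Q p x + t.Pb p x * dM ω Q p x) := by
        rw [dM_add DPb (DPb.mul DQ), dM_mul DPb DQ]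
      have h2 : gd U' p x = gd t.U p x + gd Dl p x := by rw [hU']; exact gd_add DU DDl p x
      rw [h1, h2, dgm_sub_eq]
      have h3 := alg_R (A := V.A p (zz t.U t.q p x)) (A' := A' p x) (Pa := gd t.U p x)
        (K := gd Dl p x) (Pb := t.Pb p x) (R := t.R V ω p x) (dPb := dM ω t.Pb p x) (Z := Z p x)
        (S := t.S p x) (D := dgm (dd t.lam) p) (Dd := dgm (dd ld) p) (Q := Q p x)
        (dQ := dM ω Q p x) (Psa := t.Psa p x) (Psb := t.Psb p x)
        (by unfold St.R; abel) (by rw [hZ]) (dQ p x)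
      rw [hA'] at h3
      exact h3
    have hε2 : 0 ≤ ε ^ 2 := by positivity
    have tZ4 := down tZ z4 l4
    have tld : T (P := P) (r * s * s * s * s) Λ 49 ε (fun p _ => dgm (dd ld) p) := by
      intro i j
      have hsg : |sg i| ≤ 1 := by fin_cases i <;> simp [sg]
      by_cases h : i = j
      · subst h
        refine ((B.const (dd ld i)).mono z4 le_rfl ?_ : B (r * s * s * s * s) (Λ ^ 49 * ε)
          (fun p _ => dd ld i p)).congr (fun p x => by simp [dgm])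
        simp only [dd]
        rw [norm_smul, Real.norm_eq_abs]
        calc |sg i| * ‖ld‖ ≤ 1 * (Λ ^ 48 * ε) :=
              mul_le_mul hsg nld (norm_nonneg _) zero_le_one
          _ ≤ Λ ^ 49 * ε := by rw [one_mul]; exact hpow 48 49 (by norm_num)
      · refine (B.zero.mono z4 le_rfl (mul_nonneg (pow_nonneg hΛ0 49) hε) : B (r * s * s * s * s) (Λ ^ 49 * ε)
          (fun (_ : P) _ => (0 : ℝ))).congr (fun p x => by simp [dgm, h])
    have t1 : T (r * s * s * s * s) Λ 99 (ε ^ 2) (fun p x => Z p x * Q p x) :=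
      tZ4.mulE tQ hr4.le hΛ hε (by norm_num)
    have t2 : T (r * s * s * s * s) Λ 47 (ε ^ 2) (fun p x => t.F p x * Z p x) :=
      (down tF z4 (by linarith)).mulE tZ4 hr4.le hΛ hε (by norm_num)
    have t3 : T (r * s * s * s * s) Λ 91 (ε ^ 2) (fun p x => gd Dl p x * (t.Psa p x * Z p x)) :=
      (down tKh z4 l4).mulE ((down tPsa z4 (by linarith)).mulL tZ4 hr4.le hΛ hε (c := 48)
        (by norm_num)) hr4.le hΛ hε (by norm_num)
    have t4 : T (r * s * s * s * s) Λ 104 (ε ^ 2) (fun p x => t.Pb p x * Q p x * dgm (dd ld) p) :=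
      tPbQ.mulE tld hr4.le hΛ hε (by norm_num)
    have t5 : T (r * s * s * s * s) Λ 105 (ε ^ 2) (fun p x => Z p x * Q p x - t.F p x * Z p x
        - gd Dl p x * (t.Psa p x * Z p x) - t.Pb p x * Q p x * dgm (dd ld) p) :=
      ((t1.sub' t2 hr4.le hΛ hε2 (c := 100) (by norm_num)).sub' t3 hr4.le hΛ hε2 (c := 101)
        (by norm_num)).sub' t4 hr4.le hΛ hε2 (by norm_num)
    exact ((t5.congr (fun p x => (e1 p x).symm)).up hΛ hr4.le le_rfl hε2 (by norm_num) le_rfl)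
  · -- new F
    have e1 : ∀ p x, gd U' p x * (t.Psa p x - t.Psa p x * F1 p x)
        + (t.Pb p x + t.Pb p x * Q p x) * (t.Psb p x - t.Psb p x * F1 p x) - 1
        = -(F1 p x * F1 p x) := by
      intro p x
      have h2 : gd U' p x = gd t.U p x + gd Dl p x := by rw [hU']; exact gd_add DU DDl p x
      rw [h2]
      exact alg_F (F := t.F p x) rfl (by rw [hF1])
    have t0 : T (r * s * s * s * s) Λ 117 (ε ^ 2) (fun p x => F1 p x * F1 p x) :=
      tF1.mulE tF1 hr4.le hΛ hε (by norm_num)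
    have t1 : T (r * s * s * s * s) Λ 117 (ε ^ 2) (fun p x => -(F1 p x * F1 p x)) := T.neg t0 z4
    have hε2 : 0 ≤ ε ^ 2 := by positivity
    exact ((t1.congr (fun p x => (e1 p x).symm)).up hΛ hr4.le le_rfl hε2 (by norm_num) le_rfl)

end Run7.h800
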