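import Pool.Agent.Run7.h800.Pser

set_option autoImplicit false
set_option linter.unusedSectionVars false

/-!
# Tame nonlinear functions
-/

namespace Run7.h800

open Filter Topology

variable {P : Type*} [TopologicalSpace P] [CompactSpace P]
variable {J : Type*} [Fintype J] [DecidableEq J]

/-- coordinate functions near the base -/
def nrz (r ρ : ℝ) (z0 z : J → P → ℝ × ℝ → ℝ) : Prop :=
  ∀ j, B r ρ (fun p x => z j p x - z0 j p x)

/-- partial derivative in the phase variables -/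
noncomputable def Dj (φ : P → (J → ℝ) → ℝ) (j : J) (p : P) (z : J → ℝ) : ℝ :=
  fderiv ℝ (φ p) z (Pi.single j 1)

/-- tame functions near the base -/
structure Tm (ρ K : ℝ) (z0 : J → P → ℝ × ℝ → ℝ) (φ : P → (J → ℝ) → ℝ) : Prop where
  K0 : 0 ≤ K
  hd : ∀ p x (z : J → ℝ), (∀ j, |z j - z0 j p x| ≤ ρ) → DifferentiableAt ℝ (φ p) z
  b0 : ∀ r z, 1 ≤ r → r ≤ 4 → nrz r ρ z0 z → B r K (fun p x => φ p (fun j => z j p x))
  b1 : ∀ r z, 1 ≤ r → r ≤ 4 → nrz r ρ z0 z → ∀ j, B r K (fun p x => Dj φ j p (fun j => z j p x))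
  l1 : ∀ (r : ℝ) (z m : J → P → ℝ × ℝ → ℝ) (δ : ℝ), 1 ≤ r → r ≤ 4 → nrz r ρ z0 z → nrz r ρ z0 (fun j p x => z j p x + m j p x) →
    (∀ j, B r δ (m j)) → δ ≤ 1 → ∀ j, B r (K * δ) (fun p x =>
      Dj φ j p (fun j => z j p x + m j p x) - Dj φ j p (fun j => z j p x))
  l2 : ∀ (r : ℝ) (z m : J → P → ℝ × ℝ → ℝ) (δ : ℝ), 1 ≤ r → r ≤ 4 → nrz r ρ z0 z → nrz r ρ z0 (fun j p x => z j p x + m j p x) →
    (∀ j, B r δ (m j)) → δ ≤ 1 → B r (K * δ ^ 2) (fun p x =>
      φ p (fun j => z j p x + m j p x) - φ p (fun j => z j p x)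
        - ∑ j, Dj φ j p (fun j => z j p x) * m j p x)

lemma nrz.pt {r ρ : ℝ} {z0 z : J → P → ℝ × ℝ → ℝ} (h : nrz r ρ z0 z) (hr : 1 ≤ r) (p : P)
    (x : ℝ × ℝ) : ∀ j, |z j p x - z0 j p x| ≤ ρ := fun j => (h j).norm_le hr p x

lemma Tm.mono {ρ K K' : ℝ} {z0 : J → P → ℝ × ℝ → ℝ} {φ : P → (J → ℝ) → ℝ} (h : Tm ρ K z0 φ)
    (hK : K ≤ K') : Tm ρ K' z0 φ where
  K0 := h.K0.trans hK
  hd := h.hd
  b0 := fun r z h1 h2 h3 => (h.b0 r z h1 h2 h3).mono (by linarith) le_rfl hK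
  b1 := fun r z h1 h2 h3 j => (h.b1 r z h1 h2 h3 j).mono (by linarith) le_rfl hK
  l1 := fun r z m δ h1 h2 h3 h4 h5 h6 j => by
    have hδ := (h5 j).nonneg (by linarith)
    exact (h.l1 r z m δ h1 h2 h3 h4 h5 h6 j).mono (by linarith) le_rfl (by gcongr)
  l2 := fun r z m δ h1 h2 h3 h4 h5 h6 =>
    (h.l2 r z m δ h1 h2 h3 h4 h5 h6).mono (by linarith) le_rfl (by gcongr)

lemma Tm.const {ρ K : ℝ} {z0 : J → P → ℝ × ℝ → ℝ} (c : C(P, ℝ)) (hc : ‖c‖ ≤ K) :
    Tm ρ K z0 (fun p _ => c p) := by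
  have hK : 0 ≤ K := (norm_nonneg _).trans hc
  have hD : ∀ j p z, Dj (fun p (_ : J → ℝ) => c p) j p z = 0 := by
    intro j p z
    unfold Dj
    simp
  refine ⟨hK, fun p x z _ => differentiableAt_const _, ?_, ?_, ?_, ?_⟩
  · intro r z h1 h2 h3
    exact (B.const c).mono (by linarith) le_rfl hc
  · intro r z h1 h2 h3 j
    simp only [hD]
    exact B.zero.mono (by linarith) le_rfl hK
  · intro r z m δ h1 h2 h3 h4 h5 h6 j
    have hδ := (h5 j).nonneg (by linarith)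
    simp only [hD, sub_zero]
    exact B.zero.mono (by linarith) le_rfl (by positivity)
  · intro r z m δ h1 h2 h3 h4 h5 h6
    simp only [hD, sub_self, zero_mul, Finset.sum_const_zero]
    exact B.zero.mono (by linarith) le_rfl (by positivity)

lemma Tm.coord {ρ K : ℝ} {z0 : J → P → ℝ × ℝ → ℝ} (i : J) {k : ℝ} (hk : B 4 k (z0 i))
    (hK : k + ρ ≤ K) (hK1 : 1 ≤ K) : Tm ρ K z0 (fun _ z => z i) := by
  have hD : ∀ j p z, Dj (P := P) (fun _ (z : J → ℝ) => z i) j p z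
      = (if i = j then 1 else 0 : ℝ) := by
    intro j p z
    unfold Dj
    have h1 : HasFDerivAt (fun z : J → ℝ => z i) (ContinuousLinearMap.proj (R := ℝ) i) z :=
      (ContinuousLinearMap.proj (R := ℝ) (φ := fun _ : J => ℝ) i).hasFDerivAt
    rw [h1.fderiv]
    simp only [ContinuousLinearMap.proj_apply, Pi.single_apply]
  refine ⟨by linarith, fun p x z _ => differentiableAt_apply i z, ?_, ?_, ?_, ?_⟩
  · intro r z h1 h2 h3
    have h4 := (h3 i).add (hk.mono (r' := r) (by linarith) h2 le_rfl) (by linarith)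
    refine (h4.congr (fun p x => by ring)).mono (by linarith) le_rfl (by linarith)
  · intro r z h1 h2 h3 j
    simp only [hD]
    split_ifs
    · refine (B.rconst 1).mono (by linarith) le_rfl (by simpa using hK1)
    · exact B.zero.mono (by linarith) le_rfl (by linarith)
  · intro r z m δ h1 h2 h3 h4 h5 h6 j
    have hδ := (h5 j).nonneg (by linarith)
    simp only [hD, sub_self]
    exact B.zero.mono (by linarith) le_rfl (by positivity)
  · intro r z m δ h1 h2 h3 h4 h5 h6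
    have e : ∀ p x, (z i p x + m i p x) - z i p x
        - ∑ j, Dj (P := P) (fun _ (z : J → ℝ) => z i) j p (fun j => z j p x) * m j p x = 0 := by
      intro p x
      simp only [hD, ite_mul, one_mul, zero_mul, Finset.sum_ite_eq, Finset.mem_univ, if_true]
      ring
    refine (B.zero.congr (fun p x => (e p x).symm)).mono (by linarith) le_rfl (by positivity)

lemma B.sum_card {r M : ℝ} {f : J → P → ℝ × ℝ → ℝ} (h : ∀ j, B r M (f j)) (hr : 0 ≤ r) :
    B r (Fintype.card J * M) (fun p x => ∑ j, f j p x) := by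
  refine (B.sum Finset.univ (fun j _ => h j) hr).mono hr le_rfl ?_
  rw [Finset.sum_const, Finset.card_univ, nsmul_eq_mul]

/-- Lipschitz bound -/
lemma Tm.lip {ρ K : ℝ} {z0 : J → P → ℝ × ℝ → ℝ} {φ : P → (J → ℝ) → ℝ} (h : Tm ρ K z0 φ)
    {r δ : ℝ} {z m : J → P → ℝ × ℝ → ℝ} (h1 : 1 ≤ r) (h2 : r ≤ 4) (h3 : nrz r ρ z0 z)
    (h4 : nrz r ρ z0 (fun j p x => z j p x + m j p x)) (h5 : ∀ j, B r δ (m j)) (h6 : δ ≤ 1)
    (hδ : 0 ≤ δ) :
    B r ((Fintype.card J + 1) * K * δ) (fun p x =>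
      φ p (fun j => z j p x + m j p x) - φ p (fun j => z j p x)) ∧
    B r (Fintype.card J * (K * δ)) (fun p x => ∑ j, Dj φ j p (fun j => z j p x) * m j p x) := by
  have a1 := h.l2 r z m δ h1 h2 h3 h4 h5 h6
  have a2 : B r (Fintype.card J * (K * δ))
      (fun p x => ∑ j, Dj φ j p (fun j => z j p x) * m j p x) :=
    B.sum_card (fun j => (h.b1 r z h1 h2 h3 j).mul (h5 j) h1) (by linarith)
  refine ⟨((a1.add a2 (by linarith)).congr (fun p x => by ring)).mono (by linarith) le_rfl ?_, a2⟩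
  have hK := h.K0
  have : K * δ ^ 2 ≤ K * δ := by
    have : δ ^ 2 ≤ δ := by nlinarith
    gcongr
  nlinarith

lemma Dj_add {φ ψ : P → (J → ℝ) → ℝ} {p : P} {z : J → ℝ} (h1 : DifferentiableAt ℝ (φ p) z)
    (h2 : DifferentiableAt ℝ (ψ p) z) (j : J) :
    Dj (fun p z => φ p z + ψ p z) j p z = Dj φ j p z + Dj ψ j p z := by
  unfold Dj
  have := (h1.hasFDerivAt.add h2.hasFDerivAt).fderiv
  change fderiv ℝ (φ p + ψ p) z (Pi.single j 1) = _
  rw [this]; rfl

lemma Dj_mul {φ ψ : P → (J → ℝ) → ℝ} {p : P} {z : J → ℝ} (h1 : DifferentiableAt ℝ (φ p) z)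
    (h2 : DifferentiableAt ℝ (ψ p) z) (j : J) :
    Dj (fun p z => φ p z * ψ p z) j p z = Dj φ j p z * ψ p z + φ p z * Dj ψ j p z := by
  unfold Dj
  have := (h1.hasFDerivAt.mul h2.hasFDerivAt).fderiv
  change fderiv ℝ (φ p * ψ p) z (Pi.single j 1) = _
  rw [this]
  simp only [_root_.add_apply, _root_.smul_apply, smul_eq_mul]
  ring

lemma Tm.add {ρ K1 K2 : ℝ} {z0 : J → P → ℝ × ℝ → ℝ} {φ ψ : P → (J → ℝ) → ℝ} (h : Tm ρ K1 z0 φ)
    (g : Tm ρ K2 z0 ψ) : Tm ρ (K1 + K2) z0 (fun p z => φ p z + ψ p z) := by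
  have hK := h.K0
  have gK := g.K0
  have hD : ∀ {r : ℝ} {z : J → P → ℝ × ℝ → ℝ}, nrz r ρ z0 z → 1 ≤ r → ∀ j p x,
      Dj (fun p z => φ p z + ψ p z) j p (fun j => z j p x)
        = Dj φ j p (fun j => z j p x) + Dj ψ j p (fun j => z j p x) := by
    intro r z hz hr j p x
    exact Dj_add (h.hd p x _ (hz.pt hr p x)) (g.hd p x _ (hz.pt hr p x)) j
  refine ⟨by linarith, fun p x z hz => (h.hd p x z hz).add (g.hd p x z hz), ?_, ?_, ?_, ?_⟩
  · intro r z h1 h2 h3
    exact (h.b0 r z h1 h2 h3).add (g.b0 r z h1 h2 h3) (by linarith)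
  · intro r z h1 h2 h3 j
    exact ((h.b1 r z h1 h2 h3 j).add (g.b1 r z h1 h2 h3 j) (by linarith)).congr
      (fun p x => (hD h3 h1 j p x).symm)
  · intro r z m δ h1 h2 h3 h4 h5 h6 j
    have := (h.l1 r z m δ h1 h2 h3 h4 h5 h6 j).add (g.l1 r z m δ h1 h2 h3 h4 h5 h6 j) (by linarith)
    refine (this.congr (fun p x => ?_)).mono (by linarith) le_rfl (by rw [add_mul])
    rw [hD h3 h1 j p x, hD h4 h1 j p x]; ring
  · intro r z m δ h1 h2 h3 h4 h5 h6
    have := (h.l2 r z m δ h1 h2 h3 h4 h5 h6).add (g.l2 r z m δ h1 h2 h3 h4 h5 h6) (by linarith)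
    refine (this.congr (fun p x => ?_)).mono (by linarith) le_rfl (by rw [add_mul])
    have : ∑ j, Dj (fun p z => φ p z + ψ p z) j p (fun j => z j p x) * m j p x
        = ∑ j, Dj φ j p (fun j => z j p x) * m j p x + ∑ j, Dj ψ j p (fun j => z j p x) * m j p x := by
      rw [← Finset.sum_add_distrib]
      refine Finset.sum_congr rfl (fun j _ => ?_)
      rw [hD h3 h1 j p x]; ring
    rw [this]; ring

/-- the constant in the product rule -/
noncomputable def cJ (J : Type*) [Fintype J] : ℝ := 6 * ((Fintype.card J : ℝ) + 1) ^ 2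

lemma cJ_pos : 6 ≤ cJ J := by
  unfold cJ
  have : (0 : ℝ) ≤ Fintype.card J := by positivity
  nlinarith

lemma Tm.mul {ρ K1 K2 : ℝ} {z0 : J → P → ℝ × ℝ → ℝ} {φ ψ : P → (J → ℝ) → ℝ} [Nonempty J]
    (h : Tm ρ K1 z0 φ) (g : Tm ρ K2 z0 ψ) :
    Tm ρ (cJ J * (K1 * K2)) z0 (fun p z => φ p z * ψ p z) := by
  have hK := h.K0
  have gK := g.K0
  have hn : (0 : ℝ) ≤ Fintype.card J := by positivity
  have hKK : 0 ≤ K1 * K2 := by positivity
  have hc := cJ_pos (J := J)
  have hD : ∀ {r : ℝ} {z : J → P → ℝ × ℝ → ℝ}, nrz r ρ z0 z → 1 ≤ r → ∀ j p x,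
      Dj (fun p z => φ p z * ψ p z) j p (fun j => z j p x)
        = Dj φ j p (fun j => z j p x) * ψ p (fun j => z j p x)
          + φ p (fun j => z j p x) * Dj ψ j p (fun j => z j p x) := by
    intro r z hz hr j p x
    exact Dj_mul (h.hd p x _ (hz.pt hr p x)) (g.hd p x _ (hz.pt hr p x)) j
  refine ⟨by positivity, fun p x z hz => (h.hd p x z hz).mul (g.hd p x z hz), ?_, ?_, ?_, ?_⟩
  · intro r z h1 h2 h3
    exact ((h.b0 r z h1 h2 h3).mul (g.b0 r z h1 h2 h3) h1).mono (by linarith) le_rfl (by nlinarith)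
  · intro r z h1 h2 h3 j
    have := ((h.b1 r z h1 h2 h3 j).mul (g.b0 r z h1 h2 h3) h1).add
      ((h.b0 r z h1 h2 h3).mul (g.b1 r z h1 h2 h3 j) h1) (by linarith)
    exact (this.congr (fun p x => (hD h3 h1 j p x).symm)).mono (by linarith) le_rfl (by nlinarith)
  · intro r z m δ h1 h2 h3 h4 h5 h6 j
    have hδ := (h5 j).nonneg (by linarith)
    obtain ⟨lh, _⟩ := h.lip h1 h2 h3 h4 h5 h6 hδ
    obtain ⟨lg, _⟩ := g.lip h1 h2 h3 h4 h5 h6 hδ
    have e1 := (h.l1 r z m δ h1 h2 h3 h4 h5 h6 j).mul (g.b0 r _ h1 h2 h4) h1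
    have e2 := (h.b1 r z h1 h2 h3 j).mul lg h1
    have e3 := lh.mul (g.b1 r _ h1 h2 h4 j) h1
    have e4 := (h.b0 r z h1 h2 h3).mul (g.l1 r z m δ h1 h2 h3 h4 h5 h6 j) h1
    have e5 := ((e1.add e2 (by linarith)).add (e3.add e4 (by linarith)) (by linarith))
    refine (e5.congr (fun p x => ?_)).mono (by linarith) le_rfl ?_
    · rw [hD h3 h1 j p x, hD h4 h1 j p x]; ring
    · have hKδ : 0 ≤ K1 * K2 * δ := by positivity
      have e6 : K1 * δ * K2 + K1 * ((Fintype.card J + 1) * K2 * δ)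
          + ((Fintype.card J + 1) * K1 * δ * K2 + K1 * (K2 * δ))
          = (2 + 2 * (Fintype.card J + 1)) * (K1 * K2 * δ) := by ring
      rw [e6]
      have e7 : (2 + 2 * ((Fintype.card J : ℝ) + 1)) ≤ cJ J := by unfold cJ; nlinarith
      calc _ ≤ cJ J * (K1 * K2 * δ) := by gcongr
        _ = _ := by ring
  · intro r z m δ h1 h2 h3 h4 h5 h6
    obtain ⟨j0⟩ := (inferInstance : Nonempty J)
    have hδ := (h5 j0).nonneg (by linarith)
    obtain ⟨lh, dh⟩ := h.lip h1 h2 h3 h4 h5 h6 hδ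
    obtain ⟨lg, dg⟩ := g.lip h1 h2 h3 h4 h5 h6 hδ
    have e1 := (h.l2 r z m δ h1 h2 h3 h4 h5 h6).mul (g.b0 r _ h1 h2 h4) h1
    have e2 := dh.mul lg h1
    have e3 := (h.b0 r z h1 h2 h3).mul (g.l2 r z m δ h1 h2 h3 h4 h5 h6) h1
    have e5 := ((e1.add e2 (by linarith)).add e3 (by linarith))
    refine (e5.congr (fun p x => ?_)).mono (by linarith) le_rfl ?_
    · have : ∑ j, Dj (fun p z => φ p z * ψ p z) j p (fun j => z j p x) * m j p x
          = (∑ j, Dj φ j p (fun j => z j p x) * m j p x) * ψ p (fun j => z j p x)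
            + φ p (fun j => z j p x) * ∑ j, Dj ψ j p (fun j => z j p x) * m j p x := by
        rw [Finset.sum_mul, Finset.mul_sum, ← Finset.sum_add_distrib]
        refine Finset.sum_congr rfl (fun j _ => ?_)
        rw [hD h3 h1 j p x]; ring
      rw [this]; ring
    · have hKδ : 0 ≤ K1 * K2 * δ ^ 2 := by positivity
      have e6 : K1 * δ ^ 2 * K2 + Fintype.card J * (K1 * δ) * ((Fintype.card J + 1) * K2 * δ)
          + K1 * (K2 * δ ^ 2)
          = (2 + Fintype.card J * (Fintype.card J + 1)) * (K1 * K2 * δ ^ 2) := by ring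
      rw [e6]
      have e7 : (2 + (Fintype.card J : ℝ) * ((Fintype.card J : ℝ) + 1)) ≤ cJ J := by
        unfold cJ; nlinarith
      calc _ ≤ cJ J * (K1 * K2 * δ ^ 2) := by gcongr
        _ = _ := by ring

/-- a tame function with small bound is pointwise small near the base -/
lemma Tm.pt {ρ K q : ℝ} {z0 : J → P → ℝ × ℝ → ℝ} {φ : P → (J → ℝ) → ℝ} [Nonempty P]
    (h : Tm ρ K z0 φ)
    (hq : ∀ r z, 1 ≤ r → r ≤ 4 → nrz r ρ z0 z → B r q (fun p x => φ p (fun j => z j p x)))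
    {p : P} {x : ℝ × ℝ} {z : J → ℝ} (hz : ∀ j, |z j - z0 j p x| ≤ ρ) : |φ p z| ≤ q := by
  have h1 : nrz 1 ρ z0 (fun j p' x' => z0 j p' x' + (z j - z0 j p x)) := by
    intro j
    refine ((B.rconst (P := P) (r := 1) (z j - z0 j p x)).congr (fun p' x' => ?_)).mono zero_le_one
      le_rfl (hz j)
    ring
  have h2 := (hq 1 _ le_rfl (by norm_num) h1).norm_le le_rfl p x
  have e : (fun j => z0 j p x + (z j - z0 j p x)) = z := by funext j; ring
  rw [e] at h2
  exact h2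

lemma Dj_PS {a : ℕ → ℝ} (ha : Adm a) {φ : P → (J → ℝ) → ℝ} {p : P} {z : J → ℝ}
    (h1 : DifferentiableAt ℝ (φ p) z) (ht : |φ p z| < 1 / 4) (j : J) :
    Dj (fun p z => PS a (φ p z)) j p z = PSd a (φ p z) * Dj φ j p z := by
  unfold Dj
  have h2 := (PS_hasDerivAt ha ht).comp_hasFDerivAt z h1.hasFDerivAt
  have h3 : fderiv ℝ (fun z => PS a (φ p z)) z = PSd a (φ p z) • fderiv ℝ (φ p) z := h2.fderiv
  rw [h3]
  simp only [_root_.smul_apply, smul_eq_mul]

/-- composition with a power series -/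
lemma Tm.ps {ρ K : ℝ} {z0 : J → P → ℝ × ℝ → ℝ} {φ : P → (J → ℝ) → ℝ} [Nonempty P] [Nonempty J]
    (h : Tm ρ K z0 φ)
    (hq : ∀ r z, 1 ≤ r → r ≤ 4 → nrz r ρ z0 z → B r (1 / 8) (fun p x => φ p (fun j => z j p x)))
    {a : ℕ → ℝ} (ha : Adm a) :
    Tm ρ (GG * ((Fintype.card J + 1) * K + 1) ^ 2 + GG * K + GG) z0 (fun p z => PS a (φ p z)) := by
  have hK := h.K0
  have hG := GG_nonneg
  have hn : (0 : ℝ) ≤ Fintype.card J := by positivity
  have hq' : ∀ r z, 1 ≤ r → r ≤ 4 → nrz r ρ z0 z → B r (1 / 4) (fun p x => φ p (fun j => z j p x)) :=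
    fun r z h1 h2 h3 => (hq r z h1 h2 h3).mono (by linarith) le_rfl (by norm_num)
  have hD : ∀ {r : ℝ} {z : J → P → ℝ × ℝ → ℝ}, nrz r ρ z0 z → 1 ≤ r → ∀ j p x,
      Dj (fun p z => PS a (φ p z)) j p (fun j => z j p x)
        = PSd a (φ p (fun j => z j p x)) * Dj φ j p (fun j => z j p x) := by
    intro r z hz hr j p x
    refine Dj_PS ha (h.hd p x _ (hz.pt hr p x)) ?_ j
    have := h.pt hq (hz.pt hr p x)
    linarith
  have hX : 0 ≤ GG * ((Fintype.card J + 1) * K + 1) ^ 2 := by positivity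
  have hX2 : 0 ≤ GG * K := by positivity
  refine ⟨by positivity, ?_, ?_, ?_, ?_, ?_⟩
  · intro p x z hz
    have h1 := h.pt hq hz
    have h2 := (PS_hasDerivAt ha (t := φ p z) (by linarith)).differentiableAt
    exact h2.comp z (h.hd p x z hz)
  · intro r z h1 h2 h3
    exact (PS_bound h1 ha (hq' r z h1 h2 h3)).mono (by linarith) le_rfl (by linarith)
  · intro r z h1 h2 h3 j
    have := (PSd_bound h1 ha (hq' r z h1 h2 h3)).mul (h.b1 r z h1 h2 h3 j) h1
    exact (this.congr (fun p x => (hD h3 h1 j p x).symm)).mono (by linarith) le_rfl (by linarith)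
  · intro r z m δ h1 h2 h3 h4 h5 h6 j
    have hδ := (h5 j).nonneg (by linarith)
    obtain ⟨lh, _⟩ := h.lip h1 h2 h3 h4 h5 h6 hδ
    have f1 := hq' r z h1 h2 h3
    have f2 := hq' r _ h1 h2 h4
    have e1 := (PSd_diff (h := fun p x => φ p (fun j => z j p x + m j p x) - φ p (fun j => z j p x))
      h1 ha f1 (f2.congr (fun p x => by ring)) lh).mul (h.b1 r _ h1 h2 h4 j) h1
    have e2 := (PSd_bound h1 ha f1).mul (h.l1 r z m δ h1 h2 h3 h4 h5 h6 j) h1
    have e3 := e1.add e2 (by linarith)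
    refine (e3.congr (fun p x => ?_)).mono (by linarith) le_rfl ?_
    · rw [hD h3 h1 j p x, hD h4 h1 j p x]
      have : φ p (fun j => z j p x) + (φ p (fun j => z j p x + m j p x) - φ p (fun j => z j p x))
          = φ p (fun j => z j p x + m j p x) := by ring
      rw [this]; ring
    · have e4 : GG * ((Fintype.card J + 1) * K * δ) * K + GG * (K * δ)
          = (GG * (((Fintype.card J + 1) * K) * K) + GG * K) * δ := by ring
      rw [e4]
      have e5 : ((Fintype.card J + 1) * K) * K ≤ ((Fintype.card J + 1) * K + 1) ^ 2 := by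
        nlinarith [mul_nonneg hn hK, mul_nonneg hn (mul_nonneg hK hK),
          mul_nonneg (mul_nonneg hn hK) (mul_nonneg hn hK)]
      have e6 : GG * (((Fintype.card J + 1) * K) * K) ≤ GG * ((Fintype.card J + 1) * K + 1) ^ 2 := by
        gcongr
      apply mul_le_mul_of_nonneg_right _ hδ
      linarith
  · intro r z m δ h1 h2 h3 h4 h5 h6
    obtain ⟨j0⟩ := (inferInstance : Nonempty J)
    have hδ := (h5 j0).nonneg (by linarith)
    obtain ⟨lh, _⟩ := h.lip h1 h2 h3 h4 h5 h6 hδ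
    have f1 := hq' r z h1 h2 h3
    have f2 := hq' r _ h1 h2 h4
    have e1 := PS_rem (h := fun p x => φ p (fun j => z j p x + m j p x) - φ p (fun j => z j p x))
      h1 ha f1 (f2.congr (fun p x => by ring)) lh
    have e2 := (PSd_bound h1 ha f1).mul (h.l2 r z m δ h1 h2 h3 h4 h5 h6) h1
    have e3 := e1.add e2 (by linarith)
    refine (e3.congr (fun p x => ?_)).mono (by linarith) le_rfl ?_
    · have e4 : ∑ j, Dj (fun p z => PS a (φ p z)) j p (fun j => z j p x) * m j p x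
          = PSd a (φ p (fun j => z j p x)) * ∑ j, Dj φ j p (fun j => z j p x) * m j p x := by
        rw [Finset.mul_sum]
        refine Finset.sum_congr rfl (fun j _ => ?_)
        rw [hD h3 h1 j p x]; ring
      have : φ p (fun j => z j p x) + (φ p (fun j => z j p x + m j p x) - φ p (fun j => z j p x))
          = φ p (fun j => z j p x + m j p x) := by ring
      rw [e4, this]; ring
    · have e4 : GG * ((Fintype.card J + 1) * K * δ) ^ 2 + GG * (K * δ ^ 2)
          = (GG * ((Fintype.card J + 1) * K) ^ 2 + GG * K) * δ ^ 2 := by ring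
      rw [e4]
      have e5 : ((Fintype.card J + 1) * K) ^ 2 ≤ ((Fintype.card J + 1) * K + 1) ^ 2 := by
        apply pow_le_pow_left₀ (by positivity)
        linarith
      have e6 : GG * ((Fintype.card J + 1) * K) ^ 2 ≤ GG * ((Fintype.card J + 1) * K + 1) ^ 2 := by
        gcongr
      apply mul_le_mul_of_nonneg_right _ (by positivity)
      linarith

end Run7.h800
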