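import Pool.Agent.Run7.h800.Tame
import Pool.Agent.Run7.h800.Kam2

set_option autoImplicit false
set_option linter.unusedSectionVars false

/-!
# Tame vector fields from tame components
-/

namespace Run7.h800

open Filter Topology

variable {P : Type*} [TopologicalSpace P] [CompactSpace P]

/-- joint index type -/
abbrev JJ := Fin 6 ⊕ Fin 2

/-- signs of the reversor on the joint variable -/
def sgJ : JJ → ℝ := Sum.elim ![1, -1, 1, -1, -1, 1] (fun _ => 1)

lemma sgJ_sq (j : JJ) : sgJ j * sgJ j = 1 := by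
  rcases j with i | k
  · fin_cases i <;> simp [sgJ]
  · simp [sgJ]

lemma rz_eq (z : JJ → ℝ) : rz z = fun j => sgJ j * z j := by
  funext j
  rcases j with i | k
  · rfl
  · simp [rz, sgJ]

/-- the reversor as a linear equivalence -/
noncomputable def rzL : (JJ → ℝ) ≃L[ℝ] (JJ → ℝ) :=
  LinearEquiv.toContinuousLinearEquiv (LinearEquiv.ofInvolutive
    { toFun := fun z j => sgJ j * z j
      map_add' := fun x y => by funext j; simp [mul_add]
      map_smul' := fun c x => by funext j; simp; ring }
    (fun z => by funext j; simp only [LinearMap.coe_mk, AddHom.coe_mk]; rw [← mul_assoc, sgJ_sq, one_mul]))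

lemma rzL_apply (z : JJ → ℝ) : rzL z = fun j => sgJ j * z j := rfl

/-- the family of vector fields given by its components -/
noncomputable def mkF (Yf : Fin 6 → P → (JJ → ℝ) → ℝ) : Fld P where
  Y := fun p z => Matrix.of fun i _ => Yf i p z
  A := fun p z => Matrix.of fun i j => Dj (Yf i) (Sum.inl j) p z
  Bq := fun p z => Matrix.of fun i k => Dj (Yf i) (Sum.inr k) p z

lemma near.nrz {r ρ : ℝ} {U0 : P → ℝ × ℝ → Matrix (Fin 6) Unit ℝ} {q0 : Fin 2 → C(P, ℝ)}
    {U : P → ℝ × ℝ → Matrix (Fin 6) Unit ℝ} {q : Fin 2 → C(P, ℝ)} (h : near r ρ U0 q0 U q)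
    (hr : 0 ≤ r) : nrz r ρ (fun j p x => zz U0 q0 p x j) (fun j p x => zz U q p x j) := by
  intro j
  rcases j with i | k
  · exact h.1 i ()
  · have := (B.const (r := r) (q k - q0 k)).mono (M' := ρ) hr le_rfl (h.2 k)
    exact this

lemma zz_add (U d : P → ℝ × ℝ → Matrix (Fin 6) Unit ℝ) (q dq : Fin 2 → C(P, ℝ)) (p : P)
    (x : ℝ × ℝ) : zz (fun p x => U p x + d p x) (q + dq) p x
      = fun j => zz U q p x j + zz d dq p x j := by
  funext j
  rcases j with i | k
  · rfl
  · rfl

lemma rev_D {φ : P → (JJ → ℝ) → ℝ} {c : ℝ} (h : ∀ p z, φ p (rz z) = c * φ p z) (p : P)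
    (z : JJ → ℝ) (j : JJ) : Dj φ j p (rz z) = c * sgJ j * Dj φ j p z := by
  have h1 := rzL.comp_right_fderiv (f := φ p) (x := z)
  have e : (φ p ∘ rzL) = fun z => c * φ p z := by
    funext y
    simp only [Function.comp, rzL_apply, ← rz_eq]
    exact h p y
  rw [e] at h1
  have h2 : fderiv ℝ (fun z => c * φ p z) z = c • fderiv ℝ (φ p) z := by
    by_cases hd : DifferentiableAt ℝ (φ p) z
    · exact (hd.hasFDerivAt.const_mul c).fderiv
    · by_cases hc : c = 0
      · subst hc; simp
      · have hd2 : ¬ DifferentiableAt ℝ (fun z => c * φ p z) z := by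
          intro h3
          apply hd
          have h4 := h3.const_mul c⁻¹
          refine h4.congr_of_eventuallyEq (Eventually.of_forall fun y => ?_)
          simp only
          rw [← mul_assoc, inv_mul_cancel₀ hc, one_mul]
        rw [fderiv_zero_of_not_differentiableAt hd2, fderiv_zero_of_not_differentiableAt hd, smul_zero]
  rw [h2] at h1
  have h3 := congrArg (fun L : (JJ → ℝ) →L[ℝ] ℝ => L (Pi.single j 1)) h1
  simp only [_root_.smul_apply, smul_eq_mul, ContinuousLinearMap.comp_apply] at h3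
  have h4 : (rzL : (JJ → ℝ) →L[ℝ] (JJ → ℝ)) (Pi.single j 1) = sgJ j • Pi.single j 1 := by
    change rzL (Pi.single j 1) = _
    rw [rzL_apply]
    funext i
    by_cases hij : i = j
    · subst hij; simp
    · simp [hij]
  rw [h4, map_smul, smul_eq_mul] at h3
  unfold Dj
  have h5 : rz z = rzL z := by rw [rz_eq, rzL_apply]
  rw [h5]
  have h6 := sgJ_sq j
  calc (fderiv ℝ (φ p) (rzL z)) (Pi.single j 1)
      = (sgJ j * sgJ j) * (fderiv ℝ (φ p) (rzL z)) (Pi.single j 1) := by rw [h6, one_mul]
    _ = sgJ j * (sgJ j * (fderiv ℝ (φ p) (rzL z)) (Pi.single j 1)) := by ring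
    _ = sgJ j * (c * (fderiv ℝ (φ p) z) (Pi.single j 1)) := by rw [← h3]
    _ = _ := by ring

lemma fderiv_expand {φ : (JJ → ℝ) → ℝ} {z : JJ → ℝ} (w : JJ → ℝ) :
    fderiv ℝ φ z w = ∑ j, fderiv ℝ φ z (Pi.single j 1) * w j := by
  have : w = ∑ j, w j • (Pi.single j 1 : JJ → ℝ) := by
    funext i
    simp [Finset.sum_apply, Pi.single_apply]
  conv_lhs => rw [this]
  rw [map_sum]
  refine Finset.sum_congr rfl (fun j _ => ?_)
  rw [map_smul, smul_eq_mul, mul_comm]

theorem tame_mk [Nonempty P] {ρ K : ℝ} {U0 : P → ℝ × ℝ → Matrix (Fin 6) Unit ℝ}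
    {q0 : Fin 2 → C(P, ℝ)} {Yf : Fin 6 → P → (JJ → ℝ) → ℝ} (hK : 0 ≤ K)
    (h : ∀ i, Tm ρ K (fun j p x => zz U0 q0 p x j) (Yf i))
    (hrev : ∀ i p z, Yf i p (rz z) = -sgJ (Sum.inl i) * Yf i p z) :
    (mkF Yf).Tame 4 ρ K U0 q0 where
  K0 := hK
  bA := fun r U q h1 h2 h3 i j => (h i).b1 r _ h1 h2 (h3.nrz (by linarith)) (Sum.inl j)
  bB := fun r U q h1 h2 h3 i j => (h i).b1 r _ h1 h2 (h3.nrz (by linarith)) (Sum.inr j)
  lA := by
    intro r U q d dq δ h1 h2 h3 h4 h5 h6 h7 i j
    have h4' := h4.nrz (by linarith)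
    simp only [zz_add] at h4'
    have := (h i).l1 r (fun j p x => zz U q p x j) (fun j p x => zz d dq p x j) δ h1 h2
      (h3.nrz (by linarith)) h4' (by
        intro j
        rcases j with i | k
        · exact h5 i ()
        · exact (B.const (dq k)).mono (by linarith) le_rfl (h6 k)) h7 (Sum.inl j)
    refine this.congr (fun p x => ?_)
    simp only [zz_add, mkF, Matrix.sub_apply, Matrix.of_apply]
  lB := by
    intro r U q d dq δ h1 h2 h3 h4 h5 h6 h7 i j
    have h4' := h4.nrz (by linarith)
    simp only [zz_add] at h4'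
    have := (h i).l1 r (fun j p x => zz U q p x j) (fun j p x => zz d dq p x j) δ h1 h2
      (h3.nrz (by linarith)) h4' (by
        intro j
        rcases j with i | k
        · exact h5 i ()
        · exact (B.const (dq k)).mono (by linarith) le_rfl (h6 k)) h7 (Sum.inr j)
    refine this.congr (fun p x => ?_)
    simp only [zz_add, mkF, Matrix.sub_apply, Matrix.of_apply]
  l2 := by
    intro r U q d dq δ h1 h2 h3 h4 h5 h6 h7 i j
    have h4' := h4.nrz (by linarith)
    simp only [zz_add] at h4'
    have := (h i).l2 r (fun j p x => zz U q p x j) (fun j p x => zz d dq p x j) δ h1 h2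
      (h3.nrz (by linarith)) h4' (by
        intro j
        rcases j with i | k
        · exact h5 i ()
        · exact (B.const (dq k)).mono (by linarith) le_rfl (h6 k)) h7
    refine this.congr (fun p x => ?_)
    simp only [zz_add, mkF, Matrix.sub_apply, Matrix.of_apply, Matrix.mul_apply,
      Fintype.sum_sum_type, cq]
    have e1 : ∀ l, zz d dq p x (Sum.inl l) = d p x l () := fun l => rfl
    have e2 : ∀ l, zz d dq p x (Sum.inr l) = dq l p := fun l => rfl
    have e3 : ∀ l, d p x l j = d p x l () := fun l => rfl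
    simp only [e1, e2, e3]
    ring
  chain := by
    intro r U q v h1 h2 h3 hU
    have hz : ∀ p x, HasFDerivAt (zz U q p) (ContinuousLinearMap.pi (fun j => Sum.elim
        (fun i => fderiv ℝ (fun x => U p x i ()) x) (fun _ => 0) j)) x := by
      intro p x
      rw [hasFDerivAt_pi]
      intro j
      rcases j with i | k
      · exact (hU i () p x).hasFDerivAt
      · exact hasFDerivAt_const _ _
    have hd : ∀ i p x, HasFDerivAt (fun x => Yf i p (zz U q p x))
        ((fderiv ℝ (Yf i p) (zz U q p x)).comp (ContinuousLinearMap.pi (fun j => Sum.elim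
        (fun i => fderiv ℝ (fun x => U p x i ()) x) (fun _ => 0) j))) x := by
      intro i p x
      have h5 := (h i).hd p x (zz U q p x) ((h3.nrz (by linarith)).pt h1.le p x)
      exact h5.hasFDerivAt.comp x (hz p x)
    refine ⟨fun i j p x => (hd i p x).differentiableAt, fun p x => ?_⟩
    ext i j
    rw [dM_apply, Matrix.mul_apply]
    unfold pd
    have h6 : fderiv ℝ (fun x => (mkF Yf).Y p (zz U q p x) i j) x = _ := (hd i p x).fderiv
    have h7 : fderiv ℝ ((fun p x => (mkF Yf).Y p (zz U q p x) i j) p) x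
        = fderiv ℝ (fun x => (mkF Yf).Y p (zz U q p x) i j) x := rfl
    rw [h7, h6, ContinuousLinearMap.comp_apply, fderiv_expand, Fintype.sum_sum_type]
    simp only [ContinuousLinearMap.coe_pi', Sum.elim_inl, Sum.elim_inr,
      _root_.zero_apply, mul_zero, Finset.sum_const_zero, add_zero]
    rfl
  revY := by
    intro p z
    ext i j
    simp only [mkF, Matrix.of_apply, Matrix.neg_apply]
    unfold Sg
    rw [Matrix.diagonal_mul, Matrix.of_apply, hrev]
    simp [sgJ]
  revA := by
    intro p z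
    ext i j
    simp only [mkF, Matrix.of_apply, Matrix.neg_apply]
    rw [rev_D (hrev i)]
    unfold Sg
    rw [Matrix.mul_diagonal, Matrix.diagonal_mul, Matrix.of_apply]
    simp only [sgJ, Sum.elim_inl]
    ring
  revB := by
    intro p z
    ext i j
    simp only [mkF, Matrix.of_apply, Matrix.neg_apply]
    rw [rev_D (hrev i)]
    unfold Sg
    rw [Matrix.diagonal_mul, Matrix.of_apply]
    simp only [sgJ, Sum.elim_inl, Sum.elim_inr]
    ring

end Run7.h800
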