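import Pool.Agent.Run7.h800.Init3

set_option autoImplicit false
set_option linter.unusedSectionVars false

/-!
# Existence of the family of tori
-/

namespace Run7.h800

open Filter Topology

variable {P : Type*} [TopologicalSpace P] [CompactSpace P]

lemma exists_mean {r M : ℝ} {f : P → ℝ × ℝ → ℝ} (hf : B r M f) (hr : 1 < r) :
    ∃ c : C(P, ℝ), ‖c‖ ≤ M ∧ Mn om f (fun p => c p) := by
  obtain ⟨c, g, h1, h2, h3, h4⟩ := solve (δ := 1) (H := 4) om_dio hr hf 0 one_pos (Or.inl rfl)
    le_rfl (by norm_num)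
  have hr0 : 0 < r := by linarith
  obtain ⟨s, hs⟩ : ∃ s : ℝ, s = (1 + 1 / r) / 2 := ⟨_, rfl⟩
  have hx1 : 1 / r < 1 := by rw [div_lt_one hr0]; exact hr
  have hx0 : 0 < 1 / r := by positivity
  have hs0 : 0 < s := by rw [hs]; linarith
  have hs1 : s < 1 := by rw [hs]; linarith
  have hrs : 1 < r * s := by
    have : r * s = (r + 1) / 2 := by rw [hs]; field_simp
    rw [this]; linarith
  refine ⟨-c, by rw [norm_neg]; exact h1, ?_⟩
  have h5 := Mn.of_solve (ω := om) (f := f) (c := c) hrs (h4 s hs0 hs1 hrs.le) (fun p x => by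
    have := h3 p x
    simpa using this)
  exact h5

lemma Mn.const (ω : ℝ × ℝ) (c : P → ℝ) : Mn (P := P) ω (fun p _ => c p) c :=
  ⟨fun _ _ => 0, fun p => differentiable_const _, ⟨0, fun p x => by simp⟩, fun p x => by
    have := pd_const (P := P) (fun _ => 0) ω p x
    rw [this, add_zero]⟩

lemma Mn.smul {ω : ℝ × ℝ} {f : P → ℝ × ℝ → ℝ} {c : P → ℝ} (h : Mn ω f c) (a : ℝ) :
    Mn ω (fun p x => a * f p x) (fun p => a * c p) := by
  obtain ⟨g, g1, ⟨C, g2⟩, g3⟩ := h
  refine ⟨fun p x => a * g p x, fun p => (g1 p).const_mul a, ⟨|a| * C, fun p x => ?_⟩, ?_⟩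
  · rw [abs_mul]
    have := g2 p x
    gcongr
  · intro p x
    have e := pd_cmul (f := g) ((g1 p) x) (fun _ => a) ω
    change a * f p x = a * c p + pd ω (fun p x => a * g p x) p x
    rw [e, g3]; ring

/-- leading part of the derivative in the parameters -/
noncomputable def B00 (x : ℝ × ℝ) : Matrix (Fin 6) (Fin 2) ℝ :=
  !![-s1 x, 0; c1 x, 0; -al * s2 x, 0; -4 * c2 x, 0; -(5 / 2) * c2 x, 2 * c2 x;
    4 * al * s2 x, 8 / 5 * al * s2 x]

/-- the mean matrix -/
noncomputable def C00 : Matrix (Fin 2) (Fin 2) ℝ := !![1, 0; al, 22 / 105 * al]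

lemma mean00 (i j : Fin 2) : Mn (P := P) om (fun _ x => (Psa00 x * B00 x) i j) (fun _ => C00 i j) := by
  have hconst : ∀ (f : ℝ × ℝ → ℝ) (c : ℝ), (∀ x, f x = c) →
      Mn (P := P) om (fun _ x => f x) (fun _ => c) := fun f c h =>
    (Mn.const om (fun _ : P => c)).congr (fun p x => (h x).symm) (fun p => rfl)
  fin_cases i <;> fin_cases j
  · refine hconst _ _ (fun x => ?_)
    have := cs1 x
    simp [Matrix.mul_apply, Fin.sum_univ_six, Psa00, B00, C00]
    linear_combination this
  · refine hconst _ _ (fun x => ?_)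
    simp [Matrix.mul_apply, Fin.sum_univ_six, Psa00, B00, C00]
  · refine hconst _ _ (fun x => ?_)
    have := cs2 x
    simp [Matrix.mul_apply, Fin.sum_univ_six, Psa00, B00, C00]
    linear_combination al * this
  · refine ⟨fun _ x => -(2 / 5) * (s2 x * c2 x), ?_, ⟨2 / 5, fun p x => ?_⟩, fun p x => ?_⟩
    · intro p
      exact (((s2_B (P := P)).diff (by norm_num) p).mul ((c2_B (P := P)).diff (by norm_num) p)).const_mul _
    · rw [abs_mul, abs_mul]
      have h1 : |s2 x| ≤ 1 := Real.abs_sin_le_one _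
      have h2 : |c2 x| ≤ 1 := Real.abs_cos_le_one _
      have h3 : |s2 x| * |c2 x| ≤ 1 * 1 := by gcongr
      norm_num
      linarith
    · have d1 : DifferentiableAt ℝ (fun x => s2 x) x := (s2_B (P := P)).diff (by norm_num) p x
      have d2 : DifferentiableAt ℝ (fun x => c2 x) x := (c2_B (P := P)).diff (by norm_num) p x
      have e1 := pd_mul (P := P) (f := fun _ x => s2 x) (g := fun _ x => c2 x) (p := p) d1 d2 om
      have e2 := pd_cmul (P := P) (f := fun _ x => s2 x * c2 x) (p := p) (x := x) (d1.mul d2)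
        (fun _ => -(2 / 5)) om
      rw [e2, e1, pd_s2, pd_c2]
      have := cs2 x
      simp [Matrix.mul_apply, Fin.sum_univ_six, Psa00, B00, C00, om]
      linear_combination (-(22 / 105) * al) * (-this)

lemma TF_all {φ : Fin 6 → ℝ → P → (JJ → ℝ) → ℝ} {z0 : JJ → P → ℝ × ℝ → ℝ}
    (h : ∀ i, TF z0 (φ i)) :
    ∃ e1 : ℝ, 0 < e1 ∧ e1 ≤ 1 ∧ ∃ K : ℝ, 0 ≤ K ∧ ∀ i ε, 0 ≤ ε → ε ≤ e1 → Tm 1 K z0 (φ i ε) := by
  choose e he he1 K hK hT using h
  refine ⟨∏ i, e i, Finset.prod_pos (fun i _ => he i),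
    Finset.prod_le_one (fun i _ => (he i).le) (fun i _ => he1 i), ∑ i, K i,
    Finset.sum_nonneg (fun i _ => hK i), fun i ε h0 h1 => ?_⟩
  refine (hT i ε h0 (h1.trans ?_)).mono (Finset.single_le_sum (fun j _ => hK j) (Finset.mem_univ i))
  calc ∏ j, e j = e i * ∏ j ∈ Finset.univ.erase i, e j :=
        (Finset.mul_prod_erase _ _ (Finset.mem_univ i)).symm
    _ ≤ e i * 1 := by
        have := Finset.prod_le_one (s := Finset.univ.erase i) (f := e) (fun i _ => (he i).le)
          (fun i _ => he1 i)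
        have := (he i).le
        gcongr
    _ = e i := mul_one _

/-- derivative of the frame -/
noncomputable def dPb00 (x : ℝ × ℝ) : Matrix (Fin 6) (Fin 4) ℝ :=
  !![-s1 x, 0, 0, 0; c1 x, 0, 0, 0; 0, -al * s2 x, 0, 0; 0, -4 * c2 x, 0, 0;
    0, -(5 / 2) * c2 x, 0, 0; 0, 4 * al * s2 x, 0, 0]

lemma dM_Pb00 (p : P) (x : ℝ × ℝ) : dM om (fun (_ : P) x => Pb00 x) p x = dPb00 x := by
  have hc : ∀ (c : ℝ) (f : P → ℝ × ℝ → ℝ) (v : ℝ × ℝ), DifferentiableAt ℝ (f p) x →
      pd v (fun p x => c * f p x) p x = c * pd v f p x := fun c f v hf =>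
    pd_cmul (f := f) hf (fun _ => c) v
  have d2 : DifferentiableAt ℝ (fun x => s2 x) x := (s2_B (P := P)).diff (by norm_num) p x
  have d3 : DifferentiableAt ℝ (fun x => c2 x) x := (c2_B (P := P)).diff (by norm_num) p x
  have hk : ∀ c : ℝ, pd (P := P) om (fun _ _ => c) p x = 0 := fun c => pd_const (fun _ => c) om p x
  have ha := al_sq
  ext i j
  rw [dM_apply]
  fin_cases i <;> fin_cases j
  · exact (pd_c1 om p x).trans (by simp [dPb00, om])
  · exact (hk 0).trans (by simp [dPb00])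
  · exact (hk 0).trans (by simp [dPb00])
  · exact (hk 0).trans (by simp [dPb00])
  · exact (pd_s1 om p x).trans (by simp [dPb00, om])
  · exact (hk 0).trans (by simp [dPb00])
  · exact (hk 0).trans (by simp [dPb00])
  · exact (hk 0).trans (by simp [dPb00])
  · exact (hk 0).trans (by simp [dPb00])
  · exact (pd_c2 om p x).trans (by simp [dPb00, om])
  · exact (hk 1).trans (by simp [dPb00])
  · exact (hk 1).trans (by simp [dPb00])
  · exact (hk 0).trans (by simp [dPb00])
  · change pd om (fun (_ : P) x => -(8 / 5 * al) * s2 x) p x = _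
    rw [hc _ (fun _ x => s2 x) _ d2, pd_s2]
    simp [dPb00, om]
    linear_combination (8 / 5 * c2 x) * ha
  · exact (hk _).trans (by simp [dPb00])
  · exact (hk _).trans (by simp [dPb00])
  · exact (hk 0).trans (by simp [dPb00])
  · change pd om (fun (_ : P) x => -al * s2 x) p x = _
    rw [hc _ (fun _ x => s2 x) _ d2, pd_s2]
    simp [dPb00, om]
    linear_combination (c2 x) * ha
  · exact (hk _).trans (by simp [dPb00])
  · exact (hk _).trans (by simp [dPb00])
  · exact (hk 0).trans (by simp [dPb00])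
  · change pd om (fun (_ : P) x => -4 * c2 x) p x = _
    rw [hc _ (fun _ x => c2 x) _ d3, pd_c2]
    simp [dPb00, om]
    ring
  · exact (hk _).trans (by simp [dPb00])
  · exact (hk _).trans (by simp [dPb00])

lemma red00 (p : P) (x : ℝ × ℝ) :
    dPb00 x - DL (9 / 4) * Pb00 x - Pb00 x * dgm (dd (ContinuousMap.const P la)) p = 0 := by
  have h3 := al_sq
  have h4 := la_sq
  ext i j
  rw [Matrix.sub_apply, Matrix.sub_apply, Matrix.mul_apply, Matrix.mul_apply, Fin.sum_univ_six,
    Fin.sum_univ_four, Matrix.zero_apply]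
  unfold dPb00 DL Pb00 dgm dd sg
  fin_cases i <;> fin_cases j <;> simp <;>
    first
      | ring1
      | linear_combination h4
      | linear_combination (-1) * h4
      | linear_combination (1 / 2) * h4
      | linear_combination (-1 / 2) * h4
      | linear_combination (1 / 8) * h4


end Run7.h800
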