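import Pool.Agent.Run7.h800.Modes

set_option autoImplicit false
set_option linter.unusedSectionVars false

/-!
# The twist and the Jacobian
-/

namespace Run7.h800

open Filter Topology

variable {M ε si : ℝ} {u w1 w2 p1 p2 g4 g5 : ℝ × ℝ → ℝ} {mu ka : ℝ}

lemma P2' {a b c d : ℝ} (h1 : |a| ≤ c) (h2 : |b| ≤ d) : |a * b| ≤ c * d := by
  rw [abs_mul]
  have := abs_nonneg a
  have := abs_nonneg b
  have : 0 ≤ c := by linarith
  gcongr

lemma Sl.XY (h : Sl M ε si u w1 w2 p1 p2 g4 g5 mu ka) :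
    |mn (fun x => w1 x * (c1 x * c2 x)) - ε * si * (51 / 248)| ≤ 1000 * M ^ 2 * ε ^ 2 ∧
    |mn (fun x => w2 x * (c1 x * s2 x)) + ε * si * (19 / 155 * al)| ≤ 1000 * M ^ 2 * ε ^ 2 := by
  obtain ⟨a1, a2⟩ := h.mode true
  obtain ⟨b1, b2⟩ := h.mode false
  have e1 : mn (fun x => w1 x * (c1 x * c2 x)) = 1 / 2 * mn (fun x => w1 x * cc (kk false) x)
      + 1 / 2 * mn (fun x => w1 x * cc (kk true) x) := by
    rw [← mn_smul _ (h.ww1.mul (cc_WW _)), ← mn_smul _ (h.ww1.mul (cc_WW _)),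
      ← mn_add ((h.ww1.mul (cc_WW _)).smul _) ((h.ww1.mul (cc_WW _)).smul _)]
    refine mn_congr (fun x => ?_)
    rw [c1c2_eq]
    simp only [kk]
    norm_num
    ring
  have e2 : mn (fun x => w2 x * (c1 x * s2 x)) = 1 / 2 * mn (fun x => w2 x * sn (kk true) x)
      - 1 / 2 * mn (fun x => w2 x * sn (kk false) x) := by
    rw [← mn_smul _ (h.ww2.mul (sn_WW _)), ← mn_smul _ (h.ww2.mul (sn_WW _)),
      ← mn_sub ((h.ww2.mul (sn_WW _)).smul _) ((h.ww2.mul (sn_WW _)).smul _)]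
    refine mn_congr (fun x => ?_)
    rw [c1s2_eq]
    simp only [kk]
    norm_num
    ring
  have x1 : X1c true + X1c false = 2 * (51 / 248) := by simp [X1c, sb]; ring
  have x2 : X2c true - X2c false = -2 * (19 / 155 * al) := by simp [X2c, sb]; ring
  rw [e1, e2]
  constructor
  · have e3 : 1 / 2 * mn (fun x => w1 x * cc (kk false) x) + 1 / 2 * mn (fun x => w1 x * cc (kk true) x)
        - ε * si * (51 / 248) = 1 / 2 * (mn (fun x => w1 x * cc (kk true) x) - ε * si * X1c true)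
        + 1 / 2 * (mn (fun x => w1 x * cc (kk false) x) - ε * si * X1c false) := by
      linear_combination (ε * si / 2) * x1
    rw [e3]
    refine (abs_add_le _ _).trans ?_
    rw [abs_mul, abs_mul, abs_of_pos (by norm_num : (0 : ℝ) < 1 / 2)]
    linarith
  · have e3 : 1 / 2 * mn (fun x => w2 x * sn (kk true) x) - 1 / 2 * mn (fun x => w2 x * sn (kk false) x)
        + ε * si * (19 / 155 * al) = 1 / 2 * (mn (fun x => w2 x * sn (kk true) x) - ε * si * X2c true)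
        - 1 / 2 * (mn (fun x => w2 x * sn (kk false) x) - ε * si * X2c false) := by
      linear_combination (ε * si / 2) * x2
    rw [e3]
    refine (abs_sub _ _).trans ?_
    rw [abs_mul, abs_mul, abs_of_pos (by norm_num : (0 : ℝ) < 1 / 2)]
    linarith

/-- the Jacobian determinant of the shape map -/
noncomputable def Jac (w1 w2 : ℝ × ℝ → ℝ) (x : ℝ × ℝ) : ℝ :=
  DD (1, 0) w1 x * DD (0, 1) w2 x - DD (1, 0) w2 x * DD (0, 1) w1 x

lemma DD_comm {f : ℝ × ℝ → ℝ} (hf : WW f) (v w : ℝ × ℝ) (x : ℝ × ℝ) :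
    DD v (DD w f) x = DD w (DD v f) x := by
  obtain ⟨r, M, hr, h⟩ := hf
  exact pd_comm (P := Unit) h hr v w () x

lemma DD_s1 (v : ℝ × ℝ) (x : ℝ × ℝ) : DD v s1 x = v.1 * c1 x := pd_s1 (P := Unit) v () x
lemma DD_c1 (v : ℝ × ℝ) (x : ℝ × ℝ) : DD v c1 x = -v.1 * s1 x := pd_c1 (P := Unit) v () x
lemma DD_s2 (v : ℝ × ℝ) (x : ℝ × ℝ) : DD v s2 x = v.2 * c2 x := pd_s2 (P := Unit) v () x
lemma DD_c2 (v : ℝ × ℝ) (x : ℝ × ℝ) : DD v c2 x = -v.2 * s2 x := pd_c2 (P := Unit) v () x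

lemma mn_c1_c2c2 : mn (fun x => c1 x * (c2 x * c2 x)) = 0 := by
  have e : mn (fun x => c1 x * (c2 x * c2 x)) = mn (fun x => 1 / 2 * (cc (1, -1) x * cc (0, 1) x)
      + 1 / 2 * (cc (1, 1) x * cc (0, 1) x)) := mn_congr (fun x => by
    have := c1c2_eq x
    rw [← mul_assoc, this, c2_eq]; ring)
  rw [e, mn_add (((cc_WW _).mul (cc_WW _)).smul _) (((cc_WW _).mul (cc_WW _)).smul _),
    mn_smul _ ((cc_WW _).mul (cc_WW _)), mn_smul _ ((cc_WW _).mul (cc_WW _)),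
    mn_cc_cc (by simp) (by simp), mn_cc_cc (by simp) (by simp)]
  ring

/-- The mean of the Jacobian against the first sine. -/
lemma Sl.jac (h : Sl M ε si u w1 w2 p1 p2 g4 g5 mu ka)
    (h2 : ∀ x, |DD (0, 1) w2 x + 8 / 5 * al * c2 x| ≤ M * ε) :
    |mn (fun x => Jac w1 w2 x * s1 x) - ε * si * (14 / 31 * al)| ≤ 4000 * M ^ 2 * ε ^ 2 := by
  have hε := h.hε
  have hM := h.hM
  have hME : 0 ≤ M * ε := by positivity
  obtain ⟨hX, hY⟩ := h.XY
  have W1 := h.ww1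
  have W2 := h.ww2
  have Wd2 := W2.pd (0, 1)
  have Wd1 := W2.pd (1, 0)
  -- reduction by parts
  have e1 : mn (fun x => Jac w1 w2 x * s1 x) = -mn (fun x => w1 x * DD (0, 1) w2 x * c1 x) := by
    have p1 := ibp (W1.mul Wd2) W_s1 (1, 0)
    have p2 := ibp (W1.mul Wd1) W_s1 (0, 1)
    have q1 : mn (fun x => w1 x * DD (0, 1) w2 x * DD (1, 0) s1 x)
        = mn (fun x => w1 x * DD (0, 1) w2 x * c1 x) := mn_congr (fun x => by rw [DD_s1]; ring)
    have q2 : mn (fun x => w1 x * DD (1, 0) w2 x * DD (0, 1) s1 x) = 0 := by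
      have : mn (fun x => w1 x * DD (1, 0) w2 x * DD (0, 1) s1 x) = mn (fun _ => 0) :=
        mn_congr (fun x => by rw [DD_s1]; ring)
      rw [this, mn_const]
    rw [q1] at p1
    rw [q2, neg_zero] at p2
    have q3 : mn (fun x => Jac w1 w2 x * s1 x)
        = mn (fun x => DD (1, 0) (fun x => w1 x * DD (0, 1) w2 x) x * s1 x
          - DD (0, 1) (fun x => w1 x * DD (1, 0) w2 x) x * s1 x) := by
      refine mn_congr (fun x => ?_)
      rw [DD_mul W1 Wd2, DD_mul W1 Wd1, DD_comm W2 (1, 0) (0, 1)]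
      unfold Jac; ring
    rw [q3, mn_sub (((W1.mul Wd2).pd _).mul W_s1) (((W1.mul Wd1).pd _).mul W_s1), p1, p2]
    ring
  -- expansion
  have e2 : mn (fun x => w1 x * DD (0, 1) w2 x * c1 x)
      = -(8 / 5 * al) * mn (fun x => w1 x * (c1 x * c2 x)) + mn (fun x => w2 x * (c1 x * s2 x))
        + mn (fun x => (w1 x - c2 x) * (DD (0, 1) w2 x + 8 / 5 * al * c2 x) * c1 x) := by
    have r1 : mn (fun x => DD (0, 1) w2 x * (c1 x * c2 x)) = mn (fun x => w2 x * (c1 x * s2 x)) := by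
      rw [ibp W2 (W_c1.mul W_c2) (0, 1)]
      have : mn (fun x => w2 x * DD (0, 1) (fun x => c1 x * c2 x) x)
          = mn (fun x => -1 * (w2 x * (c1 x * s2 x))) := by
        refine mn_congr (fun x => ?_)
        rw [DD_mul W_c1 W_c2, DD_c1, DD_c2]; ring
      rw [this, mn_smul _ (W2.mul (W_c1.mul W_s2))]; ring
    have r2 := mn_c1_c2c2
    have Wa := (W1.mul (W_c1.mul W_c2)).smul (-(8 / 5 * al))
    have Wb := Wd2.mul (W_c1.mul W_c2)
    have Wc := (W_c1.mul (W_c2.mul W_c2)).smul (8 / 5 * al)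
    have Wd := ((W1.sub W_c2).mul (Wd2.add (W_c2.smul (8 / 5 * al)))).mul W_c1
    have r3 : mn (fun x => w1 x * DD (0, 1) w2 x * c1 x)
        = mn (fun x => (-(8 / 5 * al) * (w1 x * (c1 x * c2 x)) + DD (0, 1) w2 x * (c1 x * c2 x))
          + (8 / 5 * al * (c1 x * (c2 x * c2 x))
          + (w1 x - c2 x) * (DD (0, 1) w2 x + 8 / 5 * al * c2 x) * c1 x)) :=
      mn_congr (fun x => by ring)
    rw [r3, mn_add (Wa.add Wb) (Wc.add Wd), mn_add Wa Wb, mn_add Wc Wd,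
      mn_smul _ (W1.mul (W_c1.mul W_c2)), mn_smul _ (W_c1.mul (W_c2.mul W_c2)), r1, r2]
    ring
  have e3 : |mn (fun x => (w1 x - c2 x) * (DD (0, 1) w2 x + 8 / 5 * al * c2 x) * c1 x)|
      ≤ (M * ε) * (M * ε) * 1 := by
    refine mn_abs_le (((W1.sub W_c2).mul (Wd2.add (W_c2.smul (8 / 5 * al)))).mul W_c1) (fun x => ?_)
    exact P2' (P2' (h.cw1 x) (h2 x)) (c1_le x)
  rw [e1, e2]
  obtain ⟨X, hX'⟩ : ∃ X, X = mn (fun x => w1 x * (c1 x * c2 x)) := ⟨_, rfl⟩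
  obtain ⟨Y, hY'⟩ : ∃ Y, Y = mn (fun x => w2 x * (c1 x * s2 x)) := ⟨_, rfl⟩
  obtain ⟨E, hE'⟩ : ∃ E, E = mn (fun x => (w1 x - c2 x) * (DD (0, 1) w2 x + 8 / 5 * al * c2 x) * c1 x) :=
    ⟨_, rfl⟩
  rw [← hX'] at hX ⊢
  rw [← hY'] at hY ⊢
  rw [← hE'] at e3 ⊢
  have e4 : -(-(8 / 5 * al) * X + Y + E) - ε * si * (14 / 31 * al)
      = 8 / 5 * al * (X - ε * si * (51 / 248)) - (Y + ε * si * (19 / 155 * al)) - E := by ring
  have e5 : |8 / 5 * al * (X - ε * si * (51 / 248))| ≤ (64 / 25) * (1000 * M ^ 2 * ε ^ 2) := by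
    refine P2' ?_ hX
    have := al_hi
    have := al_pos
    rw [abs_of_pos (by positivity)]; linarith
  rw [e4]
  have s1 := abs_sub (8 / 5 * al * (X - ε * si * (51 / 248)) - (Y + ε * si * (19 / 155 * al))) E
  have s2 := abs_sub (8 / 5 * al * (X - ε * si * (51 / 248))) (Y + ε * si * (19 / 155 * al))
  have e6 : (M * ε) * (M * ε) * 1 = M ^ 2 * ε ^ 2 := by ring
  have e7 : 0 ≤ M ^ 2 * ε ^ 2 := by positivity
  rw [e6] at e3
  linarith

end Run7.h800
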