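import Pool.Agent.Run7.h800.Twist

set_option autoImplicit false
set_option linter.unusedSectionVars false

/-!
# The twist
-/

namespace Run7.h800

open Filter Topology

variable {M ε si : ℝ} {u w1 w2 p1 p2 g4 g5 : ℝ × ℝ → ℝ} {mu ka : ℝ}

lemma mn_bd {f : ℝ × ℝ → ℝ} (hf : WW f) {b : ℝ} (hb : ∀ x, |f x| ≤ b) : |mn f| ≤ b :=
  mn_abs_le hf hb

lemma om_snd : om.2 = al := rfl
lemma om_fst : om.1 = 1 := rfl

/-- the time scale is one -/
lemma mu_one (h : Sl M ε si u w1 w2 p1 p2 g4 g5 mu ka) {v : ℝ × ℝ → ℝ} (wv : WW v)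
    (hu : ∀ x, DD om u x = -(mu * v x)) (hv : ∀ x, DD om v x = mu * u x) : mu = 1 := by
  have a1 : mn (fun x => u x * c1 x) = mu * mn (fun x => v x * s1 x) := by
    have := ibp h.wu W_s1 om
    have e1 : mn (fun x => DD om u x * s1 x) = mn (fun x => -mu * (v x * s1 x)) :=
      mn_congr (fun x => by rw [hu]; ring)
    have e2 : mn (fun x => u x * DD om s1 x) = mn (fun x => u x * c1 x) :=
      mn_congr (fun x => by rw [DD_s1, om_fst]; ring)
    rw [e1, e2, mn_smul _ (wv.mul W_s1)] at this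
    linarith
  have a2 : mn (fun x => v x * s1 x) = mu * mn (fun x => u x * c1 x) := by
    have := ibp wv W_c1 om
    have e1 : mn (fun x => DD om v x * c1 x) = mn (fun x => mu * (u x * c1 x)) :=
      mn_congr (fun x => by rw [hv]; ring)
    have e2 : mn (fun x => v x * DD om c1 x) = mn (fun x => -1 * (v x * s1 x)) :=
      mn_congr (fun x => by rw [DD_c1, om_fst]; ring)
    rw [e1, e2, mn_smul _ (h.wu.mul W_c1), mn_smul _ (wv.mul W_s1)] at this
    linarith
  have a3 : mn (fun x => c1 x * c1 x) = 1 / 2 := mn_cc_self (by simp)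
  have a4 := mn_close h.wu W_c1 W_c1 h.cu c1_le
  rw [a3] at a4
  have h1 := h.hMε
  have a5 : (2 : ℝ) / 5 ≤ mn (fun x => u x * c1 x) := by
    have := (abs_le.mp a4).1
    linarith
  have a6 : (mu ^ 2 - 1) * mn (fun x => u x * c1 x) = 0 := by
    rw [a2] at a1
    linear_combination -a1
  have a7 : mu ^ 2 - 1 = 0 := (mul_eq_zero.mp a6).resolve_right (by linarith)
  have h2 := abs_le.mp h.cmu
  have a8 : (mu - 1) * (mu + 1) = 0 := by linear_combination a7
  rcases mul_eq_zero.mp a8 with h3 | h3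
  · linarith
  · linarith

/-- `u` is orthogonal to the functions of the second angle -/
lemma u_orth (h : Sl M ε si u w1 w2 p1 p2 g4 g5 mu ka) {v : ℝ × ℝ → ℝ} (wv : WW v)
    (hu : ∀ x, DD om u x = -v x) (hv : ∀ x, DD om v x = u x) {k : ℤ × ℤ}
    (hk : (dot k om) ^ 2 ≠ 1) : mn (fun x => u x * cc k x) = 0 := by
  have a1 : mn (fun x => v x * sn k x) = dot k om * mn (fun x => u x * cc k x) := by
    have := ibp h.wu (sn_WW k) om
    have e1 : mn (fun x => DD om u x * sn k x) = mn (fun x => -1 * (v x * sn k x)) :=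
      mn_congr (fun x => by rw [hu]; ring)
    have e2 : mn (fun x => u x * DD om (sn k) x) = mn (fun x => dot k om * (u x * cc k x)) :=
      mn_congr (fun x => by rw [DD_sn]; ring)
    rw [e1, e2, mn_smul _ (wv.mul (sn_WW k)), mn_smul _ (h.wu.mul (cc_WW k))] at this
    linarith
  have a2 : mn (fun x => u x * cc k x) = dot k om * mn (fun x => v x * sn k x) := by
    have := ibp wv (cc_WW k) om
    have e1 : mn (fun x => DD om v x * cc k x) = mn (fun x => u x * cc k x) :=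
      mn_congr (fun x => by rw [hv])
    have e2 : mn (fun x => v x * DD om (cc k) x) = mn (fun x => -dot k om * (v x * sn k x)) :=
      mn_congr (fun x => by rw [DD_cc]; ring)
    rw [e1, e2, mn_smul _ (wv.mul (sn_WW k))] at this
    linarith
  rw [a1] at a2
  have a3 : ((dot k om) ^ 2 - 1) * mn (fun x => u x * cc k x) = 0 := by linear_combination -a2
  rcases mul_eq_zero.mp a3 with h3 | h3
  · exact absurd (by linarith) hk
  · exact h3

lemma dot0_sq : (dot 0 om) ^ 2 ≠ 1 := by simp [dot]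

lemma dot2_sq : (dot ((0, 1) + (0, 1)) om) ^ 2 ≠ 1 := by
  have ha := al_sq
  have e : dot ((0, 1) + (0, 1)) om = 2 * al := by
    rw [dot_add]
    simp [dot, om]
    ring
  rw [e]
  intro h
  have : (2 * al) ^ 2 = 10 := by linear_combination 4 * ha
  rw [this] at h
  norm_num at h

lemma mn_c1_s2s2 : mn (fun x => c1 x * (s2 x * s2 x)) = 0 := by
  have e : mn (fun x => c1 x * (s2 x * s2 x)) = mn (fun x => 1 / 2 * (sn (1, 1) x * sn (0, 1) x)
      - 1 / 2 * (sn (1, -1) x * sn (0, 1) x)) := mn_congr (fun x => by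
    have := c1s2_eq x
    rw [← mul_assoc, this, s2_eq]; ring)
  rw [e, mn_sub (((sn_WW _).mul (sn_WW _)).smul _) (((sn_WW _).mul (sn_WW _)).smul _),
    mn_smul _ ((sn_WW _).mul (sn_WW _)), mn_smul _ ((sn_WW _).mul (sn_WW _)),
    mn_sn_sn (by simp) (by simp), mn_sn_sn (by simp) (by simp)]
  ring

lemma mn_c1c2_sq : mn (fun x => c1 x * c2 x * (c1 x * c2 x)) = 1 / 4 := by
  have h1 := mn_c1c2_kk true
  have h2 := mn_c1c2_kk false
  have e : mn (fun x => c1 x * c2 x * (c1 x * c2 x)) = mn (fun x => 1 / 2 * (c1 x * c2 x * cc (kk false) x)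
      + 1 / 2 * (c1 x * c2 x * cc (kk true) x)) := mn_congr (fun x => by
    have := c1c2_eq x
    simp only [kk]
    norm_num
    linear_combination (c1 x * c2 x) * this)
  have W1 := (W_c1.mul W_c2).mul (cc_WW (kk false))
  have W2 := (W_c1.mul W_c2).mul (cc_WW (kk true))
  rw [e, mn_add (W1.smul _) (W2.smul _), mn_smul _ W1, mn_smul _ W2, h1, h2]
  norm_num

lemma mn_c1s2_sq : mn (fun x => c1 x * s2 x * (c1 x * s2 x)) = 1 / 4 := by
  have h1 := mn_c1s2_kk true
  have h2 := mn_c1s2_kk false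
  have e : mn (fun x => c1 x * s2 x * (c1 x * s2 x)) = mn (fun x => 1 / 2 * (c1 x * s2 x * sn (kk true) x)
      - 1 / 2 * (c1 x * s2 x * sn (kk false) x)) := mn_congr (fun x => by
    have := c1s2_eq x
    simp only [kk]
    norm_num
    linear_combination (c1 x * s2 x) * this)
  have W1 := (W_c1.mul W_s2).mul (sn_WW (kk false))
  have W2 := (W_c1.mul W_s2).mul (sn_WW (kk true))
  rw [e, mn_sub (W2.smul _) (W1.smul _), mn_smul _ W1, mn_smul _ W2, h1, h2]
  norm_num [sb]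

/-- The expansion of the mass parameter on the boundary of the family. -/
theorem twist (h : Sl M ε si u w1 w2 p1 p2 g4 g5 mu ka) {v : ℝ × ℝ → ℝ} (wv : WW v)
    (hu : ∀ x, DD om u x = -(mu * v x)) (hv : ∀ x, DD om v x = mu * u x)
    (hT1 : ∀ x, (1 + ε * si * u x) * (DD om p1 x - mu * (2 * p2 x)) = mu * ((2 * ka + 1) * w1 x))
    (hT2 : ∀ x, (1 + ε * si * u x) * (DD om p2 x + mu * (2 * p1 x)) = -(mu * ((ka - 1) * w2 x))) :
    |ka - 9 / 4 + 2835 / 5456 * (ε * si) ^ 2| ≤ 1000000 * (M * ε) ^ 3 := by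
  have hmu := mu_one h wv hu hv
  subst hmu
  simp only [one_mul] at hu hv hT1 hT2
  have hε := h.hε
  have hM := h.hM
  have hMε := h.hMε
  have hs1 := h.hs1
  have hs2 := h.hs2
  obtain ⟨η, hη⟩ : ∃ η, η = M * ε := ⟨_, rfl⟩
  have hη0 : 0 ≤ η := by rw [hη]; positivity
  have hη1 : η ≤ 1 / 10 := by rw [hη]; exact hMε
  have hεη : ε ≤ η := by rw [hη]; nlinarith
  have hlo := al_lo
  have hhi := al_hi
  have ha := al_sq
  obtain ⟨hX, hY⟩ := h.XY
  have hMη : 1000 * M ^ 2 * ε ^ 2 = 1000 * η ^ 2 := by rw [hη]; ring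
  rw [hMη] at hX hY
  have cu := h.cu
  have cw1 := h.cw1
  have cw2 := h.cw2
  have cka := h.cka
  rw [← hη] at cu cw1 cw2 cka
  -- the functions T1, T2
  obtain ⟨T1, hT1d⟩ : ∃ T1 : ℝ × ℝ → ℝ, T1 = fun x => DD om p1 x - 2 * p2 x := ⟨_, rfl⟩
  obtain ⟨T2, hT2d⟩ : ∃ T2 : ℝ × ℝ → ℝ, T2 = fun x => DD om p2 x + 2 * p1 x := ⟨_, rfl⟩
  have WT1 : WW T1 := by rw [hT1d]; exact (h.wp1.pd om).sub (h.wp2.smul 2)
  have WT2 : WW T2 := by rw [hT2d]; exact (h.wp2.pd om).add (h.wp1.smul 2)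
  have q1 : ∀ x, T1 x = (2 * ka + 1) * w1 x - ε * si * (u x * T1 x) := fun x => by
    have := hT1 x
    rw [hT1d]
    linarith
  have q2 : ∀ x, T2 x = -(ka - 1) * w2 x - ε * si * (u x * T2 x) := fun x => by
    have := hT2 x
    rw [hT2d]
    linarith
  have hub : ∀ x, |u x| ≤ 11 / 10 := fun x => by
    have h1 := abs_le.mp (cu x)
    have h2 := abs_le.mp (c1_le x)
    rw [abs_le]; constructor <;> linarith
  have hw1b : ∀ x, |w1 x| ≤ 11 / 10 := fun x => by
    have h1 := abs_le.mp (cw1 x)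
    have h2 := abs_le.mp (c2_le x)
    rw [abs_le]; constructor <;> linarith
  have has2 : ∀ x, |8 / 5 * al * s2 x| ≤ 64 / 25 := fun x => by
    have : |8 / 5 * al * s2 x| ≤ 64 / 25 * 1 := P2' (by rw [abs_of_pos (by positivity)]; linarith)
      (s2_le x)
    linarith
  have hw2b : ∀ x, |w2 x| ≤ 3 := fun x => by
    have h1 := abs_le.mp (cw2 x)
    have h2 := abs_le.mp (has2 x)
    rw [abs_le]; constructor <;> linarith
  have hka1 : |2 * ka + 1| ≤ 6 := by
    have := abs_le.mp cka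
    rw [abs_le]; constructor <;> linarith
  have hka2 : |-(ka - 1)| ≤ 3 / 2 := by
    have := abs_le.mp cka
    rw [abs_le]; constructor <;> linarith
  have hes : |ε * si| ≤ 2 * η := by
    rw [abs_of_nonneg (by positivity)]
    nlinarith
  have hes' : |ε * si| ≤ 1 / 5 := by linarith
  -- crude bounds of T1 and T2
  have hTb : ∀ (T : ℝ) (x : ℝ × ℝ) (r N : ℝ), |r| ≤ N → T = r - ε * si * (u x * T) → |T| ≤ 2 * N := by
    intro T x r N hr hT
    have h1 : |ε * si * (u x * T)| ≤ 1 / 5 * (11 / 10 * |T|) := P2' hes' (P2' (hub x) le_rfl)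
    have h2 : |T| ≤ |r| + |ε * si * (u x * T)| := by
      conv_lhs => rw [hT]
      exact abs_sub _ _
    have := abs_nonneg T
    linarith
  have hT1b : ∀ x, |T1 x| ≤ 14 := fun x => by
    have h1 : |(2 * ka + 1) * w1 x| ≤ 6 * (11 / 10) := P2' hka1 (hw1b x)
    have := hTb (T1 x) x _ _ h1 (q1 x)
    linarith
  have hT2b : ∀ x, |T2 x| ≤ 9 := fun x => by
    have h1 : |-(ka - 1) * w2 x| ≤ 3 / 2 * 3 := P2' hka2 (hw2b x)
    have := hTb (T2 x) x _ _ h1 (q2 x)
    linarith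
  -- closeness of T1 and T2
  have cT1 : ∀ x, |T1 x - 11 / 2 * c2 x| ≤ 50 * η := fun x => by
    have e : T1 x - 11 / 2 * c2 x = (2 * ka + 1) * (w1 x - c2 x) + 2 * (ka - 9 / 4) * c2 x
        - ε * si * (u x * T1 x) := by
      linear_combination q1 x
    have b1 : |(2 * ka + 1) * (w1 x - c2 x)| ≤ 6 * η := P2' hka1 (cw1 x)
    have b2 : |2 * (ka - 9 / 4) * c2 x| ≤ 2 * η * 1 :=
      P2' (by rw [abs_mul, abs_of_pos (by norm_num : (0 : ℝ) < 2)]; linarith) (c2_le x)
    have b3 : |ε * si * (u x * T1 x)| ≤ 2 * η * (11 / 10 * 14) := P2' hes (P2' (hub x) (hT1b x))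
    rw [e]
    have s1 := abs_sub ((2 * ka + 1) * (w1 x - c2 x) + 2 * (ka - 9 / 4) * c2 x)
      (ε * si * (u x * T1 x))
    have s2 := abs_add_le ((2 * ka + 1) * (w1 x - c2 x)) (2 * (ka - 9 / 4) * c2 x)
    linarith
  have cT2 : ∀ x, |T2 x - 2 * al * s2 x| ≤ 50 * η := fun x => by
    have e : T2 x - 2 * al * s2 x = -(ka - 1) * (w2 x + 8 / 5 * al * s2 x)
        + (ka - 9 / 4) * (8 / 5 * al * s2 x) - ε * si * (u x * T2 x) := by
      linear_combination q2 x
    have b1 : |-(ka - 1) * (w2 x + 8 / 5 * al * s2 x)| ≤ 3 / 2 * η := P2' hka2 (cw2 x)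
    have b2 : |(ka - 9 / 4) * (8 / 5 * al * s2 x)| ≤ η * (64 / 25) := P2' cka (has2 x)
    have b3 : |ε * si * (u x * T2 x)| ≤ 2 * η * (11 / 10 * 9) := P2' hes (P2' (hub x) (hT2b x))
    rw [e]
    have s1 := abs_sub (-(ka - 1) * (w2 x + 8 / 5 * al * s2 x)
        + (ka - 9 / 4) * (8 / 5 * al * s2 x)) (ε * si * (u x * T2 x))
    have s2 := abs_add_le (-(ka - 1) * (w2 x + 8 / 5 * al * s2 x)) ((ka - 9 / 4) * (8 / 5 * al * s2 x))
    linarith
  have W1 := h.ww1
  have W2 := h.ww2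
  have WU := h.wu
  -- the main identity
  obtain ⟨x0, hx0⟩ : ∃ x0, x0 = mn (fun x => w1 x * c2 x) := ⟨_, rfl⟩
  obtain ⟨y0, hy0⟩ : ∃ y0, y0 = mn (fun x => w2 x * s2 x) := ⟨_, rfl⟩
  obtain ⟨Z1, hZ1⟩ : ∃ Z1, Z1 = mn (fun x => u x * T1 x * c2 x) := ⟨_, rfl⟩
  obtain ⟨Z2, hZ2⟩ : ∃ Z2, Z2 = mn (fun x => u x * T2 x * s2 x) := ⟨_, rfl⟩
  have m1 : mn (fun x => T1 x * c2 x) = -(5 / 2) * x0 - 2 * al * y0 := by
    have i1 : mn (fun x => DD om p1 x * c2 x) = al * mn (fun x => p1 x * s2 x) := by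
      rw [ibp h.wp1 W_c2 om]
      have : mn (fun x => p1 x * DD om c2 x) = mn (fun x => -al * (p1 x * s2 x)) :=
        mn_congr (fun x => by rw [DD_c2, om_snd]; ring)
      rw [this, mn_smul _ (h.wp1.mul W_s2)]; ring
    have i2 : mn (fun x => p1 x * s2 x) = -al * x0 := by
      have : mn (fun x => DD om w1 x * s2 x) = mn (fun x => p1 x * s2 x) :=
        mn_congr (fun x => by rw [h.e1, one_mul])
      rw [← this, ibp W1 W_s2 om]
      have : mn (fun x => w1 x * DD om s2 x) = mn (fun x => al * (w1 x * c2 x)) :=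
        mn_congr (fun x => by rw [DD_s2, om_snd]; ring)
      rw [this, mn_smul _ (W1.mul W_c2), hx0]; ring
    have i3 : mn (fun x => p2 x * c2 x) = al * y0 := by
      have : mn (fun x => DD om w2 x * c2 x) = mn (fun x => p2 x * c2 x) :=
        mn_congr (fun x => by rw [h.e2, one_mul])
      rw [← this, ibp W2 W_c2 om]
      have : mn (fun x => w2 x * DD om c2 x) = mn (fun x => -al * (w2 x * s2 x)) :=
        mn_congr (fun x => by rw [DD_c2, om_snd]; ring)
      rw [this, mn_smul _ (W2.mul W_s2), hy0]; ring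
    have e : mn (fun x => T1 x * c2 x) = mn (fun x => DD om p1 x * c2 x - 2 * (p2 x * c2 x)) :=
      mn_congr (fun x => by rw [hT1d]; ring)
    rw [e, mn_sub ((h.wp1.pd om).mul W_c2) ((h.wp2.mul W_c2).smul 2), mn_smul _ (h.wp2.mul W_c2),
      i1, i2, i3]
    linear_combination (-x0) * ha
  have m2 : mn (fun x => T2 x * s2 x) = -(5 / 2) * y0 - 2 * al * x0 := by
    have i1 : mn (fun x => DD om p2 x * s2 x) = -al * mn (fun x => p2 x * c2 x) := by
      rw [ibp h.wp2 W_s2 om]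
      have : mn (fun x => p2 x * DD om s2 x) = mn (fun x => al * (p2 x * c2 x)) :=
        mn_congr (fun x => by rw [DD_s2, om_snd]; ring)
      rw [this, mn_smul _ (h.wp2.mul W_c2)]; ring
    have i2 : mn (fun x => p1 x * s2 x) = -al * x0 := by
      have : mn (fun x => DD om w1 x * s2 x) = mn (fun x => p1 x * s2 x) :=
        mn_congr (fun x => by rw [h.e1, one_mul])
      rw [← this, ibp W1 W_s2 om]
      have : mn (fun x => w1 x * DD om s2 x) = mn (fun x => al * (w1 x * c2 x)) :=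
        mn_congr (fun x => by rw [DD_s2, om_snd]; ring)
      rw [this, mn_smul _ (W1.mul W_c2), hx0]; ring
    have i3 : mn (fun x => p2 x * c2 x) = al * y0 := by
      have : mn (fun x => DD om w2 x * c2 x) = mn (fun x => p2 x * c2 x) :=
        mn_congr (fun x => by rw [h.e2, one_mul])
      rw [← this, ibp W2 W_c2 om]
      have : mn (fun x => w2 x * DD om c2 x) = mn (fun x => -al * (w2 x * s2 x)) :=
        mn_congr (fun x => by rw [DD_c2, om_snd]; ring)
      rw [this, mn_smul _ (W2.mul W_s2), hy0]; ring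
    have e : mn (fun x => T2 x * s2 x) = mn (fun x => DD om p2 x * s2 x + 2 * (p1 x * s2 x)) :=
      mn_congr (fun x => by rw [hT2d]; ring)
    rw [e, mn_add ((h.wp2.pd om).mul W_s2) ((h.wp1.mul W_s2).smul 2), mn_smul _ (h.wp1.mul W_s2),
      i1, i2, i3]
    linear_combination (-y0) * ha
  have m3 : mn (fun x => T1 x * c2 x) = (2 * ka + 1) * x0 - ε * si * Z1 := by
    have e : mn (fun x => T1 x * c2 x) = mn (fun x => (2 * ka + 1) * (w1 x * c2 x)
        - ε * si * (u x * T1 x * c2 x)) := mn_congr (fun x => by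
      have := q1 x
      linear_combination c2 x * this)
    rw [e, mn_sub ((W1.mul W_c2).smul _) (((WU.mul WT1).mul W_c2).smul _),
      mn_smul _ (W1.mul W_c2), mn_smul _ ((WU.mul WT1).mul W_c2), hx0, hZ1]
  have m4 : mn (fun x => T2 x * s2 x) = -(ka - 1) * y0 - ε * si * Z2 := by
    have e : mn (fun x => T2 x * s2 x) = mn (fun x => -(ka - 1) * (w2 x * s2 x)
        - ε * si * (u x * T2 x * s2 x)) := mn_congr (fun x => by
      have := q2 x
      linear_combination s2 x * this)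
    rw [e, mn_sub ((W2.mul W_s2).smul _) (((WU.mul WT2).mul W_s2).smul _),
      mn_smul _ (W2.mul W_s2), mn_smul _ ((WU.mul WT2).mul W_s2), hy0, hZ2]
  have main : (ka - 9 / 4) * (2 * x0 + 8 / 5 * al * y0) = ε * si * (Z1 - 8 / 5 * al * Z2) := by
    rw [m1] at m3
    rw [m2] at m4
    linear_combination (-1) * m3 + (8 / 5 * al) * m4 + (16 / 5 * x0) * ha
  -- the values of x0 and y0
  have vx : |x0 - 1 / 2| ≤ η := by
    have h1 := mn_close W1 W_c2 W_c2 cw1 c2_le
    have h2 : mn (fun x => c2 x * c2 x) = 1 / 2 := mn_cc_self (by simp)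
    rw [h2, ← hx0] at h1
    exact h1
  have vy : |y0 + 4 / 5 * al| ≤ η := by
    have h1 := mn_close (g := fun x => -(8 / 5 * al) * s2 x) W2 (W_s2.smul _) W_s2
      (fun x => by have := cw2 x; convert this using 2; ring) s2_le
    have h2 : mn (fun x => -(8 / 5 * al) * s2 x * s2 x) = -(4 / 5 * al) := by
      have e : mn (fun x => -(8 / 5 * al) * s2 x * s2 x) = mn (fun x => -(8 / 5 * al) * (s2 x * s2 x)) :=
        mn_congr (fun x => by ring)
      have h3 : mn (fun x => s2 x * s2 x) = 1 / 2 := mn_sn_self (by simp)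
      rw [e, mn_smul _ (W_s2.mul W_s2), h3]; ring
    rw [h2, ← hy0] at h1
    convert h1 using 2
    ring
  -- orthogonality relations
  have o1 : mn (fun x => u x * (c2 x * c2 x)) = 0 := by
    have e : mn (fun x => u x * (c2 x * c2 x)) = mn (fun x => 1 / 2 * (u x * cc 0 x)
        + 1 / 2 * (u x * cc ((0, 1) + (0, 1)) x)) := mn_congr (fun x => by
      have := cc_mul_cc (0, 1) (0, 1) x
      rw [sub_self] at this
      rw [c2_eq, this]; ring)
    rw [e, mn_add ((WU.mul (cc_WW _)).smul _) ((WU.mul (cc_WW _)).smul _),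
      mn_smul _ (WU.mul (cc_WW _)), mn_smul _ (WU.mul (cc_WW _)), u_orth h wv hu hv dot0_sq,
      u_orth h wv hu hv dot2_sq]
    ring
  have o2 : mn (fun x => u x * (s2 x * s2 x)) = 0 := by
    have e : mn (fun x => u x * (s2 x * s2 x)) = mn (fun x => 1 / 2 * (u x * cc 0 x)
        - 1 / 2 * (u x * cc ((0, 1) + (0, 1)) x)) := mn_congr (fun x => by
      have := sn_mul_sn (0, 1) (0, 1) x
      rw [sub_self] at this
      rw [s2_eq, this]; ring)
    rw [e, mn_sub ((WU.mul (cc_WW _)).smul _) ((WU.mul (cc_WW _)).smul _),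
      mn_smul _ (WU.mul (cc_WW _)), mn_smul _ (WU.mul (cc_WW _)), u_orth h wv hu hv dot0_sq,
      u_orth h wv hu hv dot2_sq]
    ring
  obtain ⟨X, hXd⟩ : ∃ X, X = mn (fun x => w1 x * (c1 x * c2 x)) := ⟨_, rfl⟩
  obtain ⟨Y, hYd⟩ : ∃ Y, Y = mn (fun x => w2 x * (c1 x * s2 x)) := ⟨_, rfl⟩
  rw [← hXd] at hX
  rw [← hYd] at hY
  -- crude bounds of X and Y
  have bX : |X| ≤ η := by
    have h1 := mn_close W1 W_c2 (W_c1.mul W_c2) cw1 (fun x => by
      have := P2' (c1_le x) (c2_le x)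
      linarith)
    have h2 : mn (fun x => c2 x * (c1 x * c2 x)) = 0 := by
      rw [← mn_c1_c2c2]
      exact mn_congr (fun x => by ring)
    rw [h2, sub_zero, ← hXd] at h1
    exact h1
  have bY : |Y| ≤ η := by
    have h1 := mn_close (g := fun x => -(8 / 5 * al) * s2 x) W2 (W_s2.smul _) (W_c1.mul W_s2)
      (fun x => by have := cw2 x; convert this using 2; ring) (fun x => by
      have := P2' (c1_le x) (s2_le x)
      linarith)
    have h2 : mn (fun x => -(8 / 5 * al) * s2 x * (c1 x * s2 x)) = 0 := by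
      have e : mn (fun x => -(8 / 5 * al) * s2 x * (c1 x * s2 x))
          = mn (fun x => -(8 / 5 * al) * (c1 x * (s2 x * s2 x))) := mn_congr (fun x => by ring)
      rw [e, mn_smul _ (W_c1.mul (W_s2.mul W_s2)), mn_c1_s2s2, mul_zero]
    rw [h2, sub_zero, ← hYd] at h1
    exact h1
  -- the error terms
  obtain ⟨E1, hE1⟩ : ∃ E1, E1 = mn (fun x => (u x - c1 x) * (T1 x - 11 / 2 * c2 x) * c2 x) := ⟨_, rfl⟩
  obtain ⟨E2, hE2⟩ : ∃ E2, E2 = mn (fun x => (u x - c1 x) * (T2 x - 2 * al * s2 x) * s2 x) := ⟨_, rfl⟩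
  obtain ⟨F1, hF1⟩ : ∃ F1, F1 = mn (fun x => (u x * T1 x - c1 x * (11 / 2 * c2 x)) * (c1 x * c2 x)) :=
    ⟨_, rfl⟩
  obtain ⟨F2, hF2⟩ : ∃ F2, F2 = mn (fun x => (u x * T2 x - c1 x * (2 * al * s2 x)) * (c1 x * s2 x)) :=
    ⟨_, rfl⟩
  have bE1 : |E1| ≤ η * (50 * η) * 1 := by
    rw [hE1]
    refine mn_bd (((WU.sub W_c1).mul (WT1.sub (W_c2.smul _))).mul W_c2) (fun x => ?_)
    exact P2' (P2' (cu x) (cT1 x)) (c2_le x)
  have bE2 : |E2| ≤ η * (50 * η) * 1 := by
    rw [hE2]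
    refine mn_bd (((WU.sub W_c1).mul (WT2.sub (W_s2.smul _))).mul W_s2) (fun x => ?_)
    exact P2' (P2' (cu x) (cT2 x)) (s2_le x)
  have bF1 : |F1| ≤ 61 * η * (1 * 1) := by
    rw [hF1]
    refine mn_bd (((WU.mul WT1).sub (W_c1.mul (W_c2.smul _))).mul (W_c1.mul W_c2)) (fun x => ?_)
    refine P2' ?_ (P2' (c1_le x) (c2_le x))
    have e : u x * T1 x - c1 x * (11 / 2 * c2 x) = u x * (T1 x - 11 / 2 * c2 x)
        + (u x - c1 x) * (11 / 2 * c2 x) := by ring
    have b1 : |u x * (T1 x - 11 / 2 * c2 x)| ≤ 11 / 10 * (50 * η) := P2' (hub x) (cT1 x)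
    have b2 : |(u x - c1 x) * (11 / 2 * c2 x)| ≤ η * (11 / 2 * 1) :=
      P2' (cu x) (P2' (by norm_num) (c2_le x))
    rw [e]
    have := abs_add_le (u x * (T1 x - 11 / 2 * c2 x)) ((u x - c1 x) * (11 / 2 * c2 x))
    linarith
  have bF2 : |F2| ≤ 61 * η * (1 * 1) := by
    rw [hF2]
    refine mn_bd (((WU.mul WT2).sub (W_c1.mul (W_s2.smul _))).mul (W_c1.mul W_s2)) (fun x => ?_)
    refine P2' ?_ (P2' (c1_le x) (s2_le x))
    have e : u x * T2 x - c1 x * (2 * al * s2 x) = u x * (T2 x - 2 * al * s2 x)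
        + (u x - c1 x) * (2 * al * s2 x) := by ring
    have b1 : |u x * (T2 x - 2 * al * s2 x)| ≤ 11 / 10 * (50 * η) := P2' (hub x) (cT2 x)
    have b2 : |(u x - c1 x) * (2 * al * s2 x)| ≤ η * (11 / 2 * 1) :=
      P2' (cu x) (P2' (by rw [abs_of_pos (by linarith)]; linarith) (s2_le x))
    rw [e]
    have := abs_add_le (u x * (T2 x - 2 * al * s2 x)) ((u x - c1 x) * (2 * al * s2 x))
    linarith
  -- the expansions of Z1 and Z2
  have z1 : Z1 = (2 * ka + 1) * X - ε * si * (11 / 8 + F1) + E1 := by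
    have Wm := W_c1.mul W_c2
    have r1 : mn (fun x => T1 x * (c1 x * c2 x)) = (2 * ka + 1) * X
        - ε * si * mn (fun x => u x * T1 x * (c1 x * c2 x)) := by
      have e : mn (fun x => T1 x * (c1 x * c2 x)) = mn (fun x => (2 * ka + 1) * (w1 x * (c1 x * c2 x))
          - ε * si * (u x * T1 x * (c1 x * c2 x))) := mn_congr (fun x => by
        have := q1 x
        linear_combination (c1 x * c2 x) * this)
      rw [e, mn_sub ((W1.mul Wm).smul _) (((WU.mul WT1).mul Wm).smul _),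
        mn_smul _ (W1.mul Wm), mn_smul _ ((WU.mul WT1).mul Wm), hXd]
    have r2 : mn (fun x => u x * T1 x * (c1 x * c2 x)) = 11 / 8 + F1 := by
      have e : mn (fun x => u x * T1 x * (c1 x * c2 x)) = mn (fun x => 11 / 2 * (c1 x * c2 x * (c1 x * c2 x))
          + (u x * T1 x - c1 x * (11 / 2 * c2 x)) * (c1 x * c2 x)) := mn_congr (fun x => by ring)
      rw [e, mn_add ((Wm.mul Wm).smul _)
        (((WU.mul WT1).sub (W_c1.mul (W_c2.smul _))).mul Wm), mn_smul _ (Wm.mul Wm), mn_c1c2_sq, hF1]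
      ring
    have r3 : Z1 = mn (fun x => T1 x * (c1 x * c2 x)) + E1 := by
      have e : mn (fun x => u x * T1 x * c2 x) = mn (fun x => ((T1 x * (c1 x * c2 x)
          + (u x - c1 x) * (T1 x - 11 / 2 * c2 x) * c2 x) - 11 / 2 * (c1 x * (c2 x * c2 x)))
          + 11 / 2 * (u x * (c2 x * c2 x))) := mn_congr (fun x => by ring)
      have Wa := WT1.mul Wm
      have Wb := ((WU.sub W_c1).mul (WT1.sub (W_c2.smul (11 / 2)))).mul W_c2
      have Wc := W_c1.mul (W_c2.mul W_c2)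
      have Wd := WU.mul (W_c2.mul W_c2)
      rw [hZ1, e, mn_add ((Wa.add Wb).sub (Wc.smul _)) (Wd.smul _), mn_sub (Wa.add Wb) (Wc.smul _),
        mn_add Wa Wb, mn_smul _ Wc, mn_smul _ Wd, o1, mn_c1_c2c2, hE1]
      ring
    rw [r3, r1, r2]
  have z2 : Z2 = -(ka - 1) * Y - ε * si * (al / 2 + F2) + E2 := by
    have Wm := W_c1.mul W_s2
    have r1 : mn (fun x => T2 x * (c1 x * s2 x)) = -(ka - 1) * Y
        - ε * si * mn (fun x => u x * T2 x * (c1 x * s2 x)) := by
      have e : mn (fun x => T2 x * (c1 x * s2 x)) = mn (fun x => -(ka - 1) * (w2 x * (c1 x * s2 x))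
          - ε * si * (u x * T2 x * (c1 x * s2 x))) := mn_congr (fun x => by
        have := q2 x
        linear_combination (c1 x * s2 x) * this)
      rw [e, mn_sub ((W2.mul Wm).smul _) (((WU.mul WT2).mul Wm).smul _),
        mn_smul _ (W2.mul Wm), mn_smul _ ((WU.mul WT2).mul Wm), hYd]
    have r2 : mn (fun x => u x * T2 x * (c1 x * s2 x)) = al / 2 + F2 := by
      have e : mn (fun x => u x * T2 x * (c1 x * s2 x)) = mn (fun x => 2 * al * (c1 x * s2 x * (c1 x * s2 x))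
          + (u x * T2 x - c1 x * (2 * al * s2 x)) * (c1 x * s2 x)) := mn_congr (fun x => by ring)
      rw [e, mn_add ((Wm.mul Wm).smul _)
        (((WU.mul WT2).sub (W_c1.mul (W_s2.smul _))).mul Wm), mn_smul _ (Wm.mul Wm), mn_c1s2_sq, hF2]
      ring
    have r3 : Z2 = mn (fun x => T2 x * (c1 x * s2 x)) + E2 := by
      have e : mn (fun x => u x * T2 x * s2 x) = mn (fun x => ((T2 x * (c1 x * s2 x)
          + (u x - c1 x) * (T2 x - 2 * al * s2 x) * s2 x) - 2 * al * (c1 x * (s2 x * s2 x)))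
          + 2 * al * (u x * (s2 x * s2 x))) := mn_congr (fun x => by ring)
      have Wa := WT2.mul Wm
      have Wb := ((WU.sub W_c1).mul (WT2.sub (W_s2.smul (2 * al)))).mul W_s2
      have Wc := W_c1.mul (W_s2.mul W_s2)
      have Wd := WU.mul (W_s2.mul W_s2)
      rw [hZ2, e, mn_add ((Wa.add Wb).sub (Wc.smul _)) (Wd.smul _), mn_sub (Wa.add Wb) (Wc.smul _),
        mn_add Wa Wb, mn_smul _ Wc, mn_smul _ Wd, o2, mn_c1_s2s2, hE2]
      ring
    rw [r3, r1, r2]
  -- the final estimate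
  obtain ⟨L, hL⟩ : ∃ L, L = 2 * x0 + 8 / 5 * al * y0 := ⟨_, rfl⟩
  obtain ⟨R, hR⟩ : ∃ R, R = Z1 - 8 / 5 * al * Z2 - ε * si * (567 / 496) := ⟨_, rfl⟩
  have bal : |8 / 5 * al| ≤ 64 / 25 := by rw [abs_of_pos (by positivity)]; linarith
  have bL : |L + 11 / 5| ≤ 5 * η := by
    have e : L + 11 / 5 = 2 * (x0 - 1 / 2) + 8 / 5 * al * (y0 + 4 / 5 * al) := by
      rw [hL]; linear_combination (-32 / 25) * ha
    have b1 : |2 * (x0 - 1 / 2)| ≤ 2 * η := P2' (by norm_num) vx
    have b2 : |8 / 5 * al * (y0 + 4 / 5 * al)| ≤ 64 / 25 * η := P2' bal vy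
    rw [e]
    have := abs_add_le (2 * (x0 - 1 / 2)) (8 / 5 * al * (y0 + 4 / 5 * al))
    linarith
  have bR : |R| ≤ 20000 * η ^ 2 := by
    have e : R = 11 / 2 * (X - ε * si * (51 / 248)) + 2 * (ka - 9 / 4) * X - ε * si * F1 + E1
        + 8 / 5 * al * (5 / 4 * (Y + ε * si * (19 / 155 * al))) + 8 / 5 * al * ((ka - 9 / 4) * Y)
        + 8 / 5 * al * (ε * si * F2) - 8 / 5 * al * E2 := by
      rw [hR, z1, z2]; linear_combination (ε * si * (86 / 155)) * ha
    have b1 : |11 / 2 * (X - ε * si * (51 / 248))| ≤ 11 / 2 * (1000 * η ^ 2) := P2' (by norm_num) hX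
    have b2 : |2 * (ka - 9 / 4) * X| ≤ 2 * η * η := P2' (P2' (by norm_num) cka) bX
    have b3 : |ε * si * F1| ≤ 2 * η * (61 * η * (1 * 1)) := P2' hes bF1
    have b4 : |8 / 5 * al * (5 / 4 * (Y + ε * si * (19 / 155 * al)))| ≤ 64 / 25 * (5 / 4 * (1000 * η ^ 2)) :=
      P2' bal (P2' (by norm_num) hY)
    have b5 : |8 / 5 * al * ((ka - 9 / 4) * Y)| ≤ 64 / 25 * (η * η) := P2' bal (P2' cka bY)
    have b6 : |8 / 5 * al * (ε * si * F2)| ≤ 64 / 25 * (2 * η * (61 * η * (1 * 1))) :=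
      P2' bal (P2' hes bF2)
    have b7 : |8 / 5 * al * E2| ≤ 64 / 25 * (η * (50 * η) * 1) := P2' bal bE2
    rw [e]
    have s1 := abs_sub (11 / 2 * (X - ε * si * (51 / 248)) + 2 * (ka - 9 / 4) * X - ε * si * F1 + E1
        + 8 / 5 * al * (5 / 4 * (Y + ε * si * (19 / 155 * al))) + 8 / 5 * al * ((ka - 9 / 4) * Y)
        + 8 / 5 * al * (ε * si * F2)) (8 / 5 * al * E2)
    have s2 := abs_add_le (11 / 2 * (X - ε * si * (51 / 248)) + 2 * (ka - 9 / 4) * X - ε * si * F1 + E1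
        + 8 / 5 * al * (5 / 4 * (Y + ε * si * (19 / 155 * al))) + 8 / 5 * al * ((ka - 9 / 4) * Y))
        (8 / 5 * al * (ε * si * F2))
    have s3 := abs_add_le (11 / 2 * (X - ε * si * (51 / 248)) + 2 * (ka - 9 / 4) * X - ε * si * F1 + E1
        + 8 / 5 * al * (5 / 4 * (Y + ε * si * (19 / 155 * al)))) (8 / 5 * al * ((ka - 9 / 4) * Y))
    have s4 := abs_add_le (11 / 2 * (X - ε * si * (51 / 248)) + 2 * (ka - 9 / 4) * X - ε * si * F1 + E1)
        (8 / 5 * al * (5 / 4 * (Y + ε * si * (19 / 155 * al))))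
    have s5 := abs_add_le (11 / 2 * (X - ε * si * (51 / 248)) + 2 * (ka - 9 / 4) * X - ε * si * F1) E1
    have s6 := abs_sub (11 / 2 * (X - ε * si * (51 / 248)) + 2 * (ka - 9 / 4) * X) (ε * si * F1)
    have s7 := abs_add_le (11 / 2 * (X - ε * si * (51 / 248))) (2 * (ka - 9 / 4) * X)
    have hsq := sq_nonneg η
    have t2 : 2 * η * η = 2 * η ^ 2 := by ring
    have t3 : 2 * η * (61 * η * (1 * 1)) = 122 * η ^ 2 := by ring
    have t4 : η * η = η ^ 2 := by ring
    have t5 : η * (50 * η) * 1 = 50 * η ^ 2 := by ring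
    rw [t5] at bE1
    rw [t2] at b2
    rw [t3] at b3
    rw [t4] at b5
    rw [t3] at b6
    rw [t5] at b7
    linarith
  have main2 : (ka - 9 / 4) * L = ε * si * (ε * si * (567 / 496) + R) := by
    rw [hL, main, hR]; ring
  have bk : |ka - 9 / 4| ≤ 3000 * η ^ 2 := by
    have h1 : |(ka - 9 / 4) * L| ≤ 2 * η * (2 * η * (567 / 496) + 20000 * η ^ 2) := by
      rw [main2]
      refine P2' hes ?_
      refine (abs_add_le _ _).trans (add_le_add ?_ bR)
      exact P2' hes (by rw [abs_of_pos]; norm_num)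
    have h2 : (17 : ℝ) / 10 ≤ |L| := by
      have := abs_le.mp bL
      rw [abs_of_neg (by linarith)]; linarith
    rw [abs_mul] at h1
    have h3 : |ka - 9 / 4| * (17 / 10) ≤ |ka - 9 / 4| * |L| := by
      have := abs_nonneg (ka - 9 / 4)
      gcongr
    have h4 : 2 * η * (2 * η * (567 / 496) + 20000 * η ^ 2) ≤ 5100 * η ^ 2 := by
      have h5 : η ^ 3 ≤ 1 / 10 * η ^ 2 := by
        have := mul_le_mul_of_nonneg_left hη1 (sq_nonneg η)
        calc η ^ 3 = η ^ 2 * η := by ring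
          _ ≤ _ := by linarith
      have h6 : 2 * η * (2 * η * (567 / 496) + 20000 * η ^ 2) = 567 / 124 * η ^ 2 + 40000 * η ^ 3 := by
        ring
      have h7 := sq_nonneg η
      rw [h6]
      linarith
    linarith
  have fin : |(ka - 9 / 4 + 2835 / 5456 * (ε * si) ^ 2) * (11 / 5)| ≤ 100000 * η ^ 3 := by
    have e : (ka - 9 / 4 + 2835 / 5456 * (ε * si) ^ 2) * (11 / 5)
        = (ka - 9 / 4) * (L + 11 / 5) - ε * si * R := by
      linear_combination (-1) * main2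
    have b1 : |(ka - 9 / 4) * (L + 11 / 5)| ≤ 3000 * η ^ 2 * (5 * η) := P2' bk bL
    have b2 : |ε * si * R| ≤ 2 * η * (20000 * η ^ 2) := P2' hes bR
    rw [e]
    have := abs_sub ((ka - 9 / 4) * (L + 11 / 5)) (ε * si * R)
    have h3 : 0 ≤ η ^ 3 := by positivity
    have t1 : 3000 * η ^ 2 * (5 * η) = 15000 * η ^ 3 := by ring
    have t2 : 2 * η * (20000 * η ^ 2) = 40000 * η ^ 3 := by ring
    rw [t1] at b1
    rw [t2] at b2
    linarith
  rw [abs_mul, abs_of_pos (by norm_num : (0 : ℝ) < 11 / 5)] at fin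
  rw [hη] at fin
  have h3 : 0 ≤ (M * ε) ^ 3 := by positivity
  linarith [abs_nonneg (ka - 9 / 4 + 2835 / 5456 * (ε * si) ^ 2)]

end Run7.h800
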