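import Pool.Agent.Run7.h800.TameV
import Pool.Agent.Run7.h800.Bin

set_option autoImplicit false
set_option linter.unusedSectionVars false

/-!
# The reduced three-body vector field
-/

namespace Run7.h800

open Filter Topology

variable {P : Type*} [TopologicalSpace P] [CompactSpace P]

/-- families of tame functions, uniformly for small values of the parameter -/
def TF (z0 : JJ → P → ℝ × ℝ → ℝ) (φ : ℝ → P → (JJ → ℝ) → ℝ) : Prop :=
  ∃ e1 : ℝ, 0 < e1 ∧ e1 ≤ 1 ∧ ∃ K : ℝ, 0 ≤ K ∧ ∀ ε, 0 ≤ ε → ε ≤ e1 → Tm 1 K z0 (φ ε)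

variable {z0 : JJ → P → ℝ × ℝ → ℝ}

lemma TF.const' (c : ℝ → C(P, ℝ)) {M : ℝ} (hc : ∀ ε, 0 ≤ ε → ε ≤ 1 → ‖c ε‖ ≤ M) (hM : 0 ≤ M) :
    TF z0 (fun ε p _ => c ε p) :=
  ⟨1, one_pos, le_rfl, M, hM, fun ε h0 h1 => Tm.const (c ε) (hc ε h0 h1)⟩

lemma TF.cst (c : C(P, ℝ)) : TF z0 (fun _ p _ => c p) :=
  TF.const' (fun _ => c) (fun _ _ _ => le_rfl) (norm_nonneg _)

lemma TF.real (c : ℝ) : TF z0 (fun _ _ _ => c) := TF.cst (ContinuousMap.const P c)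

lemma norm_const_le (c : ℝ) : ‖ContinuousMap.const P c‖ ≤ |c| := by
  rw [ContinuousMap.norm_le _ (abs_nonneg _)]
  intro p; simp

lemma TF.eps : TF z0 (fun ε _ _ => ε) :=
  TF.const' (fun ε => ContinuousMap.const P ε) (M := 1) (fun ε h0 h1 => by
    refine (norm_const_le ε).trans ?_
    rw [abs_of_nonneg h0]; exact h1) zero_le_one

lemma TF.coord (i : JJ) {k : ℝ} (hk0 : 0 ≤ k) (hk : B 4 k (z0 i)) : TF z0 (fun _ _ z => z i) :=
  ⟨1, one_pos, le_rfl, k + 1, by linarith, fun ε _ _ => Tm.coord i hk le_rfl (by linarith)⟩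

lemma TF.add {φ ψ : ℝ → P → (JJ → ℝ) → ℝ} (h : TF z0 φ) (g : TF z0 ψ) :
    TF z0 (fun ε p z => φ ε p z + ψ ε p z) := by
  obtain ⟨e1, h1, h1', K1, hK1, h2⟩ := h
  obtain ⟨e2, g1, g1', K2, hK2, g2⟩ := g
  refine ⟨min e1 e2, lt_min h1 g1, (min_le_left _ _).trans h1', K1 + K2, by positivity,
    fun ε h0 he => ?_⟩
  exact (h2 ε h0 (he.trans (min_le_left _ _))).add (g2 ε h0 (he.trans (min_le_right _ _)))

lemma TF.mul {φ ψ : ℝ → P → (JJ → ℝ) → ℝ} (h : TF z0 φ) (g : TF z0 ψ) :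
    TF z0 (fun ε p z => φ ε p z * ψ ε p z) := by
  obtain ⟨e1, h1, h1', K1, hK1, h2⟩ := h
  obtain ⟨e2, g1, g1', K2, hK2, g2⟩ := g
  have := cJ_pos (J := JJ)
  refine ⟨min e1 e2, lt_min h1 g1, (min_le_left _ _).trans h1', cJ JJ * (K1 * K2), by positivity,
    fun ε h0 he => ?_⟩
  exact (h2 ε h0 (he.trans (min_le_left _ _))).mul (g2 ε h0 (he.trans (min_le_right _ _)))

lemma TF.congr {φ ψ : ℝ → P → (JJ → ℝ) → ℝ} (h : TF z0 φ) (e : ∀ ε p z, φ ε p z = ψ ε p z) :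
    TF z0 ψ := by
  have : φ = ψ := by funext ε p z; exact e ε p z
  rwa [this] at h

lemma TF.neg {φ : ℝ → P → (JJ → ℝ) → ℝ} (h : TF z0 φ) : TF z0 (fun ε p z => -φ ε p z) :=
  ((TF.real (-1)).mul h).congr (fun ε p z => by ring)

lemma TF.sub {φ ψ : ℝ → P → (JJ → ℝ) → ℝ} (h : TF z0 φ) (g : TF z0 ψ) :
    TF z0 (fun ε p z => φ ε p z - ψ ε p z) :=
  (h.add g.neg).congr (fun ε p z => by ring)

lemma TF.ps [Nonempty P] {φ : ℝ → P → (JJ → ℝ) → ℝ} (h : TF z0 φ) {a : ℕ → ℝ} (ha : Adm a) :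
    TF z0 (fun ε p z => PS a (ε * φ ε p z)) := by
  obtain ⟨e0, g1, g1', K0, hK0, g2⟩ := h
  obtain ⟨e1, h1, h1', K1, hK1, h2⟩ := (TF.eps (z0 := z0)).mul ⟨e0, g1, g1', K0, hK0, g2⟩
  have hG := GG_nonneg
  refine ⟨min (min e1 e0) (1 / (8 * (K0 + 1))), by positivity,
    (min_le_left _ _).trans ((min_le_left _ _).trans h1'),
    GG * ((Fintype.card JJ + 1) * K1 + 1) ^ 2 + GG * K1 + GG, by positivity, fun ε h0 he => ?_⟩
  have he1 : ε ≤ e1 := he.trans ((min_le_left _ _).trans (min_le_left _ _))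
  have he0 : ε ≤ e0 := he.trans ((min_le_left _ _).trans (min_le_right _ _))
  have he2 : ε ≤ 1 / (8 * (K0 + 1)) := he.trans (min_le_right _ _)
  refine (h2 ε h0 he1).ps ?_ ha
  intro r z hr1 hr4 hz
  refine (((g2 ε h0 he0).b0 r z hr1 hr4 hz).smul ε (by linarith)).mono (by linarith) le_rfl ?_
  rw [abs_of_nonneg h0]
  calc ε * K0 ≤ 1 / (8 * (K0 + 1)) * (K0 + 1) := by
        apply mul_le_mul he2 (by linarith) hK0 (by positivity)
    _ = 1 / 8 := by field_simp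

/-! ### the functions -/

/-- perturbation of the squared distances -/
def fZ (c η a b : ℝ) : ℝ := c * a + 4 * (η * (a * a + b * b))

/-- second remainder of the inverse cubes -/
noncomputable def fQ (c ε s a b : ℝ) : ℝ :=
  fZ c (ε * s) a b * fZ c (ε * s) a b * PS aT (ε * (s * fZ c (ε * s) a b))

/-- sum function -/
noncomputable def fS (ε s a b : ℝ) : ℝ := -12 * (a * a + b * b) + (fQ 4 ε s a b + fQ (-4) ε s a b)

/-- difference remainder -/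
noncomputable def fE (ε s a b : ℝ) : ℝ := fQ 4 ε s a b - fQ (-4) ε s a b

/-- difference function -/
noncomputable def fD (ε s a b : ℝ) : ℝ := -12 * a + ε * s * fE ε s a b

/-- real part of the first force -/
noncomputable def ff1 (ka ε s a b : ℝ) : ℝ := (8 - ka) * (1 / 14) * (fS ε s a b + 2 * a * fD ε s a b)

/-- imaginary part of the first force -/
noncomputable def ff2 (ka ε s a b : ℝ) : ℝ := (8 - ka) * (1 / 7) * (b * fD ε s a b)

/-- nonlinear part of the second force -/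
noncomputable def fk1 (ka ε s a b : ℝ) : ℝ :=
  ka * (1 / 4) * (s * fE ε s a b + 2 * (ε * (s * s)) * (a * fS ε s a b))
    - ε * (s * s) * (a * ff1 ka ε s a b - b * ff2 ka ε s a b)

/-- nonlinear part of the second force -/
noncomputable def fk2 (ka ε s a b : ℝ) : ℝ :=
  ka * (1 / 4) * (2 * (ε * (s * s)) * (b * fS ε s a b))
    - ε * (s * s) * (a * ff2 ka ε s a b + b * ff1 ka ε s a b)

/-- inverse of the first phase variable -/
noncomputable def fI (ε si u : ℝ) : ℝ := PS aI (ε * (si * u))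

/-- linear part -/
def lin (z : JJ → ℝ) : Fin 6 → ℝ :=
  ![-z (Sum.inl 1), z (Sum.inl 0), z (Sum.inl 4), z (Sum.inl 5),
    2 * z (Sum.inl 5) + (2 * z (Sum.inr 1) + 1) * z (Sum.inl 2),
    -2 * z (Sum.inl 4) - (z (Sum.inr 1) - 1) * z (Sum.inl 3)]

/-- perturbation -/
noncomputable def gf (ε s si ti : ℝ) (z : JJ → ℝ) : Fin 6 → ℝ :=
  ![-2 * (s * s * ti) * ff2 (z (Sum.inr 1)) ε s (z (Sum.inl 2)) (z (Sum.inl 3)),
    -(s * s * ti) * ff1 (z (Sum.inr 1)) ε s (z (Sum.inl 2)) (z (Sum.inl 3))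
      - ε * (s * s) * (fI ε si (z (Sum.inl 0))
        * (ff2 (z (Sum.inr 1)) ε s (z (Sum.inl 2)) (z (Sum.inl 3)) * z (Sum.inl 1))),
    0, 0,
    ε * (s * s) * (fI ε si (z (Sum.inl 0))
        * (ff2 (z (Sum.inr 1)) ε s (z (Sum.inl 2)) (z (Sum.inl 3)) * z (Sum.inl 4)))
      - fk1 (z (Sum.inr 1)) ε s (z (Sum.inl 2)) (z (Sum.inl 3))
      + si * z (Sum.inl 0) * fI ε si (z (Sum.inl 0)) * (-((2 * z (Sum.inr 1) + 1) * z (Sum.inl 2))
        + ε * fk1 (z (Sum.inr 1)) ε s (z (Sum.inl 2)) (z (Sum.inl 3))),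
    ε * (s * s) * (fI ε si (z (Sum.inl 0))
        * (ff2 (z (Sum.inr 1)) ε s (z (Sum.inl 2)) (z (Sum.inl 3)) * z (Sum.inl 5)))
      - fk2 (z (Sum.inr 1)) ε s (z (Sum.inl 2)) (z (Sum.inl 3))
      + si * z (Sum.inl 0) * fI ε si (z (Sum.inl 0)) * ((z (Sum.inr 1) - 1) * z (Sum.inl 3)
        + ε * fk2 (z (Sum.inr 1)) ε s (z (Sum.inl 2)) (z (Sum.inl 3)))]

/-- the vector field -/
noncomputable def Yf (ss si ti : C(P, ℝ)) (ε : ℝ) (i : Fin 6) (p : P) (z : JJ → ℝ) : ℝ :=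
  z (Sum.inr 0) * (lin z i + ε * gf ε (ss p) (si p) (ti p) z i)

section tame

variable (ss si ti : C(P, ℝ))

lemma TF_fZ {a b : ℝ → P → (JJ → ℝ) → ℝ} (ha : TF z0 a) (hb : TF z0 b) (c : ℝ) :
    TF z0 (fun ε p z => fZ c (ε * ss p) (a ε p z) (b ε p z)) :=
  ((TF.real c).mul ha).add ((TF.real 4).mul ((TF.eps.mul (TF.cst ss)).mul
    ((ha.mul ha).add (hb.mul hb))))

lemma TF_fQ [Nonempty P] {a b : ℝ → P → (JJ → ℝ) → ℝ} (ha : TF z0 a) (hb : TF z0 b) (c : ℝ) :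
    TF z0 (fun ε p z => fQ c ε (ss p) (a ε p z) (b ε p z)) := by
  have h1 := TF_fZ (z0 := z0) ss ha hb c
  exact (h1.mul h1).mul (((TF.cst ss).mul h1).ps adm_aT)

lemma TF_fS [Nonempty P] {a b : ℝ → P → (JJ → ℝ) → ℝ} (ha : TF z0 a) (hb : TF z0 b) :
    TF z0 (fun ε p z => fS ε (ss p) (a ε p z) (b ε p z)) :=
  ((TF.real (-12)).mul ((ha.mul ha).add (hb.mul hb))).add
    ((TF_fQ (z0 := z0) ss ha hb 4).add (TF_fQ ss ha hb (-4)))

lemma TF_fE [Nonempty P] {a b : ℝ → P → (JJ → ℝ) → ℝ} (ha : TF z0 a) (hb : TF z0 b) :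
    TF z0 (fun ε p z => fE ε (ss p) (a ε p z) (b ε p z)) :=
  (TF_fQ (z0 := z0) ss ha hb 4).sub (TF_fQ ss ha hb (-4))

lemma TF_fD [Nonempty P] {a b : ℝ → P → (JJ → ℝ) → ℝ} (ha : TF z0 a) (hb : TF z0 b) :
    TF z0 (fun ε p z => fD ε (ss p) (a ε p z) (b ε p z)) :=
  ((TF.real (-12)).mul ha).add ((TF.eps.mul (TF.cst ss)).mul (TF_fE (z0 := z0) ss ha hb))

lemma TF_ff1 [Nonempty P] {ka a b : ℝ → P → (JJ → ℝ) → ℝ} (hk : TF z0 ka) (ha : TF z0 a)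
    (hb : TF z0 b) :
    TF z0 (fun ε p z => ff1 (ka ε p z) ε (ss p) (a ε p z) (b ε p z)) :=
  (((TF.real 8).sub hk).mul (TF.real (1 / 14))).mul ((TF_fS (z0 := z0) ss ha hb).add
    (((TF.real 2).mul ha).mul (TF_fD ss ha hb)))

lemma TF_ff2 [Nonempty P] {ka a b : ℝ → P → (JJ → ℝ) → ℝ} (hk : TF z0 ka) (ha : TF z0 a)
    (hb : TF z0 b) :
    TF z0 (fun ε p z => ff2 (ka ε p z) ε (ss p) (a ε p z) (b ε p z)) :=
  (((TF.real 8).sub hk).mul (TF.real (1 / 7))).mul (hb.mul (TF_fD (z0 := z0) ss ha hb))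

lemma TF_fk1 [Nonempty P] {ka a b : ℝ → P → (JJ → ℝ) → ℝ} (hk : TF z0 ka) (ha : TF z0 a)
    (hb : TF z0 b) :
    TF z0 (fun ε p z => fk1 (ka ε p z) ε (ss p) (a ε p z) (b ε p z)) :=
  ((hk.mul (TF.real (1 / 4))).mul (((TF.cst ss).mul (TF_fE (z0 := z0) ss ha hb)).add
    (((TF.real 2).mul (TF.eps.mul ((TF.cst ss).mul (TF.cst ss)))).mul (ha.mul (TF_fS ss ha hb))))).sub
    ((TF.eps.mul ((TF.cst ss).mul (TF.cst ss))).mul ((ha.mul (TF_ff1 ss hk ha hb)).sub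
      (hb.mul (TF_ff2 ss hk ha hb))))

lemma TF_fk2 [Nonempty P] {ka a b : ℝ → P → (JJ → ℝ) → ℝ} (hk : TF z0 ka) (ha : TF z0 a)
    (hb : TF z0 b) :
    TF z0 (fun ε p z => fk2 (ka ε p z) ε (ss p) (a ε p z) (b ε p z)) :=
  ((hk.mul (TF.real (1 / 4))).mul
    (((TF.real 2).mul (TF.eps.mul ((TF.cst ss).mul (TF.cst ss)))).mul
      (hb.mul (TF_fS (z0 := z0) ss ha hb)))).sub
    ((TF.eps.mul ((TF.cst ss).mul (TF.cst ss))).mul ((ha.mul (TF_ff2 ss hk ha hb)).add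
      (hb.mul (TF_ff1 ss hk ha hb))))

lemma TF_fI [Nonempty P] {u : ℝ → P → (JJ → ℝ) → ℝ} (hu : TF z0 u) :
    TF z0 (fun ε p z => fI ε (si p) (u ε p z)) :=
  ((TF.cst si).mul hu).ps adm_aI

lemma TF_lin (hz : ∀ j, TF z0 (fun _ _ z => z j)) (i : Fin 6) : TF z0 (fun _ _ z => lin z i) := by
  fin_cases i
  · exact (hz (Sum.inl 1)).neg
  · exact hz (Sum.inl 0)
  · exact hz (Sum.inl 4)
  · exact hz (Sum.inl 5)
  · exact ((TF.real 2).mul (hz (Sum.inl 5))).add ((((TF.real 2).mul (hz (Sum.inr 1))).add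
      (TF.real 1)).mul (hz (Sum.inl 2)))
  · exact ((TF.real (-2)).mul (hz (Sum.inl 4))).sub (((hz (Sum.inr 1)).sub
      (TF.real 1)).mul (hz (Sum.inl 3)))

lemma TF_gf [Nonempty P] (hz : ∀ j, TF z0 (fun _ _ z => z j)) (i : Fin 6) :
    TF z0 (fun ε p z => gf ε (ss p) (si p) (ti p) z i) := by
  have a := hz (Sum.inl 2)
  have b := hz (Sum.inl 3)
  have k := hz (Sum.inr 1)
  have u := hz (Sum.inl 0)
  have h2 := TF_ff2 (z0 := z0) ss k a b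
  have h1 := TF_ff1 (z0 := z0) ss k a b
  have hI := TF_fI (z0 := z0) si u
  have k1 := TF_fk1 (z0 := z0) ss k a b
  have k2 := TF_fk2 (z0 := z0) ss k a b
  have s2 := (TF.cst (z0 := z0) ss).mul (TF.cst ss)
  have es2 := (TF.eps (z0 := z0)).mul s2
  fin_cases i
  · exact ((TF.real (-2)).mul (s2.mul (TF.cst ti))).mul h2
  · exact (((s2.mul (TF.cst ti)).neg).mul h1).sub (es2.mul (hI.mul (h2.mul (hz (Sum.inl 1)))))
  · exact TF.real 0
  · exact TF.real 0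
  · exact ((es2.mul (hI.mul (h2.mul (hz (Sum.inl 4))))).sub k1).add
      ((((TF.cst si).mul u).mul hI).mul ((((((TF.real 2).mul k).add (TF.real 1)).mul a).neg).add
        (TF.eps.mul k1)))
  · exact ((es2.mul (hI.mul (h2.mul (hz (Sum.inl 5))))).sub k2).add
      ((((TF.cst si).mul u).mul hI).mul (((k.sub (TF.real 1)).mul b).add (TF.eps.mul k2)))

lemma TF_Yf [Nonempty P] (hz : ∀ j, TF z0 (fun _ _ z => z j)) (i : Fin 6) :
    TF z0 (fun ε p z => Yf ss si ti ε i p z) :=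
  (hz (Sum.inr 0)).mul ((TF_lin hz i).add (TF.eps.mul (TF_gf ss si ti hz i)))

end tame

/-! ### reversibility -/

lemma fZ_neg (c η a b : ℝ) : fZ c η a (-b) = fZ c η a b := by unfold fZ; ring

lemma fQ_neg (c ε s a b : ℝ) : fQ c ε s a (-b) = fQ c ε s a b := by unfold fQ; rw [fZ_neg]

lemma fS_neg (ε s a b : ℝ) : fS ε s a (-b) = fS ε s a b := by unfold fS; rw [fQ_neg, fQ_neg]; ring

lemma fE_neg (ε s a b : ℝ) : fE ε s a (-b) = fE ε s a b := by unfold fE; rw [fQ_neg, fQ_neg]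

lemma fD_neg (ε s a b : ℝ) : fD ε s a (-b) = fD ε s a b := by unfold fD; rw [fE_neg]

lemma ff1_neg (ka ε s a b : ℝ) : ff1 ka ε s a (-b) = ff1 ka ε s a b := by
  unfold ff1; rw [fS_neg, fD_neg]

lemma ff2_neg (ka ε s a b : ℝ) : ff2 ka ε s a (-b) = -ff2 ka ε s a b := by
  unfold ff2; rw [fD_neg]; ring

lemma fk1_neg (ka ε s a b : ℝ) : fk1 ka ε s a (-b) = fk1 ka ε s a b := by
  unfold fk1; rw [fE_neg, fS_neg, ff1_neg, ff2_neg]; ring

lemma fk2_neg (ka ε s a b : ℝ) : fk2 ka ε s a (-b) = -fk2 ka ε s a b := by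
  unfold fk2; rw [fS_neg, ff1_neg, ff2_neg]; ring

lemma Yf_rev (ss si ti : C(P, ℝ)) (ε : ℝ) (i : Fin 6) (p : P) (z : JJ → ℝ) :
    Yf ss si ti ε i p (rz z) = -sgJ (Sum.inl i) * Yf ss si ti ε i p z := by
  have h0 : rz z (Sum.inl 0) = z (Sum.inl 0) := by simp [rz]
  have h1 : rz z (Sum.inl 1) = -z (Sum.inl 1) := by simp [rz]
  have h2 : rz z (Sum.inl 2) = z (Sum.inl 2) := by simp [rz]
  have h3 : rz z (Sum.inl 3) = -z (Sum.inl 3) := by simp [rz]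
  have h4 : rz z (Sum.inl 4) = -z (Sum.inl 4) := by simp [rz]
  have h5 : rz z (Sum.inl 5) = z (Sum.inl 5) := by simp [rz]
  have k0 : rz z (Sum.inr 0) = z (Sum.inr 0) := rfl
  have k1 : rz z (Sum.inr 1) = z (Sum.inr 1) := rfl
  unfold Yf
  fin_cases i <;>
  simp only [lin, gf, h0, h1, h2, h3, h4, h5, k0, k1, sgJ, Sum.elim_inl, ff1_neg, ff2_neg,
    fk1_neg, fk2_neg, Fin.zero_eta, Fin.mk_one, Fin.reduceFinMk, Fin.isValue, Matrix.cons_val_zero,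
    Matrix.cons_val_one, Matrix.cons_val] <;> ring

end Run7.h800
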