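import Mathlib

set_option autoImplicit false

/-!
# Quasi-periodic functions with absolutely convergent weighted Fourier series

Functions `P → ℝ × ℝ → ℂ` on the two-dimensional torus, depending continuously on a parameter in a
compact space `P`.
-/

namespace Run7.h800

open Filter Topology

variable {P : Type*} [TopologicalSpace P] [CompactSpace P]

/-- The character of frequency `k`. -/
noncomputable def ch (k : ℤ × ℤ) (x : ℝ × ℝ) : ℂ :=
  Complex.exp (((k.1 * x.1 + k.2 * x.2 : ℝ) : ℂ) * Complex.I)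

/-- The degree of a frequency. -/
def dg (k : ℤ × ℤ) : ℕ := k.1.natAbs + k.2.natAbs

lemma norm_ch (k : ℤ × ℤ) (x : ℝ × ℝ) : ‖ch k x‖ = 1 := by
  unfold ch; exact Complex.norm_exp_ofReal_mul_I _

lemma ch_add (k : ℤ × ℤ) (x y : ℝ × ℝ) : ch k (x + y) = ch k x * ch k y := by
  unfold ch
  rw [← Complex.exp_add]
  congr 1
  simp only [Prod.fst_add, Prod.snd_add]
  push_cast; ring

lemma ch_add_int (j k : ℤ × ℤ) (x : ℝ × ℝ) : ch (j + k) x = ch j x * ch k x := by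
  unfold ch
  rw [← Complex.exp_add]
  congr 1
  simp only [Prod.fst_add, Prod.snd_add]
  push_cast; ring

lemma ch_neg (k : ℤ × ℤ) (x : ℝ × ℝ) : ch k (-x) = ch (-k) x := by
  unfold ch
  congr 1
  simp only [Prod.fst_neg, Prod.snd_neg]
  push_cast; ring

lemma ch_conj (k : ℤ × ℤ) (x : ℝ × ℝ) : (starRingEnd ℂ) (ch k x) = ch (-k) x := by
  unfold ch
  rw [← Complex.exp_conj]
  congr 1
  simp only [Prod.fst_neg, Prod.snd_neg, map_mul, Complex.conj_ofReal, Complex.conj_I]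
  push_cast; ring

lemma ch_zero (x : ℝ × ℝ) : ch 0 x = 1 := by
  unfold ch; simp

lemma dg_neg (k : ℤ × ℤ) : dg (-k) = dg k := by
  unfold dg; simp

lemma dg_add_le (j k : ℤ × ℤ) : dg (j + k) ≤ dg j + dg k := by
  unfold dg
  have h1 := Int.natAbs_add_le j.1 k.1
  have h2 := Int.natAbs_add_le j.2 k.2
  simp only [Prod.fst_add, Prod.snd_add]
  omega

/-- `f` has Fourier coefficients `a` with weighted absolute sum at most `M`. -/
structure BC (r M : ℝ) (a : ℤ × ℤ → C(P, ℂ)) (f : P → ℝ × ℝ → ℂ) : Prop where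
  sum : Summable (fun k : ℤ × ℤ => ‖a k‖ * r ^ dg k)
  le : (∑' k : ℤ × ℤ, ‖a k‖ * r ^ dg k) ≤ M
  rep : ∀ p x, HasSum (fun k : ℤ × ℤ => a k p * ch k x) (f p x)

lemma BC.nonneg {r M : ℝ} {a : ℤ × ℤ → C(P, ℂ)} {f : P → ℝ × ℝ → ℂ} (h : BC r M a f)
    (hr : 0 ≤ r) : 0 ≤ M :=
  le_trans (tsum_nonneg fun k => by positivity) h.le

lemma summable_of_norm_weight {r : ℝ} (hr : 1 ≤ r) {a : ℤ × ℤ → C(P, ℂ)}
    (h : Summable (fun k : ℤ × ℤ => ‖a k‖ * r ^ dg k)) : Summable (fun k : ℤ × ℤ => ‖a k‖) := by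
  refine Summable.of_nonneg_of_le (fun k => norm_nonneg _) (fun k => ?_) h
  exact le_mul_of_one_le_right (norm_nonneg _) (one_le_pow₀ hr)

lemma norm_coef_ch_le (a : C(P, ℂ)) (k : ℤ × ℤ) (p : P) (x : ℝ × ℝ) : ‖a p * ch k x‖ ≤ ‖a‖ := by
  rw [norm_mul, norm_ch, mul_one]
  exact a.norm_coe_le_norm p

lemma summable_ch {a : ℤ × ℤ → C(P, ℂ)} (h : Summable (fun k : ℤ × ℤ => ‖a k‖)) (p : P)
    (x : ℝ × ℝ) : Summable (fun k : ℤ × ℤ => a k p * ch k x) :=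
  Summable.of_norm_bounded h (fun k => norm_coef_ch_le (a k) k p x)

lemma BC.norm_le {r M : ℝ} {a : ℤ × ℤ → C(P, ℂ)} {f : P → ℝ × ℝ → ℂ} (h : BC r M a f)
    (hr : 1 ≤ r) (p : P) (x : ℝ × ℝ) : ‖f p x‖ ≤ M := by
  have hs := summable_of_norm_weight hr h.sum
  have hn : Summable (fun k : ℤ × ℤ => ‖a k p * ch k x‖) :=
    Summable.of_nonneg_of_le (fun k => norm_nonneg _) (fun k => norm_coef_ch_le (a k) k p x) hs
  rw [← (h.rep p x).tsum_eq]
  refine (norm_tsum_le_tsum_norm hn).trans (le_trans ?_ h.le)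
  refine hn.tsum_le_tsum (fun k => ?_) h.sum
  exact (norm_coef_ch_le (a k) k p x).trans
    (le_mul_of_one_le_right (norm_nonneg _) (one_le_pow₀ hr))

lemma BC.mono {r r' M M' : ℝ} {a : ℤ × ℤ → C(P, ℂ)} {f : P → ℝ × ℝ → ℂ} (h : BC r M a f)
    (hr' : 0 ≤ r') (hr : r' ≤ r) (hM : M ≤ M') : BC r' M' a f := by
  obtain ⟨h1, h2, h3⟩ := h
  have hle : ∀ k : ℤ × ℤ, ‖a k‖ * r' ^ dg k ≤ ‖a k‖ * r ^ dg k := fun k => by
    have := pow_le_pow_left₀ hr' hr (dg k)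
    gcongr
  have hs : Summable (fun k : ℤ × ℤ => ‖a k‖ * r' ^ dg k) :=
    Summable.of_nonneg_of_le (fun k => by positivity) hle h1
  exact ⟨hs, (hs.tsum_le_tsum hle h1).trans (h2.trans hM), h3⟩

/-- comparison of coefficients -/
lemma BC.of_coef {r r' M C : ℝ} {a b : ℤ × ℤ → C(P, ℂ)} {f : P → ℝ × ℝ → ℂ} (h : BC r M a f)
    (hC : 0 ≤ C) (hr' : 1 ≤ r') (hle : ∀ k : ℤ × ℤ, ‖b k‖ * r' ^ dg k ≤ C * (‖a k‖ * r ^ dg k)) :
    BC r' (C * M) b (fun p x => ∑' k : ℤ × ℤ, b k p * ch k x) := by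
  obtain ⟨h1, h2, h3⟩ := h
  have hs1 : Summable (fun k : ℤ × ℤ => C * (‖a k‖ * r ^ dg k)) := h1.mul_left C
  have hs : Summable (fun k : ℤ × ℤ => ‖b k‖ * r' ^ dg k) :=
    Summable.of_nonneg_of_le (fun k => by positivity) hle hs1
  refine ⟨hs, ?_, fun p x => (summable_ch (summable_of_norm_weight hr' hs) p x).hasSum⟩
  refine (hs.tsum_le_tsum hle hs1).trans ?_
  rw [tsum_mul_left]
  gcongr

lemma BC.add {r M N : ℝ} {a b : ℤ × ℤ → C(P, ℂ)} {f g : P → ℝ × ℝ → ℂ} (hr : 0 ≤ r)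
    (hf : BC r M a f) (hg : BC r N b g) :
    BC r (M + N) (fun k => a k + b k) (fun p x => f p x + g p x) := by
  obtain ⟨f1, f2, f3⟩ := hf
  obtain ⟨g1, g2, g3⟩ := hg
  have hle : ∀ k : ℤ × ℤ, ‖a k + b k‖ * r ^ dg k ≤ ‖a k‖ * r ^ dg k + ‖b k‖ * r ^ dg k := by
    intro k
    rw [← add_mul]
    have := norm_add_le (a k) (b k)
    gcongr
  have hs : Summable (fun k : ℤ × ℤ => ‖a k + b k‖ * r ^ dg k) :=
    Summable.of_nonneg_of_le (fun k => by positivity) hle (f1.add g1)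
  refine ⟨hs, ?_, fun p x => ?_⟩
  · refine (hs.tsum_le_tsum hle (f1.add g1)).trans ?_
    rw [f1.tsum_add g1]
    gcongr
  · have := (f3 p x).add (g3 p x)
    simpa [add_mul] using this

lemma BC.const_mul {r M : ℝ} {a : ℤ × ℤ → C(P, ℂ)} {f : P → ℝ × ℝ → ℂ} (hr : 0 ≤ r) (c : C(P, ℂ))
    (hf : BC r M a f) : BC r (‖c‖ * M) (fun k => c * a k) (fun p x => c p * f p x) := by
  obtain ⟨f1, f2, f3⟩ := hf
  have hle : ∀ k : ℤ × ℤ, ‖c * a k‖ * r ^ dg k ≤ ‖c‖ * (‖a k‖ * r ^ dg k) := by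
    intro k
    rw [← mul_assoc]
    have := norm_mul_le c (a k)
    gcongr
  have hs : Summable (fun k : ℤ × ℤ => ‖c * a k‖ * r ^ dg k) :=
    Summable.of_nonneg_of_le (fun k => by positivity) hle (f1.mul_left _)
  refine ⟨hs, ?_, fun p x => ?_⟩
  · refine (hs.tsum_le_tsum hle (f1.mul_left _)).trans ?_
    rw [tsum_mul_left]
    gcongr
  · have := (f3 p x).mul_left (c p)
    simpa [mul_assoc] using this

lemma BC.const {r : ℝ} (c : C(P, ℂ)) :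
    BC r ‖c‖ (fun k => if k = 0 then c else 0) (fun p _ => c p) := by
  have h1 : HasSum (fun k : ℤ × ℤ => ‖(if k = 0 then c else 0 : C(P, ℂ))‖ * r ^ dg k) ‖c‖ := by
    have := hasSum_single (f := fun k : ℤ × ℤ => ‖(if k = 0 then c else 0 : C(P, ℂ))‖ * r ^ dg k) 0
      (by intro k hk; simp [hk])
    simpa [dg] using this
  refine ⟨h1.summable, h1.tsum_eq.le, fun p x => ?_⟩
  have := hasSum_single (f := fun k : ℤ × ℤ => (if k = 0 then c else 0 : C(P, ℂ)) p * ch k x) 0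
      (by intro k hk; simp [hk])
  simpa [ch_zero] using this

/-- a single character -/
lemma BC.char {r : ℝ} (c : C(P, ℂ)) (j : ℤ × ℤ) :
    BC r (‖c‖ * r ^ dg j) (fun k => if k = j then c else 0) (fun p x => c p * ch j x) := by
  have h1 : HasSum (fun k : ℤ × ℤ => ‖(if k = j then c else 0 : C(P, ℂ))‖ * r ^ dg k)
      (‖c‖ * r ^ dg j) := by
    have := hasSum_single (f := fun k : ℤ × ℤ => ‖(if k = j then c else 0 : C(P, ℂ))‖ * r ^ dg k) j
      (by intro k hk; simp [hk])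
    simpa using this
  refine ⟨h1.summable, h1.tsum_eq.le, fun p x => ?_⟩
  have := hasSum_single (f := fun k : ℤ × ℤ => (if k = j then c else 0 : C(P, ℂ)) p * ch k x) j
      (by intro k hk; simp [hk])
  simpa using this

lemma BC.refl {r M : ℝ} {a : ℤ × ℤ → C(P, ℂ)} {f : P → ℝ × ℝ → ℂ} (hf : BC r M a f) :
    BC r M (fun k => a (-k)) (fun p x => f p (-x)) := by
  obtain ⟨f1, f2, f3⟩ := hf
  have e : (fun k : ℤ × ℤ => ‖a (-k)‖ * r ^ dg k)
      = (fun k => (‖a k‖ * r ^ dg k)) ∘ (Equiv.neg (ℤ × ℤ)) := by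
    funext k; simp [dg_neg]
  refine ⟨?_, ?_, fun p x => ?_⟩
  · rw [e]; exact (Equiv.neg (ℤ × ℤ)).summable_iff.mpr f1
  · rw [e]
    have := (Equiv.neg (ℤ × ℤ)).tsum_eq (fun k : ℤ × ℤ => (‖a k‖ * r ^ dg k))
    exact this.trans_le f2
  · have h := f3 p (-x)
    have h2 := (Equiv.neg (ℤ × ℤ)).hasSum_iff.mpr h
    convert h2 using 2 with k
    simp [ch_neg]

lemma BC.conj {r M : ℝ} {a : ℤ × ℤ → C(P, ℂ)} {f : P → ℝ × ℝ → ℂ} (hf : BC r M a f) :
    BC r M (fun k => star (a (-k))) (fun p x => (starRingEnd ℂ) (f p x)) := by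
  obtain ⟨f1, f2, f3⟩ := hf
  have e : (fun k : ℤ × ℤ => ‖star (a (-k))‖ * r ^ dg k)
      = (fun k => (‖a k‖ * r ^ dg k)) ∘ (Equiv.neg (ℤ × ℤ)) := by
    funext k; simp [dg_neg, norm_star]
  refine ⟨?_, ?_, fun p x => ?_⟩
  · rw [e]; exact (Equiv.neg (ℤ × ℤ)).summable_iff.mpr f1
  · rw [e]
    have := (Equiv.neg (ℤ × ℤ)).tsum_eq (fun k : ℤ × ℤ => (‖a k‖ * r ^ dg k))
    exact this.trans_le f2
  · have h := (f3 p x).map (starRingEnd ℂ) Complex.continuous_conj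
    have h2 := (Equiv.neg (ℤ × ℤ)).hasSum_iff.mpr h
    convert h2 using 2 with k
    simp [ch_conj]

lemma BC.mul {r M N : ℝ} {a b : ℤ × ℤ → C(P, ℂ)} {f g : P → ℝ × ℝ → ℂ} (hr : 1 ≤ r)
    (hf : BC r M a f) (hg : BC r N b g) :
    BC r (M * N) (fun n => ∑' j, a j * b (n - j)) (fun p x => f p x * g p x) := by
  have hr0 : (0 : ℝ) ≤ r := by linarith
  have hM := hf.nonneg hr0
  have hN := hg.nonneg hr0
  obtain ⟨f1, f2, f3⟩ := hf
  obtain ⟨g1, g2, g3⟩ := hg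
  set F : ℤ × ℤ → ℝ := fun k => ‖a k‖ * r ^ dg k with hF
  set G : ℤ × ℤ → ℝ := fun k => ‖b k‖ * r ^ dg k with hG
  have hF0 : ∀ k, 0 ≤ F k := fun k => by simp only [hF]; positivity
  have hG0 : ∀ k, 0 ≤ G k := fun k => by simp only [hG]; positivity
  let e : (ℤ × ℤ) × (ℤ × ℤ) ≃ (ℤ × ℤ) × (ℤ × ℤ) :=
    { toFun := fun x => (x.2, x.1 - x.2)
      invFun := fun x => (x.1 + x.2, x.1)
      left_inv := fun x => by ext <;> simp
      right_inv := fun x => by ext <;> simp }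
  have hFG : Summable (fun x : (ℤ × ℤ) × (ℤ × ℤ) => F x.1 * G x.2) := f1.mul_of_nonneg g1 hF0 hG0
  have hFG' : Summable (fun x : (ℤ × ℤ) × (ℤ × ℤ) => F x.2 * G (x.1 - x.2)) := by
    have := e.summable_iff.mpr hFG
    exact this
  have hFGt : ∑' x : (ℤ × ℤ) × (ℤ × ℤ), F x.2 * G (x.1 - x.2) = (∑' k, F k) * ∑' k, G k := by
    rw [f1.tsum_mul_tsum g1 hFG]
    exact e.tsum_eq (fun x : (ℤ × ℤ) × (ℤ × ℤ) => F x.1 * G x.2)
  have hle2 : ∀ x : (ℤ × ℤ) × (ℤ × ℤ), ‖a x.2 * b (x.1 - x.2)‖ * r ^ dg x.1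
      ≤ F x.2 * G (x.1 - x.2) := by
    intro x
    simp only [hF, hG]
    have h1 : r ^ dg x.1 ≤ r ^ dg x.2 * r ^ dg (x.1 - x.2) := by
      rw [← pow_add]
      apply pow_le_pow_right₀ hr
      have := dg_add_le x.2 (x.1 - x.2)
      rwa [add_sub_cancel] at this
    have h2 := norm_mul_le (a x.2) (b (x.1 - x.2))
    calc ‖a x.2 * b (x.1 - x.2)‖ * r ^ dg x.1
        ≤ ‖a x.2‖ * ‖b (x.1 - x.2)‖ * (r ^ dg x.2 * r ^ dg (x.1 - x.2)) := by gcongr
      _ = _ := by ring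
  have hS : Summable (fun x : (ℤ × ℤ) × (ℤ × ℤ) => ‖a x.2 * b (x.1 - x.2)‖ * r ^ dg x.1) :=
    Summable.of_nonneg_of_le (fun x => by positivity) hle2 hFG'
  have hS1 : Summable (fun x : (ℤ × ℤ) × (ℤ × ℤ) => ‖a x.2 * b (x.1 - x.2)‖) := by
    refine Summable.of_nonneg_of_le (fun x => by positivity) (fun x => ?_) hS
    exact le_mul_of_one_le_right (norm_nonneg _) (one_le_pow₀ hr)
  have hfib : ∀ n : ℤ × ℤ, Summable (fun j => ‖a j * b (n - j)‖) := fun n => hS1.prod_factor n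
  have hle3 : ∀ n : ℤ × ℤ, ‖∑' j, a j * b (n - j)‖ * r ^ dg n
      ≤ ∑' j, ‖a j * b (n - j)‖ * r ^ dg n := by
    intro n
    rw [tsum_mul_right]
    have := norm_tsum_le_tsum_norm (hfib n)
    gcongr
  have hS2 : Summable (fun n : ℤ × ℤ => ∑' j, ‖a j * b (n - j)‖ * r ^ dg n) := hS.prod
  have hs : Summable (fun n : ℤ × ℤ => ‖∑' j, a j * b (n - j)‖ * r ^ dg n) :=
    Summable.of_nonneg_of_le (fun n => by positivity) hle3 hS2
  refine ⟨hs, ?_, fun p t => ?_⟩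
  · calc ∑' n : ℤ × ℤ, ‖∑' j, a j * b (n - j)‖ * r ^ dg n
        ≤ ∑' n : ℤ × ℤ, ∑' j, ‖a j * b (n - j)‖ * r ^ dg n := hs.tsum_le_tsum hle3 hS2
      _ = ∑' x : (ℤ × ℤ) × (ℤ × ℤ), ‖a x.2 * b (x.1 - x.2)‖ * r ^ dg x.1 := by
          rw [hS.tsum_prod]
      _ ≤ ∑' x : (ℤ × ℤ) × (ℤ × ℤ), F x.2 * G (x.1 - x.2) := hS.tsum_le_tsum hle2 hFG'
      _ = (∑' k, F k) * ∑' k, G k := hFGt
      _ ≤ M * N := by
          have : 0 ≤ ∑' k, G k := tsum_nonneg hG0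
          gcongr
  · have h0 : Summable (fun x : (ℤ × ℤ) × (ℤ × ℤ) => (a x.1 p * ch x.1 t) * (b x.2 p * ch x.2 t)) := by
      apply Summable.of_norm
      refine Summable.of_nonneg_of_le (fun x => norm_nonneg _) (fun x => ?_) hFG
      simp only [hF, hG]
      rw [norm_mul]
      have h1 : (1 : ℝ) ≤ r ^ dg x.1 := one_le_pow₀ hr
      have h2 : (1 : ℝ) ≤ r ^ dg x.2 := one_le_pow₀ hr
      have h3 := norm_nonneg (a x.1)
      have h4 := norm_nonneg (b x.2)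
      have h5 := norm_coef_ch_le (a x.1) x.1 p t
      have h6 := norm_coef_ch_le (b x.2) x.2 p t
      calc ‖a x.1 p * ch x.1 t‖ * ‖b x.2 p * ch x.2 t‖ ≤ (‖a x.1‖ * 1) * (‖b x.2‖ * 1) := by
            rw [mul_one, mul_one]; gcongr
        _ ≤ _ := by gcongr
    have h1 : HasSum (fun x : (ℤ × ℤ) × (ℤ × ℤ) => (a x.1 p * ch x.1 t) * (b x.2 p * ch x.2 t))
        (f p t * g p t) := by
      have h2 := HasSum.mul (f3 p t) (g3 p t) h0
      exact h2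
    have h2 : HasSum (fun x : (ℤ × ℤ) × (ℤ × ℤ) => (a x.2 * b (x.1 - x.2)) p * ch x.1 t)
        (f p t * g p t) := by
      have := e.hasSum_iff.mpr h1
      convert this using 2 with x
      have h3 : ch x.1 t = ch x.2 t * ch (x.1 - x.2) t := by
        rw [← ch_add_int]; congr 1; abel
      simp only [Function.comp, e, Equiv.coe_fn_mk]
      rw [h3, ContinuousMap.mul_apply]; ring
    have h5 : ∀ n : ℤ × ℤ, HasSum (fun j => (a j * b (n - j)) p * ch n t)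
        ((∑' j, a j * b (n - j)) p * ch n t) := by
      intro n
      have h4 : Summable (fun j => a j * b (n - j)) := (hfib n).of_norm
      have h7 : HasSum (fun j => (a j * b (n - j)) p) ((∑' j, a j * b (n - j)) p) :=
        h4.hasSum.map (ContinuousMap.evalCLM ℂ p) (ContinuousMap.evalCLM ℂ p).continuous
      exact h7.mul_right (ch n t)
    exact HasSum.prod_fiberwise (f := fun x : (ℤ × ℤ) × (ℤ × ℤ) => (a x.2 * b (x.1 - x.2)) p * ch x.1 t)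
      (g := fun n : ℤ × ℤ => (∑' j, a j * b (n - j)) p * ch n t) h2 h5

/-- series of functions -/
lemma BC.tsum {r : ℝ} (hr : 1 ≤ r) {M : ℕ → ℝ} {a : ℕ → ℤ × ℤ → C(P, ℂ)}
    {f : ℕ → P → ℝ × ℝ → ℂ} (hM : Summable M) (h : ∀ n, BC r (M n) (a n) (f n)) :
    BC r (∑' n, M n) (fun k => ∑' n, a n k) (fun p x => ∑' n, f n p x) := by
  have hr0 : (0 : ℝ) ≤ r := by linarith
  have hS : Summable (fun x : ℕ × (ℤ × ℤ) => ‖a x.1 x.2‖ * r ^ dg x.2) := by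
    rw [summable_prod_of_nonneg (fun x => by positivity)]
    refine ⟨fun n => (h n).sum, ?_⟩
    exact Summable.of_nonneg_of_le (fun n => tsum_nonneg fun k => by positivity)
      (fun n => (h n).le) hM
  have hS' : Summable (fun x : (ℤ × ℤ) × ℕ => ‖a x.2 x.1‖ * r ^ dg x.1) := by
    have := (Equiv.prodComm (ℤ × ℤ) ℕ).summable_iff.mpr hS
    exact this
  have hS1 : Summable (fun x : (ℤ × ℤ) × ℕ => ‖a x.2 x.1‖) := by
    refine Summable.of_nonneg_of_le (fun x => by positivity) (fun x => ?_) hS'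
    exact le_mul_of_one_le_right (norm_nonneg _) (one_le_pow₀ hr)
  have hfib : ∀ k : ℤ × ℤ, Summable (fun n => ‖a n k‖) := fun k => hS1.prod_factor k
  have hle3 : ∀ k : ℤ × ℤ, ‖∑' n, a n k‖ * r ^ dg k ≤ ∑' n, ‖a n k‖ * r ^ dg k := by
    intro k
    rw [tsum_mul_right]
    have := norm_tsum_le_tsum_norm (hfib k)
    gcongr
  have hS2 : Summable (fun k : ℤ × ℤ => ∑' n, ‖a n k‖ * r ^ dg k) := hS'.prod
  have hs : Summable (fun k : ℤ × ℤ => ‖∑' n, a n k‖ * r ^ dg k) :=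
    Summable.of_nonneg_of_le (fun n => by positivity) hle3 hS2
  refine ⟨hs, ?_, fun p t => ?_⟩
  · calc ∑' k : ℤ × ℤ, ‖∑' n, a n k‖ * r ^ dg k
        ≤ ∑' k : ℤ × ℤ, ∑' n, ‖a n k‖ * r ^ dg k := hs.tsum_le_tsum hle3 hS2
      _ = ∑' x : (ℤ × ℤ) × ℕ, ‖a x.2 x.1‖ * r ^ dg x.1 := (hS'.tsum_prod).symm
      _ = ∑' x : ℕ × (ℤ × ℤ), ‖a x.1 x.2‖ * r ^ dg x.2 :=
          (Equiv.prodComm (ℤ × ℤ) ℕ).tsum_eq (fun x : ℕ × (ℤ × ℤ) => ‖a x.1 x.2‖ * r ^ dg x.2)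
      _ = ∑' n, ∑' k : ℤ × ℤ, ‖a n k‖ * r ^ dg k := hS.tsum_prod
      _ ≤ ∑' n, M n := by
          refine Summable.tsum_le_tsum (fun n => (h n).le) ?_ hM
          exact hS.prod
  · have hSt : Summable (fun x : ℕ × (ℤ × ℤ) => ‖a x.1 x.2 p * ch x.2 t‖) := by
      have : Summable (fun x : ℕ × (ℤ × ℤ) => ‖a x.1 x.2‖) := by
        refine Summable.of_nonneg_of_le (fun x => by positivity) (fun x => ?_) hS
        exact le_mul_of_one_le_right (norm_nonneg _) (one_le_pow₀ hr)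
      exact Summable.of_nonneg_of_le (fun x => norm_nonneg _)
        (fun x => norm_coef_ch_le (a x.1 x.2) x.2 p t) this
    have h1 : Summable (fun x : ℕ × (ℤ × ℤ) => a x.1 x.2 p * ch x.2 t) := hSt.of_norm
    have h2 : HasSum (fun n => f n p t) (∑' x : ℕ × (ℤ × ℤ), a x.1 x.2 p * ch x.2 t) :=
      h1.hasSum.prod_fiberwise (fun n => (h n).rep p t)
    have h1' : HasSum (fun x : (ℤ × ℤ) × ℕ => a x.2 x.1 p * ch x.1 t)
        (∑' x : ℕ × (ℤ × ℤ), a x.1 x.2 p * ch x.2 t) := by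
      have := (Equiv.prodComm (ℤ × ℤ) ℕ).hasSum_iff.mpr h1.hasSum
      exact this
    have h8 : ∀ k, HasSum (fun n => a n k p) ((∑' n, a n k) p) := fun k =>
      ((hfib k).of_norm.hasSum).map (ContinuousMap.evalCLM ℂ p) (ContinuousMap.evalCLM ℂ p).continuous
    have h3 := h1'.prod_fiberwise (fun k => ((h8 k).mul_right (ch k t)))
    rw [← h2.tsum_eq] at h3
    exact h3

lemma nat_mul_pow_le {s : ℝ} (hs0 : 0 ≤ s) (hs1 : s < 1) (n : ℕ) :
    (n : ℝ) * s ^ n ≤ 1 / (1 - s) := by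
  have h1 : (n : ℝ) * s ^ n ≤ ∑ j ∈ Finset.range n, s ^ j := by
    calc (n : ℝ) * s ^ n = ∑ j ∈ Finset.range n, s ^ n := by simp
      _ ≤ ∑ j ∈ Finset.range n, s ^ j := by
          apply Finset.sum_le_sum
          intro j hj
          exact pow_le_pow_of_le_one hs0 hs1.le (Finset.mem_range.mp hj).le
  have h2 : (∑ j ∈ Finset.range n, s ^ j) * (1 - s) = 1 - s ^ n := geom_sum_mul_neg s n
  rw [le_div_iff₀ (by linarith)]
  have h3 : 0 ≤ s ^ n := pow_nonneg hs0 n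
  calc (n : ℝ) * s ^ n * (1 - s) ≤ (∑ j ∈ Finset.range n, s ^ j) * (1 - s) := by
        have : 0 ≤ 1 - s := by linarith
        gcongr
    _ = 1 - s ^ n := h2
    _ ≤ 1 := by linarith

end Run7.h800
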