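import Pool.Agent.Run7.h800.Wie

set_option autoImplicit false

/-!
# Derivatives and the cohomological equations
-/

namespace Run7.h800

open Filter Topology

variable {P : Type*} [TopologicalSpace P] [CompactSpace P]

/-- pairing of a frequency with a vector -/
def dot (k : ℤ × ℤ) (v : ℝ × ℝ) : ℝ := k.1 * v.1 + k.2 * v.2

lemma abs_dot_le (k : ℤ × ℤ) (v : ℝ × ℝ) : |dot k v| ≤ dg k * ‖v‖ := by
  unfold dot dg
  have h1 : |v.1| ≤ ‖v‖ := norm_fst_le v
  have h2 : |v.2| ≤ ‖v‖ := norm_snd_le v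
  have e1 : |(k.1 : ℝ)| = (k.1.natAbs : ℝ) := by rw [Nat.cast_natAbs, Int.cast_abs]
  have e2 : |(k.2 : ℝ)| = (k.2.natAbs : ℝ) := by rw [Nat.cast_natAbs, Int.cast_abs]
  calc |(k.1 : ℝ) * v.1 + k.2 * v.2| ≤ |(k.1 : ℝ)| * |v.1| + |(k.2 : ℝ)| * |v.2| := by
        rw [← abs_mul, ← abs_mul]; exact abs_add_le _ _
    _ ≤ (k.1.natAbs : ℝ) * ‖v‖ + (k.2.natAbs : ℝ) * ‖v‖ := by rw [e1, e2]; gcongr
    _ = _ := by push_cast; ring

/-- the linear form of a frequency -/
noncomputable def lk (k : ℤ × ℤ) : ℝ × ℝ →L[ℝ] ℝ :=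
  (k.1 : ℝ) • ContinuousLinearMap.fst ℝ ℝ ℝ + (k.2 : ℝ) • ContinuousLinearMap.snd ℝ ℝ ℝ

lemma lk_apply (k : ℤ × ℤ) (v : ℝ × ℝ) : lk k v = dot k v := by
  simp [lk, dot]

/-- the derivative of a character -/
noncomputable def dch (k : ℤ × ℤ) (x : ℝ × ℝ) : ℝ × ℝ →L[ℝ] ℂ :=
  (ch k x * Complex.I) • (Complex.ofRealCLM.comp (lk k))

lemma dch_apply (k : ℤ × ℤ) (x v : ℝ × ℝ) : dch k x v = ch k x * Complex.I * (dot k v : ℝ) := by
  simp [dch, lk_apply]

lemma hasFDerivAt_ch (k : ℤ × ℤ) (x : ℝ × ℝ) : HasFDerivAt (ch k) (dch k x) x := by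
  have h1 : HasFDerivAt (fun x : ℝ × ℝ => (lk k x : ℂ)) (Complex.ofRealCLM.comp (lk k)) x :=
    (Complex.ofRealCLM.comp (lk k)).hasFDerivAt
  have h2 := h1.mul_const Complex.I
  have h3 := h2.cexp
  have e : (fun x : ℝ × ℝ => Complex.exp ((lk k x : ℂ) * Complex.I)) = ch k := by
    funext y; rw [lk_apply]; rfl
  rw [e] at h3
  refine h3.congr_fderiv ?_
  unfold dch
  have : Complex.exp ((lk k x : ℂ) * Complex.I) = ch k x := by rw [lk_apply]; rfl
  rw [this, smul_smul]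

lemma norm_dch_le (k : ℤ × ℤ) (x : ℝ × ℝ) : ‖dch k x‖ ≤ dg k := by
  refine ContinuousLinearMap.opNorm_le_bound _ (by positivity) (fun v => ?_)
  rw [dch_apply, norm_mul, norm_mul, norm_ch, Complex.norm_I, Complex.norm_real, one_mul, one_mul]
  exact abs_dot_le k v

/-- derivative of the sum of a Fourier series -/
lemma BC.hasFDerivAt {r M : ℝ} {a : ℤ × ℤ → C(P, ℂ)} {f : P → ℝ × ℝ → ℂ} (hf : BC r M a f)
    (hr : 1 < r) (p : P) (x : ℝ × ℝ) :
    HasFDerivAt (f p) (∑' k, a k p • dch k x) x ∧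
      Summable (fun k => a k p • dch k x) := by
  have hr0 : 0 < r := by linarith
  obtain ⟨s, hs⟩ : ∃ s : ℝ, s = 1 / r := ⟨_, rfl⟩
  have hs0 : 0 < s := by rw [hs]; positivity
  have hs1 : s < 1 := by rw [hs, div_lt_one hr0]; exact hr
  have hrs : r * s = 1 := by rw [hs]; field_simp
  have hsum : Summable (fun k : ℤ × ℤ => ‖a k‖ * dg k) := by
    refine Summable.of_nonneg_of_le (fun k => by positivity) (fun k => ?_)
      (hf.sum.mul_left (1 / (1 - s)))
    have h2 := nat_mul_pow_le hs0.le hs1 (dg k)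
    have h3 : (r * s) ^ dg k = 1 := by rw [hrs, one_pow]
    calc ‖a k‖ * dg k = (‖a k‖ * r ^ dg k) * (dg k * s ^ dg k) := by
          rw [mul_pow] at h3
          calc ‖a k‖ * dg k = ‖a k‖ * dg k * (r ^ dg k * s ^ dg k) := by rw [h3, mul_one]
            _ = _ := by ring
      _ ≤ (‖a k‖ * r ^ dg k) * (1 / (1 - s)) := by gcongr
      _ = _ := by ring
  have hb : ∀ (k : ℤ × ℤ) (x : ℝ × ℝ), ‖a k p • dch k x‖ ≤ ‖a k‖ * dg k := by
    intro k x
    rw [norm_smul]
    have h1 := (a k).norm_coe_le_norm p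
    have h2 := norm_dch_le k x
    gcongr
  have h2 := hasFDerivAt_tsum (u := fun k : ℤ × ℤ => ‖a k‖ * dg k)
    (f := fun (k : ℤ × ℤ) (x : ℝ × ℝ) => a k p * ch k x)
    (f' := fun (k : ℤ × ℤ) (x : ℝ × ℝ) => a k p • dch k x) hsum
    (fun k y => (hasFDerivAt_ch k y).const_mul (a k p)) (fun k y => hb k y)
    (x₀ := x) (hf.rep p x).summable x
  have e1 : (fun y => ∑' k : ℤ × ℤ, a k p * ch k y) = f p := by
    funext z; exact (hf.rep p z).tsum_eq
  rw [e1] at h2
  exact ⟨h2, Summable.of_norm_bounded hsum (fun k => hb k x)⟩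

/-- coefficients of the derivative -/
noncomputable def dcoef (v : ℝ × ℝ) (a : ℤ × ℤ → C(P, ℂ)) (k : ℤ × ℤ) : C(P, ℂ) :=
  (Complex.I * (dot k v : ℝ)) • a k

lemma BC.fder {r M s : ℝ} {a : ℤ × ℤ → C(P, ℂ)} {f : P → ℝ × ℝ → ℂ} (hf : BC r M a f)
    (hs0 : 0 < s) (hs1 : s < 1) (hrs : 1 ≤ r * s) (v : ℝ × ℝ) :
    BC (r * s) (‖v‖ / (1 - s) * M) (dcoef v a) (fun p x => fderiv ℝ (f p) x v) := by
  have h1s : 0 < 1 - s := by linarith
  have hr : 1 < r := by
    by_contra h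
    push Not at h
    nlinarith
  have hr0 : 0 < r := by linarith
  have hle : ∀ k : ℤ × ℤ, ‖dcoef v a k‖ * (r * s) ^ dg k
      ≤ (‖v‖ / (1 - s)) * (‖a k‖ * r ^ dg k) := by
    intro k
    have e1 : ‖dcoef v a k‖ = |dot k v| * ‖a k‖ := by
      unfold dcoef
      rw [norm_smul, norm_mul, Complex.norm_I, one_mul, Complex.norm_real, Real.norm_eq_abs]
    have h2 := nat_mul_pow_le hs0.le hs1 (dg k)
    have h3 := abs_dot_le k v
    rw [e1, mul_pow]
    calc |dot k v| * ‖a k‖ * (r ^ dg k * s ^ dg k)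
        ≤ (dg k * ‖v‖) * ‖a k‖ * (r ^ dg k * s ^ dg k) := by gcongr
      _ = ‖v‖ * (‖a k‖ * r ^ dg k) * (dg k * s ^ dg k) := by ring
      _ ≤ ‖v‖ * (‖a k‖ * r ^ dg k) * (1 / (1 - s)) := by gcongr
      _ = _ := by ring
  have hb := hf.of_coef (b := dcoef v a) (r' := r * s) (by positivity) hrs hle
  refine ⟨hb.sum, hb.le, fun p x => ?_⟩
  obtain ⟨h1, h2⟩ := hf.hasFDerivAt hr p x
  rw [h1.fderiv]
  have h3 : HasSum (fun k => (a k p • dch k x) v) ((∑' k, a k p • dch k x) v) :=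
    h2.hasSum.map (ContinuousLinearMap.apply ℝ ℂ v) (ContinuousLinearMap.apply ℝ ℂ v).continuous
  convert h3 using 2 with k
  simp only [dcoef, ContinuousMap.smul_apply, smul_eq_mul, _root_.smul_apply,
    dch_apply]
  ring

/-- multiplication by a family of continuous functions -/
lemma BC.mult {r r' M C : ℝ} {a : ℤ × ℤ → C(P, ℂ)} {f : P → ℝ × ℝ → ℂ} (hf : BC r M a f)
    (m : ℤ × ℤ → C(P, ℂ)) (hC : 0 ≤ C) (hr' : 1 ≤ r')
    (hm : ∀ k, ‖m k‖ * r' ^ dg k ≤ C * r ^ dg k) :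
    BC r' (C * M) (fun k => m k * a k) (fun p x => ∑' k : ℤ × ℤ, (m k * a k) p * ch k x) := by
  refine hf.of_coef hC hr' (fun k => ?_)
  have h1 := norm_mul_le (m k) (a k)
  calc ‖m k * a k‖ * r' ^ dg k ≤ ‖m k‖ * ‖a k‖ * r' ^ dg k := by gcongr
    _ = (‖m k‖ * r' ^ dg k) * ‖a k‖ := by ring
    _ ≤ (C * r ^ dg k) * ‖a k‖ := by
        have := hm k
        gcongr
    _ = _ := by ring

/-- The cohomological equation with small divisors (complex version). -/
lemma BC.solve0 {r M G : ℝ} {ω : ℝ × ℝ} {a : ℤ × ℤ → C(P, ℂ)} {f : P → ℝ × ℝ → ℂ}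
    (hf : BC r M a f) (hr : 1 < r) (hG : 0 ≤ G)
    (hdiv : ∀ k : ℤ × ℤ, k ≠ 0 → 1 ≤ G * dg k * |dot k ω|) :
    ∃ (g : P → ℝ × ℝ → ℂ) (b : ℤ × ℤ → C(P, ℂ)),
      (∀ p x, fderiv ℝ (g p) x ω = f p x - a 0 p) ∧ (∀ p, Differentiable ℝ (g p)) ∧
      ∀ s, 0 < s → s < 1 → 1 ≤ r * s → BC (r * s) (G / (1 - s) * M) b g := by
  have hr0 : 0 < r := by linarith
  have hne : ∀ k : ℤ × ℤ, k ≠ 0 → dot k ω ≠ 0 := by
    intro k hk h0
    have := hdiv k hk
    rw [h0, abs_zero, mul_zero] at this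
    linarith
  let m : ℤ × ℤ → C(P, ℂ) := fun k => if k = 0 then 0 else
    ContinuousMap.const P ((Complex.I * (dot k ω : ℝ))⁻¹)
  have hmn : ∀ k, ‖m k‖ ≤ G * dg k := by
    intro k
    by_cases hk : k = 0
    · simp only [m, hk, if_true, norm_zero]
      simp [dg]
    · simp only [m, hk, if_false]
      rw [ContinuousMap.norm_le _ (by positivity)]
      intro p
      rw [ContinuousMap.const_apply, norm_inv, norm_mul, Complex.norm_I, one_mul,
        Complex.norm_real, Real.norm_eq_abs]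
      have hpos : 0 < |dot k ω| := abs_pos.mpr (hne k hk)
      rw [inv_le_iff_one_le_mul₀ hpos]
      exact hdiv k hk
  have key : ∀ s, 0 < s → s < 1 → 1 ≤ r * s → BC (r * s) (G / (1 - s) * M) (fun k => m k * a k)
      (fun p x => ∑' k : ℤ × ℤ, (m k * a k) p * ch k x) := by
    intro s hs0 hs1 hrs
    have h1s : 0 < 1 - s := by linarith
    refine hf.mult m (by positivity) hrs (fun k => ?_)
    have h2 := nat_mul_pow_le hs0.le hs1 (dg k)
    calc ‖m k‖ * (r * s) ^ dg k ≤ (G * dg k) * (r * s) ^ dg k := by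
          have := hmn k
          gcongr
      _ = G * r ^ dg k * (dg k * s ^ dg k) := by rw [mul_pow]; ring
      _ ≤ G * r ^ dg k * (1 / (1 - s)) := by gcongr
      _ = _ := by ring
  refine ⟨fun p x => ∑' k : ℤ × ℤ, (m k * a k) p * ch k x, fun k => m k * a k, ?_, ?_, key⟩
  · -- the equation
    intro p x
    obtain ⟨s, hs⟩ : ∃ s : ℝ, s = (1 + 1 / r) / 2 := ⟨_, rfl⟩
    have hx1 : 1 / r < 1 := by rw [div_lt_one hr0]; exact hr
    have hx0 : 0 < 1 / r := by positivity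
    have hs0 : 0 < s := by rw [hs]; linarith
    have hs1 : s < 1 := by rw [hs]; linarith
    have hrs : 1 < r * s := by
      have : r * s = (r + 1) / 2 := by rw [hs]; field_simp
      rw [this]; linarith
    have h1 := key s hs0 hs1 hrs.le
    have hs' : 0 < 1 / (r * s) := by positivity
    have h2 := h1.fder (s := 1 / (r * s)) hs' (by rw [div_lt_one (by linarith)]; exact hrs)
      (by rw [mul_one_div, div_self (by linarith : r * s ≠ 0)]) ω
    have h3 := h2.rep p x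
    have h4 : HasSum (fun k : ℤ × ℤ => (if k = 0 then 0 else a k p * ch k x)) (f p x - a 0 p) := by
      have h5 := hf.rep p x
      have h6 := hasSum_single (f := fun k : ℤ × ℤ => if k = 0 then a 0 p else 0) 0
        (by intro k hk; simp [hk])
      have h7 := h5.sub h6
      simp only [if_true] at h7
      have e : (fun k : ℤ × ℤ => (if k = 0 then 0 else a k p * ch k x))
          = fun b => a b p * ch b x - if b = 0 then a 0 p else 0 := by
        funext k
        by_cases hk : k = 0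
        · subst hk; simp [ch_zero]
        · simp [hk]
      rw [e]; exact h7
    refine h3.unique ?_
    convert h4 using 2 with k
    by_cases hk : k = 0
    · subst hk; simp [dcoef, dot]
    · have hne' : (Complex.I * (dot k ω : ℝ) : ℂ) ≠ 0 := by
        apply mul_ne_zero Complex.I_ne_zero
        exact_mod_cast hne k hk
      simp only [dcoef, m, hk, if_false, ContinuousMap.smul_apply, ContinuousMap.mul_apply,
        ContinuousMap.const_apply, smul_eq_mul]
      rw [← mul_assoc, mul_inv_cancel₀ hne', one_mul]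
  · intro p x
    obtain ⟨s, hs⟩ : ∃ s : ℝ, s = (1 + 1 / r) / 2 := ⟨_, rfl⟩
    have hx1 : 1 / r < 1 := by rw [div_lt_one hr0]; exact hr
    have hx0 : 0 < 1 / r := by positivity
    have hs0 : 0 < s := by rw [hs]; linarith
    have hs1 : s < 1 := by rw [hs]; linarith
    have hrs : 1 < r * s := by
      have : r * s = (r + 1) / 2 := by rw [hs]; field_simp
      rw [this]; linarith
    exact ((key s hs0 hs1 hrs.le).hasFDerivAt hrs p x).1.differentiableAt

/-- The cohomological equation without small divisors (complex version). -/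
lemma BC.solve1 {r M δ : ℝ} {ω : ℝ × ℝ} {a : ℤ × ℤ → C(P, ℂ)} {f : P → ℝ × ℝ → ℂ}
    (hf : BC r M a f) (hr : 1 < r) (d : C(P, ℝ)) (hδ : 0 < δ) (hd : ∀ p, δ ≤ |d p|) :
    ∃ (g : P → ℝ × ℝ → ℂ) (b : ℤ × ℤ → C(P, ℂ)),
      (∀ p x, fderiv ℝ (g p) x ω + d p * g p x = f p x) ∧ (∀ p, Differentiable ℝ (g p)) ∧
      BC r (1 / δ * M) b g := by
  have hr0 : 0 < r := by linarith
  have hz : ∀ k p, (Complex.I * (dot k ω : ℝ) + (d p : ℝ) : ℂ) ≠ 0 := by
    intro k p h
    have h1 := congrArg Complex.re h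
    simp at h1
    have h2 := hd p
    rw [h1, abs_zero] at h2
    linarith
  let m : ℤ × ℤ → C(P, ℂ) := fun k =>
    ⟨fun p => (Complex.I * (dot k ω : ℝ) + (d p : ℝ) : ℂ)⁻¹, by
      refine Continuous.inv₀ ?_ (hz k)
      exact continuous_const.add (Complex.continuous_ofReal.comp d.continuous)⟩
  have hm : ∀ k p, m k p = (Complex.I * (dot k ω : ℝ) + (d p : ℝ) : ℂ)⁻¹ := fun k p => rfl
  have hmn : ∀ k, ‖m k‖ ≤ 1 / δ := by
    intro k
    rw [ContinuousMap.norm_le _ (by positivity)]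
    intro p
    rw [hm, norm_inv]
    have h1 : δ ≤ ‖(Complex.I * (dot k ω : ℝ) + (d p : ℝ) : ℂ)‖ := by
      have h2 := Complex.abs_re_le_norm (Complex.I * (dot k ω : ℝ) + (d p : ℝ) : ℂ)
      simp at h2
      exact (hd p).trans h2
    rw [one_div]
    exact inv_anti₀ hδ h1
  have key : BC r (1 / δ * M) (fun k => m k * a k)
      (fun p x => ∑' k : ℤ × ℤ, (m k * a k) p * ch k x) := by
    refine hf.mult m (by positivity) hr.le (fun k => ?_)
    have := hmn k
    gcongr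
  refine ⟨fun p x => ∑' k : ℤ × ℤ, (m k * a k) p * ch k x, fun k => m k * a k, ?_, ?_, key⟩
  · intro p x
    have h2 := key.fder (s := 1 / r) (by positivity) (by rw [div_lt_one (by linarith)]; exact hr)
      (by rw [mul_one_div, div_self (by linarith : r ≠ 0)]) ω
    have h3 := (h2.rep p x).add ((key.rep p x).mul_left (d p : ℂ))
    refine h3.unique ?_
    convert hf.rep p x using 2 with k
    simp only [dcoef, ContinuousMap.smul_apply, ContinuousMap.mul_apply, smul_eq_mul, hm]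
    have := hz k p
    field_simp
  · intro p x
    exact (key.hasFDerivAt hr p x).1.differentiableAt

end Run7.h800
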