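import Pool.Agent.Run7.h800.WieD

set_option autoImplicit false

/-!
# Real functions on the torus
-/

namespace Run7.h800

open Filter Topology

variable {P : Type*} [TopologicalSpace P] [CompactSpace P]

/-- A real function on the torus whose weighted Fourier norm at radius `r` is at most `M`. -/
def B (r M : ℝ) (f : P → ℝ × ℝ → ℝ) : Prop := ∃ a, BC r M a (fun p x => (f p x : ℂ))

/-- directional derivative -/
noncomputable def pd (v : ℝ × ℝ) (f : P → ℝ × ℝ → ℝ) : P → ℝ × ℝ → ℝ :=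
  fun p x => fderiv ℝ (f p) x v

/-- complexification of a real continuous function -/
noncomputable def cx (c : C(P, ℝ)) : C(P, ℂ) :=
  ⟨fun p => (c p : ℂ), Complex.continuous_ofReal.comp c.continuous⟩

lemma cx_apply (c : C(P, ℝ)) (p : P) : cx c p = (c p : ℂ) := rfl

lemma norm_cx_le (c : C(P, ℝ)) : ‖cx c‖ ≤ ‖c‖ := by
  rw [ContinuousMap.norm_le _ (norm_nonneg _)]
  intro p
  rw [cx_apply, Complex.norm_real]
  exact c.norm_coe_le_norm p

/-- real part of a continuous function -/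
noncomputable def rx (c : C(P, ℂ)) : C(P, ℝ) :=
  ⟨fun p => (c p).re, Complex.continuous_re.comp c.continuous⟩

lemma rx_apply (c : C(P, ℂ)) (p : P) : rx c p = (c p).re := rfl

lemma norm_rx_le (c : C(P, ℂ)) : ‖rx c‖ ≤ ‖c‖ := by
  rw [ContinuousMap.norm_le _ (norm_nonneg _)]
  intro p
  rw [rx_apply]
  exact (Complex.abs_re_le_norm _).trans (c.norm_coe_le_norm p)

lemma B.nonneg {r M : ℝ} {f : P → ℝ × ℝ → ℝ} (h : B r M f) (hr : 0 ≤ r) : 0 ≤ M := by
  obtain ⟨a, h⟩ := h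
  exact h.nonneg hr

lemma B.mono {r r' M M' : ℝ} {f : P → ℝ × ℝ → ℝ} (h : B r M f) (hr' : 0 ≤ r') (hr : r' ≤ r)
    (hM : M ≤ M') : B r' M' f := by
  obtain ⟨a, h⟩ := h
  exact ⟨a, h.mono hr' hr hM⟩

lemma B.norm_le {r M : ℝ} {f : P → ℝ × ℝ → ℝ} (h : B r M f) (hr : 1 ≤ r) (p : P) (x : ℝ × ℝ) :
    |f p x| ≤ M := by
  obtain ⟨a, h⟩ := h
  have := h.norm_le hr p x
  rwa [Complex.norm_real, Real.norm_eq_abs] at this

lemma B.congr {r M : ℝ} {f g : P → ℝ × ℝ → ℝ} (h : B r M f) (e : ∀ p x, f p x = g p x) :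
    B r M g := by
  have : f = g := by funext p x; exact e p x
  rwa [this] at h

lemma B.add {r M N : ℝ} {f g : P → ℝ × ℝ → ℝ} (hf : B r M f) (hg : B r N g) (hr : 0 ≤ r) :
    B r (M + N) (fun p x => f p x + g p x) := by
  obtain ⟨a, ha⟩ := hf
  obtain ⟨b, hb⟩ := hg
  refine ⟨fun k => a k + b k, ?_⟩
  have := ha.add hr hb
  simpa using this

lemma B.mul {r M N : ℝ} {f g : P → ℝ × ℝ → ℝ} (hf : B r M f) (hg : B r N g) (hr : 1 ≤ r) :
    B r (M * N) (fun p x => f p x * g p x) := by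
  obtain ⟨a, ha⟩ := hf
  obtain ⟨b, hb⟩ := hg
  refine ⟨fun n => ∑' j, a j * b (n - j), ?_⟩
  have := ha.mul hr hb
  simpa using this

lemma B.cmul {r M : ℝ} {f : P → ℝ × ℝ → ℝ} (c : C(P, ℝ)) (hf : B r M f) (hr : 0 ≤ r) :
    B r (‖c‖ * M) (fun p x => c p * f p x) := by
  have hM := hf.nonneg hr
  obtain ⟨a, ha⟩ := hf
  refine ⟨fun k => cx c * a k, ?_⟩
  have h1 := (ha.const_mul hr (cx c)).mono hr le_rfl (M' := ‖c‖ * M) (by
    have := norm_cx_le c
    gcongr)
  simpa [cx_apply] using h1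

lemma B.smul {r M : ℝ} {f : P → ℝ × ℝ → ℝ} (c : ℝ) (hf : B r M f) (hr : 0 ≤ r) :
    B r (|c| * M) (fun p x => c * f p x) := by
  have h1 := hf.cmul (ContinuousMap.const P c) hr
  have hM := hf.nonneg hr
  refine h1.mono hr le_rfl ?_
  have : ‖ContinuousMap.const P c‖ ≤ |c| := by
    rw [ContinuousMap.norm_le _ (abs_nonneg _)]
    intro p; simp
  gcongr

lemma B.const {r : ℝ} (c : C(P, ℝ)) : B r ‖c‖ (fun p _ => c p) := by
  refine ⟨fun k => if k = 0 then cx c else 0, ?_⟩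
  have h1 := BC.const (r := r) (cx c)
  refine ⟨h1.sum, h1.le.trans (norm_cx_le c), ?_⟩
  intro p x
  have := h1.rep p x
  simpa [cx_apply] using this

lemma B.rconst {r : ℝ} (c : ℝ) : B (P := P) r |c| (fun _ _ => c) := by
  have h1 := B.const (P := P) (r := r) (ContinuousMap.const P c)
  obtain ⟨a, ha⟩ := h1
  refine ⟨a, ha.sum, ha.le.trans ?_, ha.rep⟩
  rw [ContinuousMap.norm_le _ (abs_nonneg _)]
  intro p; simp

lemma B.zero {r : ℝ} : B (P := P) r 0 (fun _ _ => 0) := by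
  have := B.rconst (P := P) (r := r) 0
  simpa using this

lemma B.neg {r M : ℝ} {f : P → ℝ × ℝ → ℝ} (hf : B r M f) (hr : 0 ≤ r) :
    B r M (fun p x => -f p x) := by
  have := hf.smul (-1) hr
  simpa using this

lemma B.sub {r M N : ℝ} {f g : P → ℝ × ℝ → ℝ} (hf : B r M f) (hg : B r N g) (hr : 0 ≤ r) :
    B r (M + N) (fun p x => f p x - g p x) := by
  have := hf.add (hg.neg hr) hr
  simpa [sub_eq_add_neg] using this

lemma B.refl {r M : ℝ} {f : P → ℝ × ℝ → ℝ} (hf : B r M f) : B r M (fun p x => f p (-x)) := by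
  obtain ⟨a, ha⟩ := hf
  exact ⟨_, ha.refl⟩

lemma B.sum {ι : Type*} (s : Finset ι) {r : ℝ} {M : ι → ℝ} {f : ι → P → ℝ × ℝ → ℝ}
    (h : ∀ i ∈ s, B r (M i) (f i)) (hr : 0 ≤ r) :
    B r (∑ i ∈ s, M i) (fun p x => ∑ i ∈ s, f i p x) := by
  classical
  induction s using Finset.induction_on with
  | empty => simpa using B.zero
  | insert a s ha ih =>
    have h1 := (h a (Finset.mem_insert_self _ _)).add
      (ih (fun i hi => h i (Finset.mem_insert_of_mem hi))) hr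
    rw [Finset.sum_insert ha]
    refine h1.congr (fun p x => ?_)
    rw [Finset.sum_insert ha]

lemma B.tsum {r : ℝ} (hr : 1 ≤ r) {M : ℕ → ℝ} {f : ℕ → P → ℝ × ℝ → ℝ} (hM : Summable M)
    (h : ∀ n, B r (M n) (f n)) : B r (∑' n, M n) (fun p x => ∑' n, f n p x) := by
  choose a ha using h
  refine ⟨fun k => ∑' n, a n k, ?_⟩
  have := BC.tsum hr hM ha
  simpa [Complex.ofReal_tsum] using this

lemma B.diff {r M : ℝ} {f : P → ℝ × ℝ → ℝ} (hf : B r M f) (hr : 1 < r) (p : P) :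
    Differentiable ℝ (f p) := by
  obtain ⟨a, ha⟩ := hf
  intro x
  have h1 := (ha.hasFDerivAt hr p x).1.differentiableAt
  have h2 : f p = fun x => Complex.reCLM ((f p x : ℂ)) := by funext y; simp
  rw [h2]
  exact Complex.reCLM.differentiableAt.comp x h1

lemma ofReal_pd {f : P → ℝ × ℝ → ℝ} {p : P} {x : ℝ × ℝ} (h : DifferentiableAt ℝ (f p) x)
    (v : ℝ × ℝ) : fderiv ℝ (fun x => (f p x : ℂ)) x v = ((pd v f p x : ℝ) : ℂ) := by
  have h1 : HasFDerivAt (fun x => Complex.ofRealCLM (f p x)) (Complex.ofRealCLM.comp (fderiv ℝ (f p) x)) x :=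
    Complex.ofRealCLM.hasFDerivAt.comp x h.hasFDerivAt
  have h2 : HasFDerivAt (fun x => ((f p x : ℝ) : ℂ)) (Complex.ofRealCLM.comp (fderiv ℝ (f p) x)) x := h1
  rw [h2.fderiv]
  rfl

lemma B.pd {r M s : ℝ} {f : P → ℝ × ℝ → ℝ} (hf : B r M f) (hs0 : 0 < s) (hs1 : s < 1)
    (hrs : 1 ≤ r * s) (v : ℝ × ℝ) : B (r * s) (‖v‖ / (1 - s) * M) (pd v f) := by
  have hr : 1 < r := by
    by_contra h
    push Not at h
    have : r * s < 1 := by
      rcases le_or_gt r 0 with h0 | h0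
      · nlinarith
      · nlinarith
    linarith
  have hd := hf.diff hr
  obtain ⟨a, ha⟩ := hf
  refine ⟨dcoef v a, ?_⟩
  have h1 := ha.fder hs0 hs1 hrs v
  have e : (fun p x => fderiv ℝ (fun x => (f p x : ℂ)) x v) = fun p x => ((h800.pd v f p x : ℝ) : ℂ) := by
    funext p x
    exact ofReal_pd (hd p x) v
  rw [e] at h1
  exact h1

lemma pd_add {f g : P → ℝ × ℝ → ℝ} {p : P} {x : ℝ × ℝ} (hf : DifferentiableAt ℝ (f p) x)
    (hg : DifferentiableAt ℝ (g p) x) (v : ℝ × ℝ) :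
    pd v (fun p x => f p x + g p x) p x = pd v f p x + pd v g p x := by
  have := (hf.hasFDerivAt.add hg.hasFDerivAt).fderiv
  unfold pd
  change fderiv ℝ (f p + g p) x v = _
  rw [this]; rfl

lemma pd_sub {f g : P → ℝ × ℝ → ℝ} {p : P} {x : ℝ × ℝ} (hf : DifferentiableAt ℝ (f p) x)
    (hg : DifferentiableAt ℝ (g p) x) (v : ℝ × ℝ) :
    pd v (fun p x => f p x - g p x) p x = pd v f p x - pd v g p x := by
  have := (hf.hasFDerivAt.sub hg.hasFDerivAt).fderiv
  unfold pd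
  change fderiv ℝ (f p - g p) x v = _
  rw [this]; rfl

lemma pd_mul {f g : P → ℝ × ℝ → ℝ} {p : P} {x : ℝ × ℝ} (hf : DifferentiableAt ℝ (f p) x)
    (hg : DifferentiableAt ℝ (g p) x) (v : ℝ × ℝ) :
    pd v (fun p x => f p x * g p x) p x = pd v f p x * g p x + f p x * pd v g p x := by
  have := (hf.hasFDerivAt.mul hg.hasFDerivAt).fderiv
  unfold pd
  change fderiv ℝ (f p * g p) x v = _
  rw [this]
  simp only [_root_.add_apply, _root_.smul_apply, smul_eq_mul]
  ring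

lemma pd_const (c : P → ℝ) (v : ℝ × ℝ) (p : P) (x : ℝ × ℝ) : pd v (fun p _ => c p) p x = 0 := by
  unfold pd; simp

lemma pd_cmul {f : P → ℝ × ℝ → ℝ} {p : P} {x : ℝ × ℝ} (hf : DifferentiableAt ℝ (f p) x)
    (c : P → ℝ) (v : ℝ × ℝ) : pd v (fun p x => c p * f p x) p x = c p * pd v f p x := by
  rw [pd_mul (f := fun p _ => c p) (differentiableAt_const _) hf, pd_const]; ring

lemma pd_neg (f : P → ℝ × ℝ → ℝ) (v : ℝ × ℝ) (p : P) (x : ℝ × ℝ) :
    pd v (fun p x => -f p x) p x = -pd v f p x := by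
  unfold pd
  change fderiv ℝ (-(f p)) x v = _
  rw [fderiv_neg]; rfl

lemma pd_refl {f : P → ℝ × ℝ → ℝ} {p : P} {x : ℝ × ℝ} (hf : DifferentiableAt ℝ (f p) (-x))
    (v : ℝ × ℝ) : pd v (fun p x => f p (-x)) p x = -pd v f p (-x) := by
  have h1 : HasFDerivAt (fun x : ℝ × ℝ => -x) (-(ContinuousLinearMap.id ℝ (ℝ × ℝ))) x :=
    (hasFDerivAt_id x).neg
  have h2 := (hf.hasFDerivAt.comp x h1).fderiv
  unfold pd
  change fderiv ℝ (f p ∘ fun x => -x) x v = _
  rw [h2]
  simp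

lemma pd_sum {ι : Type*} (s : Finset ι) {f : ι → P → ℝ × ℝ → ℝ} {p : P} {x : ℝ × ℝ}
    (hf : ∀ i ∈ s, DifferentiableAt ℝ (f i p) x) (v : ℝ × ℝ) :
    pd v (fun p x => ∑ i ∈ s, f i p x) p x = ∑ i ∈ s, pd v (f i) p x := by
  unfold pd
  have := (HasFDerivAt.fun_sum (fun i hi => (hf i hi).hasFDerivAt)).fderiv
  rw [this]
  simp

/-- mixed derivatives commute -/
lemma pd_comm {r M : ℝ} {f : P → ℝ × ℝ → ℝ} (hf : B r M f) (hr : 1 < r) (v w : ℝ × ℝ) (p : P)
    (x : ℝ × ℝ) : pd v (pd w f) p x = pd w (pd v f) p x := by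
  have hr0 : 0 < r := by linarith
  obtain ⟨s, hs⟩ : ∃ s : ℝ, s = (1 + 1 / r) / 2 := ⟨_, rfl⟩
  have hx1 : 1 / r < 1 := by rw [div_lt_one hr0]; exact hr
  have hx0 : 0 < 1 / r := by positivity
  have hs0 : 0 < s := by rw [hs]; linarith
  have hs1 : s < 1 := by rw [hs]; linarith
  have hrs : 1 < r * s := by
    have : r * s = (r + 1) / 2 := by rw [hs]; field_simp
    rw [this]; linarith
  have hd := hf.diff hr
  obtain ⟨a, ha⟩ := hf
  have key : ∀ v w : ℝ × ℝ, HasSum (fun k => (dcoef v (dcoef w a) k) p * ch k x)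
      ((pd v (pd w f) p x : ℝ) : ℂ) := by
    intro v w
    have h1 := ha.fder hs0 hs1 hrs.le w
    have e : (fun p x => fderiv ℝ (fun x => (f p x : ℂ)) x w)
        = fun p x => ((h800.pd w f p x : ℝ) : ℂ) := by
      funext p x
      exact ofReal_pd (hd p x) w
    rw [e] at h1
    have hB : B (r * s) (‖w‖ / (1 - s) * M) (h800.pd w f) := ⟨_, h1⟩
    have hd2 := hB.diff hrs
    have h2 := h1.fder (s := 1 / (r * s)) (by positivity)
      (by rw [div_lt_one (by linarith)]; exact hrs)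
      (by rw [mul_one_div, div_self (by linarith : r * s ≠ 0)]) v
    have h3 := h2.rep p x
    have e3 := ofReal_pd (f := h800.pd w f) (hd2 p x) v
    exact e3 ▸ h3
  have h1 := key v w
  have h2 := key w v
  have e : (fun k => (dcoef v (dcoef w a) k) p * ch k x) = fun k => (dcoef w (dcoef v a) k) p * ch k x := by
    funext k
    simp only [dcoef, ContinuousMap.smul_apply, smul_eq_mul]
    ring
  rw [e] at h1
  exact_mod_cast h1.unique h2

/-- Diophantine frequency vectors -/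
structure Dio (G : ℝ) (ω : ℝ × ℝ) : Prop where
  nonneg : 0 ≤ G
  div : ∀ k : ℤ × ℤ, k ≠ 0 → 1 ≤ G * dg k * |dot k ω|

lemma re_part {r M : ℝ} {b : ℤ × ℤ → C(P, ℂ)} {g : P → ℝ × ℝ → ℂ} (h : BC r M b g) (hr : 0 ≤ r) :
    B r M (fun p x => (g p x).re) := by
  have h1 := (h.add hr h.conj).const_mul hr (ContinuousMap.const P (1 / 2 : ℂ))
  have hn : ‖ContinuousMap.const P (1 / 2 : ℂ)‖ ≤ 1 / 2 := by
    rw [ContinuousMap.norm_le _ (by norm_num)]
    intro p; simp
  have hM := h.nonneg hr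
  have h2 := h1.mono hr le_rfl (M' := M) (by nlinarith)
  refine ⟨_, h2.sum, h2.le, ?_⟩
  intro p x
  have h3 := h2.rep p x
  convert h3 using 1
  rw [ContinuousMap.const_apply, Complex.add_conj]
  push_cast; ring

/-- The cohomological equation, real version. -/
theorem solve {r M G δ H : ℝ} {ω : ℝ × ℝ} (hω : Dio G ω) (hr : 1 < r) {f : P → ℝ × ℝ → ℝ}
    (hf : B r M f) (d : C(P, ℝ)) (hδ : 0 < δ) (hd : d = 0 ∨ ∀ p, δ ≤ |d p|) (hH : G ≤ H)
    (hH' : 1 / δ ≤ H) :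
    ∃ (c : C(P, ℝ)) (g : P → ℝ × ℝ → ℝ), ‖c‖ ≤ M ∧ (d ≠ 0 → c = 0) ∧
      (∀ p x, pd ω g p x + d p * g p x = f p x + c p) ∧
      (∀ s, 0 < s → s < 1 → 1 ≤ r * s → B (r * s) (H / (1 - s) * M) g) := by
  have hr0 : 0 ≤ r := by linarith
  have hM := hf.nonneg hr0
  obtain ⟨a, ha⟩ := hf
  have hre : ∀ (g : P → ℝ × ℝ → ℂ) (p : P) (x : ℝ × ℝ), DifferentiableAt ℝ (g p) x →
      pd ω (fun p x => (g p x).re) p x = (fderiv ℝ (g p) x ω).re := by
    intro g p x h
    have h1 : HasFDerivAt (fun x => Complex.reCLM (g p x)) (Complex.reCLM.comp (fderiv ℝ (g p) x)) x :=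
      Complex.reCLM.hasFDerivAt.comp x h.hasFDerivAt
    have h2 : HasFDerivAt (fun x => (g p x).re) (Complex.reCLM.comp (fderiv ℝ (g p) x)) x := h1
    unfold pd
    rw [h2.fderiv]
    rfl
  have hM0 : ∀ s : ℝ, 0 < s → s < 1 → M ≤ 1 / (1 - s) * M := by
    intro s hs0 hs1
    have : 1 ≤ 1 / (1 - s) := by
      rw [le_div_iff₀ (by linarith)]; linarith
    nlinarith
  by_cases hd0 : d = 0
  · obtain ⟨g, b, h1, h2, h3⟩ := ha.solve0 hr hω.nonneg hω.div
    have hc0 : ‖a 0‖ ≤ M := by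
      have h5 := ha.sum.le_tsum (0 : ℤ × ℤ) (fun k _ => by positivity)
      have h6 : dg 0 = 0 := by simp [dg]
      rw [h6, pow_zero, mul_one] at h5
      exact h5.trans ha.le
    refine ⟨-rx (a 0), fun p x => (g p x).re, ?_, fun h => absurd hd0 h, ?_, ?_⟩
    · rw [norm_neg]
      exact (norm_rx_le _).trans hc0
    · intro p x
      rw [hre g p x (h2 p x), h1 p x, hd0]
      simp [rx_apply]
      ring
    · intro s hs0 hs1 hrs
      have h5 := re_part (h3 s hs0 hs1 hrs) (by linarith)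
      refine h5.mono (by linarith) le_rfl ?_
      have : 0 < 1 - s := by linarith
      gcongr
  · have hd' : ∀ p, δ ≤ |d p| := hd.resolve_left hd0
    obtain ⟨g, b, h1, h2, h3⟩ := ha.solve1 (ω := ω) hr d hδ hd'
    refine ⟨0, fun p x => (g p x).re, by simpa using hM, fun _ => rfl, ?_, ?_⟩
    · intro p x
      rw [hre g p x (h2 p x)]
      have := congrArg Complex.re (h1 p x)
      simp at this
      simpa using this
    · intro s hs0 hs1 hrs
      have h5 := re_part h3 (by linarith)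
      have hrs' : r * s ≤ r := by nlinarith
      refine h5.mono (by linarith) hrs' ?_
      have h6 := hM0 s hs0 hs1
      have h7 : 0 < 1 - s := by linarith
      have h8 : 0 ≤ 1 / δ := by positivity
      have h9 : 0 ≤ H := h8.trans hH'
      calc 1 / δ * M ≤ H * M := by gcongr
        _ ≤ H * (1 / (1 - s) * M) := by gcongr
        _ = _ := by ring

/-- `f` has mean `c`: it is `c` plus the derivative along the flow of a bounded function -/
def Mn (ω : ℝ × ℝ) (f : P → ℝ × ℝ → ℝ) (c : P → ℝ) : Prop :=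
  ∃ h : P → ℝ × ℝ → ℝ, (∀ p, Differentiable ℝ (h p)) ∧ (∃ C : ℝ, ∀ p x, |h p x| ≤ C) ∧
    ∀ p x, f p x = c p + pd ω h p x

lemma Mn.unique {ω : ℝ × ℝ} {f : P → ℝ × ℝ → ℝ} {c c' : P → ℝ} (h : Mn ω f c)
    (h' : Mn ω f c') (p : P) : c p = c' p := by
  obtain ⟨g, g1, ⟨C, g2⟩, g3⟩ := h
  obtain ⟨g', g1', ⟨C', g2'⟩, g3'⟩ := h'
  by_contra hne
  -- the function along the line
  set F : ℝ → ℝ := fun t => g' p (t • ω) - g p (t • ω) - (c p - c' p) * t with hF
  have hline : ∀ t : ℝ, HasDerivAt (fun t : ℝ => t • ω) ω t := fun t => by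
    simpa using (hasDerivAt_id t).smul_const ω
  have hder : ∀ t, HasDerivAt F 0 t := by
    intro t
    have a1 := ((g1' p) (t • ω)).hasFDerivAt.comp_hasDerivAt t (hline t)
    have a2 := ((g1 p) (t • ω)).hasFDerivAt.comp_hasDerivAt t (hline t)
    have a3 := ((a1.sub a2).sub ((hasDerivAt_id t).const_mul (c p - c' p)))
    refine a3.congr_deriv ?_
    have e1 := g3 p (t • ω)
    have e2 := g3' p (t • ω)
    unfold pd at e1 e2
    linarith
  have hconst : ∀ t, F t = F 0 := fun t =>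
    is_const_of_deriv_eq_zero (fun t => (hder t).differentiableAt) (fun t => (hder t).deriv) t 0
  have hb : ∀ t, |c p - c' p| * |t| ≤ 2 * (C + C') := by
    intro t
    have e := hconst t
    simp only [hF, mul_zero, sub_zero] at e
    have e1 : (c p - c' p) * t = g' p (t • ω) - g p (t • ω) - (g' p ((0:ℝ) • ω) - g p ((0:ℝ) • ω)) := by
      linarith
    rw [← abs_mul, e1]
    have b1 := abs_le.mp (g2 p (t • ω))
    have b2 := abs_le.mp (g2' p (t • ω))
    have b3 := abs_le.mp (g2 p ((0:ℝ) • ω))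
    have b4 := abs_le.mp (g2' p ((0:ℝ) • ω))
    rw [abs_le]
    constructor <;> linarith [b1.1, b1.2, b2.1, b2.2, b3.1, b3.2, b4.1, b4.2]
  have hpos : 0 < |c p - c' p| := abs_pos.mpr (sub_ne_zero.mpr hne)
  have hCC : 0 ≤ 2 * (C + C') := by
    have := hb 0
    simpa using this
  have h5 := hb ((2 * (C + C') + 1) / |c p - c' p|)
  have h6 : 0 ≤ (2 * (C + C') + 1) / |c p - c' p| := by
    apply div_nonneg (by linarith) hpos.le
  rw [abs_of_nonneg h6] at h5
  have : |c p - c' p| * ((2 * (C + C') + 1) / |c p - c' p|) = 2 * (C + C') + 1 := by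
    field_simp
  linarith

lemma Mn.add {ω : ℝ × ℝ} {f g : P → ℝ × ℝ → ℝ} {c d : P → ℝ} (hf : Mn ω f c) (hg : Mn ω g d) :
    Mn ω (fun p x => f p x + g p x) (fun p => c p + d p) := by
  obtain ⟨h, h1, ⟨C, h2⟩, h3⟩ := hf
  obtain ⟨k, k1, ⟨D, k2⟩, k3⟩ := hg
  refine ⟨fun p x => h p x + k p x, fun p => (h1 p).add (k1 p), ⟨C + D, fun p x => ?_⟩, ?_⟩
  · exact (abs_add_le _ _).trans (add_le_add (h2 p x) (k2 p x))
  · intro p x
    have e : pd ω (fun p x => h p x + k p x) p x = pd ω h p x + pd ω k p x := by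
      unfold pd
      have := fderiv_add ((h1 p) x) ((k1 p) x)
      change fderiv ℝ (h p + k p) x ω = _
      rw [this]
      rfl
    have e3 := h3 p x
    have e4 := k3 p x
    change f p x + g p x = c p + d p + pd ω (fun p x => h p x + k p x) p x
    rw [e, e3, e4]; ring

lemma Mn.of_solve {r M : ℝ} {ω : ℝ × ℝ} {f g : P → ℝ × ℝ → ℝ} {c : C(P, ℝ)} (hr : 1 < r)
    (hg : B r M g) (h : ∀ p x, pd ω g p x = f p x + c p) : Mn ω f (fun p => -c p) :=
  ⟨g, fun p => hg.diff hr p, ⟨M, fun p x => hg.norm_le hr.le p x⟩, fun p x => by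
    have := h p x
    linarith⟩

end Run7.h800
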